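import Pool.Agent.Helper76.PC.Defs

/-!
MP_c33217_co: statements of the modules (every `ST_X` is a proposition, proved in module X).
-/

namespace Pool.Agent.Helper76.PC

open Finset

/-! ### Contraction -/

/-- no 6-cycle through v and its neighbours a, b -/
def NoHex (G : Gr) (v a b : ℕ) : Prop :=
  ∀ x y z, x ∈ G.N a → x ≠ v → z ∈ G.N b → z ≠ v → x ≠ z → y ∈ G.N x → y ∈ G.N z →
    y ≠ a → y ≠ b → False

/-- neighbourhoods after the contraction of v (b is merged into a) -/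
def contrN (G : Gr) (v a b : ℕ) (x : ℕ) : Finset ℕ :=
  if x = v ∨ x = b then ∅ else if x = a then (G.N a ∪ G.N b).erase v
  else if b ∈ G.N x then insert a ((G.N x).erase b) else G.N x

/-- H is the contraction of G at v -/
def IsContr (G H : Gr) (v a b : ℕ) : Prop :=
  H.V = (G.V.erase v).erase b ∧ ∀ x, H.N x = contrN G v a b x

/-- the contraction exists -/
def ST_CEX : Prop := ∀ (G : Gr) (v a b : ℕ), G.N v = {a, b} → a ≠ b → NoHex G v a b →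
  ∃ H, IsContr G H v a b

/-! ### Perfect matchings -/

/-- expansion at a vertex -/
def ST_EXP : Prop := ∀ (G : Gr) (v : ℕ), v ∈ G.V → P G = ∑ y ∈ G.N v, P (del (del G v) y)

def ST_EMP : Prop := ∀ G : Gr, G.V = ∅ → P G = 1

/-- deletion of an edge -/
def ST_DE : Prop := ∀ (G : Gr) (a b : ℕ), b ∈ G.N a → P G = P (delE G a b) + P (del (del G a) b)

/-- contraction preserves the number of perfect matchings -/
def ST_CP : Prop := ∀ (G H : Gr) (v a b : ℕ), G.N v = {a, b} → a ≠ b → NoHex G v a b →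
  IsContr G H v a b → P G = P H

/-! ### Weights and sizes -/

noncomputable def UU (k : ℕ) : ℝ := Real.exp (- AA - cc * ((k : ℝ) - 1))

def ST_WD : Prop := ∀ (G : Gr) (a b : ℕ), b ∈ G.N a →
  W (del (del G a) b) = W G * UU ((G.N a).card + (G.N b).card) ∧
  size (del (del G a) b) < size G

def ST_WE : Prop := ∀ (G : Gr) (a b : ℕ), b ∈ G.N a →
  W (delE G a b) = W G * Real.exp (- cc) ∧ size (delE G a b) < size G

def ST_WC : Prop := ∀ (G H : Gr) (v a b : ℕ), G.N v = {a, b} → a ≠ b → NoHex G v a b →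
  IsContr G H v a b → W H = W G * Real.exp (- AA - 2 * cc) ∧ size H < size G

/-- numerical constants -/
def ST_NUM : Prop := (∀ k : ℕ, UU k * DD ≤ Uc k) ∧ Real.exp (- cc) * DD ≤ Ec ∧
  Real.exp (- AA - 2 * cc) * DD ≤ Kap

/-! ### Embeddings of configurations -/

structure Emb (G : Gr) (φ : ℕ → ℕ) (f : Bool) (K : Cfg) : Prop where
  memV : ∀ r ∈ K, φ r.id ∈ G.V
  sd : ∀ r ∈ K, side (φ r.id) = xor f r.sd
  lo : ∀ r ∈ K, r.lo ≤ (G.N (φ r.id)).card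
  hi : ∀ r ∈ K, (G.N (φ r.id)).card ≤ r.hi
  nd : ∀ r ∈ K, r.nb.Nodup
  adj : ∀ r ∈ K, ∀ y ∈ r.nb, φ y ∈ G.N (φ r.id)
  cl : ∀ r ∈ K, ∀ y ∈ r.nb, ∃ q ∈ K, q.id = y
  inj : ∀ r ∈ K, ∀ q ∈ K, φ r.id = φ q.id → r.id = q.id

/-- list functions of the checker -/
def ST_LST : Prop :=
  (∀ x l, memB x l = true ↔ x ∈ l) ∧ (∀ l, lenN l = l.length) ∧
  (∀ x y l, y ∈ remv x l ↔ y ∈ l ∧ y ≠ x) ∧ (∀ x l, l.Nodup → (remv x l).Nodup) ∧
  (∀ f l, allB f l = true ↔ ∀ y ∈ l, f y = true) ∧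
  (∀ f l, anyB f l = true ↔ ∃ y ∈ l, f y = true) ∧
  (∀ x K r, getV x K = some r → r ∈ K ∧ r.id = x) ∧
  (∀ x K, getV x K = none → ∀ r ∈ K, r.id ≠ x) ∧
  (∀ l, nodupB l = true ↔ l.Nodup) ∧ (∀ f l, mapL f l = l.map f) ∧
  (∀ K, ids K = K.map Vx.id) ∧ (∀ a n x, x ∈ rangeL a n ↔ a ≤ x ∧ x < a + n)

/-- a record with all neighbours known: the neighbourhood is the image of the list -/
def ST_FULL : Prop := ∀ G φ f K, Emb G φ f K → ∀ r ∈ K,
  (r.nb.map φ).Nodup ∧ r.nb.length ≤ (G.N (φ r.id)).card ∧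
  (full r = true → (G.N (φ r.id)).card = r.hi ∧ r.hi = r.nb.length ∧
    ∀ x, x ∈ G.N (φ r.id) ↔ ∃ y ∈ r.nb, φ y = x)

def ST_EDEL : Prop := ∀ G φ f K, Emb G φ f K → ∀ y ∈ K, Emb (del G (φ y.id)) φ f (delC y K)

def ST_EDE2 : Prop := ∀ G φ f K, Emb G φ f K → ∀ r ∈ K, ∀ y,
  Emb (del (del G (φ r.id)) (φ y)) φ f (del2 r y K)

def ST_EDELE : Prop := ∀ G φ f K, Emb G φ f K → ∀ r ∈ K, ∀ y ∈ r.nb,
  Emb (delE G (φ r.id) (φ y)) φ f (delEC r.id y K)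

def ST_ECON : Prop := ∀ G H φ f K, Emb G φ f K → ∀ rv ∈ K, ∀ ra ∈ K, ∀ rb ∈ K,
  G.N (φ rv.id) = {φ ra.id, φ rb.id} → φ ra.id ≠ φ rb.id →
  NoHex G (φ rv.id) (φ ra.id) (φ rb.id) →
  IsContr G H (φ rv.id) (φ ra.id) (φ rb.id) → Emb H φ f (contrC rv ra rb K)

def ST_NADJ : Prop := ∀ G φ f K, Emb G φ f K → ∀ rx ∈ K, ∀ ry ∈ K,
  nonadjR K rx ry = true → φ ry.id ∉ G.N (φ rx.id)

def ST_NHEX : Prop := ∀ G φ f K, Emb G φ f K → ∀ rv ∈ K, ∀ ra ∈ K, ∀ rb ∈ K,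
  G.N (φ rv.id) = {φ ra.id, φ rb.id} → φ ra.id ≠ φ rb.id →
  noHexA K rv.id ra rb = true → NoHex G (φ rv.id) (φ ra.id) (φ rb.id)

/-! ### Soundness of the certificates -/

def Below (G : Gr) : Prop := ∀ H, size H < size G → Good H

/-- soundness of the evaluation -/
def ST_EV : Prop := ∀ (c : Cert) (K : Cfg) (b : ℕ), ev c K .cfg = some b →
  ∀ G φ f, Emb G φ f K → Below G → (P G : ℝ) * DD ≤ b * W G

/-- the configuration does not occur in a minimal counterexample with all degrees between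
dm and 5 -/
def Ref (dm : ℕ) (K : Cfg) : Prop := ∀ G φ f, Emb G φ f K → Below G →
  (∀ x ∈ G.V, dm ≤ (G.N x).card ∧ (G.N x).card ≤ 5) → Good G

def ST_EMB : Prop := ∀ (R S : Cfg) (mp : List ℕ) (fl : Bool), wfC R R = true →
  embOK R S mp fl = true →
  ∀ G φ f, Emb G φ f S → Emb G (fun x => φ (nthD mp x 0)) (xor f fl) R

/-- one more neighbour -/
def ST_FILL : Prop := ∀ G φ f K, Emb G φ f K → ∀ r ∈ K, r.nb.length < r.lo → ∀ m dm : ℕ,
  getV m K = none → (∀ x ∈ G.V, dm ≤ (G.N x).card ∧ (G.N x).card ≤ 5) →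
  (∃ ψ, Emb G ψ f (joinNew r.id m dm r.sd K)) ∨
  ∃ w ∈ cands K r K, Emb G φ f (joinC r.id w K)

def ST_DEG : Prop := ∀ G φ f K, Emb G φ f K → ∀ r ∈ K,
  ∃ d ∈ rangeL r.lo (r.hi + 1 - r.lo), Emb G φ f (setDeg r.id d K)

def ST_CHK : Prop := ∀ (lib : List Ent) (i : ℕ),
  (∀ j < i, ∀ e, getE j lib = some e → wfC e.K e.K = true ∧ Ref e.dm e.K) →
  ∀ dm p K, chk lib i dm p K .cfg = true → Ref dm K

def ST_CLO : Prop := ∀ s e K, closedOK s e K = true → ∀ dm, Ref dm K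

def ST_ALL : Prop := ∀ lib : List Ent, checkL lib 0 lib = true →
  ∀ i e, getE i lib = some e → wfC e.K e.K = true ∧ Ref e.dm e.K

/-- vertices of degree at least 6 -/
def ST_MAX : Prop := ∀ G, Below G → ∀ x ∈ G.V, 6 ≤ (G.N x).card → Good G

/-- one vertex of degree d -/
def ST_ONE : Prop := ∀ (G : Gr) (x d : ℕ), x ∈ G.V → (G.N x).card = d →
  ∃ φ f, Emb G φ f [⟨0, true, d, d, []⟩]

/-- the main theorem -/
def ST_MAIN : Prop := ∀ G, Good G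

/-- matrices: the graph of a C4-free 0-1 matrix -/
def ST_MAT : Prop := ∀ (n : ℕ) (A : Matrix (Fin n) (Fin n) ℕ), (∀ i j, A i j = 0 ∨ A i j = 1) →
  (∀ i i' j j', i ≠ i' → j ≠ j' → A i j = 1 → A i j' = 1 → A i' j = 1 → A i' j' = 1 → False) →
  ∃ G : Gr, G.V.card = 2 * n ∧
    degSum G = 2 * (univ.filter (fun p : Fin n × Fin n => A p.1 p.2 = 1)).card ∧
    P G = A.permanent

end Pool.Agent.Helper76.PC
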