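import Pool.Agent.Helper76.PC.Data

/-! MP_c33217_co: kernel check of part 5 of the library. -/

namespace Pool.Agent.Helper76.PC

set_option maxRecDepth 100000 in
theorem check5 : checkL dat1 174 part5 = true := by decide +kernel

end Pool.Agent.Helper76.PC
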