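import Pool.Agent.Helper76.PC.C1
import Pool.Agent.Helper76.PC.C2
import Pool.Agent.Helper76.PC.C3
import Pool.Agent.Helper76.PC.C4
import Pool.Agent.Helper76.PC.C5
import Pool.Agent.Helper76.PC.C6
import Pool.Agent.Helper76.PC.C7
import Pool.Agent.Helper76.PC.C8

/-! MP_c33217_co: the whole library passes the check. -/

namespace Pool.Agent.Helper76.PC

theorem check_app (lib : List Ent) : ∀ (l1 l2 : List Ent) (i j : ℕ), j = i + l1.length →
    checkL lib i l1 = true → checkL lib j l2 = true → checkL lib i (l1 ++ l2) = true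
  | [], l2, i, j, hj, _, h2 => by
    simp only [List.length_nil, Nat.add_zero] at hj
    subst hj; exact h2
  | e :: l, l2, i, j, hj, h1, h2 => by
    simp only [checkL, Bool.and_eq_true, List.cons_append] at h1 ⊢
    refine ⟨h1.1, check_app lib l l2 (i + 1) j ?_ h1.2 h2⟩
    rw [hj, List.length_cons]; omega

theorem check_all : checkL dat1 0 dat1 = true := by
  have h : ∀ l, l = dat1 → checkL dat1 0 l = true := by
    intro l hl
    rw [dat1_eq] at hl
    rw [hl]
    refine check_app _ _ _ _ _ rfl check1 ?_
    refine check_app _ _ _ _ _ rfl check2 ?_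
    refine check_app _ _ _ _ _ rfl check3 ?_
    refine check_app _ _ _ _ _ rfl check4 ?_
    refine check_app _ _ _ _ _ rfl check5 ?_
    refine check_app _ _ _ _ _ rfl check6 ?_
    refine check_app _ _ _ _ _ rfl check7 ?_
    exact check8
  exact h _ rfl

end Pool.Agent.Helper76.PC
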