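import Pool.Agent.Helper76.PC.Defs

/-! MP_c33217_co: library of reducible configurations, part 1 (machine generated). -/

namespace Pool.Agent.Helper76.PC

noncomputable def e0 : Ent := ⟨0, [⟨0, true, 0, 0, []⟩], .cert (.vert 0 .nil)⟩

noncomputable def e1 : Ent := ⟨1, [⟨0, true, 1, 1, [1]⟩, ⟨1, false, 1, 5, [0]⟩], .cert (.vert 0 (.cons 1 .nil
  .nil))⟩

noncomputable def e2 : Ent := ⟨1, [⟨0, true, 1, 1, []⟩], .split (.fill 0 1 (.emb 1 false [0, 1]) .nil)⟩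

noncomputable def e3 : Ent := ⟨2, [⟨0, true, 2, 2, [1, 2]⟩, ⟨1, false, 5, 5, [0]⟩, ⟨2, false, 2, 5, [0]⟩],
  .cert (.vert 0 (.cons 1 .nil (.cons 2 .nil .nil)))⟩

noncomputable def e4 : Ent := ⟨2, [⟨0, true, 2, 2, [1, 2]⟩, ⟨1, false, 2, 2, [0, 3]⟩, ⟨2, false, 4, 4, [0, 4,
  5, 6]⟩, ⟨3, true, 2, 5, [1]⟩, ⟨4, true, 2, 5, [2]⟩, ⟨5, true, 2, 5, [2]⟩, ⟨6, true, 2, 5,
  [2]⟩], .cert (.vert 0 (.cons 1 .nil (.cons 2 (.vert 1 (.cons 3 .nil .nil)) .nil)))⟩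

noncomputable def e5 : Ent := ⟨2, [⟨0, true, 2, 2, [1, 2]⟩, ⟨1, false, 2, 2, [0, 3]⟩, ⟨2, false, 2, 2, [0,
  4]⟩, ⟨3, true, 3, 5, [1]⟩, ⟨4, true, 2, 5, [2]⟩], .cert (.vert 0 (.cons 1 (.vert 2 (.cons 4
  .nil .nil)) (.cons 2 (.vert 1 (.cons 3 .nil .nil)) .nil)))⟩

noncomputable def e6 : Ent := ⟨2, [⟨0, true, 2, 2, [1, 2]⟩, ⟨1, false, 2, 2, [0, 3]⟩, ⟨2, false, 2, 2, [0,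
  4]⟩, ⟨3, true, 2, 2, [1, 5]⟩, ⟨4, true, 2, 2, [2, 6]⟩, ⟨5, false, 2, 5, [3]⟩, ⟨6, false, 2, 5,
  [4]⟩], .cert (.contr 0 .nil)⟩

noncomputable def e7 : Ent := ⟨2, [⟨0, true, 2, 2, [1, 2]⟩, ⟨1, false, 2, 2, [0, 3]⟩, ⟨2, false, 2, 2, [0,
  4]⟩, ⟨3, true, 2, 2, [1, 5]⟩, ⟨4, true, 2, 2, [2, 5]⟩, ⟨5, false, 2, 2, [3, 4]⟩], .closed 3 6⟩

noncomputable def e8 : Ent := ⟨2, [⟨0, true, 2, 2, [1, 2]⟩, ⟨1, false, 2, 2, [0, 3]⟩, ⟨2, false, 2, 2, [0,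
  4]⟩, ⟨3, true, 2, 2, [1]⟩, ⟨4, true, 2, 2, [2, 5]⟩, ⟨5, false, 2, 5, [4]⟩], .split (.deg 5
  (.cons 2 (.fill 5 6 (.emb 6 true [2, 0, 4, 1, 5, 3, 6]) (.cons 3 (.emb 7 false [0, 1, 2, 3, 4,
  5]) .nil)) (.cons 3 (.emb 5 true [2, 4, 0, 5, 1]) (.cons 4 (.emb 5 true [2, 4, 0, 5, 1])
  (.cons 5 (.emb 3 false [4, 5, 2]) .nil)))))⟩

noncomputable def e9 : Ent := ⟨2, [⟨0, true, 2, 2, [1, 2]⟩, ⟨1, false, 2, 2, [0, 3]⟩, ⟨2, false, 2, 2, [0,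
  4]⟩, ⟨3, true, 2, 2, [1]⟩, ⟨4, true, 2, 5, [2]⟩], .split (.deg 4 (.cons 2 (.fill 4 5 (.emb 8
  false [0, 1, 2, 3, 4, 5]) .nil) (.cons 3 (.emb 5 false [0, 2, 1, 4, 3]) (.cons 4 (.emb 5 false
  [0, 2, 1, 4, 3]) (.cons 5 (.emb 3 true [2, 4, 0]) .nil)))))⟩

noncomputable def e10 : Ent := ⟨2, [⟨0, true, 2, 2, [1, 2]⟩, ⟨1, false, 2, 2, [0, 3]⟩, ⟨2, false, 2, 2, [0,
  4]⟩, ⟨3, true, 2, 5, [1]⟩, ⟨4, true, 2, 5, [2]⟩], .split (.deg 3 (.cons 2 (.emb 9 false [0, 1,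
  2, 3, 4]) (.cons 3 (.emb 5 false [0, 1, 2, 3, 4]) (.cons 4 (.emb 5 false [0, 1, 2, 3, 4])
  (.cons 5 (.emb 3 true [1, 3, 0]) .nil)))))⟩

noncomputable def e11 : Ent := ⟨2, [⟨0, true, 2, 2, [1, 2]⟩, ⟨1, false, 2, 2, [0, 3]⟩, ⟨2, false, 3, 5, [0]⟩,
  ⟨3, true, 2, 5, [1, 4, 5]⟩, ⟨4, false, 2, 5, [3]⟩, ⟨5, false, 2, 5, [3]⟩], .cert (.vert 0
  (.cons 1 .nil (.cons 2 (.vert 1 (.cons 3 .nil .nil)) .nil)))⟩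

noncomputable def e12 : Ent := ⟨2, [⟨0, true, 2, 2, [1, 2]⟩, ⟨1, false, 2, 2, [0, 3]⟩, ⟨2, false, 3, 5, [0]⟩,
  ⟨3, true, 2, 5, [1]⟩], .split (.deg 3 (.cons 2 (.fill 3 4 (.emb 5 true [1, 0, 3, 2, 4]) .nil)
  (.cons 3 (.fill 3 4 (.fill 3 5 (.emb 11 false [0, 1, 2, 3, 4, 5]) .nil) .nil) (.cons 4 (.fill
  3 4 (.fill 3 5 (.emb 11 false [0, 1, 2, 3, 4, 5]) .nil) .nil) (.cons 5 (.emb 3 true [1, 3, 0])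
  .nil)))))⟩

noncomputable def e13 : Ent := ⟨2, [⟨0, true, 2, 2, [1, 2]⟩, ⟨1, false, 2, 2, [0, 3]⟩, ⟨2, false, 2, 5, [0]⟩,
  ⟨3, true, 2, 5, [1]⟩], .split (.deg 2 (.cons 2 (.fill 2 4 (.emb 10 false [0, 1, 2, 3, 4])
  .nil) (.cons 3 (.emb 12 false [0, 1, 2, 3]) (.cons 4 (.emb 12 false [0, 1, 2, 3]) (.cons 5
  (.emb 3 false [0, 2, 1]) .nil)))))⟩

noncomputable def e14 : Ent := ⟨2, [⟨0, true, 2, 2, [1, 2]⟩, ⟨1, false, 3, 5, [0]⟩, ⟨2, false, 4, 5, [0]⟩],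
  .cert (.vert 0 (.cons 1 .nil (.cons 2 .nil .nil)))⟩

noncomputable def e15 : Ent := ⟨2, [⟨0, true, 2, 2, [1, 2]⟩, ⟨1, false, 3, 5, [0, 3]⟩, ⟨2, false, 3, 5, [0]⟩,
  ⟨3, true, 2, 2, [1, 4]⟩, ⟨4, false, 2, 5, [3]⟩], .cert (.vert 0 (.cons 1 (.vert 3 (.cons 4
  .nil .nil)) (.cons 2 .nil .nil)))⟩

noncomputable def e16 : Ent := ⟨2, [⟨0, true, 2, 2, [1, 2]⟩, ⟨1, false, 2, 3, [0, 3, 4]⟩, ⟨2, false, 2, 5, [0,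
  5, 6]⟩, ⟨3, true, 5, 5, [1]⟩, ⟨4, true, 2, 5, [1]⟩, ⟨5, true, 2, 5, [2]⟩, ⟨6, true, 2, 5,
  [2]⟩], .cert (.vert 1 (.cons 0 .nil (.cons 3 (.vert 0 (.cons 2 .nil .nil)) (.cons 4 (.vert 0
  (.cons 2 .nil .nil)) .nil))))⟩

noncomputable def e17 : Ent := ⟨2, [⟨0, true, 2, 2, [1, 2]⟩, ⟨1, false, 2, 3, [0, 3, 4]⟩, ⟨2, false, 3, 5,
  [0]⟩, ⟨3, true, 3, 3, [1, 5, 6]⟩, ⟨4, true, 4, 4, [1, 7, 8, 9]⟩, ⟨5, false, 2, 5, [3]⟩, ⟨6,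
  false, 2, 5, [3]⟩, ⟨7, false, 2, 5, [4]⟩, ⟨8, false, 2, 5, [4]⟩, ⟨9, false, 2, 5, [4]⟩], .cert
  (.vert 1 (.cons 0 .nil (.cons 3 (.vert 0 (.cons 2 .nil .nil)) (.cons 4 (.vert 0 (.cons 2 .nil
  .nil)) .nil))))⟩

noncomputable def e18 : Ent := ⟨2, [⟨0, true, 2, 2, [1, 2]⟩, ⟨1, false, 3, 3, [0, 3, 4]⟩, ⟨2, false, 3, 3, [0,
  5, 6]⟩, ⟨3, true, 2, 3, [1, 7, 8]⟩, ⟨4, true, 2, 3, [1, 9, 10]⟩, ⟨5, true, 2, 3, [2, 11, 12]⟩,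
  ⟨6, true, 2, 5, [2]⟩, ⟨7, false, 2, 5, [3]⟩, ⟨8, false, 2, 5, [3]⟩, ⟨9, false, 2, 5, [4]⟩,
  ⟨10, false, 2, 5, [4]⟩, ⟨11, false, 2, 5, [5]⟩, ⟨12, false, 2, 5, [5]⟩], .cert (.star 2 (.cons
  0 (.vert 0 (.cons 1 .nil .nil)) (.cons 5 .nil (.cons 6 (.contr 0 .nil) .nil))))⟩

noncomputable def e19 : Ent := ⟨2, [⟨0, true, 2, 2, [1, 2]⟩, ⟨1, false, 3, 3, [0, 3, 4]⟩, ⟨2, false, 3, 3, [0,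
  5, 6]⟩, ⟨3, true, 2, 3, [1, 7, 8]⟩, ⟨4, true, 2, 3, [1, 9, 10]⟩, ⟨5, true, 2, 4, [2, 11, 12,
  13]⟩, ⟨6, true, 2, 5, [2]⟩, ⟨7, false, 2, 5, [3]⟩, ⟨8, false, 2, 5, [3]⟩, ⟨9, false, 2, 5,
  [4]⟩, ⟨10, false, 2, 5, [4]⟩, ⟨11, false, 2, 5, [5]⟩, ⟨12, false, 2, 5, [5]⟩, ⟨13, false, 2,
  5, [5]⟩], .cert (.star 2 (.cons 0 (.vert 0 (.cons 1 .nil .nil)) (.cons 5 .nil (.cons 6 (.contr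
  0 .nil) .nil))))⟩

noncomputable def e20 : Ent := ⟨2, [⟨0, true, 2, 2, [1, 2]⟩, ⟨1, false, 2, 3, [0, 3, 4]⟩, ⟨2, false, 3, 3, [0,
  5, 6]⟩, ⟨3, true, 3, 5, [1, 7]⟩, ⟨4, true, 3, 5, [1]⟩, ⟨5, true, 2, 5, [2]⟩, ⟨6, true, 2, 5,
  [2]⟩, ⟨7, false, 2, 2, [3, 8]⟩, ⟨8, true, 2, 5, [7]⟩], .cert (.vert 1 (.cons 0 .nil (.cons 3
  (.vert 0 (.cons 2 (.vert 7 (.cons 8 .nil .nil)) .nil)) (.cons 4 (.vert 0 (.cons 2 .nil .nil))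
  .nil))))⟩

noncomputable def e21 : Ent := ⟨2, [⟨0, true, 2, 2, [1, 2]⟩, ⟨1, false, 3, 5, [0, 3]⟩, ⟨2, false, 3, 5, [0]⟩,
  ⟨3, true, 3, 3, [1, 4, 5]⟩, ⟨4, false, 5, 5, [3]⟩, ⟨5, false, 2, 5, [3]⟩], .cert (.edge 3 4
  (.vert 0 (.cons 1 (.vert 3 (.cons 5 .nil .nil)) (.cons 2 .nil .nil))) .nil)⟩

noncomputable def e22 : Ent := ⟨2, [⟨0, true, 2, 2, [1, 2]⟩, ⟨1, false, 2, 3, [0, 3, 4]⟩, ⟨2, false, 3, 5,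
  [0]⟩, ⟨3, true, 3, 3, [1, 6, 7]⟩, ⟨4, true, 3, 3, [1, 8, 9]⟩, ⟨5, true, 3, 5, [6]⟩, ⟨6, false,
  2, 2, [3, 5]⟩, ⟨7, false, 2, 5, [3]⟩, ⟨8, false, 2, 5, [4]⟩, ⟨9, false, 2, 5, [4]⟩], .cert
  (.vert 1 (.cons 0 .nil (.cons 3 (.vert 0 (.cons 2 (.vert 6 (.cons 5 .nil .nil)) .nil)) (.cons
  4 (.vert 0 (.cons 2 .nil .nil)) .nil))))⟩

noncomputable def e23 : Ent := ⟨2, [⟨0, true, 2, 2, [1, 2]⟩, ⟨1, false, 2, 3, [0, 3, 4]⟩, ⟨2, false, 3, 5,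
  [0]⟩, ⟨3, true, 3, 3, [1, 6, 7]⟩, ⟨4, true, 3, 3, [1, 8, 9]⟩, ⟨5, true, 2, 5, [6]⟩, ⟨6, false,
  2, 2, [3, 5]⟩, ⟨7, false, 2, 5, [3]⟩, ⟨8, false, 2, 5, [4]⟩, ⟨9, false, 2, 5, [4]⟩], .split
  (.deg 5 (.cons 2 (.fill 5 10 (.emb 12 true [6, 5, 3, 10]) (.cons 2 (.emb 11 false [5, 6, 2, 3,
  1, 7]) (.cons 8 (.emb 12 true [6, 5, 3, 8]) (.cons 9 (.emb 12 true [6, 5, 3, 9]) .nil))))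
  (.cons 3 (.emb 22 false [0, 1, 2, 3, 4, 5, 6, 7, 8, 9]) (.cons 4 (.emb 14 true [6, 3, 5])
  (.cons 5 (.emb 3 true [6, 5, 3]) .nil)))))⟩

noncomputable def e24 : Ent := ⟨2, [⟨0, true, 2, 2, [1, 2]⟩, ⟨1, false, 3, 5, [0, 3]⟩, ⟨2, false, 3, 5, [0]⟩,
  ⟨3, true, 2, 3, [1, 4, 5]⟩, ⟨4, false, 3, 5, [3]⟩, ⟨5, false, 4, 5, [3]⟩], .cert (.vert 3
  (.cons 1 (.vert 0 (.cons 2 .nil .nil)) (.cons 4 .nil (.cons 5 .nil .nil))))⟩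

noncomputable def e25 : Ent := ⟨2, [⟨0, true, 2, 2, [1, 2]⟩, ⟨1, false, 3, 5, [0, 3, 4]⟩, ⟨2, false, 3, 5,
  [0]⟩, ⟨3, true, 2, 3, [1, 5, 6]⟩, ⟨4, true, 2, 3, [1, 7, 8]⟩, ⟨5, false, 3, 5, [3, 9]⟩, ⟨6,
  false, 2, 5, [3]⟩, ⟨7, false, 2, 5, [4, 9]⟩, ⟨8, false, 2, 5, [4]⟩, ⟨9, true, 2, 2, [5, 7]⟩],
  .cert (.vert 0 (.cons 1 (.vert 9 (.cons 5 (.vert 3 (.cons 6 .nil .nil)) (.cons 7 (.vert 4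
  (.cons 8 .nil .nil)) .nil))) (.cons 2 .nil .nil)))⟩

noncomputable def e26 : Ent := ⟨2, [⟨0, true, 2, 2, [1, 2]⟩, ⟨1, false, 3, 5, [0, 3]⟩, ⟨2, false, 3, 5, [0]⟩,
  ⟨3, true, 2, 3, [1, 4, 5]⟩, ⟨4, false, 3, 5, [3, 6]⟩, ⟨5, false, 3, 5, [3]⟩, ⟨6, true, 2, 2,
  [4, 7]⟩, ⟨7, false, 2, 5, [6]⟩], .cert (.vert 3 (.cons 1 (.vert 0 (.cons 2 .nil .nil)) (.cons
  4 (.vert 6 (.cons 7 .nil .nil)) (.cons 5 .nil .nil))))⟩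

noncomputable def e27 : Ent := ⟨2, [⟨0, true, 2, 2, [1, 2]⟩, ⟨1, false, 3, 3, [0, 3, 4]⟩, ⟨2, false, 3, 3, [0,
  5, 6]⟩, ⟨3, true, 2, 3, [1, 7, 8]⟩, ⟨4, true, 3, 3, [1, 9, 10]⟩, ⟨5, true, 2, 3, [2, 7, 9]⟩,
  ⟨6, true, 3, 3, [2, 8, 11]⟩, ⟨7, false, 3, 5, [3, 5]⟩, ⟨8, false, 3, 5, [3, 6]⟩, ⟨9, false, 2,
  5, [4, 5]⟩, ⟨10, false, 2, 5, [4]⟩, ⟨11, false, 2, 5, [6]⟩], .cert (.vert 0 (.cons 1 (.vert 5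
  (.cons 2 .nil (.cons 7 (.vert 2 (.cons 6 (.vert 3 (.cons 8 .nil .nil)) .nil)) (.cons 9 (.vert
  2 (.cons 6 (.vert 4 (.cons 10 .nil .nil)) .nil)) .nil)))) (.cons 2 (.vert 3 (.cons 1 .nil
  (.cons 7 (.vert 1 (.cons 4 .nil .nil)) (.cons 8 (.vert 1 (.cons 4 (.vert 6 (.cons 11 .nil
  .nil)) .nil)) .nil)))) .nil)))⟩

noncomputable def e28 : Ent := ⟨2, [⟨0, true, 2, 2, [1, 2]⟩, ⟨1, false, 3, 3, [0, 3, 4]⟩, ⟨2, false, 2, 3, [0,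
  5, 6]⟩, ⟨3, true, 3, 3, [1, 7, 8]⟩, ⟨4, true, 2, 3, [1, 9, 10]⟩, ⟨5, true, 3, 3, [2, 7, 9]⟩,
  ⟨6, true, 3, 5, [2, 8]⟩, ⟨7, false, 2, 5, [3, 5, 11]⟩, ⟨8, false, 2, 3, [3, 6, 12]⟩, ⟨9,
  false, 2, 5, [4, 5]⟩, ⟨10, false, 2, 5, [4, 11]⟩, ⟨11, true, 2, 5, [7, 10]⟩, ⟨12, true, 2, 5,
  [8]⟩], .cert (.vert 2 (.cons 0 .nil (.cons 5 (.vert 0 (.cons 1 .nil .nil)) (.cons 6 (.vert 0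
  (.cons 1 (.vert 8 (.cons 3 .nil (.cons 12 (.vert 3 (.cons 7 (.vert 5 (.cons 9 (.vert 4 (.cons
  10 .nil .nil)) .nil)) .nil)) .nil))) .nil)) .nil))))⟩

noncomputable def e29 : Ent := ⟨2, [⟨0, true, 2, 2, [1, 2]⟩, ⟨1, false, 2, 3, [0, 3, 4]⟩, ⟨2, false, 3, 3, [0,
  5, 6]⟩, ⟨3, true, 3, 3, [1, 7, 8]⟩, ⟨4, true, 3, 3, [1, 9, 10]⟩, ⟨5, true, 3, 3, [2, 7, 9]⟩,
  ⟨6, true, 3, 5, [2, 8, 10]⟩, ⟨7, false, 3, 3, [3, 5, 11]⟩, ⟨8, false, 3, 5, [3, 6]⟩, ⟨9,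
  false, 2, 5, [4, 5]⟩, ⟨10, false, 3, 5, [4, 6, 12]⟩, ⟨11, true, 2, 5, [7]⟩, ⟨12, true, 2, 5,
  [10]⟩], .cert (.vert 1 (.cons 0 (.vert 5 (.cons 2 .nil (.cons 7 (.vert 2 (.cons 6 (.vert 3
  (.cons 8 .nil .nil)) .nil)) (.cons 9 (.vert 2 (.cons 6 (.vert 4 (.cons 10 .nil .nil)) .nil))
  .nil)))) (.cons 3 (.vert 0 (.cons 2 (.vert 7 (.cons 5 .nil (.cons 11 (.vert 5 (.cons 9 (.vert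
  4 (.cons 10 .nil .nil)) .nil)) .nil))) .nil)) (.cons 4 (.vert 0 (.cons 2 .nil .nil)) .nil))))⟩

noncomputable def e30 : Ent := ⟨2, [⟨0, true, 2, 2, [1, 2]⟩, ⟨1, false, 3, 3, [0, 3, 4]⟩, ⟨2, false, 3, 3, [0,
  5, 6]⟩, ⟨3, true, 2, 3, [1, 7, 8]⟩, ⟨4, true, 3, 3, [1, 9, 10]⟩, ⟨5, true, 3, 3, [2, 7, 9]⟩,
  ⟨6, true, 2, 5, [2, 8]⟩, ⟨7, false, 3, 5, [3, 5]⟩, ⟨8, false, 3, 3, [3, 6, 11]⟩, ⟨9, false, 3,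
  5, [4, 5, 11]⟩, ⟨10, false, 2, 5, [4]⟩, ⟨11, true, 2, 5, [8, 9, 12]⟩, ⟨12, false, 2, 5,
  [11]⟩], .cert (.vert 3 (.cons 1 (.vert 0 (.cons 2 .nil .nil)) (.cons 7 (.vert 2 (.cons 0
  (.vert 1 (.cons 4 (.vert 5 (.cons 9 .nil .nil)) .nil)) (.cons 5 (.vert 0 (.cons 1 .nil .nil))
  (.cons 6 (.vert 0 (.cons 1 (.vert 5 (.cons 9 (.vert 4 (.cons 10 (.vert 8 (.cons 11 .nil .nil))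
  .nil)) .nil)) .nil)) .nil)))) (.cons 8 (.vert 0 (.cons 1 .nil (.cons 2 (.vert 1 (.cons 4 .nil
  .nil)) .nil))) .nil))))⟩

noncomputable def e31 : Ent := ⟨2, [⟨0, true, 2, 2, [1, 2]⟩, ⟨1, false, 3, 3, [0, 3, 4]⟩, ⟨2, false, 3, 3, [0,
  5, 6]⟩, ⟨3, true, 3, 3, [1, 7, 8]⟩, ⟨4, true, 3, 3, [1, 9, 10]⟩, ⟨5, true, 3, 3, [2, 7, 9]⟩,
  ⟨6, true, 3, 3, [2, 8, 10]⟩, ⟨7, false, 3, 3, [3, 5, 11]⟩, ⟨8, false, 3, 3, [3, 6, 12]⟩, ⟨9,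
  false, 2, 5, [4, 5]⟩, ⟨10, false, 2, 5, [4, 6]⟩, ⟨11, true, 2, 5, [7]⟩, ⟨12, true, 2, 5,
  [8]⟩], .cert (.vert 0 (.cons 1 (.vert 2 (.cons 5 (.vert 7 (.cons 3 .nil (.cons 11 (.vert 3
  (.cons 8 (.vert 6 (.cons 10 .nil .nil)) .nil)) .nil))) (.cons 6 (.vert 8 (.cons 3 .nil (.cons
  12 (.vert 3 (.cons 7 (.vert 5 (.cons 9 .nil .nil)) .nil)) .nil))) .nil))) (.cons 2 (.vert 1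
  (.cons 3 (.vert 7 (.cons 5 .nil (.cons 11 (.vert 5 (.cons 9 (.vert 4 (.cons 10 (.vert 6 (.cons
  8 .nil .nil)) .nil)) .nil)) .nil))) (.cons 4 .nil .nil))) .nil)))⟩

noncomputable def e32 : Ent := ⟨2, [⟨0, true, 2, 2, [1, 2]⟩, ⟨1, false, 3, 3, [0, 3, 4]⟩, ⟨2, false, 3, 3, [0,
  5, 6]⟩, ⟨3, true, 3, 3, [1, 7, 8]⟩, ⟨4, true, 3, 3, [1, 9, 10]⟩, ⟨5, true, 3, 3, [2, 7, 9]⟩,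
  ⟨6, true, 2, 5, [2, 8]⟩, ⟨7, false, 3, 3, [3, 5, 11]⟩, ⟨8, false, 3, 3, [3, 6, 12]⟩, ⟨9,
  false, 2, 5, [4, 5]⟩, ⟨10, false, 2, 5, [4]⟩, ⟨11, true, 2, 5, [7]⟩, ⟨12, true, 2, 5, [8]⟩],
  .split (.deg 6 (.cons 2 (.emb 15 false [0, 2, 1, 6, 8]) (.cons 3 (.fill 6 13 (.emb 27 false
  [0, 1, 2, 3, 4, 5, 6, 7, 8, 9, 10, 13]) (.cons 10 (.emb 31 false [0, 1, 2, 3, 4, 5, 6, 7, 8,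
  9, 10, 11, 12]) .nil)) (.cons 4 (.fill 6 13 (.fill 6 14 (.emb 17 false [0, 2, 1, 5, 6, 7, 9,
  8, 13, 14]) (.cons 10 (.emb 17 false [0, 2, 1, 5, 6, 7, 9, 8, 10, 13]) .nil)) (.cons 10 (.fill
  6 13 (.emb 17 false [0, 2, 1, 5, 6, 7, 9, 8, 10, 13]) .nil) .nil)) (.cons 5 (.emb 16 false [0,
  2, 1, 6, 5, 3, 4]) .nil)))))⟩

noncomputable def e33 : Ent := ⟨2, [⟨0, true, 2, 2, [1, 2]⟩, ⟨1, false, 3, 3, [0, 3, 4]⟩, ⟨2, false, 3, 3, [0,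
  5, 6]⟩, ⟨3, true, 2, 3, [1, 7, 8]⟩, ⟨4, true, 3, 3, [1, 9, 10]⟩, ⟨5, true, 3, 3, [2, 7, 11]⟩,
  ⟨6, true, 2, 5, [2, 8]⟩, ⟨7, false, 3, 5, [3, 5]⟩, ⟨8, false, 3, 5, [3, 6]⟩, ⟨9, false, 2, 5,
  [4]⟩, ⟨10, false, 2, 5, [4]⟩, ⟨11, false, 2, 5, [5]⟩], .split (.deg 6 (.cons 2 (.emb 15 false
  [0, 2, 1, 6, 8]) (.cons 3 (.fill 6 12 (.emb 18 false [0, 2, 1, 5, 6, 4, 3, 7, 11, 8, 12, 9,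
  10]) (.cons 9 (.emb 27 false [0, 1, 2, 3, 4, 6, 5, 8, 7, 9, 10, 11]) (.cons 10 (.emb 27 false
  [0, 1, 2, 3, 4, 6, 5, 8, 7, 10, 9, 11]) .nil))) (.cons 4 (.fill 6 12 (.fill 6 13 (.emb 17
  false [0, 2, 1, 5, 6, 7, 11, 8, 12, 13]) (.cons 9 (.emb 17 false [0, 2, 1, 5, 6, 7, 11, 8, 9,
  12]) (.cons 10 (.emb 17 false [0, 2, 1, 5, 6, 7, 11, 8, 10, 12]) .nil))) (.cons 9 (.fill 6 12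
  (.emb 17 false [0, 2, 1, 5, 6, 7, 11, 8, 9, 12]) .nil) (.cons 10 (.fill 6 12 (.emb 17 false
  [0, 2, 1, 5, 6, 7, 11, 8, 10, 12]) .nil) .nil))) (.cons 5 (.emb 16 false [0, 2, 1, 6, 5, 3,
  4]) .nil)))))⟩

noncomputable def e34 : Ent := ⟨2, [⟨0, true, 2, 2, [1, 2]⟩, ⟨1, false, 3, 5, [0]⟩, ⟨2, false, 2, 3, [0, 3,
  4]⟩, ⟨3, true, 4, 5, [2]⟩, ⟨4, true, 4, 4, [2, 5, 6, 7]⟩, ⟨5, false, 2, 5, [4]⟩, ⟨6, false, 2,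
  5, [4]⟩, ⟨7, false, 2, 5, [4]⟩], .cert (.vert 2 (.cons 0 .nil (.cons 3 (.vert 0 (.cons 1 .nil
  .nil)) (.cons 4 (.vert 0 (.cons 1 .nil .nil)) .nil))))⟩

noncomputable def e35 : Ent := ⟨2, [⟨0, true, 2, 2, [1, 2]⟩, ⟨1, false, 3, 5, [0]⟩, ⟨2, false, 3, 3, [0, 3,
  4]⟩, ⟨3, true, 4, 4, [2, 5, 6, 7]⟩, ⟨4, true, 2, 5, [2]⟩, ⟨5, false, 2, 5, [3]⟩, ⟨6, false, 2,
  5, [3]⟩, ⟨7, false, 2, 5, [3]⟩], .split (.deg 4 (.cons 2 (.fill 4 8 (.emb 15 false [0, 2, 1,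
  4, 8]) .nil) (.cons 3 (.fill 4 8 (.fill 4 9 (.emb 17 false [0, 2, 1, 4, 3, 8, 9, 5, 6, 7])
  .nil) .nil) (.cons 4 (.emb 34 false [0, 1, 2, 4, 3, 5, 6, 7]) (.cons 5 (.emb 34 false [0, 1,
  2, 4, 3, 5, 6, 7]) .nil)))))⟩

noncomputable def e36 : Ent := ⟨2, [⟨0, true, 2, 2, [1, 2]⟩, ⟨1, false, 3, 3, [0, 3, 4]⟩, ⟨2, false, 3, 3, [0,
  5, 6]⟩, ⟨3, true, 3, 3, [1, 7, 8]⟩, ⟨4, true, 3, 3, [1, 9, 10]⟩, ⟨5, true, 2, 5, [2, 7]⟩, ⟨6,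
  true, 2, 5, [2, 8]⟩, ⟨7, false, 3, 3, [3, 5, 11]⟩, ⟨8, false, 3, 3, [3, 6, 12]⟩, ⟨9, false, 2,
  5, [4]⟩, ⟨10, false, 2, 5, [4]⟩, ⟨11, true, 2, 5, [7]⟩, ⟨12, true, 2, 5, [8]⟩], .split (.deg 5
  (.cons 2 (.emb 15 false [0, 2, 1, 5, 7]) (.cons 3 (.fill 5 13 (.emb 33 false [0, 1, 2, 3, 4,
  5, 6, 7, 8, 9, 10, 13]) (.cons 9 (.emb 32 false [0, 1, 2, 3, 4, 5, 6, 7, 8, 9, 10, 11, 12])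
  (.cons 10 (.emb 32 false [0, 1, 2, 3, 4, 5, 6, 7, 8, 10, 9, 11, 12]) .nil))) (.cons 4 (.fill 5
  13 (.fill 5 14 (.emb 35 false [0, 1, 2, 5, 6, 7, 13, 14]) (.cons 9 (.emb 35 false [0, 1, 2, 5,
  6, 7, 9, 13]) (.cons 10 (.emb 35 false [0, 1, 2, 5, 6, 7, 10, 13]) .nil))) (.cons 9 (.fill 5
  13 (.emb 35 false [0, 1, 2, 5, 6, 7, 9, 13]) .nil) (.cons 10 (.fill 5 13 (.emb 35 false [0, 1,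
  2, 5, 6, 7, 10, 13]) .nil) .nil))) (.cons 5 (.emb 16 false [0, 2, 1, 5, 6, 3, 4]) .nil)))))⟩

noncomputable def e37 : Ent := ⟨2, [⟨0, true, 2, 2, [1, 2]⟩, ⟨1, false, 3, 5, [0, 3]⟩, ⟨2, false, 3, 3, [0, 4,
  5]⟩, ⟨3, true, 2, 3, [1, 6, 7]⟩, ⟨4, true, 3, 3, [2, 6, 9]⟩, ⟨5, true, 3, 3, [2, 8, 10]⟩, ⟨6,
  false, 3, 5, [3, 4]⟩, ⟨7, false, 3, 5, [3]⟩, ⟨8, false, 2, 5, [5]⟩, ⟨9, false, 2, 5, [4]⟩,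
  ⟨10, false, 2, 5, [5]⟩], .cert (.vert 0 (.cons 1 (.edge 4 6 .nil (.vert 2 (.cons 5 (.vert 3
  (.cons 7 .nil .nil)) .nil))) (.cons 2 .nil .nil)))⟩

noncomputable def e38 : Ent := ⟨2, [⟨0, true, 2, 2, [1, 2]⟩, ⟨1, false, 3, 3, [0, 3, 4]⟩, ⟨2, false, 3, 3, [0,
  5, 6]⟩, ⟨3, true, 2, 3, [1, 7, 8]⟩, ⟨4, true, 2, 5, [1]⟩, ⟨5, true, 2, 5, [2]⟩, ⟨6, true, 3,
  3, [2, 9, 10]⟩, ⟨7, false, 3, 5, [3]⟩, ⟨8, false, 3, 5, [3]⟩, ⟨9, false, 2, 5, [6]⟩, ⟨10,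
  false, 2, 5, [6]⟩], .split (.deg 5 (.cons 2 (.fill 5 11 (.emb 15 false [0, 2, 1, 5, 11])
  (.cons 7 (.emb 15 false [0, 2, 1, 5, 7]) (.cons 8 (.emb 15 false [0, 2, 1, 5, 8]) .nil)))
  (.cons 3 (.fill 5 11 (.fill 5 12 (.emb 18 false [0, 2, 1, 5, 6, 3, 4, 11, 12, 9, 10, 7, 8])
  (.cons 7 (.emb 37 false [0, 1, 2, 3, 5, 6, 7, 8, 9, 11, 10]) (.cons 8 (.emb 37 false [0, 1, 2,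
  3, 5, 6, 8, 7, 9, 11, 10]) .nil))) (.cons 7 (.fill 5 11 (.emb 37 false [0, 1, 2, 3, 5, 6, 7,
  8, 9, 11, 10]) .nil) (.cons 8 (.fill 5 11 (.emb 37 false [0, 1, 2, 3, 5, 6, 8, 7, 9, 11, 10])
  .nil) .nil))) (.cons 4 (.fill 5 11 (.fill 5 12 (.fill 5 13 (.emb 17 false [0, 2, 1, 6, 5, 9,
  10, 11, 12, 13]) (.cons 7 (.emb 17 false [0, 2, 1, 6, 5, 9, 10, 7, 11, 12]) (.cons 8 (.emb 17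
  false [0, 2, 1, 6, 5, 9, 10, 8, 11, 12]) .nil))) (.cons 7 (.fill 5 12 (.emb 17 false [0, 2, 1,
  6, 5, 9, 10, 7, 11, 12]) .nil) (.cons 8 (.fill 5 12 (.emb 17 false [0, 2, 1, 6, 5, 9, 10, 8,
  11, 12]) .nil) .nil))) (.cons 7 (.fill 5 11 (.fill 5 12 (.emb 17 false [0, 2, 1, 6, 5, 9, 10,
  7, 11, 12]) .nil) .nil) (.cons 8 (.fill 5 11 (.fill 5 12 (.emb 17 false [0, 2, 1, 6, 5, 9, 10,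
  8, 11, 12]) .nil) .nil) .nil))) (.cons 5 (.emb 16 false [0, 2, 1, 5, 6, 3, 4]) .nil)))))⟩

noncomputable def e39 : Ent := ⟨2, [⟨0, true, 2, 2, [1, 2]⟩, ⟨1, false, 3, 3, [0, 3, 4]⟩, ⟨2, false, 3, 3, [0,
  5, 6]⟩, ⟨3, true, 2, 3, [1, 7, 8]⟩, ⟨4, true, 2, 5, [1]⟩, ⟨5, true, 2, 5, [2, 7]⟩, ⟨6, true,
  2, 5, [2]⟩, ⟨7, false, 3, 5, [3, 5]⟩, ⟨8, false, 3, 5, [3, 9, 10]⟩, ⟨9, true, 2, 5, [8]⟩, ⟨10,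
  true, 2, 5, [8]⟩], .split (.deg 6 (.cons 2 (.fill 6 11 (.emb 15 false [0, 2, 1, 6, 11]) (.cons
  8 (.emb 14 false [6, 2, 8]) .nil)) (.cons 3 (.fill 6 11 (.fill 6 12 (.emb 38 false [0, 1, 2,
  3, 4, 5, 6, 7, 8, 11, 12]) (.cons 8 (.emb 24 false [0, 1, 2, 3, 7, 8]) .nil)) (.cons 8 (.emb
  24 false [0, 1, 2, 3, 7, 8]) .nil)) (.cons 4 (.fill 6 11 (.fill 6 12 (.fill 6 13 (.emb 35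
  false [0, 1, 2, 6, 5, 11, 12, 13]) (.cons 8 (.emb 24 false [0, 1, 2, 3, 7, 8]) .nil)) (.cons 8
  (.emb 24 false [0, 1, 2, 3, 7, 8]) .nil)) (.cons 8 (.emb 24 false [0, 1, 2, 3, 7, 8]) .nil))
  (.cons 5 (.emb 16 false [0, 2, 1, 6, 5, 3, 4]) .nil)))))⟩

noncomputable def e40 : Ent := ⟨2, [⟨0, true, 2, 2, [1, 2]⟩, ⟨1, false, 3, 3, [0, 3, 4]⟩, ⟨2, false, 3, 3, [0,
  5, 6]⟩, ⟨3, true, 3, 3, [1, 7, 8]⟩, ⟨4, true, 3, 3, [1, 9, 10]⟩, ⟨5, true, 2, 5, [2, 7]⟩, ⟨6,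
  true, 2, 5, [2]⟩, ⟨7, false, 3, 3, [3, 5, 11]⟩, ⟨8, false, 2, 5, [3]⟩, ⟨9, false, 2, 5, [4]⟩,
  ⟨10, false, 2, 5, [4]⟩, ⟨11, true, 2, 5, [7]⟩], .split (.deg 8 (.cons 2 (.fill 8 12 (.emb 20
  false [0, 1, 2, 3, 4, 5, 6, 8, 12]) (.cons 6 (.emb 23 false [0, 1, 2, 3, 4, 6, 8, 7, 9, 10])
  .nil)) (.cons 3 (.fill 8 12 (.fill 8 13 (.emb 39 false [0, 1, 2, 3, 4, 5, 6, 7, 8, 12, 13])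
  (.cons 6 (.emb 36 false [0, 1, 2, 3, 4, 5, 6, 7, 8, 9, 10, 11, 12]) .nil)) (.cons 6 (.fill 8
  12 (.emb 36 false [0, 1, 2, 3, 4, 5, 6, 7, 8, 9, 10, 11, 12]) .nil) .nil)) (.cons 4 (.emb 24
  false [0, 1, 2, 3, 7, 8]) (.cons 5 (.emb 21 false [0, 1, 2, 3, 8, 7]) .nil)))))⟩

noncomputable def e41 : Ent := ⟨2, [⟨0, true, 2, 2, [1, 2]⟩, ⟨1, false, 3, 3, [0, 3, 4]⟩, ⟨2, false, 3, 3, [0,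
  5, 6]⟩, ⟨3, true, 2, 3, [1, 7, 8]⟩, ⟨4, true, 2, 5, [1]⟩, ⟨5, true, 2, 5, [2]⟩, ⟨6, true, 2,
  5, [2]⟩, ⟨7, false, 2, 3, [3, 9, 10]⟩, ⟨8, false, 2, 3, [3, 11, 12]⟩, ⟨9, true, 2, 5, [7]⟩,
  ⟨10, true, 2, 5, [7]⟩, ⟨11, true, 2, 5, [8]⟩, ⟨12, true, 2, 5, [8]⟩], .cert (.star 1 (.cons 0
  (.vert 0 (.cons 2 .nil .nil)) (.cons 3 .nil (.cons 4 (.contr 0 .nil) .nil))))⟩

noncomputable def e42 : Ent := ⟨2, [⟨0, true, 2, 2, [1, 2]⟩, ⟨1, false, 3, 3, [0, 3, 4]⟩, ⟨2, false, 3, 3, [0,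
  5, 6]⟩, ⟨3, true, 3, 3, [1, 7, 8]⟩, ⟨4, true, 3, 3, [1, 9, 10]⟩, ⟨5, true, 2, 5, [2]⟩, ⟨6,
  true, 2, 5, [2]⟩, ⟨7, false, 3, 3, [3, 11, 12]⟩, ⟨8, false, 2, 5, [3]⟩, ⟨9, false, 2, 5, [4]⟩,
  ⟨10, false, 2, 5, [4]⟩, ⟨11, true, 2, 5, [7]⟩, ⟨12, true, 2, 5, [7]⟩], .split (.deg 8 (.cons 2
  (.fill 8 13 (.emb 20 false [0, 1, 2, 3, 4, 5, 6, 8, 13]) (.cons 5 (.emb 23 false [0, 1, 2, 3,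
  4, 5, 8, 7, 9, 10]) (.cons 6 (.emb 23 false [0, 1, 2, 3, 4, 6, 8, 7, 9, 10]) .nil))) (.cons 3
  (.fill 8 13 (.fill 8 14 (.emb 41 false [0, 1, 2, 3, 4, 5, 6, 7, 8, 11, 12, 13, 14]) (.cons 5
  (.emb 39 false [0, 1, 2, 3, 4, 5, 6, 8, 7, 11, 12]) (.cons 6 (.emb 39 false [0, 1, 2, 3, 4, 6,
  5, 8, 7, 11, 12]) .nil))) (.cons 5 (.emb 39 false [0, 1, 2, 3, 4, 5, 6, 8, 7, 11, 12]) (.cons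
  6 (.emb 39 false [0, 1, 2, 3, 4, 6, 5, 8, 7, 11, 12]) .nil))) (.cons 4 (.emb 24 false [0, 1,
  2, 3, 7, 8]) (.cons 5 (.emb 21 false [0, 1, 2, 3, 8, 7]) .nil)))))⟩

noncomputable def e43 : Ent := ⟨2, [⟨0, true, 2, 2, [1, 2]⟩, ⟨1, false, 3, 3, [0, 3, 4]⟩, ⟨2, false, 3, 5, [0,
  5]⟩, ⟨3, true, 3, 3, [1, 6, 7]⟩, ⟨4, true, 3, 3, [1, 8, 9]⟩, ⟨5, true, 2, 3, [2, 6, 10]⟩, ⟨6,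
  false, 4, 5, [3, 5]⟩, ⟨7, false, 2, 5, [3]⟩, ⟨8, false, 2, 5, [4]⟩, ⟨9, false, 2, 5, [4]⟩,
  ⟨10, false, 2, 5, [5]⟩], .cert (.vert 0 (.cons 1 .nil (.cons 2 (.edge 3 6 .nil (.vert 1 (.cons
  4 (.vert 5 (.cons 10 .nil .nil)) .nil))) .nil)))⟩

noncomputable def e44 : Ent := ⟨2, [⟨0, true, 2, 2, [1, 2]⟩, ⟨1, false, 3, 3, [0, 3, 4]⟩, ⟨2, false, 3, 5,
  [0]⟩, ⟨3, true, 3, 3, [1, 5, 6]⟩, ⟨4, true, 3, 3, [1, 7, 8]⟩, ⟨5, false, 4, 5, [3]⟩, ⟨6,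
  false, 2, 5, [3]⟩, ⟨7, false, 2, 5, [4]⟩, ⟨8, false, 2, 5, [4]⟩], .split (.deg 6 (.cons 2
  (.fill 6 9 (.emb 23 false [0, 1, 2, 3, 4, 9, 6, 5, 7, 8]) .nil) (.cons 3 (.emb 24 false [0, 1,
  2, 3, 6, 5]) (.cons 4 (.emb 24 false [0, 1, 2, 3, 6, 5]) (.cons 5 (.emb 21 false [0, 1, 2, 3,
  6, 5]) .nil)))))⟩

noncomputable def e45 : Ent := ⟨2, [⟨0, true, 2, 2, [1, 2]⟩, ⟨1, false, 3, 3, [0, 3, 4]⟩, ⟨2, false, 3, 3, [0,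
  5, 6]⟩, ⟨3, true, 3, 3, [1, 7, 8]⟩, ⟨4, true, 3, 3, [1, 9, 10]⟩, ⟨5, true, 2, 5, [2]⟩, ⟨6,
  true, 2, 5, [2]⟩, ⟨7, false, 2, 5, [3]⟩, ⟨8, false, 2, 5, [3]⟩, ⟨9, false, 2, 5, [4]⟩, ⟨10,
  false, 2, 5, [4]⟩], .split (.deg 7 (.cons 2 (.fill 7 11 (.emb 20 false [0, 1, 2, 3, 4, 5, 6,
  7, 11]) (.cons 5 (.emb 23 false [0, 1, 2, 3, 4, 5, 7, 8, 9, 10]) (.cons 6 (.emb 23 false [0,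
  1, 2, 3, 4, 6, 7, 8, 9, 10]) .nil))) (.cons 3 (.fill 7 11 (.fill 7 12 (.emb 42 false [0, 1, 2,
  3, 4, 5, 6, 7, 8, 9, 10, 11, 12]) (.cons 5 (.emb 40 false [0, 1, 2, 3, 4, 5, 6, 7, 8, 9, 10,
  11]) (.cons 6 (.emb 40 false [0, 1, 2, 3, 4, 6, 5, 7, 8, 9, 10, 11]) .nil))) (.cons 5 (.fill 7
  11 (.emb 40 false [0, 1, 2, 3, 4, 5, 6, 7, 8, 9, 10, 11]) .nil) (.cons 6 (.fill 7 11 (.emb 40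
  false [0, 1, 2, 3, 4, 6, 5, 7, 8, 9, 10, 11]) .nil) .nil))) (.cons 4 (.emb 44 false [0, 1, 2,
  3, 4, 7, 8, 9, 10]) (.cons 5 (.emb 21 false [0, 1, 2, 3, 7, 8]) .nil)))))⟩

noncomputable def e46 : Ent := ⟨2, [⟨0, true, 2, 2, [1, 2]⟩, ⟨1, false, 3, 3, [0, 3, 4]⟩, ⟨2, false, 3, 3, [0,
  5, 6]⟩, ⟨3, true, 3, 3, [1, 7, 8]⟩, ⟨4, true, 2, 5, [1]⟩, ⟨5, true, 2, 5, [2]⟩, ⟨6, true, 2,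
  5, [2]⟩, ⟨7, false, 2, 5, [3]⟩, ⟨8, false, 2, 5, [3]⟩], .split (.deg 4 (.cons 2 (.fill 4 9
  (.emb 15 false [0, 1, 2, 4, 9]) .nil) (.cons 3 (.fill 4 9 (.fill 4 10 (.emb 45 false [0, 1, 2,
  3, 4, 5, 6, 7, 8, 9, 10]) .nil) .nil) (.cons 4 (.fill 4 9 (.fill 4 10 (.fill 4 11 (.emb 17
  false [0, 1, 2, 3, 4, 7, 8, 9, 10, 11]) .nil) .nil) .nil) (.cons 5 (.emb 16 false [0, 1, 2, 4,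
  3, 5, 6]) .nil)))))⟩

noncomputable def e47 : Ent := ⟨2, [⟨0, true, 2, 2, [1, 2]⟩, ⟨1, false, 3, 3, [0, 3, 4]⟩, ⟨2, false, 3, 3, [0,
  5, 6]⟩, ⟨3, true, 2, 5, [1]⟩, ⟨4, true, 2, 5, [1]⟩, ⟨5, true, 2, 5, [2]⟩, ⟨6, true, 2, 5,
  [2]⟩], .split (.deg 3 (.cons 2 (.fill 3 7 (.emb 15 false [0, 1, 2, 3, 7]) .nil) (.cons 3
  (.fill 3 7 (.fill 3 8 (.emb 46 false [0, 1, 2, 3, 4, 5, 6, 7, 8]) .nil) .nil) (.cons 4 (.fill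
  3 7 (.fill 3 8 (.fill 3 9 (.emb 35 false [0, 2, 1, 3, 4, 7, 8, 9]) .nil) .nil) .nil) (.cons 5
  (.emb 16 false [0, 1, 2, 3, 4, 5, 6]) .nil)))))⟩

noncomputable def e48 : Ent := ⟨2, [⟨0, true, 2, 2, [1, 2]⟩, ⟨1, false, 3, 3, [0, 3, 4]⟩, ⟨2, false, 2, 5,
  [0]⟩, ⟨3, true, 2, 5, [1]⟩, ⟨4, true, 2, 5, [1]⟩], .split (.deg 2 (.cons 2 (.fill 2 5 (.emb 12
  false [0, 2, 1, 5]) .nil) (.cons 3 (.fill 2 5 (.fill 2 6 (.emb 47 false [0, 1, 2, 3, 4, 5, 6])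
  .nil) .nil) (.cons 4 (.emb 14 false [0, 1, 2]) (.cons 5 (.emb 3 false [0, 2, 1]) .nil)))))⟩

noncomputable def e49 : Ent := ⟨2, [⟨0, true, 2, 2, [1, 2]⟩, ⟨1, false, 3, 5, [0]⟩, ⟨2, false, 2, 5, [0]⟩],
  .split (.deg 2 (.cons 2 (.fill 2 3 (.emb 12 false [0, 2, 1, 3]) .nil) (.cons 3 (.fill 2 3
  (.fill 2 4 (.emb 48 false [0, 2, 1, 3, 4]) .nil) .nil) (.cons 4 (.emb 14 false [0, 1, 2])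
  (.cons 5 (.emb 3 false [0, 2, 1]) .nil)))))⟩

noncomputable def e50 : Ent := ⟨2, [⟨0, true, 2, 2, [1, 2]⟩, ⟨1, false, 2, 5, [0]⟩, ⟨2, false, 2, 5, [0]⟩],
  .split (.deg 1 (.cons 2 (.fill 1 3 (.emb 13 false [0, 1, 2, 3]) .nil) (.cons 3 (.emb 49 false
  [0, 1, 2]) (.cons 4 (.emb 49 false [0, 1, 2]) (.cons 5 (.emb 3 false [0, 1, 2]) .nil)))))⟩

noncomputable def e51 : Ent := ⟨2, [⟨0, true, 2, 2, []⟩], .split (.fill 0 1 (.fill 0 2 (.emb 50 false [0, 1,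
  2]) .nil) .nil)⟩

noncomputable def e52 : Ent := ⟨3, [⟨0, true, 3, 3, [1, 2, 3]⟩, ⟨1, false, 5, 5, [0]⟩, ⟨2, false, 4, 5, [0]⟩,
  ⟨3, false, 3, 5, [0]⟩], .cert (.vert 0 (.cons 1 .nil (.cons 2 .nil (.cons 3 .nil .nil))))⟩

noncomputable def e53 : Ent := ⟨3, [⟨0, true, 3, 3, [1, 2, 3]⟩, ⟨1, false, 5, 5, [0]⟩, ⟨2, false, 3, 3, [0, 4,
  5]⟩, ⟨3, false, 3, 5, [0, 6, 7]⟩, ⟨4, true, 4, 5, [2]⟩, ⟨5, true, 3, 5, [2]⟩, ⟨6, true, 3, 5,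
  [3]⟩, ⟨7, true, 3, 5, [3]⟩], .cert (.star 1 (.cons 0 (.vert 2 (.cons 0 .nil (.cons 4 (.vert 0
  (.cons 3 .nil .nil)) (.cons 5 (.vert 0 (.cons 3 .nil .nil)) .nil)))) .nil))⟩

noncomputable def e54 : Ent := ⟨3, [⟨0, true, 3, 3, [1, 2, 3]⟩, ⟨1, false, 5, 5, [0]⟩, ⟨2, false, 3, 3, [0, 4,
  5]⟩, ⟨3, false, 3, 3, [0, 6, 7]⟩, ⟨4, true, 3, 3, [2, 8, 9]⟩, ⟨5, true, 3, 3, [2, 10, 11]⟩,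
  ⟨6, true, 3, 3, [3, 12, 13]⟩, ⟨7, true, 3, 5, [3]⟩, ⟨8, false, 3, 5, [4]⟩, ⟨9, false, 3, 5,
  [4]⟩, ⟨10, false, 3, 5, [5]⟩, ⟨11, false, 3, 5, [5]⟩, ⟨12, false, 3, 5, [6]⟩, ⟨13, false, 3,
  5, [6]⟩], .cert (.edge 0 1 (.edge 3 7 (.contr 0 .nil) (.vert 0 (.cons 2 .nil .nil))) .nil)⟩

noncomputable def e55 : Ent := ⟨3, [⟨0, true, 3, 3, [1, 2, 3]⟩, ⟨1, false, 5, 5, [0, 11, 12, 13, 14]⟩, ⟨2,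
  false, 3, 3, [0, 4, 5]⟩, ⟨3, false, 3, 5, [0, 6]⟩, ⟨4, true, 3, 3, [2, 7, 8]⟩, ⟨5, true, 3, 3,
  [2, 9, 10]⟩, ⟨6, true, 3, 3, [3, 7, 9]⟩, ⟨7, false, 3, 5, [4, 6]⟩, ⟨8, false, 3, 5, [4]⟩, ⟨9,
  false, 3, 5, [5, 6]⟩, ⟨10, false, 3, 5, [5]⟩, ⟨11, true, 3, 5, [1]⟩, ⟨12, true, 3, 5, [1]⟩,
  ⟨13, true, 3, 5, [1]⟩, ⟨14, true, 3, 5, [1]⟩], .cert (.star 1 (.cons 0 (.vert 2 (.cons 0 .nil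
  (.cons 4 (.vert 0 (.cons 3 (.vert 5 (.cons 9 (.vert 6 (.cons 7 .nil .nil)) (.cons 10 .nil
  .nil))) .nil)) (.cons 5 (.vert 0 (.cons 3 (.vert 4 (.cons 7 (.vert 6 (.cons 9 .nil .nil))
  (.cons 8 .nil .nil))) .nil)) .nil)))) (.cons 11 .nil (.cons 12 .nil (.cons 13 .nil (.cons 14
  .nil .nil))))))⟩

noncomputable def e56 : Ent := ⟨3, [⟨0, true, 3, 3, [1, 2, 3]⟩, ⟨1, false, 5, 5, [0, 11, 12, 13, 14]⟩, ⟨2,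
  false, 3, 3, [0, 4, 5]⟩, ⟨3, false, 3, 5, [0, 6]⟩, ⟨4, true, 3, 3, [2, 7, 8]⟩, ⟨5, true, 3, 3,
  [2, 9, 10]⟩, ⟨6, true, 3, 3, [3, 7, 15]⟩, ⟨7, false, 3, 5, [4, 6]⟩, ⟨8, false, 3, 5, [4]⟩, ⟨9,
  false, 3, 5, [5]⟩, ⟨10, false, 3, 5, [5]⟩, ⟨11, true, 3, 5, [1]⟩, ⟨12, true, 3, 5, [1]⟩, ⟨13,
  true, 3, 5, [1]⟩, ⟨14, true, 3, 5, [1]⟩, ⟨15, false, 3, 5, [6]⟩], .cert (.star 1 (.cons 0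
  (.vert 0 (.cons 2 .nil (.cons 3 (.vert 4 (.cons 2 .nil (.cons 7 (.vert 2 (.cons 5 (.vert 6
  (.cons 15 .nil .nil)) .nil)) (.cons 8 (.vert 2 (.cons 5 .nil .nil)) .nil)))) .nil))) (.cons 11
  .nil (.cons 12 .nil (.cons 13 .nil (.cons 14 .nil .nil))))))⟩

noncomputable def e57 : Ent := ⟨3, [⟨0, true, 3, 3, [1, 2, 3]⟩, ⟨1, false, 5, 5, [0, 12, 13, 14, 15]⟩, ⟨2,
  false, 3, 3, [0, 4, 5]⟩, ⟨3, false, 3, 3, [0, 6, 7]⟩, ⟨4, true, 3, 3, [2, 8, 9]⟩, ⟨5, true, 3,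
  3, [2, 10, 11]⟩, ⟨6, true, 3, 5, [3]⟩, ⟨7, true, 3, 5, [3]⟩, ⟨8, false, 3, 5, [4]⟩, ⟨9, false,
  3, 5, [4]⟩, ⟨10, false, 3, 5, [5]⟩, ⟨11, false, 3, 5, [5]⟩, ⟨12, true, 3, 5, [1]⟩, ⟨13, true,
  3, 5, [1]⟩, ⟨14, true, 3, 5, [1]⟩, ⟨15, true, 3, 5, [1]⟩], .split (.deg 6 (.cons 3 (.fill 6 16
  (.fill 6 17 (.emb 54 false [0, 1, 2, 3, 4, 5, 6, 7, 8, 9, 10, 11, 16, 17]) (.cons 8 (.emb 56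
  false [0, 1, 2, 3, 4, 5, 6, 8, 9, 10, 11, 12, 13, 14, 15, 16]) (.cons 9 (.emb 56 false [0, 1,
  2, 3, 4, 5, 6, 9, 8, 10, 11, 12, 13, 14, 15, 16]) (.cons 10 (.emb 56 false [0, 1, 2, 3, 5, 4,
  6, 10, 11, 8, 9, 12, 13, 14, 15, 16]) (.cons 11 (.emb 56 false [0, 1, 2, 3, 5, 4, 6, 11, 10,
  8, 9, 12, 13, 14, 15, 16]) .nil))))) (.cons 8 (.fill 6 16 (.emb 56 false [0, 1, 2, 3, 4, 5, 6,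
  8, 9, 10, 11, 12, 13, 14, 15, 16]) (.cons 10 (.emb 55 false [0, 1, 2, 3, 4, 5, 6, 8, 9, 10,
  11, 12, 13, 14, 15]) (.cons 11 (.emb 55 false [0, 1, 2, 3, 4, 5, 6, 8, 9, 11, 10, 12, 13, 14,
  15]) .nil))) (.cons 9 (.fill 6 16 (.emb 56 false [0, 1, 2, 3, 4, 5, 6, 9, 8, 10, 11, 12, 13,
  14, 15, 16]) (.cons 10 (.emb 55 false [0, 1, 2, 3, 4, 5, 6, 9, 8, 10, 11, 12, 13, 14, 15])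
  (.cons 11 (.emb 55 false [0, 1, 2, 3, 4, 5, 6, 9, 8, 11, 10, 12, 13, 14, 15]) .nil))) (.cons
  10 (.fill 6 16 (.emb 56 false [0, 1, 2, 3, 5, 4, 6, 10, 11, 8, 9, 12, 13, 14, 15, 16]) (.cons
  8 (.emb 55 false [0, 1, 2, 3, 4, 5, 6, 8, 9, 10, 11, 12, 13, 14, 15]) (.cons 9 (.emb 55 false
  [0, 1, 2, 3, 4, 5, 6, 9, 8, 10, 11, 12, 13, 14, 15]) .nil))) (.cons 11 (.fill 6 16 (.emb 56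
  false [0, 1, 2, 3, 5, 4, 6, 11, 10, 8, 9, 12, 13, 14, 15, 16]) (.cons 8 (.emb 55 false [0, 1,
  2, 3, 4, 5, 6, 8, 9, 11, 10, 12, 13, 14, 15]) (.cons 9 (.emb 55 false [0, 1, 2, 3, 4, 5, 6, 9,
  8, 11, 10, 12, 13, 14, 15]) .nil))) .nil))))) (.cons 4 (.emb 53 false [0, 1, 3, 2, 6, 7, 4,
  5]) (.cons 5 (.emb 53 false [0, 1, 3, 2, 6, 7, 4, 5]) .nil))))⟩

noncomputable def e58 : Ent := ⟨3, [⟨0, true, 3, 3, [1, 2, 3]⟩, ⟨1, false, 5, 5, [0]⟩, ⟨2, false, 3, 3, [0, 4,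
  5]⟩, ⟨3, false, 3, 3, [0, 6, 7]⟩, ⟨4, true, 3, 3, [2, 8, 9]⟩, ⟨5, true, 3, 3, [2, 10, 11]⟩,
  ⟨6, true, 3, 5, [3]⟩, ⟨7, true, 3, 5, [3]⟩, ⟨8, false, 3, 5, [4]⟩, ⟨9, false, 3, 5, [4]⟩, ⟨10,
  false, 3, 5, [5]⟩, ⟨11, false, 3, 5, [5]⟩], .split (.fill 1 12 (.fill 1 13 (.fill 1 14 (.fill
  1 15 (.emb 57 false [0, 1, 2, 3, 4, 5, 6, 7, 8, 9, 10, 11, 12, 13, 14, 15]) .nil) .nil) .nil)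
  .nil)⟩

noncomputable def e59 : Ent := ⟨3, [⟨0, true, 3, 3, [1, 2, 3]⟩, ⟨1, false, 5, 5, [0]⟩, ⟨2, false, 3, 3, [0, 4,
  5]⟩, ⟨3, false, 3, 3, [0, 6, 7]⟩, ⟨4, true, 3, 3, [2, 8, 9]⟩, ⟨5, true, 3, 5, [2]⟩, ⟨6, true,
  3, 5, [3]⟩, ⟨7, true, 3, 5, [3]⟩, ⟨8, false, 3, 5, [4]⟩, ⟨9, false, 3, 5, [4]⟩], .split (.deg
  5 (.cons 3 (.fill 5 10 (.fill 5 11 (.emb 58 false [0, 1, 2, 3, 4, 5, 6, 7, 8, 9, 10, 11])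
  .nil) .nil) (.cons 4 (.emb 53 false [0, 1, 2, 3, 5, 4, 6, 7]) (.cons 5 (.emb 53 false [0, 1,
  2, 3, 5, 4, 6, 7]) .nil))))⟩

noncomputable def e60 : Ent := ⟨3, [⟨0, true, 3, 3, [1, 2, 3]⟩, ⟨1, false, 5, 5, [0]⟩, ⟨2, false, 3, 3, [0, 4,
  5]⟩, ⟨3, false, 3, 3, [0, 6, 7]⟩, ⟨4, true, 3, 5, [2]⟩, ⟨5, true, 3, 5, [2]⟩, ⟨6, true, 3, 5,
  [3]⟩, ⟨7, true, 3, 5, [3]⟩], .split (.deg 4 (.cons 3 (.fill 4 8 (.fill 4 9 (.emb 59 false [0,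
  1, 2, 3, 4, 5, 6, 7, 8, 9]) .nil) .nil) (.cons 4 (.emb 53 false [0, 1, 2, 3, 4, 5, 6, 7])
  (.cons 5 (.emb 53 false [0, 1, 2, 3, 4, 5, 6, 7]) .nil))))⟩

noncomputable def e61 : Ent := ⟨3, [⟨0, true, 3, 3, [1, 2, 3]⟩, ⟨1, false, 5, 5, [0]⟩, ⟨2, false, 3, 3, [0, 4,
  5]⟩, ⟨3, false, 3, 5, [0]⟩, ⟨4, true, 3, 5, [2]⟩, ⟨5, true, 3, 5, [2]⟩], .split (.deg 3 (.cons
  3 (.fill 3 6 (.fill 3 7 (.emb 60 false [0, 1, 2, 3, 4, 5, 6, 7]) .nil) .nil) (.cons 4 (.emb 52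
  false [0, 1, 3, 2]) (.cons 5 (.emb 52 false [0, 1, 3, 2]) .nil))))⟩

noncomputable def e62 : Ent := ⟨3, [⟨0, true, 3, 3, [1, 2, 3]⟩, ⟨1, false, 5, 5, [0]⟩, ⟨2, false, 3, 5, [0]⟩,
  ⟨3, false, 3, 5, [0]⟩], .split (.deg 2 (.cons 3 (.fill 2 4 (.fill 2 5 (.emb 61 false [0, 1, 2,
  3, 4, 5]) .nil) .nil) (.cons 4 (.emb 52 false [0, 1, 2, 3]) (.cons 5 (.emb 52 false [0, 1, 2,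
  3]) .nil))))⟩

noncomputable def e63 : Ent := ⟨3, [⟨0, true, 3, 3, [1]⟩, ⟨1, false, 5, 5, [0]⟩], .split (.fill 0 2 (.fill 0 3
  (.emb 62 false [0, 1, 2, 3]) .nil) .nil)⟩

noncomputable def e64 : Ent := ⟨3, [⟨0, true, 3, 3, [1, 2, 3]⟩, ⟨1, false, 4, 5, [0]⟩, ⟨2, false, 3, 3, [0, 4,
  5]⟩, ⟨3, false, 3, 3, [0, 6, 7]⟩, ⟨4, true, 3, 3, [2, 8, 9]⟩, ⟨5, true, 3, 3, [2, 10, 11]⟩,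
  ⟨6, true, 3, 3, [3, 8, 10]⟩, ⟨7, true, 4, 4, [3, 12, 13, 14]⟩, ⟨8, false, 3, 5, [4, 6]⟩, ⟨9,
  false, 3, 5, [4]⟩, ⟨10, false, 3, 5, [5, 6]⟩, ⟨11, false, 3, 5, [5]⟩, ⟨12, false, 3, 5, [7]⟩,
  ⟨13, false, 3, 5, [7]⟩, ⟨14, false, 3, 5, [7]⟩], .cert (.vert 0 (.cons 1 (.vert 3 (.cons 6
  .nil (.cons 7 .nil .nil))) (.cons 2 (.vert 6 (.cons 3 .nil (.cons 8 (.vert 3 (.cons 7 (.vert 4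
  (.cons 9 .nil .nil)) .nil)) (.cons 10 (.vert 3 (.cons 7 (.vert 5 (.cons 11 .nil .nil)) .nil))
  .nil)))) (.cons 3 (.vert 4 (.cons 2 (.vert 5 (.cons 10 (.vert 6 (.cons 8 .nil .nil)) (.cons 11
  .nil .nil))) (.cons 8 (.vert 2 (.cons 5 (.vert 6 (.cons 10 .nil .nil)) .nil)) (.cons 9 (.vert
  2 (.cons 5 .nil .nil)) .nil)))) .nil))))⟩

noncomputable def e65 : Ent := ⟨3, [⟨0, true, 3, 3, [1, 2, 3]⟩, ⟨1, false, 4, 5, [0]⟩, ⟨2, false, 3, 3, [0, 4,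
  5]⟩, ⟨3, false, 3, 3, [0, 6, 7]⟩, ⟨4, true, 3, 3, [2, 8, 9]⟩, ⟨5, true, 3, 3, [2, 10, 11]⟩,
  ⟨6, true, 3, 3, [3, 8, 10]⟩, ⟨7, true, 3, 3, [3, 9, 11]⟩, ⟨8, false, 3, 5, [4, 6]⟩, ⟨9, false,
  3, 5, [4, 7]⟩, ⟨10, false, 3, 5, [5, 6]⟩, ⟨11, false, 3, 5, [5, 7]⟩], .cert (.vert 0 (.cons 1
  .nil (.cons 2 (.vert 6 (.cons 3 (.vert 7 (.cons 9 (.vert 4 (.cons 8 .nil .nil)) (.cons 11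
  (.vert 5 (.cons 10 .nil .nil)) .nil))) (.cons 8 (.vert 3 (.cons 7 (.vert 4 (.cons 9 .nil
  .nil)) .nil)) (.cons 10 (.vert 3 (.cons 7 (.vert 5 (.cons 11 .nil .nil)) .nil)) .nil))))
  (.cons 3 (.vert 4 (.cons 2 (.vert 5 (.cons 10 (.vert 6 (.cons 8 .nil .nil)) (.cons 11 (.vert 7
  (.cons 9 .nil .nil)) .nil))) (.cons 8 (.vert 2 (.cons 5 (.vert 6 (.cons 10 .nil .nil)) .nil))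
  (.cons 9 (.vert 2 (.cons 5 (.vert 7 (.cons 11 .nil .nil)) .nil)) .nil)))) .nil))))⟩

noncomputable def e66 : Ent := ⟨3, [⟨0, true, 3, 3, [1, 2, 3]⟩, ⟨1, false, 4, 5, [0]⟩, ⟨2, false, 3, 3, [0, 4,
  5]⟩, ⟨3, false, 3, 3, [0, 6, 7]⟩, ⟨4, true, 3, 3, [2, 8, 9]⟩, ⟨5, true, 3, 3, [2, 10, 11]⟩,
  ⟨6, true, 3, 3, [3, 8, 10]⟩, ⟨7, true, 3, 3, [3, 9, 12]⟩, ⟨8, false, 3, 5, [4, 6]⟩, ⟨9, false,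
  3, 5, [4, 7]⟩, ⟨10, false, 3, 5, [5, 6]⟩, ⟨11, false, 3, 5, [5]⟩, ⟨12, false, 3, 5, [7]⟩],
  .cert (.vert 0 (.cons 1 (.vert 2 (.cons 4 (.edge 6 10 .nil (.vert 3 (.cons 7 (.vert 5 (.cons
  11 .nil .nil)) .nil))) (.cons 5 (.vert 7 (.cons 3 .nil (.cons 9 (.vert 3 (.cons 6 (.vert 4
  (.cons 8 .nil .nil)) .nil)) (.cons 12 (.vert 3 (.cons 6 .nil .nil)) .nil)))) .nil))) (.cons 2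
  (.vert 7 (.cons 3 (.vert 6 (.cons 8 (.vert 4 (.cons 9 .nil .nil)) (.cons 10 (.vert 5 (.cons 11
  .nil .nil)) .nil))) (.cons 9 (.vert 3 (.cons 6 (.vert 4 (.cons 8 .nil .nil)) .nil)) (.cons 12
  (.vert 3 (.cons 6 .nil .nil)) .nil)))) (.cons 3 (.vert 5 (.cons 2 (.vert 4 (.cons 8 (.vert 6
  (.cons 10 .nil .nil)) (.cons 9 (.vert 7 (.cons 12 .nil .nil)) .nil))) (.cons 10 (.vert 2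
  (.cons 4 (.vert 6 (.cons 8 .nil .nil)) .nil)) (.cons 11 (.vert 2 (.cons 4 .nil .nil)) .nil))))
  .nil))))⟩

noncomputable def e67 : Ent := ⟨3, [⟨0, true, 3, 3, [1, 2, 3]⟩, ⟨1, false, 4, 5, [0, 4]⟩, ⟨2, false, 3, 3, [0,
  5, 6]⟩, ⟨3, false, 3, 3, [0, 7, 8]⟩, ⟨4, true, 5, 5, [1]⟩, ⟨5, true, 3, 3, [2, 9, 10]⟩, ⟨6,
  true, 3, 3, [2, 11, 12]⟩, ⟨7, true, 3, 5, [3]⟩, ⟨8, true, 3, 3, [3, 13, 14]⟩, ⟨9, false, 3, 5,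
  [5]⟩, ⟨10, false, 3, 5, [5]⟩, ⟨11, false, 3, 5, [6]⟩, ⟨12, false, 3, 5, [6]⟩, ⟨13, false, 3,
  5, [8]⟩, ⟨14, false, 3, 5, [8]⟩], .cert (.edge 1 4 .nil (.edge 3 7 (.contr 0 .nil) (.vert 0
  (.cons 2 .nil .nil))))⟩

noncomputable def e68 : Ent := ⟨3, [⟨0, true, 3, 3, [1, 2, 3]⟩, ⟨1, false, 4, 5, [0]⟩, ⟨2, false, 3, 3, [0, 4,
  5]⟩, ⟨3, false, 3, 3, [0, 6, 7]⟩, ⟨4, true, 3, 3, [2, 8, 9]⟩, ⟨5, true, 3, 3, [2, 10, 11]⟩,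
  ⟨6, true, 3, 3, [3, 8, 10]⟩, ⟨7, true, 3, 3, [3, 12, 13]⟩, ⟨8, false, 4, 5, [4, 6]⟩, ⟨9,
  false, 3, 5, [4]⟩, ⟨10, false, 3, 5, [5, 6]⟩, ⟨11, false, 3, 5, [5]⟩, ⟨12, false, 3, 5, [7]⟩,
  ⟨13, false, 3, 5, [7]⟩], .cert (.vert 6 (.cons 3 (.vert 0 (.cons 1 .nil (.cons 2 .nil .nil)))
  (.cons 8 (.edge 0 1 (.contr 0 .nil) (.vert 3 (.cons 7 .nil .nil))) (.cons 10 (.edge 0 1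
  (.contr 0 .nil) (.vert 3 (.cons 7 .nil .nil))) .nil))))⟩

noncomputable def e69 : Ent := ⟨3, [⟨0, true, 3, 3, [1, 2, 3]⟩, ⟨1, false, 4, 5, [0, 4]⟩, ⟨2, false, 3, 3, [0,
  5, 6]⟩, ⟨3, false, 3, 3, [0, 7, 8]⟩, ⟨4, true, 3, 3, [1, 9, 12]⟩, ⟨5, true, 3, 3, [2, 9, 10]⟩,
  ⟨6, true, 3, 3, [2, 11, 12]⟩, ⟨7, true, 3, 3, [3, 9, 11]⟩, ⟨8, true, 3, 3, [3, 13, 14]⟩, ⟨9,
  false, 3, 3, [4, 5, 7]⟩, ⟨10, false, 3, 5, [5]⟩, ⟨11, false, 3, 5, [6, 7]⟩, ⟨12, false, 3, 5,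
  [4, 6]⟩, ⟨13, false, 3, 5, [8]⟩, ⟨14, false, 3, 5, [8]⟩], .cert (.vert 0 (.cons 1 (.vert 9
  (.cons 4 .nil (.cons 5 (.vert 2 (.cons 6 (.vert 4 (.cons 12 .nil .nil)) .nil)) (.cons 7 (.vert
  3 (.cons 8 (.vert 4 (.cons 12 .nil .nil)) .nil)) .nil)))) (.cons 2 (.edge 7 11 (.contr 3 .nil)
  (.vert 3 (.cons 8 (.vert 6 (.cons 12 .nil .nil)) .nil))) (.cons 3 (.vert 5 (.cons 2 (.vert 7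
  (.cons 9 .nil (.cons 11 (.vert 6 (.cons 12 .nil .nil)) .nil))) (.cons 9 (.vert 2 (.cons 6
  (.vert 7 (.cons 11 .nil .nil)) .nil)) (.cons 10 (.vert 2 (.cons 6 .nil .nil)) .nil))))
  .nil))))⟩

noncomputable def e70 : Ent := ⟨3, [⟨0, true, 3, 3, [1, 2, 3]⟩, ⟨1, false, 4, 5, [0, 4]⟩, ⟨2, false, 3, 3, [0,
  5, 6]⟩, ⟨3, false, 3, 3, [0, 7, 8]⟩, ⟨4, true, 3, 3, [1, 9, 13]⟩, ⟨5, true, 3, 3, [2, 9, 10]⟩,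
  ⟨6, true, 3, 3, [2, 11, 12]⟩, ⟨7, true, 3, 3, [3, 9, 11]⟩, ⟨8, true, 3, 3, [3, 13, 14]⟩, ⟨9,
  false, 3, 3, [4, 5, 7]⟩, ⟨10, false, 3, 5, [5]⟩, ⟨11, false, 3, 5, [6, 7]⟩, ⟨12, false, 3, 5,
  [6]⟩, ⟨13, false, 3, 5, [4, 8]⟩, ⟨14, false, 3, 5, [8]⟩], .cert (.vert 0 (.cons 1 (.vert 9
  (.cons 4 .nil (.cons 5 (.vert 2 (.cons 6 (.vert 4 (.cons 13 .nil .nil)) .nil)) (.cons 7 (.vert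
  3 (.cons 8 (.vert 4 (.cons 13 .nil .nil)) .nil)) .nil)))) (.cons 2 (.vert 3 (.cons 7 .nil
  (.cons 8 (.vert 7 (.cons 9 (.vert 5 (.cons 10 .nil .nil)) (.cons 11 (.vert 6 (.cons 12 .nil
  .nil)) .nil))) .nil))) (.cons 3 (.vert 5 (.cons 2 (.vert 7 (.cons 9 .nil (.cons 11 (.vert 6
  (.cons 12 (.vert 9 (.cons 4 .nil .nil)) .nil)) .nil))) (.cons 9 (.vert 2 (.cons 6 (.vert 7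
  (.cons 11 .nil .nil)) .nil)) (.cons 10 (.vert 2 (.cons 6 .nil .nil)) .nil)))) .nil))))⟩

noncomputable def e71 : Ent := ⟨3, [⟨0, true, 3, 3, [1, 2, 3]⟩, ⟨1, false, 4, 5, [0, 4]⟩, ⟨2, false, 3, 3, [0,
  5, 6]⟩, ⟨3, false, 3, 3, [0, 7, 8]⟩, ⟨4, true, 3, 3, [1, 9, 15]⟩, ⟨5, true, 3, 3, [2, 9, 10]⟩,
  ⟨6, true, 3, 3, [2, 11, 12]⟩, ⟨7, true, 3, 3, [3, 9, 11]⟩, ⟨8, true, 3, 3, [3, 13, 14]⟩, ⟨9,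
  false, 3, 3, [4, 5, 7]⟩, ⟨10, false, 3, 5, [5]⟩, ⟨11, false, 3, 5, [6, 7]⟩, ⟨12, false, 3, 5,
  [6]⟩, ⟨13, false, 3, 5, [8]⟩, ⟨14, false, 3, 5, [8]⟩, ⟨15, false, 3, 5, [4]⟩], .cert (.vert 0
  (.cons 1 (.vert 9 (.cons 4 .nil (.cons 5 (.vert 2 (.cons 6 (.vert 4 (.cons 15 .nil .nil))
  .nil)) (.cons 7 (.vert 3 (.cons 8 (.vert 4 (.cons 15 .nil .nil)) .nil)) .nil)))) (.cons 2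
  (.edge 7 11 (.contr 3 .nil) (.vert 3 (.cons 8 (.vert 6 (.cons 12 .nil .nil)) .nil))) (.cons 3
  (.vert 5 (.cons 2 .nil (.cons 9 (.vert 2 (.cons 6 (.vert 7 (.cons 11 .nil .nil)) .nil)) (.cons
  10 (.vert 2 (.cons 6 .nil .nil)) .nil)))) .nil))))⟩

noncomputable def e72 : Ent := ⟨3, [⟨0, true, 3, 3, [1, 2, 3]⟩, ⟨1, false, 4, 5, [0, 4]⟩, ⟨2, false, 3, 3, [0,
  5, 6]⟩, ⟨3, false, 3, 3, [0, 7, 8]⟩, ⟨4, true, 4, 4, [1, 9, 12, 15]⟩, ⟨5, true, 3, 3, [2, 9,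
  10]⟩, ⟨6, true, 3, 3, [2, 11, 12]⟩, ⟨7, true, 3, 3, [3, 9, 11]⟩, ⟨8, true, 3, 3, [3, 13, 14]⟩,
  ⟨9, false, 3, 3, [4, 5, 7]⟩, ⟨10, false, 3, 5, [5]⟩, ⟨11, false, 3, 5, [6, 7]⟩, ⟨12, false, 3,
  5, [4, 6]⟩, ⟨13, false, 3, 5, [8]⟩, ⟨14, false, 3, 5, [8]⟩, ⟨15, false, 3, 5, [4]⟩], .cert
  (.vert 0 (.cons 1 (.edge 7 11 (.contr 3 .nil) (.vert 3 (.cons 8 .nil .nil))) (.cons 2 (.edge 7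
  11 (.contr 3 .nil) (.vert 3 (.cons 8 (.vert 6 (.cons 12 .nil .nil)) .nil))) (.cons 3 (.vert 5
  (.cons 2 (.vert 7 (.cons 9 .nil (.cons 11 (.vert 6 (.cons 12 (.vert 9 (.cons 4 .nil .nil))
  .nil)) .nil))) (.cons 9 (.vert 2 (.cons 6 .nil .nil)) (.cons 10 (.vert 2 (.cons 6 .nil .nil))
  .nil)))) .nil))))⟩

noncomputable def e73 : Ent := ⟨3, [⟨0, true, 3, 3, [1, 2, 3]⟩, ⟨1, false, 4, 5, [0, 4]⟩, ⟨2, false, 3, 3, [0,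
  5, 6]⟩, ⟨3, false, 3, 3, [0, 7, 8]⟩, ⟨4, true, 3, 4, [1, 9, 15, 16]⟩, ⟨5, true, 3, 3, [2, 9,
  10]⟩, ⟨6, true, 3, 3, [2, 11, 12]⟩, ⟨7, true, 3, 3, [3, 9, 11]⟩, ⟨8, true, 3, 3, [3, 13, 14]⟩,
  ⟨9, false, 3, 3, [4, 5, 7]⟩, ⟨10, false, 3, 5, [5]⟩, ⟨11, false, 3, 5, [6, 7]⟩, ⟨12, false, 3,
  5, [6]⟩, ⟨13, false, 3, 5, [8]⟩, ⟨14, false, 3, 5, [8]⟩, ⟨15, false, 3, 5, [4]⟩, ⟨16, false,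
  3, 5, [4]⟩], .cert (.vert 0 (.cons 1 (.edge 7 11 (.contr 3 .nil) (.vert 3 (.cons 8 .nil
  .nil))) (.cons 2 (.edge 7 11 (.contr 3 .nil) (.vert 3 (.cons 8 (.vert 6 (.cons 12 .nil .nil))
  .nil))) (.cons 3 (.vert 5 (.cons 2 (.vert 7 (.cons 9 .nil (.cons 11 (.vert 6 (.cons 12 (.vert
  9 (.cons 4 .nil .nil)) .nil)) .nil))) (.cons 9 (.vert 2 (.cons 6 .nil .nil)) (.cons 10 (.vert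
  2 (.cons 6 .nil .nil)) .nil)))) .nil))))⟩

noncomputable def e74 : Ent := ⟨3, [⟨0, true, 3, 3, [1, 2, 3]⟩, ⟨1, false, 4, 5, [0]⟩, ⟨2, false, 3, 3, [0, 6,
  7]⟩, ⟨3, false, 3, 3, [0, 8, 9]⟩, ⟨4, true, 3, 5, [10]⟩, ⟨5, true, 3, 5, [12]⟩, ⟨6, true, 3,
  3, [2, 10, 11]⟩, ⟨7, true, 3, 3, [2, 12, 13]⟩, ⟨8, true, 3, 3, [3, 10, 12]⟩, ⟨9, true, 3, 3,
  [3, 14, 15]⟩, ⟨10, false, 3, 3, [4, 6, 8]⟩, ⟨11, false, 3, 5, [6]⟩, ⟨12, false, 3, 3, [5, 7,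
  8]⟩, ⟨13, false, 3, 5, [7]⟩, ⟨14, false, 3, 5, [9]⟩, ⟨15, false, 3, 5, [9]⟩], .cert (.vert 3
  (.cons 0 (.vert 6 (.cons 2 (.vert 8 (.cons 10 .nil (.cons 12 (.vert 7 (.cons 13 (.vert 10
  (.cons 4 .nil .nil)) .nil)) .nil))) (.cons 10 (.vert 2 (.cons 7 (.vert 8 (.cons 12 .nil .nil))
  .nil)) (.cons 11 (.vert 2 (.cons 7 .nil .nil)) .nil)))) (.cons 8 (.vert 2 (.cons 0 .nil (.cons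
  6 (.vert 0 (.cons 1 (.vert 10 (.cons 4 .nil .nil)) .nil)) (.cons 7 (.vert 0 (.cons 1 (.vert 12
  (.cons 5 .nil .nil)) .nil)) .nil)))) (.cons 9 (.vert 2 (.cons 0 (.vert 8 (.cons 10 (.vert 6
  (.cons 11 .nil .nil)) (.cons 12 (.vert 7 (.cons 13 .nil .nil)) .nil))) (.cons 6 (.vert 0
  (.cons 1 (.vert 7 (.cons 12 (.vert 8 (.cons 10 .nil .nil)) (.cons 13 .nil .nil))) .nil))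
  (.cons 7 (.vert 0 (.cons 1 (.vert 6 (.cons 10 (.vert 8 (.cons 12 .nil .nil)) (.cons 11 .nil
  .nil))) .nil)) .nil)))) .nil))))⟩

noncomputable def e75 : Ent := ⟨3, [⟨0, true, 3, 3, [1, 2, 3]⟩, ⟨1, false, 4, 5, [0]⟩, ⟨2, false, 3, 3, [0, 5,
  6]⟩, ⟨3, false, 3, 3, [0, 7, 8]⟩, ⟨4, true, 3, 5, [9]⟩, ⟨5, true, 3, 3, [2, 9, 10]⟩, ⟨6, true,
  3, 3, [2, 11, 12]⟩, ⟨7, true, 3, 3, [3, 9, 11]⟩, ⟨8, true, 3, 3, [3, 13, 14]⟩, ⟨9, false, 3,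
  3, [4, 5, 7]⟩, ⟨10, false, 3, 5, [5]⟩, ⟨11, false, 3, 5, [6, 7]⟩, ⟨12, false, 3, 5, [6]⟩, ⟨13,
  false, 3, 5, [8]⟩, ⟨14, false, 3, 5, [8]⟩], .split (.deg 11 (.cons 3 (.fill 11 15 (.emb 74
  false [0, 1, 2, 3, 4, 15, 5, 6, 7, 8, 9, 10, 11, 12, 13, 14]) .nil) (.cons 4 (.emb 68 false
  [0, 1, 2, 3, 6, 5, 7, 8, 11, 12, 9, 10, 13, 14]) (.cons 5 (.emb 58 false [7, 11, 3, 9, 0, 8,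
  4, 5, 1, 2, 13, 14]) .nil))))⟩

noncomputable def e76 : Ent := ⟨3, [⟨0, true, 3, 3, [1, 2, 3]⟩, ⟨1, false, 4, 5, [0]⟩, ⟨2, false, 3, 3, [0, 4,
  5]⟩, ⟨3, false, 3, 3, [0, 6, 7]⟩, ⟨4, true, 3, 3, [2, 8, 9]⟩, ⟨5, true, 3, 3, [2, 10, 11]⟩,
  ⟨6, true, 3, 3, [3, 8, 10]⟩, ⟨7, true, 3, 3, [3, 12, 13]⟩, ⟨8, false, 3, 5, [4, 6]⟩, ⟨9,
  false, 3, 5, [4]⟩, ⟨10, false, 3, 5, [5, 6]⟩, ⟨11, false, 3, 5, [5]⟩, ⟨12, false, 3, 5, [7]⟩,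
  ⟨13, false, 3, 5, [7]⟩], .split (.deg 8 (.cons 3 (.fill 8 14 (.emb 75 false [0, 1, 2, 3, 14,
  4, 5, 6, 7, 8, 9, 10, 11, 12, 13]) .nil) (.cons 4 (.emb 68 false [0, 1, 2, 3, 4, 5, 6, 7, 8,
  9, 10, 11, 12, 13]) (.cons 5 (.emb 61 false [4, 8, 2, 9, 0, 5]) .nil))))⟩

noncomputable def e77 : Ent := ⟨3, [⟨0, true, 3, 3, [1, 2, 3]⟩, ⟨1, false, 4, 5, [0, 4]⟩, ⟨2, false, 3, 3, [0,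
  5, 6]⟩, ⟨3, false, 3, 3, [0, 7, 8]⟩, ⟨4, true, 3, 3, [1, 9, 14]⟩, ⟨5, true, 3, 3, [2, 9, 10]⟩,
  ⟨6, true, 3, 3, [2, 11, 12]⟩, ⟨7, true, 3, 3, [3, 9, 11]⟩, ⟨8, true, 4, 4, [3, 10, 12, 13]⟩,
  ⟨9, false, 3, 5, [4, 5, 7]⟩, ⟨10, false, 3, 5, [5, 8]⟩, ⟨11, false, 3, 5, [6, 7]⟩, ⟨12, false,
  3, 5, [6, 8]⟩, ⟨13, false, 3, 5, [8]⟩, ⟨14, false, 3, 5, [4]⟩], .cert (.vert 0 (.cons 1 (.vert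
  7 (.cons 3 .nil (.cons 9 (.vert 3 (.cons 8 (.vert 4 (.cons 14 .nil .nil)) .nil)) (.cons 11
  (.vert 3 (.cons 8 .nil .nil)) .nil)))) (.cons 2 (.vert 3 (.cons 7 .nil (.cons 8 (.vert 7
  (.cons 9 (.vert 5 (.cons 10 .nil .nil)) (.cons 11 (.vert 6 (.cons 12 .nil .nil)) .nil)))
  .nil))) (.cons 3 (.vert 5 (.cons 2 (.vert 6 (.cons 11 (.vert 7 (.cons 9 .nil .nil)) (.cons 12
  .nil .nil))) (.cons 9 (.vert 2 (.cons 6 (.vert 7 (.cons 11 .nil .nil)) .nil)) (.cons 10 (.vert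
  2 (.cons 6 .nil .nil)) .nil)))) .nil))))⟩

noncomputable def part1 : List Ent := [e0, e1, e2, e3, e4, e5, e6, e7, e8, e9, e10, e11, e12,
  e13, e14, e15, e16, e17, e18, e19, e20, e21, e22, e23, e24, e25, e26, e27, e28, e29, e30, e31,
  e32, e33, e34, e35, e36, e37, e38, e39, e40, e41, e42, e43, e44, e45, e46, e47, e48, e49, e50,
  e51, e52, e53, e54, e55, e56, e57, e58, e59, e60, e61, e62, e63, e64, e65, e66, e67, e68, e69,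
  e70, e71, e72, e73, e74, e75, e76, e77]

end Pool.Agent.Helper76.PC
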