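import Pool.Agent.Helper76.PC.Defs

/-! MP_c33217_co: library of reducible configurations, part 2 (machine generated). -/

namespace Pool.Agent.Helper76.PC

noncomputable def e78 : Ent := ⟨3, [⟨0, true, 3, 3, [1, 2, 3]⟩, ⟨1, false, 4, 5, [0]⟩, ⟨2, false, 3, 3, [0, 5,
  6]⟩, ⟨3, false, 3, 3, [0, 7, 8]⟩, ⟨4, true, 3, 5, [9]⟩, ⟨5, true, 3, 3, [2, 9, 10]⟩, ⟨6, true,
  3, 3, [2, 11, 12]⟩, ⟨7, true, 3, 3, [3, 9, 11]⟩, ⟨8, true, 4, 4, [3, 10, 12, 13]⟩, ⟨9, false,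
  3, 3, [4, 5, 7]⟩, ⟨10, false, 3, 5, [5, 8]⟩, ⟨11, false, 3, 5, [6, 7]⟩, ⟨12, false, 3, 5, [6,
  8]⟩, ⟨13, false, 3, 5, [8]⟩], .cert (.vert 3 (.cons 0 (.vert 5 (.cons 2 (.vert 6 (.cons 11
  (.vert 7 (.cons 9 .nil .nil)) (.cons 12 .nil .nil))) (.cons 9 (.vert 2 (.cons 6 (.vert 7
  (.cons 11 .nil .nil)) .nil)) (.cons 10 (.vert 2 (.cons 6 .nil .nil)) .nil)))) (.cons 7 (.vert
  2 (.cons 0 .nil (.cons 5 (.vert 0 (.cons 1 (.vert 9 (.cons 4 .nil .nil)) .nil)) (.cons 6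
  (.vert 0 (.cons 1 .nil .nil)) .nil)))) (.cons 8 (.vert 0 (.cons 1 .nil (.cons 2 (.vert 7
  (.cons 9 (.vert 5 (.cons 10 .nil .nil)) (.cons 11 (.vert 6 (.cons 12 .nil .nil)) .nil)))
  .nil))) .nil))))⟩

noncomputable def e79 : Ent := ⟨3, [⟨0, true, 3, 3, [1, 2, 3]⟩, ⟨1, false, 4, 5, [0]⟩, ⟨2, false, 3, 5, [0,
  4]⟩, ⟨3, false, 3, 3, [0, 5, 6]⟩, ⟨4, true, 3, 3, [2, 9, 10]⟩, ⟨5, true, 3, 3, [3, 7, 9]⟩, ⟨6,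
  true, 3, 5, [3, 8, 10, 11]⟩, ⟨7, false, 4, 5, [5]⟩, ⟨8, false, 3, 5, [6]⟩, ⟨9, false, 3, 5,
  [4, 5]⟩, ⟨10, false, 3, 5, [4, 6]⟩, ⟨11, false, 3, 5, [6]⟩], .cert (.vert 0 (.cons 1 (.vert 5
  (.cons 3 .nil (.cons 7 (.vert 3 (.cons 6 .nil .nil)) (.cons 9 (.vert 3 (.cons 6 .nil .nil))
  .nil)))) (.cons 2 (.vert 5 (.cons 3 .nil (.cons 7 (.vert 3 (.cons 6 .nil .nil)) (.cons 9
  (.vert 3 (.cons 6 (.vert 4 (.cons 10 .nil .nil)) .nil)) .nil)))) (.cons 3 (.vert 5 (.cons 7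
  .nil (.cons 9 .nil .nil))) .nil))))⟩

noncomputable def e80 : Ent := ⟨3, [⟨0, true, 3, 3, [1, 2, 3]⟩, ⟨1, false, 4, 5, [0]⟩, ⟨2, false, 3, 3, [0, 4,
  5]⟩, ⟨3, false, 3, 3, [0, 6, 7]⟩, ⟨4, true, 3, 3, [2, 8, 9]⟩, ⟨5, true, 3, 3, [2, 10, 11]⟩,
  ⟨6, true, 3, 3, [3, 8, 10]⟩, ⟨7, true, 4, 4, [3, 9, 11, 12]⟩, ⟨8, false, 3, 5, [4, 6]⟩, ⟨9,
  false, 3, 5, [4, 7]⟩, ⟨10, false, 3, 5, [5, 6]⟩, ⟨11, false, 3, 5, [5, 7]⟩, ⟨12, false, 3, 5,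
  [7]⟩], .split (.deg 8 (.cons 3 (.fill 8 13 (.emb 78 false [0, 1, 2, 3, 13, 4, 5, 6, 7, 8, 9,
  10, 11, 12]) .nil) (.cons 4 (.emb 79 false [0, 1, 2, 3, 5, 6, 7, 8, 9, 10, 11, 12]) (.cons 5
  (.emb 61 false [4, 8, 2, 9, 0, 5]) .nil))))⟩

noncomputable def e81 : Ent := ⟨3, [⟨0, true, 3, 3, [1, 2, 3]⟩, ⟨1, false, 4, 5, [0]⟩, ⟨2, false, 3, 3, [0, 4,
  5]⟩, ⟨3, false, 3, 3, [0, 6, 7]⟩, ⟨4, true, 3, 3, [2, 8, 9]⟩, ⟨5, true, 3, 3, [2, 10, 11]⟩,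
  ⟨6, true, 3, 3, [3, 8, 10]⟩, ⟨7, true, 4, 4, [3, 9, 12, 13]⟩, ⟨8, false, 3, 5, [4, 6]⟩, ⟨9,
  false, 3, 5, [4, 7]⟩, ⟨10, false, 3, 5, [5, 6]⟩, ⟨11, false, 3, 5, [5]⟩, ⟨12, false, 3, 5,
  [7]⟩, ⟨13, false, 3, 5, [7]⟩], .cert (.vert 0 (.cons 1 (.vert 3 (.cons 6 .nil (.cons 7 (.vert
  5 (.cons 2 .nil (.cons 10 (.vert 2 (.cons 4 (.vert 6 (.cons 8 .nil .nil)) .nil)) (.cons 11
  (.vert 2 (.cons 4 .nil .nil)) .nil)))) .nil))) (.cons 2 (.vert 6 (.cons 3 .nil (.cons 8 (.vert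
  3 (.cons 7 (.vert 4 (.cons 9 .nil .nil)) .nil)) (.cons 10 (.vert 3 (.cons 7 (.vert 5 (.cons 11
  .nil .nil)) .nil)) .nil)))) (.cons 3 (.vert 4 (.cons 2 (.vert 5 (.cons 10 (.vert 6 (.cons 8
  .nil .nil)) (.cons 11 .nil .nil))) (.cons 8 (.vert 2 (.cons 5 (.vert 6 (.cons 10 .nil .nil))
  .nil)) (.cons 9 (.vert 2 (.cons 5 .nil .nil)) .nil)))) .nil))))⟩

noncomputable def e82 : Ent := ⟨3, [⟨0, true, 3, 3, [1, 2, 3]⟩, ⟨1, false, 4, 5, [0]⟩, ⟨2, false, 3, 3, [0, 4,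
  5]⟩, ⟨3, false, 3, 3, [0, 6, 7]⟩, ⟨4, true, 3, 3, [2, 8, 9]⟩, ⟨5, true, 3, 3, [2, 10, 11]⟩,
  ⟨6, true, 3, 3, [3, 8, 10]⟩, ⟨7, true, 3, 5, [3]⟩, ⟨8, false, 3, 5, [4, 6]⟩, ⟨9, false, 3, 5,
  [4]⟩, ⟨10, false, 3, 5, [5, 6]⟩, ⟨11, false, 3, 5, [5]⟩], .split (.deg 7 (.cons 3 (.fill 7 12
  (.fill 7 13 (.emb 76 false [0, 1, 2, 3, 4, 5, 6, 7, 8, 9, 10, 11, 12, 13]) (.cons 9 (.emb 66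
  false [0, 1, 2, 3, 4, 5, 6, 7, 8, 9, 10, 11, 12]) (.cons 11 (.emb 66 false [0, 1, 2, 3, 5, 4,
  6, 7, 10, 11, 8, 9, 12]) .nil))) (.cons 9 (.fill 7 12 (.emb 66 false [0, 1, 2, 3, 4, 5, 6, 7,
  8, 9, 10, 11, 12]) (.cons 11 (.emb 65 false [0, 1, 2, 3, 4, 5, 6, 7, 8, 9, 10, 11]) .nil))
  (.cons 11 (.fill 7 12 (.emb 66 false [0, 1, 2, 3, 5, 4, 6, 7, 10, 11, 8, 9, 12]) (.cons 9
  (.emb 65 false [0, 1, 2, 3, 4, 5, 6, 7, 8, 9, 10, 11]) .nil)) .nil))) (.cons 4 (.fill 7 12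
  (.fill 7 13 (.fill 7 14 (.emb 64 false [0, 1, 2, 3, 4, 5, 6, 7, 8, 9, 10, 11, 12, 13, 14])
  (.cons 9 (.emb 81 false [0, 1, 2, 3, 4, 5, 6, 7, 8, 9, 10, 11, 12, 13]) (.cons 11 (.emb 81
  false [0, 1, 2, 3, 5, 4, 6, 7, 10, 11, 8, 9, 12, 13]) .nil))) (.cons 9 (.fill 7 13 (.emb 81
  false [0, 1, 2, 3, 4, 5, 6, 7, 8, 9, 10, 11, 12, 13]) (.cons 11 (.emb 80 false [0, 1, 2, 3, 4,
  5, 6, 7, 8, 9, 10, 11, 12]) .nil)) (.cons 11 (.fill 7 13 (.emb 81 false [0, 1, 2, 3, 5, 4, 6,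
  7, 10, 11, 8, 9, 12, 13]) (.cons 9 (.emb 80 false [0, 1, 2, 3, 4, 5, 6, 7, 8, 9, 10, 11, 12])
  .nil)) .nil))) (.cons 9 (.fill 7 12 (.fill 7 13 (.emb 81 false [0, 1, 2, 3, 4, 5, 6, 7, 8, 9,
  10, 11, 12, 13]) (.cons 11 (.emb 80 false [0, 1, 2, 3, 4, 5, 6, 7, 8, 9, 10, 11, 12]) .nil))
  (.cons 11 (.fill 7 12 (.emb 80 false [0, 1, 2, 3, 4, 5, 6, 7, 8, 9, 10, 11, 12]) .nil) .nil))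
  (.cons 11 (.fill 7 12 (.fill 7 13 (.emb 81 false [0, 1, 2, 3, 5, 4, 6, 7, 10, 11, 8, 9, 12,
  13]) (.cons 9 (.emb 80 false [0, 1, 2, 3, 4, 5, 6, 7, 8, 9, 10, 11, 12]) .nil)) (.cons 9
  (.fill 7 12 (.emb 80 false [0, 1, 2, 3, 4, 5, 6, 7, 8, 9, 10, 11, 12]) .nil) .nil)) .nil)))
  (.cons 5 (.emb 53 true [3, 7, 0, 6, 1, 2, 8, 10]) .nil))))⟩

noncomputable def e83 : Ent := ⟨3, [⟨0, true, 3, 3, [1, 2, 3]⟩, ⟨1, false, 4, 4, [0, 4, 5, 6]⟩, ⟨2, false, 3,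
  3, [0, 7, 8]⟩, ⟨3, false, 3, 3, [0, 9, 10]⟩, ⟨4, true, 3, 3, [1, 11, 13]⟩, ⟨5, true, 3, 5,
  [1]⟩, ⟨6, true, 3, 5, [1]⟩, ⟨7, true, 3, 3, [2, 11, 12]⟩, ⟨8, true, 3, 3, [2, 13, 14]⟩, ⟨9,
  true, 3, 3, [3, 11, 15]⟩, ⟨10, true, 3, 5, [3]⟩, ⟨11, false, 3, 3, [4, 7, 9]⟩, ⟨12, false, 3,
  5, [7]⟩, ⟨13, false, 3, 5, [4, 8]⟩, ⟨14, false, 3, 5, [8]⟩, ⟨15, false, 3, 5, [9]⟩], .cert
  (.vert 0 (.cons 1 (.vert 7 (.cons 2 (.vert 4 (.cons 11 .nil (.cons 13 (.vert 8 (.cons 14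
  (.vert 11 (.cons 9 .nil .nil)) .nil)) .nil))) (.cons 11 (.vert 2 (.cons 8 (.vert 4 (.cons 13
  .nil .nil)) .nil)) (.cons 12 (.vert 2 (.cons 8 .nil .nil)) .nil)))) (.cons 2 (.vert 7 (.cons
  11 (.vert 4 (.cons 1 .nil (.cons 13 (.vert 8 (.cons 14 .nil .nil)) .nil))) (.cons 12 (.vert 4
  (.cons 1 (.vert 11 (.cons 9 (.vert 3 (.cons 10 .nil .nil)) .nil)) (.cons 11 .nil (.cons 13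
  (.vert 8 (.cons 14 (.vert 11 (.cons 9 .nil .nil)) .nil)) .nil)))) .nil))) (.cons 3 (.vert 7
  (.cons 2 (.vert 4 (.cons 1 (.vert 11 (.cons 9 .nil .nil)) (.cons 11 (.vert 9 (.cons 15 .nil
  .nil)) (.cons 13 (.vert 8 (.cons 14 (.vert 11 (.cons 9 .nil .nil)) .nil)) .nil)))) (.cons 11
  (.vert 2 (.cons 8 (.vert 9 (.cons 15 .nil .nil)) .nil)) (.cons 12 (.vert 2 (.cons 8 .nil
  .nil)) .nil)))) .nil))))⟩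

noncomputable def e84 : Ent := ⟨3, [⟨0, true, 3, 3, [1, 2, 3]⟩, ⟨1, false, 4, 5, [0, 4]⟩, ⟨2, false, 3, 3, [0,
  5, 6]⟩, ⟨3, false, 3, 3, [0, 7, 8]⟩, ⟨4, true, 3, 3, [1, 9, 14]⟩, ⟨5, true, 3, 3, [2, 9, 10]⟩,
  ⟨6, true, 3, 3, [2, 11, 12]⟩, ⟨7, true, 3, 3, [3, 9, 13]⟩, ⟨8, true, 3, 3, [3, 11, 15]⟩, ⟨9,
  false, 3, 3, [4, 5, 7]⟩, ⟨10, false, 3, 5, [5]⟩, ⟨11, false, 3, 5, [6, 8]⟩, ⟨12, false, 3, 5,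
  [6]⟩, ⟨13, false, 3, 5, [7]⟩, ⟨14, false, 3, 5, [4]⟩, ⟨15, false, 3, 5, [8]⟩], .cert (.vert 0
  (.cons 1 (.vert 9 (.cons 4 .nil (.cons 5 (.vert 2 (.cons 6 (.vert 4 (.cons 14 .nil .nil))
  .nil)) (.cons 7 (.vert 3 (.cons 8 (.vert 4 (.cons 14 .nil .nil)) .nil)) .nil)))) (.cons 2
  (.edge 7 13 (.contr 3 .nil) (.vert 3 (.cons 8 .nil .nil))) (.cons 3 (.edge 5 10 (.contr 2
  .nil) (.vert 2 (.cons 6 .nil .nil))) .nil))))⟩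

noncomputable def e85 : Ent := ⟨3, [⟨0, true, 3, 3, [1, 2, 3]⟩, ⟨1, false, 4, 5, [0, 4]⟩, ⟨2, false, 3, 3, [0,
  5, 6]⟩, ⟨3, false, 3, 3, [0, 7, 8]⟩, ⟨4, true, 3, 3, [1, 9, 14]⟩, ⟨5, true, 3, 3, [2, 9, 10]⟩,
  ⟨6, true, 3, 3, [2, 11, 12]⟩, ⟨7, true, 3, 3, [3, 9, 13]⟩, ⟨8, true, 3, 3, [3, 15, 16]⟩, ⟨9,
  false, 3, 3, [4, 5, 7]⟩, ⟨10, false, 3, 5, [5]⟩, ⟨11, false, 3, 5, [6]⟩, ⟨12, false, 3, 5,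
  [6]⟩, ⟨13, false, 3, 5, [7]⟩, ⟨14, false, 3, 5, [4]⟩, ⟨15, false, 3, 5, [8]⟩, ⟨16, false, 3,
  5, [8]⟩], .cert (.vert 0 (.cons 1 (.vert 9 (.cons 4 .nil (.cons 5 (.vert 2 (.cons 6 (.vert 4
  (.cons 14 .nil .nil)) .nil)) (.cons 7 (.vert 3 (.cons 8 (.vert 4 (.cons 14 .nil .nil)) .nil))
  .nil)))) (.cons 2 (.edge 7 13 (.contr 3 .nil) (.vert 3 (.cons 8 .nil .nil))) (.cons 3 (.edge 5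
  10 (.contr 2 .nil) (.vert 2 (.cons 6 .nil .nil))) .nil))))⟩

noncomputable def e86 : Ent := ⟨3, [⟨0, true, 3, 3, [1, 2, 3]⟩, ⟨1, false, 4, 5, [0, 4]⟩, ⟨2, false, 3, 3, [0,
  5, 6]⟩, ⟨3, false, 3, 3, [0, 7, 8]⟩, ⟨4, true, 3, 3, [1, 9, 14]⟩, ⟨5, true, 3, 3, [2, 9, 10]⟩,
  ⟨6, true, 3, 3, [2, 11, 12]⟩, ⟨7, true, 3, 3, [3, 9, 13]⟩, ⟨8, true, 4, 5, [3, 10, 11, 14]⟩,
  ⟨9, false, 3, 3, [4, 5, 7]⟩, ⟨10, false, 3, 5, [5, 8]⟩, ⟨11, false, 3, 5, [6, 8]⟩, ⟨12, false,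
  3, 5, [6]⟩, ⟨13, false, 3, 5, [7]⟩, ⟨14, false, 3, 5, [4, 8]⟩], .cert (.vert 0 (.cons 1 (.vert
  9 (.cons 4 .nil (.cons 5 (.vert 2 (.cons 6 (.vert 4 (.cons 14 .nil .nil)) .nil)) (.cons 7
  (.vert 3 (.cons 8 (.vert 4 (.cons 14 .nil .nil)) .nil)) .nil)))) (.cons 2 (.vert 7 (.cons 3
  .nil (.cons 9 (.vert 3 (.cons 8 (.vert 5 (.cons 10 .nil .nil)) .nil)) (.cons 13 (.vert 3
  (.cons 8 .nil .nil)) .nil)))) (.cons 3 (.edge 5 10 (.contr 2 .nil) (.vert 2 (.cons 6 .nil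
  .nil))) .nil))))⟩

noncomputable def e87 : Ent := ⟨3, [⟨0, true, 3, 3, [1, 2, 3]⟩, ⟨1, false, 4, 5, [0, 4]⟩, ⟨2, false, 3, 3, [0,
  5, 6]⟩, ⟨3, false, 3, 3, [0, 7, 8]⟩, ⟨4, true, 3, 3, [1, 9, 14]⟩, ⟨5, true, 3, 3, [2, 9, 10]⟩,
  ⟨6, true, 3, 3, [2, 11, 12]⟩, ⟨7, true, 3, 3, [3, 9, 13]⟩, ⟨8, true, 4, 4, [3, 10, 11, 15]⟩,
  ⟨9, false, 3, 3, [4, 5, 7]⟩, ⟨10, false, 3, 5, [5, 8]⟩, ⟨11, false, 3, 5, [6, 8]⟩, ⟨12, false,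
  3, 5, [6]⟩, ⟨13, false, 3, 5, [7]⟩, ⟨14, false, 3, 5, [4]⟩, ⟨15, false, 3, 5, [8]⟩], .cert
  (.vert 0 (.cons 1 (.vert 9 (.cons 4 .nil (.cons 5 (.vert 2 (.cons 6 (.vert 4 (.cons 14 .nil
  .nil)) .nil)) (.cons 7 (.vert 3 (.cons 8 (.vert 4 (.cons 14 .nil .nil)) .nil)) .nil)))) (.cons
  2 (.vert 7 (.cons 3 .nil (.cons 9 (.vert 3 (.cons 8 .nil .nil)) (.cons 13 (.vert 3 (.cons 8
  .nil .nil)) .nil)))) (.cons 3 (.edge 5 10 (.contr 2 .nil) (.vert 2 (.cons 6 .nil .nil)))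
  .nil))))⟩

noncomputable def e88 : Ent := ⟨3, [⟨0, true, 3, 3, [1, 2, 3]⟩, ⟨1, false, 4, 5, [0, 4]⟩, ⟨2, false, 3, 3, [0,
  5, 6]⟩, ⟨3, false, 3, 3, [0, 7, 8]⟩, ⟨4, true, 3, 3, [1, 9, 14]⟩, ⟨5, true, 3, 3, [2, 9, 10]⟩,
  ⟨6, true, 3, 3, [2, 11, 12]⟩, ⟨7, true, 3, 3, [3, 9, 13]⟩, ⟨8, true, 4, 5, [3, 10, 14, 15]⟩,
  ⟨9, false, 3, 3, [4, 5, 7]⟩, ⟨10, false, 3, 5, [5, 8]⟩, ⟨11, false, 3, 5, [6]⟩, ⟨12, false, 3,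
  5, [6]⟩, ⟨13, false, 3, 5, [7]⟩, ⟨14, false, 3, 5, [4, 8]⟩, ⟨15, false, 3, 5, [8]⟩], .cert
  (.vert 0 (.cons 1 (.vert 9 (.cons 4 .nil (.cons 5 (.vert 2 (.cons 6 (.vert 4 (.cons 14 .nil
  .nil)) .nil)) (.cons 7 (.vert 3 (.cons 8 (.vert 4 (.cons 14 .nil .nil)) .nil)) .nil)))) (.cons
  2 (.vert 7 (.cons 3 .nil (.cons 9 (.vert 3 (.cons 8 (.vert 5 (.cons 10 .nil .nil)) .nil))
  (.cons 13 (.vert 3 (.cons 8 .nil .nil)) .nil)))) (.cons 3 (.edge 5 10 (.contr 2 .nil) (.vert 2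
  (.cons 6 .nil .nil))) .nil))))⟩

noncomputable def e89 : Ent := ⟨3, [⟨0, true, 3, 3, [1, 2, 3]⟩, ⟨1, false, 4, 5, [0, 4]⟩, ⟨2, false, 3, 3, [0,
  5, 6]⟩, ⟨3, false, 3, 3, [0, 7, 8]⟩, ⟨4, true, 3, 3, [1, 9, 14]⟩, ⟨5, true, 3, 3, [2, 9, 10]⟩,
  ⟨6, true, 3, 3, [2, 11, 12]⟩, ⟨7, true, 3, 3, [3, 9, 13]⟩, ⟨8, true, 4, 4, [3, 10, 15, 16]⟩,
  ⟨9, false, 3, 3, [4, 5, 7]⟩, ⟨10, false, 3, 5, [5, 8]⟩, ⟨11, false, 3, 5, [6]⟩, ⟨12, false, 3,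
  5, [6]⟩, ⟨13, false, 3, 5, [7]⟩, ⟨14, false, 3, 5, [4]⟩, ⟨15, false, 3, 5, [8]⟩, ⟨16, false,
  3, 5, [8]⟩], .cert (.vert 0 (.cons 1 (.vert 9 (.cons 4 .nil (.cons 5 (.vert 2 (.cons 6 (.vert
  4 (.cons 14 .nil .nil)) .nil)) (.cons 7 (.vert 3 (.cons 8 (.vert 4 (.cons 14 .nil .nil))
  .nil)) .nil)))) (.cons 2 (.vert 7 (.cons 3 .nil (.cons 9 (.vert 3 (.cons 8 .nil .nil)) (.cons
  13 (.vert 3 (.cons 8 .nil .nil)) .nil)))) (.cons 3 (.edge 5 10 (.contr 2 .nil) (.vert 2 (.cons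
  6 .nil .nil))) .nil))))⟩

noncomputable def e90 : Ent := ⟨3, [⟨0, true, 3, 3, [1, 2, 3]⟩, ⟨1, false, 4, 5, [0, 4]⟩, ⟨2, false, 3, 3, [0,
  5, 6]⟩, ⟨3, false, 3, 3, [0, 7, 8]⟩, ⟨4, true, 3, 3, [1, 9, 14]⟩, ⟨5, true, 3, 3, [2, 9, 10]⟩,
  ⟨6, true, 3, 3, [2, 11, 12]⟩, ⟨7, true, 3, 3, [3, 9, 13]⟩, ⟨8, true, 4, 4, [3, 11, 14, 15]⟩,
  ⟨9, false, 3, 3, [4, 5, 7]⟩, ⟨10, false, 3, 5, [5]⟩, ⟨11, false, 3, 5, [6, 8]⟩, ⟨12, false, 3,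
  5, [6]⟩, ⟨13, false, 3, 5, [7]⟩, ⟨14, false, 3, 5, [4, 8]⟩, ⟨15, false, 3, 5, [8]⟩], .cert
  (.vert 0 (.cons 1 (.vert 9 (.cons 4 .nil (.cons 5 (.vert 2 (.cons 6 (.vert 4 (.cons 14 .nil
  .nil)) .nil)) (.cons 7 (.vert 3 (.cons 8 .nil .nil)) .nil)))) (.cons 2 (.vert 7 (.cons 3 .nil
  (.cons 9 (.vert 3 (.cons 8 (.vert 5 (.cons 10 .nil .nil)) .nil)) (.cons 13 (.vert 3 (.cons 8
  .nil .nil)) .nil)))) (.cons 3 (.edge 5 10 (.contr 2 .nil) (.vert 2 (.cons 6 .nil .nil)))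
  .nil))))⟩

noncomputable def e91 : Ent := ⟨3, [⟨0, true, 3, 3, [1, 2, 3]⟩, ⟨1, false, 4, 5, [0, 4]⟩, ⟨2, false, 3, 3, [0,
  5, 6]⟩, ⟨3, false, 3, 3, [0, 7, 8]⟩, ⟨4, true, 3, 3, [1, 9, 14]⟩, ⟨5, true, 3, 3, [2, 9, 10]⟩,
  ⟨6, true, 3, 3, [2, 11, 12]⟩, ⟨7, true, 3, 3, [3, 9, 13]⟩, ⟨8, true, 4, 4, [3, 11, 15, 16]⟩,
  ⟨9, false, 3, 3, [4, 5, 7]⟩, ⟨10, false, 3, 5, [5]⟩, ⟨11, false, 3, 5, [6, 8]⟩, ⟨12, false, 3,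
  5, [6]⟩, ⟨13, false, 3, 5, [7]⟩, ⟨14, false, 3, 5, [4]⟩, ⟨15, false, 3, 5, [8]⟩, ⟨16, false,
  3, 5, [8]⟩], .cert (.vert 0 (.cons 1 (.vert 9 (.cons 4 .nil (.cons 5 (.vert 2 (.cons 6 .nil
  .nil)) (.cons 7 (.vert 3 (.cons 8 (.vert 4 (.cons 14 .nil .nil)) .nil)) .nil)))) (.cons 2
  (.edge 7 13 (.contr 3 .nil) (.vert 3 (.cons 8 .nil .nil))) (.cons 3 (.edge 5 10 (.contr 2
  .nil) (.vert 2 (.cons 6 .nil .nil))) .nil))))⟩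

noncomputable def e92 : Ent := ⟨3, [⟨0, true, 3, 3, [1, 2, 3]⟩, ⟨1, false, 4, 5, [0, 4]⟩, ⟨2, false, 3, 3, [0,
  5, 6]⟩, ⟨3, false, 3, 3, [0, 7, 8]⟩, ⟨4, true, 3, 3, [1, 9, 14]⟩, ⟨5, true, 3, 3, [2, 9, 10]⟩,
  ⟨6, true, 3, 3, [2, 11, 12]⟩, ⟨7, true, 3, 3, [3, 9, 13]⟩, ⟨8, true, 4, 4, [3, 14, 15, 16]⟩,
  ⟨9, false, 3, 3, [4, 5, 7]⟩, ⟨10, false, 3, 5, [5]⟩, ⟨11, false, 3, 5, [6]⟩, ⟨12, false, 3, 5,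
  [6]⟩, ⟨13, false, 3, 5, [7]⟩, ⟨14, false, 3, 5, [4, 8]⟩, ⟨15, false, 3, 5, [8]⟩, ⟨16, false,
  3, 5, [8]⟩], .cert (.vert 0 (.cons 1 (.vert 9 (.cons 4 .nil (.cons 5 (.vert 2 (.cons 6 (.vert
  4 (.cons 14 .nil .nil)) .nil)) (.cons 7 (.vert 3 (.cons 8 .nil .nil)) .nil)))) (.cons 2 (.vert
  7 (.cons 3 .nil (.cons 9 (.vert 3 (.cons 8 (.vert 5 (.cons 10 .nil .nil)) .nil)) (.cons 13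
  (.vert 3 (.cons 8 .nil .nil)) .nil)))) (.cons 3 (.edge 5 10 (.contr 2 .nil) (.vert 2 (.cons 6
  .nil .nil))) .nil))))⟩

noncomputable def e93 : Ent := ⟨3, [⟨0, true, 3, 3, [1, 2, 3]⟩, ⟨1, false, 4, 5, [0, 4]⟩, ⟨2, false, 3, 3, [0,
  5, 6]⟩, ⟨3, false, 3, 3, [0, 7, 8]⟩, ⟨4, true, 3, 3, [1, 9, 14]⟩, ⟨5, true, 3, 3, [2, 9, 10]⟩,
  ⟨6, true, 3, 3, [2, 11, 12]⟩, ⟨7, true, 3, 3, [3, 9, 13]⟩, ⟨8, true, 4, 4, [3, 15, 16, 17]⟩,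
  ⟨9, false, 3, 3, [4, 5, 7]⟩, ⟨10, false, 3, 5, [5]⟩, ⟨11, false, 3, 5, [6]⟩, ⟨12, false, 3, 5,
  [6]⟩, ⟨13, false, 3, 5, [7]⟩, ⟨14, false, 3, 5, [4]⟩, ⟨15, false, 3, 5, [8]⟩, ⟨16, false, 3,
  5, [8]⟩, ⟨17, false, 3, 5, [8]⟩], .cert (.vert 0 (.cons 1 (.vert 9 (.cons 4 .nil (.cons 5
  (.vert 2 (.cons 6 .nil .nil)) (.cons 7 (.vert 3 (.cons 8 (.vert 4 (.cons 14 .nil .nil)) .nil))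
  .nil)))) (.cons 2 (.edge 7 13 (.contr 3 .nil) (.vert 3 (.cons 8 .nil .nil))) (.cons 3 (.edge 5
  10 (.contr 2 .nil) (.vert 2 (.cons 6 .nil .nil))) .nil))))⟩

noncomputable def e94 : Ent := ⟨3, [⟨0, true, 3, 3, [1, 2, 3]⟩, ⟨1, false, 4, 4, [0, 4, 5, 6]⟩, ⟨2, false, 3,
  3, [0, 7, 8]⟩, ⟨3, false, 3, 3, [0, 9, 10]⟩, ⟨4, true, 3, 3, [1, 11, 16]⟩, ⟨5, true, 3, 5,
  [1]⟩, ⟨6, true, 3, 5, [1]⟩, ⟨7, true, 3, 3, [2, 11, 12]⟩, ⟨8, true, 3, 3, [2, 13, 14]⟩, ⟨9,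
  true, 3, 3, [3, 11, 15]⟩, ⟨10, true, 3, 5, [3]⟩, ⟨11, false, 3, 3, [4, 7, 9]⟩, ⟨12, false, 3,
  5, [7]⟩, ⟨13, false, 3, 5, [8]⟩, ⟨14, false, 3, 5, [8]⟩, ⟨15, false, 3, 5, [9]⟩, ⟨16, false,
  3, 5, [4]⟩], .split (.deg 10 (.cons 3 (.fill 10 17 (.fill 10 18 (.emb 85 false [0, 1, 2, 3, 4,
  7, 8, 9, 10, 11, 12, 13, 14, 15, 16, 17, 18]) (.cons 12 (.emb 71 false [0, 1, 3, 2, 4, 9, 10,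
  7, 8, 11, 15, 12, 17, 13, 14, 16]) (.cons 13 (.emb 84 false [0, 1, 2, 3, 4, 7, 8, 9, 10, 11,
  12, 13, 14, 15, 16, 17]) (.cons 14 (.emb 84 false [0, 1, 2, 3, 4, 7, 8, 9, 10, 11, 12, 14, 13,
  15, 16, 17]) (.cons 16 (.emb 83 false [0, 1, 3, 2, 4, 5, 6, 9, 10, 7, 8, 11, 15, 16, 17, 12])
  .nil))))) (.cons 12 (.fill 10 17 (.emb 71 false [0, 1, 3, 2, 4, 9, 10, 7, 8, 11, 15, 12, 17,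
  13, 14, 16]) (.cons 13 (.emb 66 false [0, 1, 2, 3, 7, 8, 10, 9, 12, 11, 13, 14, 15]) (.cons 14
  (.emb 66 false [0, 1, 2, 3, 7, 8, 10, 9, 12, 11, 14, 13, 15]) (.cons 16 (.emb 69 false [0, 1,
  3, 2, 4, 9, 10, 7, 8, 11, 15, 12, 16, 13, 14]) .nil)))) (.cons 13 (.fill 10 17 (.emb 84 false
  [0, 1, 2, 3, 4, 7, 8, 9, 10, 11, 12, 13, 14, 15, 16, 17]) (.cons 12 (.emb 66 false [0, 1, 2,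
  3, 7, 8, 10, 9, 12, 11, 13, 14, 15]) (.cons 16 (.emb 83 false [0, 1, 3, 2, 4, 5, 6, 9, 10, 7,
  8, 11, 15, 16, 13, 12]) .nil))) (.cons 14 (.fill 10 17 (.emb 84 false [0, 1, 2, 3, 4, 7, 8, 9,
  10, 11, 12, 14, 13, 15, 16, 17]) (.cons 12 (.emb 66 false [0, 1, 2, 3, 7, 8, 10, 9, 12, 11,
  14, 13, 15]) (.cons 16 (.emb 83 false [0, 1, 3, 2, 4, 5, 6, 9, 10, 7, 8, 11, 15, 16, 14, 12])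
  .nil))) (.cons 16 (.fill 10 17 (.emb 83 false [0, 1, 3, 2, 4, 5, 6, 9, 10, 7, 8, 11, 15, 16,
  17, 12]) (.cons 12 (.emb 69 false [0, 1, 3, 2, 4, 9, 10, 7, 8, 11, 15, 12, 16, 13, 14]) (.cons
  13 (.emb 83 false [0, 1, 3, 2, 4, 5, 6, 9, 10, 7, 8, 11, 15, 16, 13, 12]) (.cons 14 (.emb 83
  false [0, 1, 3, 2, 4, 5, 6, 9, 10, 7, 8, 11, 15, 16, 14, 12]) .nil)))) .nil))))) (.cons 4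
  (.fill 10 17 (.fill 10 18 (.fill 10 19 (.emb 93 false [0, 1, 2, 3, 4, 7, 8, 9, 10, 11, 12, 13,
  14, 15, 16, 17, 18, 19]) (.cons 12 (.emb 89 false [0, 1, 2, 3, 4, 7, 8, 9, 10, 11, 12, 13, 14,
  15, 16, 17, 18]) (.cons 13 (.emb 91 false [0, 1, 2, 3, 4, 7, 8, 9, 10, 11, 12, 13, 14, 15, 16,
  17, 18]) (.cons 14 (.emb 91 false [0, 1, 2, 3, 4, 7, 8, 9, 10, 11, 12, 14, 13, 15, 16, 17,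
  18]) (.cons 16 (.emb 92 false [0, 1, 2, 3, 4, 7, 8, 9, 10, 11, 12, 13, 14, 15, 16, 17, 18])
  .nil))))) (.cons 12 (.fill 10 18 (.emb 89 false [0, 1, 2, 3, 4, 7, 8, 9, 10, 11, 12, 13, 14,
  15, 16, 17, 18]) (.cons 13 (.emb 87 false [0, 1, 2, 3, 4, 7, 8, 9, 10, 11, 12, 13, 14, 15, 16,
  17]) (.cons 14 (.emb 87 false [0, 1, 2, 3, 4, 7, 8, 9, 10, 11, 12, 14, 13, 15, 16, 17]) (.cons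
  16 (.emb 88 false [0, 1, 2, 3, 4, 7, 8, 9, 10, 11, 12, 13, 14, 15, 16, 17]) .nil)))) (.cons 13
  (.fill 10 18 (.emb 91 false [0, 1, 2, 3, 4, 7, 8, 9, 10, 11, 12, 13, 14, 15, 16, 17, 18])
  (.cons 12 (.emb 87 false [0, 1, 2, 3, 4, 7, 8, 9, 10, 11, 12, 13, 14, 15, 16, 17]) (.cons 16
  (.emb 90 false [0, 1, 2, 3, 4, 7, 8, 9, 10, 11, 12, 13, 14, 15, 16, 17]) .nil))) (.cons 14
  (.fill 10 18 (.emb 91 false [0, 1, 2, 3, 4, 7, 8, 9, 10, 11, 12, 14, 13, 15, 16, 17, 18])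
  (.cons 12 (.emb 87 false [0, 1, 2, 3, 4, 7, 8, 9, 10, 11, 12, 14, 13, 15, 16, 17]) (.cons 16
  (.emb 90 false [0, 1, 2, 3, 4, 7, 8, 9, 10, 11, 12, 14, 13, 15, 16, 17]) .nil))) (.cons 16
  (.fill 10 18 (.emb 92 false [0, 1, 2, 3, 4, 7, 8, 9, 10, 11, 12, 13, 14, 15, 16, 17, 18])
  (.cons 12 (.emb 88 false [0, 1, 2, 3, 4, 7, 8, 9, 10, 11, 12, 13, 14, 15, 16, 17]) (.cons 13
  (.emb 90 false [0, 1, 2, 3, 4, 7, 8, 9, 10, 11, 12, 13, 14, 15, 16, 17]) (.cons 14 (.emb 90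
  false [0, 1, 2, 3, 4, 7, 8, 9, 10, 11, 12, 14, 13, 15, 16, 17]) .nil)))) .nil))))) (.cons 12
  (.fill 10 17 (.fill 10 18 (.emb 89 false [0, 1, 2, 3, 4, 7, 8, 9, 10, 11, 12, 13, 14, 15, 16,
  17, 18]) (.cons 13 (.emb 87 false [0, 1, 2, 3, 4, 7, 8, 9, 10, 11, 12, 13, 14, 15, 16, 17])
  (.cons 14 (.emb 87 false [0, 1, 2, 3, 4, 7, 8, 9, 10, 11, 12, 14, 13, 15, 16, 17]) (.cons 16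
  (.emb 88 false [0, 1, 2, 3, 4, 7, 8, 9, 10, 11, 12, 13, 14, 15, 16, 17]) .nil)))) (.cons 13
  (.fill 10 17 (.emb 87 false [0, 1, 2, 3, 4, 7, 8, 9, 10, 11, 12, 13, 14, 15, 16, 17]) (.cons
  16 (.emb 86 false [0, 1, 2, 3, 4, 7, 8, 9, 10, 11, 12, 13, 14, 15, 16]) .nil)) (.cons 14
  (.fill 10 17 (.emb 87 false [0, 1, 2, 3, 4, 7, 8, 9, 10, 11, 12, 14, 13, 15, 16, 17]) (.cons
  16 (.emb 86 false [0, 1, 2, 3, 4, 7, 8, 9, 10, 11, 12, 14, 13, 15, 16]) .nil)) (.cons 16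
  (.fill 10 17 (.emb 88 false [0, 1, 2, 3, 4, 7, 8, 9, 10, 11, 12, 13, 14, 15, 16, 17]) (.cons
  13 (.emb 86 false [0, 1, 2, 3, 4, 7, 8, 9, 10, 11, 12, 13, 14, 15, 16]) (.cons 14 (.emb 86
  false [0, 1, 2, 3, 4, 7, 8, 9, 10, 11, 12, 14, 13, 15, 16]) .nil))) .nil)))) (.cons 13 (.fill
  10 17 (.fill 10 18 (.emb 91 false [0, 1, 2, 3, 4, 7, 8, 9, 10, 11, 12, 13, 14, 15, 16, 17,
  18]) (.cons 12 (.emb 87 false [0, 1, 2, 3, 4, 7, 8, 9, 10, 11, 12, 13, 14, 15, 16, 17]) (.cons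
  16 (.emb 90 false [0, 1, 2, 3, 4, 7, 8, 9, 10, 11, 12, 13, 14, 15, 16, 17]) .nil))) (.cons 12
  (.fill 10 17 (.emb 87 false [0, 1, 2, 3, 4, 7, 8, 9, 10, 11, 12, 13, 14, 15, 16, 17]) (.cons
  16 (.emb 86 false [0, 1, 2, 3, 4, 7, 8, 9, 10, 11, 12, 13, 14, 15, 16]) .nil)) (.cons 16
  (.fill 10 17 (.emb 90 false [0, 1, 2, 3, 4, 7, 8, 9, 10, 11, 12, 13, 14, 15, 16, 17]) (.cons
  12 (.emb 86 false [0, 1, 2, 3, 4, 7, 8, 9, 10, 11, 12, 13, 14, 15, 16]) .nil)) .nil))) (.cons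
  14 (.fill 10 17 (.fill 10 18 (.emb 91 false [0, 1, 2, 3, 4, 7, 8, 9, 10, 11, 12, 14, 13, 15,
  16, 17, 18]) (.cons 12 (.emb 87 false [0, 1, 2, 3, 4, 7, 8, 9, 10, 11, 12, 14, 13, 15, 16,
  17]) (.cons 16 (.emb 90 false [0, 1, 2, 3, 4, 7, 8, 9, 10, 11, 12, 14, 13, 15, 16, 17])
  .nil))) (.cons 12 (.fill 10 17 (.emb 87 false [0, 1, 2, 3, 4, 7, 8, 9, 10, 11, 12, 14, 13, 15,
  16, 17]) (.cons 16 (.emb 86 false [0, 1, 2, 3, 4, 7, 8, 9, 10, 11, 12, 14, 13, 15, 16]) .nil))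
  (.cons 16 (.fill 10 17 (.emb 90 false [0, 1, 2, 3, 4, 7, 8, 9, 10, 11, 12, 14, 13, 15, 16,
  17]) (.cons 12 (.emb 86 false [0, 1, 2, 3, 4, 7, 8, 9, 10, 11, 12, 14, 13, 15, 16]) .nil))
  .nil))) (.cons 16 (.fill 10 17 (.fill 10 18 (.emb 92 false [0, 1, 2, 3, 4, 7, 8, 9, 10, 11,
  12, 13, 14, 15, 16, 17, 18]) (.cons 12 (.emb 88 false [0, 1, 2, 3, 4, 7, 8, 9, 10, 11, 12, 13,
  14, 15, 16, 17]) (.cons 13 (.emb 90 false [0, 1, 2, 3, 4, 7, 8, 9, 10, 11, 12, 13, 14, 15, 16,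
  17]) (.cons 14 (.emb 90 false [0, 1, 2, 3, 4, 7, 8, 9, 10, 11, 12, 14, 13, 15, 16, 17])
  .nil)))) (.cons 12 (.fill 10 17 (.emb 88 false [0, 1, 2, 3, 4, 7, 8, 9, 10, 11, 12, 13, 14,
  15, 16, 17]) (.cons 13 (.emb 86 false [0, 1, 2, 3, 4, 7, 8, 9, 10, 11, 12, 13, 14, 15, 16])
  (.cons 14 (.emb 86 false [0, 1, 2, 3, 4, 7, 8, 9, 10, 11, 12, 14, 13, 15, 16]) .nil))) (.cons
  13 (.fill 10 17 (.emb 90 false [0, 1, 2, 3, 4, 7, 8, 9, 10, 11, 12, 13, 14, 15, 16, 17])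
  (.cons 12 (.emb 86 false [0, 1, 2, 3, 4, 7, 8, 9, 10, 11, 12, 13, 14, 15, 16]) .nil)) (.cons
  14 (.fill 10 17 (.emb 90 false [0, 1, 2, 3, 4, 7, 8, 9, 10, 11, 12, 14, 13, 15, 16, 17])
  (.cons 12 (.emb 86 false [0, 1, 2, 3, 4, 7, 8, 9, 10, 11, 12, 14, 13, 15, 16]) .nil)) .nil))))
  .nil))))) (.cons 5 (.emb 53 true [3, 10, 0, 9, 1, 2, 11, 15]) .nil))))⟩

noncomputable def e95 : Ent := ⟨3, [⟨0, true, 3, 3, [1, 2, 3]⟩, ⟨1, false, 4, 5, [0, 4]⟩, ⟨2, false, 3, 3, [0,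
  5, 6]⟩, ⟨3, false, 3, 3, [0, 7, 8]⟩, ⟨4, true, 4, 4, [1, 9, 11, 14]⟩, ⟨5, true, 3, 3, [2, 9,
  10]⟩, ⟨6, true, 3, 3, [2, 11, 12]⟩, ⟨7, true, 3, 3, [3, 9, 13]⟩, ⟨8, true, 3, 3, [3, 12, 15]⟩,
  ⟨9, false, 3, 3, [4, 5, 7]⟩, ⟨10, false, 3, 5, [5]⟩, ⟨11, false, 3, 5, [4, 6]⟩, ⟨12, false, 3,
  5, [6, 8]⟩, ⟨13, false, 3, 5, [7]⟩, ⟨14, false, 3, 5, [4]⟩, ⟨15, false, 3, 5, [8]⟩], .cert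
  (.vert 0 (.cons 1 (.edge 7 13 (.contr 3 .nil) (.vert 3 (.cons 8 .nil .nil))) (.cons 2 (.vert 9
  (.cons 4 (.vert 5 (.cons 10 .nil .nil)) (.cons 5 .nil (.cons 7 (.vert 3 (.cons 8 (.vert 5
  (.cons 10 .nil .nil)) .nil)) .nil)))) (.cons 3 (.vert 2 (.cons 5 (.vert 9 (.cons 4 (.vert 7
  (.cons 13 .nil .nil)) (.cons 7 .nil .nil))) (.cons 6 (.vert 9 (.cons 4 (.vert 5 (.cons 10
  (.vert 7 (.cons 13 .nil .nil)) .nil)) (.cons 5 (.vert 7 (.cons 13 .nil .nil)) (.cons 7 (.vert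
  5 (.cons 10 .nil .nil)) .nil)))) .nil))) .nil))))⟩

noncomputable def e96 : Ent := ⟨3, [⟨0, true, 3, 3, [1, 2, 3]⟩, ⟨1, false, 4, 5, [0, 4]⟩, ⟨2, false, 3, 3, [0,
  5, 6]⟩, ⟨3, false, 3, 3, [0, 7, 8]⟩, ⟨4, true, 4, 4, [1, 9, 11, 14]⟩, ⟨5, true, 3, 3, [2, 9,
  10]⟩, ⟨6, true, 3, 3, [2, 11, 12]⟩, ⟨7, true, 3, 3, [3, 9, 13]⟩, ⟨8, true, 3, 3, [3, 14, 15]⟩,
  ⟨9, false, 3, 3, [4, 5, 7]⟩, ⟨10, false, 3, 5, [5]⟩, ⟨11, false, 3, 5, [4, 6]⟩, ⟨12, false, 3,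
  5, [6]⟩, ⟨13, false, 3, 5, [7]⟩, ⟨14, false, 3, 5, [4, 8]⟩, ⟨15, false, 3, 5, [8]⟩], .cert
  (.edge 2 5 (.edge 0 1 (.contr 0 .nil) (.vert 2 (.cons 6 .nil .nil))) (.vert 3 (.cons 0 (.vert
  9 (.cons 4 (.vert 7 (.cons 13 .nil .nil)) (.cons 7 .nil .nil))) (.cons 7 (.vert 0 (.cons 1
  (.vert 9 (.cons 4 .nil .nil)) .nil)) (.cons 8 (.vert 0 (.cons 1 .nil .nil)) .nil)))))⟩

noncomputable def e97 : Ent := ⟨3, [⟨0, true, 3, 3, [1, 2, 3]⟩, ⟨1, false, 4, 5, [0, 4]⟩, ⟨2, false, 3, 3, [0,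
  5, 6]⟩, ⟨3, false, 3, 3, [0, 7, 8]⟩, ⟨4, true, 4, 4, [1, 9, 11, 14]⟩, ⟨5, true, 3, 3, [2, 9,
  10]⟩, ⟨6, true, 3, 3, [2, 11, 12]⟩, ⟨7, true, 3, 3, [3, 9, 13]⟩, ⟨8, true, 3, 3, [3, 15, 16]⟩,
  ⟨9, false, 3, 3, [4, 5, 7]⟩, ⟨10, false, 3, 5, [5]⟩, ⟨11, false, 3, 5, [4, 6]⟩, ⟨12, false, 3,
  5, [6]⟩, ⟨13, false, 3, 5, [7]⟩, ⟨14, false, 3, 5, [4]⟩, ⟨15, false, 3, 5, [8]⟩, ⟨16, false,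
  3, 5, [8]⟩], .cert (.vert 0 (.cons 1 (.edge 7 13 (.contr 3 .nil) (.vert 3 (.cons 8 .nil
  .nil))) (.cons 2 (.vert 9 (.cons 4 (.vert 5 (.cons 10 .nil .nil)) (.cons 5 .nil (.cons 7
  (.vert 3 (.cons 8 (.vert 5 (.cons 10 .nil .nil)) .nil)) .nil)))) (.cons 3 (.vert 2 (.cons 5
  (.vert 9 (.cons 4 (.vert 7 (.cons 13 .nil .nil)) (.cons 7 .nil .nil))) (.cons 6 (.vert 9
  (.cons 4 (.vert 5 (.cons 10 (.vert 7 (.cons 13 .nil .nil)) .nil)) (.cons 5 (.vert 7 (.cons 13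
  .nil .nil)) (.cons 7 (.vert 5 (.cons 10 .nil .nil)) .nil)))) .nil))) .nil))))⟩

noncomputable def e98 : Ent := ⟨3, [⟨0, true, 3, 3, [1, 2, 3]⟩, ⟨1, false, 4, 5, [0, 4]⟩, ⟨2, false, 3, 3, [0,
  5, 6]⟩, ⟨3, false, 3, 3, [0, 7, 8]⟩, ⟨4, true, 4, 4, [1, 9, 11, 14]⟩, ⟨5, true, 3, 3, [2, 9,
  10]⟩, ⟨6, true, 3, 3, [2, 11, 12]⟩, ⟨7, true, 3, 3, [3, 9, 13]⟩, ⟨8, true, 4, 5, [3]⟩, ⟨9,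
  false, 3, 3, [4, 5, 7]⟩, ⟨10, false, 3, 5, [5]⟩, ⟨11, false, 3, 5, [4, 6]⟩, ⟨12, false, 3, 5,
  [6]⟩, ⟨13, false, 3, 5, [7]⟩, ⟨14, false, 3, 5, [4]⟩], .cert (.vert 3 (.cons 0 (.vert 2 (.cons
  5 (.vert 9 (.cons 4 (.vert 7 (.cons 13 .nil .nil)) (.cons 7 .nil .nil))) (.cons 6 (.vert 9
  (.cons 4 (.vert 5 (.cons 10 (.vert 7 (.cons 13 .nil .nil)) .nil)) (.cons 5 (.vert 7 (.cons 13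
  .nil .nil)) (.cons 7 (.vert 5 (.cons 10 .nil .nil)) .nil)))) .nil))) (.cons 7 (.vert 0 (.cons
  1 (.vert 5 (.cons 2 (.vert 9 (.cons 4 .nil .nil)) (.cons 9 (.vert 2 (.cons 6 .nil .nil))
  (.cons 10 (.vert 2 (.cons 6 (.vert 9 (.cons 4 .nil .nil)) .nil)) .nil)))) (.cons 2 (.vert 9
  (.cons 4 (.vert 5 (.cons 10 .nil .nil)) (.cons 5 .nil .nil))) .nil))) (.cons 8 .nil .nil))))⟩

noncomputable def e99 : Ent := ⟨3, [⟨0, true, 3, 3, [1, 2, 3]⟩, ⟨1, false, 4, 5, [0, 4]⟩, ⟨2, false, 3, 3, [0,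
  5, 6]⟩, ⟨3, false, 3, 3, [0, 7, 8]⟩, ⟨4, true, 4, 4, [1, 9, 11, 14]⟩, ⟨5, true, 3, 3, [2, 9,
  10]⟩, ⟨6, true, 3, 3, [2, 11, 12]⟩, ⟨7, true, 3, 3, [3, 9, 13]⟩, ⟨8, true, 3, 3, [3, 11, 15]⟩,
  ⟨9, false, 3, 3, [4, 5, 7]⟩, ⟨10, false, 3, 5, [5]⟩, ⟨11, false, 3, 5, [4, 6, 8]⟩, ⟨12, false,
  3, 5, [6]⟩, ⟨13, false, 3, 5, [7]⟩, ⟨14, false, 3, 5, [4]⟩, ⟨15, false, 3, 5, [8]⟩], .cert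
  (.vert 0 (.cons 1 .nil (.cons 2 (.vert 9 (.cons 4 (.vert 5 (.cons 10 (.vert 8 (.cons 3 (.vert
  7 (.cons 13 .nil .nil)) (.cons 11 (.vert 3 (.cons 7 (.vert 6 (.cons 12 .nil .nil)) .nil))
  (.cons 15 .nil .nil)))) .nil)) (.cons 5 .nil (.cons 7 (.vert 3 (.cons 8 (.vert 5 (.cons 10
  .nil .nil)) .nil)) .nil)))) (.cons 3 (.vert 9 (.cons 4 (.vert 7 (.cons 13 (.vert 6 (.cons 2
  (.vert 5 (.cons 10 .nil .nil)) (.cons 11 (.vert 2 (.cons 5 (.vert 8 (.cons 15 .nil .nil))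
  .nil)) (.cons 12 (.vert 2 (.cons 5 .nil .nil)) .nil)))) .nil)) (.cons 5 (.vert 2 (.cons 6
  (.vert 7 (.cons 13 .nil .nil)) .nil)) (.cons 7 (.vert 6 (.cons 2 (.vert 5 (.cons 10 .nil
  .nil)) (.cons 11 (.vert 2 (.cons 5 (.vert 8 (.cons 15 .nil .nil)) .nil)) (.cons 12 (.vert 2
  (.cons 5 .nil .nil)) .nil)))) .nil)))) .nil))))⟩

noncomputable def e100 : Ent := ⟨3, [⟨0, true, 3, 3, [1, 2, 3]⟩, ⟨1, false, 4, 5, [0, 4]⟩, ⟨2, false, 3, 3,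
  [0, 5, 6]⟩, ⟨3, false, 3, 3, [0, 7, 8]⟩, ⟨4, true, 4, 4, [1, 9, 11, 14]⟩, ⟨5, true, 3, 3, [2,
  9, 10]⟩, ⟨6, true, 3, 3, [2, 11, 12]⟩, ⟨7, true, 3, 3, [3, 9, 13]⟩, ⟨8, true, 3, 3, [3, 12,
  14]⟩, ⟨9, false, 3, 3, [4, 5, 7]⟩, ⟨10, false, 3, 5, [5]⟩, ⟨11, false, 3, 5, [4, 6]⟩, ⟨12,
  false, 3, 5, [6, 8]⟩, ⟨13, false, 3, 5, [7]⟩, ⟨14, false, 3, 5, [4, 8]⟩], .cert (.vert 0
  (.cons 1 .nil (.cons 2 (.vert 8 (.cons 3 (.vert 9 (.cons 4 (.vert 5 (.cons 10 (.vert 7 (.cons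
  13 .nil .nil)) .nil)) (.cons 5 (.vert 7 (.cons 13 .nil .nil)) (.cons 7 (.vert 5 (.cons 10 .nil
  .nil)) .nil)))) (.cons 12 (.vert 3 (.cons 7 (.vert 6 (.cons 11 .nil .nil)) .nil)) (.cons 14
  (.vert 3 (.cons 7 .nil .nil)) .nil)))) (.cons 3 (.vert 6 (.cons 2 (.vert 9 (.cons 4 (.vert 5
  (.cons 10 (.vert 7 (.cons 13 .nil .nil)) .nil)) (.cons 5 (.vert 7 (.cons 13 .nil .nil)) (.cons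
  7 (.vert 5 (.cons 10 .nil .nil)) .nil)))) (.cons 11 (.vert 2 (.cons 5 .nil .nil)) (.cons 12
  (.vert 2 (.cons 5 (.vert 8 (.cons 14 .nil .nil)) .nil)) .nil)))) .nil))))⟩

noncomputable def e101 : Ent := ⟨3, [⟨0, true, 3, 3, [1, 2, 3]⟩, ⟨1, false, 4, 5, [0, 4]⟩, ⟨2, false, 3, 3,
  [0, 5, 6]⟩, ⟨3, false, 3, 3, [0, 7, 8]⟩, ⟨4, true, 4, 4, [1, 9, 11, 14]⟩, ⟨5, true, 3, 3, [2,
  9, 10]⟩, ⟨6, true, 3, 3, [2, 11, 12]⟩, ⟨7, true, 3, 3, [3, 9, 13]⟩, ⟨8, true, 3, 5, [3]⟩, ⟨9,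
  false, 3, 3, [4, 5, 7]⟩, ⟨10, false, 3, 5, [5]⟩, ⟨11, false, 3, 5, [4, 6]⟩, ⟨12, false, 3, 5,
  [6]⟩, ⟨13, false, 3, 5, [7]⟩, ⟨14, false, 3, 5, [4]⟩], .split (.deg 8 (.cons 3 (.fill 8 15
  (.fill 8 16 (.emb 97 false [0, 1, 2, 3, 4, 5, 6, 7, 8, 9, 10, 11, 12, 13, 14, 15, 16]) (.cons
  10 (.emb 75 false [0, 1, 3, 2, 4, 7, 8, 5, 6, 9, 13, 10, 15, 11, 12]) (.cons 11 (.emb 99 false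
  [0, 1, 2, 3, 4, 5, 6, 7, 8, 9, 10, 11, 12, 13, 14, 15]) (.cons 12 (.emb 95 false [0, 1, 2, 3,
  4, 5, 6, 7, 8, 9, 10, 11, 12, 13, 14, 15]) (.cons 14 (.emb 96 false [0, 1, 2, 3, 4, 5, 6, 7,
  8, 9, 10, 11, 12, 13, 14, 15]) .nil))))) (.cons 10 (.fill 8 15 (.emb 75 false [0, 1, 3, 2, 4,
  7, 8, 5, 6, 9, 13, 10, 15, 11, 12]) (.cons 11 (.emb 66 false [0, 1, 2, 3, 5, 6, 8, 7, 10, 9,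
  11, 12, 13]) (.cons 12 (.emb 66 false [0, 1, 2, 3, 5, 6, 8, 7, 10, 9, 12, 11, 13]) (.cons 14
  (.emb 75 false [0, 1, 3, 2, 4, 7, 8, 5, 6, 9, 13, 10, 14, 11, 12]) .nil)))) (.cons 11 (.fill 8
  15 (.emb 99 false [0, 1, 2, 3, 4, 5, 6, 7, 8, 9, 10, 11, 12, 13, 14, 15]) (.cons 10 (.emb 66
  false [0, 1, 2, 3, 5, 6, 8, 7, 10, 9, 11, 12, 13]) .nil)) (.cons 12 (.fill 8 15 (.emb 95 false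
  [0, 1, 2, 3, 4, 5, 6, 7, 8, 9, 10, 11, 12, 13, 14, 15]) (.cons 10 (.emb 66 false [0, 1, 2, 3,
  5, 6, 8, 7, 10, 9, 12, 11, 13]) (.cons 14 (.emb 100 false [0, 1, 2, 3, 4, 5, 6, 7, 8, 9, 10,
  11, 12, 13, 14]) .nil))) (.cons 14 (.fill 8 15 (.emb 96 false [0, 1, 2, 3, 4, 5, 6, 7, 8, 9,
  10, 11, 12, 13, 14, 15]) (.cons 10 (.emb 75 false [0, 1, 3, 2, 4, 7, 8, 5, 6, 9, 13, 10, 14,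
  11, 12]) (.cons 12 (.emb 100 false [0, 1, 2, 3, 4, 5, 6, 7, 8, 9, 10, 11, 12, 13, 14]) .nil)))
  .nil))))) (.cons 4 (.emb 98 false [0, 1, 2, 3, 4, 5, 6, 7, 8, 9, 10, 11, 12, 13, 14]) (.cons 5
  (.emb 53 true [3, 8, 0, 7, 1, 2, 9, 13]) .nil))))⟩

noncomputable def e102 : Ent := ⟨3, [⟨0, true, 3, 3, [1, 2, 3]⟩, ⟨1, false, 4, 5, [0, 4, 5]⟩, ⟨2, false, 3, 3,
  [0, 6, 7]⟩, ⟨3, false, 3, 3, [0, 8, 9]⟩, ⟨4, true, 4, 4, [1, 10, 15, 16]⟩, ⟨5, true, 3, 3, [1,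
  11, 12]⟩, ⟨6, true, 3, 3, [2, 10, 11]⟩, ⟨7, true, 3, 3, [2, 12, 13]⟩, ⟨8, true, 3, 3, [3, 10,
  14]⟩, ⟨9, true, 3, 5, [3]⟩, ⟨10, false, 3, 3, [4, 6, 8]⟩, ⟨11, false, 3, 5, [5, 6]⟩, ⟨12,
  false, 3, 5, [5, 7]⟩, ⟨13, false, 3, 5, [7]⟩, ⟨14, false, 3, 5, [8]⟩, ⟨15, false, 3, 5, [4]⟩,
  ⟨16, false, 3, 5, [4]⟩], .cert (.vert 0 (.cons 1 (.edge 6 11 (.contr 2 .nil) (.vert 2 (.cons 7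
  (.vert 5 (.cons 12 .nil .nil)) .nil))) (.cons 2 (.vert 10 (.cons 4 (.vert 6 (.cons 11 .nil
  .nil)) (.cons 6 .nil (.cons 8 (.vert 3 (.cons 9 (.vert 6 (.cons 11 .nil .nil)) .nil)) .nil))))
  (.cons 3 (.vert 2 (.cons 6 (.vert 10 (.cons 4 (.vert 8 (.cons 14 .nil .nil)) (.cons 8 .nil
  .nil))) (.cons 7 (.vert 10 (.cons 4 (.vert 6 (.cons 11 (.vert 8 (.cons 14 .nil .nil)) .nil))
  (.cons 6 (.vert 8 (.cons 14 .nil .nil)) (.cons 8 (.vert 6 (.cons 11 .nil .nil)) .nil))))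
  .nil))) .nil))))⟩

noncomputable def e103 : Ent := ⟨3, [⟨0, true, 3, 3, [1, 2, 3]⟩, ⟨1, false, 4, 5, [0, 4, 5]⟩, ⟨2, false, 3, 3,
  [0, 6, 7]⟩, ⟨3, false, 3, 3, [0, 8, 9]⟩, ⟨4, true, 4, 4, [1, 10, 15, 16]⟩, ⟨5, true, 3, 3, [1,
  11, 14]⟩, ⟨6, true, 3, 3, [2, 10, 11]⟩, ⟨7, true, 3, 3, [2, 12, 13]⟩, ⟨8, true, 3, 3, [3, 10,
  14]⟩, ⟨9, true, 3, 5, [3]⟩, ⟨10, false, 3, 3, [4, 6, 8]⟩, ⟨11, false, 3, 5, [5, 6]⟩, ⟨12,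
  false, 3, 5, [7]⟩, ⟨13, false, 3, 5, [7]⟩, ⟨14, false, 3, 5, [5, 8]⟩, ⟨15, false, 3, 5, [4]⟩,
  ⟨16, false, 3, 5, [4]⟩], .cert (.vert 0 (.cons 1 (.edge 6 11 (.contr 2 .nil) (.vert 2 (.cons 7
  (.vert 5 (.cons 14 .nil .nil)) .nil))) (.cons 2 (.vert 10 (.cons 4 (.vert 6 (.cons 11 .nil
  .nil)) (.cons 6 .nil (.cons 8 (.vert 3 (.cons 9 (.vert 6 (.cons 11 .nil .nil)) .nil)) .nil))))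
  (.cons 3 (.vert 2 (.cons 6 (.vert 10 (.cons 4 (.vert 8 (.cons 14 .nil .nil)) (.cons 8 .nil
  .nil))) (.cons 7 (.vert 10 (.cons 4 (.vert 6 (.cons 11 .nil .nil)) (.cons 6 (.vert 8 (.cons 14
  .nil .nil)) (.cons 8 (.vert 6 (.cons 11 .nil .nil)) .nil)))) .nil))) .nil))))⟩

noncomputable def e104 : Ent := ⟨3, [⟨0, true, 3, 3, [1, 2, 3]⟩, ⟨1, false, 4, 5, [0, 4, 5]⟩, ⟨2, false, 3, 3,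
  [0, 6, 7]⟩, ⟨3, false, 3, 3, [0, 8, 9]⟩, ⟨4, true, 4, 4, [1, 10, 15, 16]⟩, ⟨5, true, 3, 3, [1,
  11, 17]⟩, ⟨6, true, 3, 3, [2, 10, 11]⟩, ⟨7, true, 3, 3, [2, 12, 13]⟩, ⟨8, true, 3, 3, [3, 10,
  14]⟩, ⟨9, true, 3, 5, [3]⟩, ⟨10, false, 3, 3, [4, 6, 8]⟩, ⟨11, false, 3, 5, [5, 6]⟩, ⟨12,
  false, 3, 5, [7]⟩, ⟨13, false, 3, 5, [7]⟩, ⟨14, false, 3, 5, [8]⟩, ⟨15, false, 3, 5, [4]⟩,
  ⟨16, false, 3, 5, [4]⟩, ⟨17, false, 3, 5, [5]⟩], .cert (.vert 0 (.cons 1 (.edge 6 11 (.contr 2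
  .nil) (.vert 2 (.cons 7 (.vert 5 (.cons 17 .nil .nil)) .nil))) (.cons 2 (.vert 10 (.cons 4
  (.vert 6 (.cons 11 .nil .nil)) (.cons 6 .nil (.cons 8 (.vert 3 (.cons 9 (.vert 6 (.cons 11
  .nil .nil)) .nil)) .nil)))) (.cons 3 (.vert 2 (.cons 6 (.vert 10 (.cons 4 (.vert 8 (.cons 14
  .nil .nil)) (.cons 8 .nil .nil))) (.cons 7 (.vert 10 (.cons 4 (.vert 6 (.cons 11 .nil .nil))
  (.cons 6 (.vert 8 (.cons 14 .nil .nil)) (.cons 8 (.vert 6 (.cons 11 .nil .nil)) .nil))))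
  .nil))) .nil))))⟩

noncomputable def e105 : Ent := ⟨3, [⟨0, true, 3, 3, [1, 2, 3]⟩, ⟨1, false, 4, 5, [0, 4]⟩, ⟨2, false, 3, 3,
  [0, 5, 6]⟩, ⟨3, false, 3, 3, [0, 7, 8]⟩, ⟨4, true, 4, 4, [1, 9, 14, 15]⟩, ⟨5, true, 3, 3, [2,
  9, 10]⟩, ⟨6, true, 3, 3, [2, 11, 12]⟩, ⟨7, true, 3, 3, [3, 9, 13]⟩, ⟨8, true, 3, 3, [3, 11,
  16]⟩, ⟨9, false, 3, 3, [4, 5, 7]⟩, ⟨10, false, 3, 5, [5]⟩, ⟨11, false, 3, 5, [6, 8]⟩, ⟨12,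
  false, 3, 5, [6]⟩, ⟨13, false, 3, 5, [7]⟩, ⟨14, false, 3, 5, [4]⟩, ⟨15, false, 3, 5, [4]⟩,
  ⟨16, false, 3, 5, [8]⟩], .cert (.vert 0 (.cons 1 (.edge 5 10 (.contr 2 .nil) (.vert 2 (.cons 6
  .nil .nil))) (.cons 2 (.vert 9 (.cons 4 (.vert 5 (.cons 10 .nil .nil)) (.cons 5 .nil (.cons 7
  (.vert 3 (.cons 8 (.vert 5 (.cons 10 .nil .nil)) .nil)) .nil)))) (.cons 3 (.vert 2 (.cons 5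
  (.vert 9 (.cons 4 (.vert 7 (.cons 13 .nil .nil)) (.cons 7 .nil .nil))) (.cons 6 (.vert 9
  (.cons 4 (.vert 5 (.cons 10 (.vert 7 (.cons 13 .nil .nil)) .nil)) (.cons 5 (.vert 7 (.cons 13
  .nil .nil)) (.cons 7 (.vert 5 (.cons 10 .nil .nil)) .nil)))) .nil))) .nil))))⟩

noncomputable def e106 : Ent := ⟨3, [⟨0, true, 3, 3, [1, 2, 3]⟩, ⟨1, false, 4, 5, [0, 4]⟩, ⟨2, false, 3, 3,
  [0, 5, 6]⟩, ⟨3, false, 3, 3, [0, 7, 8]⟩, ⟨4, true, 4, 4, [1, 9, 14, 15]⟩, ⟨5, true, 3, 3, [2,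
  9, 10]⟩, ⟨6, true, 3, 3, [2, 11, 12]⟩, ⟨7, true, 3, 3, [3, 9, 13]⟩, ⟨8, true, 3, 3, [3, 16,
  17]⟩, ⟨9, false, 3, 3, [4, 5, 7]⟩, ⟨10, false, 3, 5, [5]⟩, ⟨11, false, 3, 5, [6]⟩, ⟨12, false,
  3, 5, [6]⟩, ⟨13, false, 3, 5, [7]⟩, ⟨14, false, 3, 5, [4]⟩, ⟨15, false, 3, 5, [4]⟩, ⟨16,
  false, 3, 5, [8]⟩, ⟨17, false, 3, 5, [8]⟩], .cert (.vert 0 (.cons 1 (.edge 5 10 (.contr 2
  .nil) (.vert 2 (.cons 6 .nil .nil))) (.cons 2 (.vert 9 (.cons 4 (.vert 5 (.cons 10 .nil .nil))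
  (.cons 5 .nil (.cons 7 (.vert 3 (.cons 8 (.vert 5 (.cons 10 .nil .nil)) .nil)) .nil)))) (.cons
  3 (.vert 2 (.cons 5 (.vert 9 (.cons 4 (.vert 7 (.cons 13 .nil .nil)) (.cons 7 .nil .nil)))
  (.cons 6 (.vert 9 (.cons 4 (.vert 5 (.cons 10 (.vert 7 (.cons 13 .nil .nil)) .nil)) (.cons 5
  (.vert 7 (.cons 13 .nil .nil)) (.cons 7 (.vert 5 (.cons 10 .nil .nil)) .nil)))) .nil)))
  .nil))))⟩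

noncomputable def e107 : Ent := ⟨3, [⟨0, true, 3, 3, [1, 2, 3]⟩, ⟨1, false, 4, 5, [0, 4]⟩, ⟨2, false, 3, 3,
  [0, 5, 6]⟩, ⟨3, false, 3, 3, [0, 7, 8]⟩, ⟨4, true, 4, 4, [1, 9, 14, 15]⟩, ⟨5, true, 3, 3, [2,
  9, 10]⟩, ⟨6, true, 3, 3, [2, 11, 12]⟩, ⟨7, true, 3, 3, [3, 9, 13]⟩, ⟨8, true, 4, 5, [3]⟩, ⟨9,
  false, 3, 3, [4, 5, 7]⟩, ⟨10, false, 3, 5, [5]⟩, ⟨11, false, 3, 5, [6]⟩, ⟨12, false, 3, 5,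
  [6]⟩, ⟨13, false, 3, 5, [7]⟩, ⟨14, false, 3, 5, [4]⟩, ⟨15, false, 3, 5, [4]⟩], .cert (.vert 3
  (.cons 0 (.vert 2 (.cons 5 (.vert 9 (.cons 4 (.vert 7 (.cons 13 .nil .nil)) (.cons 7 .nil
  .nil))) (.cons 6 (.vert 9 (.cons 4 (.vert 5 (.cons 10 (.vert 7 (.cons 13 .nil .nil)) .nil))
  (.cons 5 (.vert 7 (.cons 13 .nil .nil)) (.cons 7 (.vert 5 (.cons 10 .nil .nil)) .nil))))
  .nil))) (.cons 7 (.vert 0 (.cons 1 (.edge 5 10 (.contr 2 .nil) (.vert 2 (.cons 6 (.vert 9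
  (.cons 4 .nil .nil)) .nil))) (.cons 2 (.vert 9 (.cons 4 (.vert 5 (.cons 10 .nil .nil)) (.cons
  5 .nil .nil))) .nil))) (.cons 8 .nil .nil))))⟩

noncomputable def e108 : Ent := ⟨3, [⟨0, true, 3, 3, [1, 2, 3]⟩, ⟨1, false, 4, 5, [0, 4]⟩, ⟨2, false, 3, 3,
  [0, 5, 6]⟩, ⟨3, false, 3, 3, [0, 7, 8]⟩, ⟨4, true, 4, 4, [1, 9, 14, 15]⟩, ⟨5, true, 3, 3, [2,
  9, 10]⟩, ⟨6, true, 3, 3, [2, 11, 12]⟩, ⟨7, true, 3, 3, [3, 9, 13]⟩, ⟨8, true, 3, 5, [3]⟩, ⟨9,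
  false, 3, 3, [4, 5, 7]⟩, ⟨10, false, 3, 5, [5]⟩, ⟨11, false, 3, 5, [6]⟩, ⟨12, false, 3, 5,
  [6]⟩, ⟨13, false, 3, 5, [7]⟩, ⟨14, false, 3, 5, [4]⟩, ⟨15, false, 3, 5, [4]⟩], .split (.deg 8
  (.cons 3 (.fill 8 16 (.fill 8 17 (.emb 106 false [0, 1, 2, 3, 4, 5, 6, 7, 8, 9, 10, 11, 12,
  13, 14, 15, 16, 17]) (.cons 10 (.emb 73 false [0, 1, 3, 2, 4, 7, 8, 5, 6, 9, 13, 10, 16, 11,
  12, 14, 15]) (.cons 11 (.emb 105 false [0, 1, 2, 3, 4, 5, 6, 7, 8, 9, 10, 11, 12, 13, 14, 15,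
  16]) (.cons 12 (.emb 105 false [0, 1, 2, 3, 4, 5, 6, 7, 8, 9, 10, 12, 11, 13, 14, 15, 16])
  (.cons 14 (.emb 97 false [0, 1, 3, 2, 4, 7, 8, 5, 6, 9, 13, 14, 16, 10, 15, 11, 12]) (.cons 15
  (.emb 97 false [0, 1, 3, 2, 4, 7, 8, 5, 6, 9, 13, 15, 16, 10, 14, 11, 12]) .nil)))))) (.cons
  10 (.fill 8 16 (.emb 73 false [0, 1, 3, 2, 4, 7, 8, 5, 6, 9, 13, 10, 16, 11, 12, 14, 15])
  (.cons 11 (.emb 66 false [0, 1, 2, 3, 5, 6, 8, 7, 10, 9, 11, 12, 13]) (.cons 12 (.emb 66 false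
  [0, 1, 2, 3, 5, 6, 8, 7, 10, 9, 12, 11, 13]) (.cons 14 (.emb 72 false [0, 1, 3, 2, 4, 7, 8, 5,
  6, 9, 13, 10, 14, 11, 12, 15]) (.cons 15 (.emb 72 false [0, 1, 3, 2, 4, 7, 8, 5, 6, 9, 13, 10,
  15, 11, 12, 14]) .nil))))) (.cons 11 (.fill 8 16 (.emb 105 false [0, 1, 2, 3, 4, 5, 6, 7, 8,
  9, 10, 11, 12, 13, 14, 15, 16]) (.cons 10 (.emb 66 false [0, 1, 2, 3, 5, 6, 8, 7, 10, 9, 11,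
  12, 13]) (.cons 14 (.emb 95 false [0, 1, 3, 2, 4, 7, 8, 5, 6, 9, 13, 14, 11, 10, 15, 12])
  (.cons 15 (.emb 95 false [0, 1, 3, 2, 4, 7, 8, 5, 6, 9, 13, 15, 11, 10, 14, 12]) .nil))))
  (.cons 12 (.fill 8 16 (.emb 105 false [0, 1, 2, 3, 4, 5, 6, 7, 8, 9, 10, 12, 11, 13, 14, 15,
  16]) (.cons 10 (.emb 66 false [0, 1, 2, 3, 5, 6, 8, 7, 10, 9, 12, 11, 13]) (.cons 14 (.emb 95
  false [0, 1, 3, 2, 4, 7, 8, 5, 6, 9, 13, 14, 12, 10, 15, 11]) (.cons 15 (.emb 95 false [0, 1,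
  3, 2, 4, 7, 8, 5, 6, 9, 13, 15, 12, 10, 14, 11]) .nil)))) (.cons 14 (.fill 8 16 (.emb 97 false
  [0, 1, 3, 2, 4, 7, 8, 5, 6, 9, 13, 14, 16, 10, 15, 11, 12]) (.cons 10 (.emb 72 false [0, 1, 3,
  2, 4, 7, 8, 5, 6, 9, 13, 10, 14, 11, 12, 15]) (.cons 11 (.emb 95 false [0, 1, 3, 2, 4, 7, 8,
  5, 6, 9, 13, 14, 11, 10, 15, 12]) (.cons 12 (.emb 95 false [0, 1, 3, 2, 4, 7, 8, 5, 6, 9, 13,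
  14, 12, 10, 15, 11]) .nil)))) (.cons 15 (.fill 8 16 (.emb 97 false [0, 1, 3, 2, 4, 7, 8, 5, 6,
  9, 13, 15, 16, 10, 14, 11, 12]) (.cons 10 (.emb 72 false [0, 1, 3, 2, 4, 7, 8, 5, 6, 9, 13,
  10, 15, 11, 12, 14]) (.cons 11 (.emb 95 false [0, 1, 3, 2, 4, 7, 8, 5, 6, 9, 13, 15, 11, 10,
  14, 12]) (.cons 12 (.emb 95 false [0, 1, 3, 2, 4, 7, 8, 5, 6, 9, 13, 15, 12, 10, 14, 11])
  .nil)))) .nil)))))) (.cons 4 (.emb 107 false [0, 1, 2, 3, 4, 5, 6, 7, 8, 9, 10, 11, 12, 13,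
  14, 15]) (.cons 5 (.emb 53 true [3, 8, 0, 7, 1, 2, 9, 13]) .nil))))⟩

noncomputable def e109 : Ent := ⟨3, [⟨0, true, 3, 3, [1, 2, 3]⟩, ⟨1, false, 4, 4, [0, 4, 5, 6]⟩, ⟨2, false, 3,
  3, [0, 7, 8]⟩, ⟨3, false, 3, 3, [0, 9, 10]⟩, ⟨4, true, 3, 5, [1, 11]⟩, ⟨5, true, 3, 5, [1]⟩,
  ⟨6, true, 3, 5, [1]⟩, ⟨7, true, 3, 3, [2, 11, 12]⟩, ⟨8, true, 3, 3, [2, 13, 14]⟩, ⟨9, true, 3,
  3, [3, 11, 15]⟩, ⟨10, true, 3, 5, [3]⟩, ⟨11, false, 3, 3, [4, 7, 9]⟩, ⟨12, false, 3, 5, [7]⟩,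
  ⟨13, false, 3, 5, [8]⟩, ⟨14, false, 3, 5, [8]⟩, ⟨15, false, 3, 5, [9]⟩], .split (.deg 4 (.cons
  3 (.fill 4 16 (.emb 94 false [0, 1, 2, 3, 4, 5, 6, 7, 8, 9, 10, 11, 12, 13, 14, 15, 16])
  (.cons 13 (.emb 83 false [0, 1, 2, 3, 4, 5, 6, 7, 8, 9, 10, 11, 12, 13, 14, 15]) (.cons 14
  (.emb 83 false [0, 1, 2, 3, 4, 5, 6, 7, 8, 9, 10, 11, 12, 14, 13, 15]) .nil))) (.cons 4 (.fill
  4 16 (.fill 4 17 (.emb 108 false [0, 1, 2, 3, 4, 7, 8, 9, 10, 11, 12, 13, 14, 15, 16, 17])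
  (.cons 13 (.emb 101 false [0, 1, 2, 3, 4, 7, 8, 9, 10, 11, 12, 13, 14, 15, 16]) (.cons 14
  (.emb 101 false [0, 1, 2, 3, 4, 7, 8, 9, 10, 11, 12, 14, 13, 15, 16]) .nil))) (.cons 13 (.fill
  4 16 (.emb 101 false [0, 1, 2, 3, 4, 7, 8, 9, 10, 11, 12, 13, 14, 15, 16]) .nil) (.cons 14
  (.fill 4 16 (.emb 101 false [0, 1, 2, 3, 4, 7, 8, 9, 10, 11, 12, 14, 13, 15, 16]) .nil)
  .nil))) (.cons 5 (.emb 59 true [11, 4, 7, 9, 2, 12, 3, 15, 0, 8]) .nil))))⟩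

noncomputable def e110 : Ent := ⟨3, [⟨0, true, 3, 3, [1, 2, 3]⟩, ⟨1, false, 4, 5, [0]⟩, ⟨2, false, 3, 3, [0,
  4, 5]⟩, ⟨3, false, 3, 3, [0, 6, 7]⟩, ⟨4, true, 3, 3, [2, 8, 9]⟩, ⟨5, true, 3, 3, [2, 10, 11]⟩,
  ⟨6, true, 3, 3, [3, 8, 12]⟩, ⟨7, true, 4, 4, [3, 14, 15, 16]⟩, ⟨8, false, 3, 3, [4, 6, 13]⟩,
  ⟨9, false, 3, 5, [4]⟩, ⟨10, false, 3, 5, [5]⟩, ⟨11, false, 3, 5, [5]⟩, ⟨12, false, 3, 5, [6]⟩,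
  ⟨13, true, 3, 5, [8]⟩, ⟨14, false, 3, 5, [7]⟩, ⟨15, false, 3, 5, [7]⟩, ⟨16, false, 3, 5,
  [7]⟩], .cert (.edge 3 6 (.edge 0 1 (.contr 0 .nil) (.vert 3 (.cons 7 .nil .nil))) (.vert 2
  (.cons 0 .nil (.cons 4 (.vert 0 (.cons 1 (.vert 8 (.cons 13 .nil .nil)) .nil)) (.cons 5 (.vert
  0 (.cons 1 .nil .nil)) .nil)))))⟩

noncomputable def e111 : Ent := ⟨3, [⟨0, true, 3, 3, [1, 2, 3]⟩, ⟨1, false, 4, 4, [0, 4, 5, 6]⟩, ⟨2, false, 3,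
  3, [0, 7, 8]⟩, ⟨3, false, 3, 3, [0, 9, 10]⟩, ⟨4, true, 3, 5, [1]⟩, ⟨5, true, 3, 5, [1]⟩, ⟨6,
  true, 3, 5, [1]⟩, ⟨7, true, 3, 3, [2, 11, 12]⟩, ⟨8, true, 3, 3, [2, 13, 14]⟩, ⟨9, true, 3, 3,
  [3, 11, 15]⟩, ⟨10, true, 3, 3, [3, 13, 17]⟩, ⟨11, false, 3, 3, [7, 9, 16]⟩, ⟨12, false, 3, 5,
  [7]⟩, ⟨13, false, 3, 5, [8, 10]⟩, ⟨14, false, 3, 5, [8]⟩, ⟨15, false, 3, 5, [9]⟩, ⟨16, true,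
  3, 5, [11]⟩, ⟨17, false, 3, 5, [10]⟩], .cert (.vert 0 (.cons 1 (.vert 2 (.cons 7 (.vert 3
  (.cons 9 (.vert 11 (.cons 16 .nil .nil)) (.cons 10 .nil .nil))) (.cons 8 .nil .nil))) (.cons 2
  (.vert 3 (.cons 9 (.vert 8 (.cons 13 (.vert 10 (.cons 17 .nil .nil)) (.cons 14 .nil .nil)))
  (.cons 10 (.vert 7 (.cons 11 (.vert 9 (.cons 15 .nil .nil)) (.cons 12 .nil .nil))) .nil)))
  (.cons 3 (.vert 2 (.cons 7 (.vert 8 (.cons 13 (.vert 10 (.cons 17 .nil .nil)) (.cons 14 .nil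
  .nil))) (.cons 8 (.vert 7 (.cons 11 (.vert 9 (.cons 15 .nil .nil)) (.cons 12 .nil .nil)))
  .nil))) .nil))))⟩

noncomputable def part2 : List Ent := [e78, e79, e80, e81, e82, e83, e84, e85, e86, e87, e88,
  e89, e90, e91, e92, e93, e94, e95, e96, e97, e98, e99, e100, e101, e102, e103, e104, e105,
  e106, e107, e108, e109, e110, e111]

end Pool.Agent.Helper76.PC
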