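import Pool.Agent.Helper76.PC.Defs

/-! MP_c33217_co: library of reducible configurations, part 3 (machine generated). -/

namespace Pool.Agent.Helper76.PC

noncomputable def e112 : Ent := ⟨3, [⟨0, true, 3, 3, [1, 2, 3]⟩, ⟨1, false, 4, 4, [0, 4, 5, 6]⟩, ⟨2, false, 3,
  3, [0, 7, 8]⟩, ⟨3, false, 3, 3, [0, 9, 10]⟩, ⟨4, true, 3, 3, [1, 12, 15]⟩, ⟨5, true, 3, 5,
  [1]⟩, ⟨6, true, 3, 5, [1]⟩, ⟨7, true, 3, 3, [2, 11, 12]⟩, ⟨8, true, 3, 3, [2, 13, 14]⟩, ⟨9,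
  true, 3, 3, [3, 11, 15]⟩, ⟨10, true, 3, 3, [3, 17, 18]⟩, ⟨11, false, 3, 3, [7, 9, 16]⟩, ⟨12,
  false, 3, 5, [4, 7]⟩, ⟨13, false, 3, 5, [8]⟩, ⟨14, false, 3, 5, [8]⟩, ⟨15, false, 3, 5, [4,
  9]⟩, ⟨16, true, 3, 5, [11]⟩, ⟨17, false, 3, 5, [10]⟩, ⟨18, false, 3, 5, [10]⟩], .cert (.vert 7
  (.cons 2 (.vert 3 (.cons 0 .nil (.cons 9 (.vert 0 (.cons 1 (.vert 11 (.cons 16 .nil .nil))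
  .nil)) (.cons 10 (.vert 0 (.cons 1 .nil .nil)) .nil)))) (.cons 11 (.edge 0 1 (.contr 0 .nil)
  (.vert 2 (.cons 8 .nil .nil))) (.cons 12 (.edge 0 1 (.contr 0 .nil) (.vert 2 (.cons 8 (.vert 4
  (.cons 15 .nil .nil)) .nil))) .nil))))⟩

noncomputable def e113 : Ent := ⟨3, [⟨0, true, 3, 3, [1, 2, 3]⟩, ⟨1, false, 4, 4, [0, 4, 5, 6]⟩, ⟨2, false, 3,
  3, [0, 7, 8]⟩, ⟨3, false, 3, 3, [0, 9, 10]⟩, ⟨4, true, 3, 3, [1, 12, 17]⟩, ⟨5, true, 3, 5,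
  [1]⟩, ⟨6, true, 3, 5, [1]⟩, ⟨7, true, 3, 3, [2, 11, 12]⟩, ⟨8, true, 3, 3, [2, 13, 14]⟩, ⟨9,
  true, 3, 3, [3, 11, 15]⟩, ⟨10, true, 3, 3, [3, 17, 18]⟩, ⟨11, false, 3, 3, [7, 9, 16]⟩, ⟨12,
  false, 3, 5, [4, 7]⟩, ⟨13, false, 3, 5, [8]⟩, ⟨14, false, 3, 5, [8]⟩, ⟨15, false, 3, 5, [9]⟩,
  ⟨16, true, 3, 5, [11]⟩, ⟨17, false, 3, 5, [4, 10]⟩, ⟨18, false, 3, 5, [10]⟩], .cert (.vert 7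
  (.cons 2 (.vert 3 (.cons 0 .nil (.cons 9 (.vert 0 (.cons 1 (.vert 11 (.cons 16 .nil .nil))
  .nil)) (.cons 10 (.vert 0 (.cons 1 .nil .nil)) .nil)))) (.cons 11 (.edge 0 1 (.contr 0 .nil)
  (.vert 2 (.cons 8 .nil .nil))) (.cons 12 (.edge 0 1 (.contr 0 .nil) (.vert 2 (.cons 8 (.vert 4
  (.cons 17 .nil .nil)) .nil))) .nil))))⟩

noncomputable def e114 : Ent := ⟨3, [⟨0, true, 3, 3, [1, 2, 3]⟩, ⟨1, false, 4, 4, [0, 4, 5, 6]⟩, ⟨2, false, 3,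
  3, [0, 7, 8]⟩, ⟨3, false, 3, 3, [0, 9, 10]⟩, ⟨4, true, 3, 3, [1, 12, 19]⟩, ⟨5, true, 3, 5,
  [1]⟩, ⟨6, true, 3, 5, [1]⟩, ⟨7, true, 3, 3, [2, 11, 12]⟩, ⟨8, true, 3, 3, [2, 13, 14]⟩, ⟨9,
  true, 3, 3, [3, 11, 15]⟩, ⟨10, true, 3, 3, [3, 17, 18]⟩, ⟨11, false, 3, 3, [7, 9, 16]⟩, ⟨12,
  false, 3, 5, [4, 7]⟩, ⟨13, false, 3, 5, [8]⟩, ⟨14, false, 3, 5, [8]⟩, ⟨15, false, 3, 5, [9]⟩,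
  ⟨16, true, 3, 5, [11]⟩, ⟨17, false, 3, 5, [10]⟩, ⟨18, false, 3, 5, [10]⟩, ⟨19, false, 3, 5,
  [4]⟩], .cert (.vert 7 (.cons 2 (.vert 3 (.cons 0 .nil (.cons 9 (.vert 0 (.cons 1 (.vert 11
  (.cons 16 .nil .nil)) .nil)) (.cons 10 (.vert 0 (.cons 1 .nil .nil)) .nil)))) (.cons 11 (.edge
  0 1 (.contr 0 .nil) (.vert 2 (.cons 8 .nil .nil))) (.cons 12 (.edge 0 1 (.contr 0 .nil) (.vert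
  2 (.cons 8 (.vert 4 (.cons 19 .nil .nil)) .nil))) .nil))))⟩

noncomputable def e115 : Ent := ⟨3, [⟨0, true, 3, 3, [1, 2, 3]⟩, ⟨1, false, 4, 4, [0, 4, 5, 6]⟩, ⟨2, false, 3,
  3, [0, 7, 8]⟩, ⟨3, false, 3, 3, [0, 9, 10]⟩, ⟨4, true, 3, 5, [1, 12]⟩, ⟨5, true, 3, 5, [1]⟩,
  ⟨6, true, 3, 5, [1]⟩, ⟨7, true, 3, 3, [2, 11, 12]⟩, ⟨8, true, 3, 3, [2, 13, 14]⟩, ⟨9, true, 3,
  3, [3, 11, 15]⟩, ⟨10, true, 3, 5, [3]⟩, ⟨11, false, 3, 3, [7, 9, 16]⟩, ⟨12, false, 4, 5, [4,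
  7, 17, 18]⟩, ⟨13, false, 3, 5, [8]⟩, ⟨14, false, 3, 5, [8]⟩, ⟨15, false, 3, 5, [9]⟩, ⟨16,
  true, 3, 5, [11]⟩, ⟨17, true, 3, 5, [12]⟩, ⟨18, true, 3, 5, [12]⟩], .cert (.vert 0 (.cons 1
  (.vert 2 (.cons 7 (.vert 3 (.cons 9 (.vert 11 (.cons 16 .nil .nil)) (.cons 10 .nil .nil)))
  (.cons 8 (.vert 9 (.cons 3 .nil (.cons 11 (.vert 3 (.cons 10 (.vert 7 (.cons 12 .nil .nil))
  .nil)) (.cons 15 (.vert 3 (.cons 10 .nil .nil)) .nil)))) .nil))) (.cons 2 (.vert 11 (.cons 7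
  .nil (.cons 9 (.vert 3 (.cons 10 (.vert 7 (.cons 12 .nil .nil)) .nil)) (.cons 16 (.vert 7
  (.cons 12 .nil .nil)) .nil)))) (.cons 3 (.vert 7 (.cons 2 .nil (.cons 11 (.vert 2 (.cons 8
  (.vert 9 (.cons 15 .nil .nil)) .nil)) (.cons 12 (.vert 2 (.cons 8 .nil .nil)) .nil))))
  .nil))))⟩

noncomputable def e116 : Ent := ⟨3, [⟨0, true, 3, 3, [1, 2, 3]⟩, ⟨1, false, 4, 5, [0]⟩, ⟨2, false, 3, 3, [0,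
  4, 5]⟩, ⟨3, false, 3, 3, [0, 6, 7]⟩, ⟨4, true, 3, 3, [2, 8, 9]⟩, ⟨5, true, 3, 3, [2, 10, 11]⟩,
  ⟨6, true, 3, 3, [3, 8, 12]⟩, ⟨7, true, 3, 3, [3, 13, 14]⟩, ⟨8, false, 3, 5, [4, 6]⟩, ⟨9,
  false, 4, 5, [4]⟩, ⟨10, false, 3, 5, [5]⟩, ⟨11, false, 3, 5, [5]⟩, ⟨12, false, 3, 5, [6]⟩,
  ⟨13, false, 3, 5, [7]⟩, ⟨14, false, 3, 5, [7]⟩], .cert (.vert 4 (.cons 2 (.vert 3 (.cons 0
  .nil (.cons 6 (.vert 0 (.cons 1 .nil .nil)) (.cons 7 (.vert 0 (.cons 1 .nil .nil)) .nil))))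
  (.cons 8 (.edge 0 1 (.contr 0 .nil) (.vert 2 (.cons 5 .nil .nil))) (.cons 9 (.edge 0 1 (.contr
  0 .nil) (.vert 2 (.cons 5 .nil .nil))) .nil))))⟩

noncomputable def e117 : Ent := ⟨3, [⟨0, true, 3, 3, [1, 2, 3]⟩, ⟨1, false, 4, 4, [0, 4, 5, 6]⟩, ⟨2, false, 3,
  3, [0, 7, 8]⟩, ⟨3, false, 3, 3, [0, 9, 10]⟩, ⟨4, true, 3, 5, [1, 12]⟩, ⟨5, true, 3, 5, [1]⟩,
  ⟨6, true, 3, 5, [1]⟩, ⟨7, true, 3, 3, [2, 11, 12]⟩, ⟨8, true, 3, 3, [2, 13, 14]⟩, ⟨9, true, 3,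
  3, [3, 11, 15]⟩, ⟨10, true, 3, 3, [3, 17, 18]⟩, ⟨11, false, 3, 3, [7, 9, 16]⟩, ⟨12, false, 3,
  3, [4, 7, 19]⟩, ⟨13, false, 3, 5, [8]⟩, ⟨14, false, 3, 5, [8]⟩, ⟨15, false, 3, 5, [9]⟩, ⟨16,
  true, 3, 5, [11]⟩, ⟨17, false, 3, 5, [10]⟩, ⟨18, false, 3, 5, [10]⟩, ⟨19, true, 3, 5, [12]⟩],
  .cert (.edge 0 1 (.edge 3 9 (.contr 0 .nil) (.vert 0 (.cons 2 (.vert 7 (.cons 11 .nil (.cons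
  12 (.vert 11 (.cons 16 .nil .nil)) .nil))) .nil))) (.vert 3 (.cons 9 (.vert 7 (.cons 2 (.vert
  11 (.cons 16 .nil .nil)) (.cons 11 (.vert 2 (.cons 8 .nil .nil)) (.cons 12 (.vert 2 (.cons 8
  (.vert 11 (.cons 16 .nil .nil)) .nil)) .nil)))) (.cons 10 (.vert 7 (.cons 2 .nil (.cons 11
  (.vert 2 (.cons 8 (.vert 9 (.cons 15 .nil .nil)) .nil)) (.cons 12 (.vert 2 (.cons 8 .nil
  .nil)) .nil)))) .nil))))⟩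

noncomputable def e118 : Ent := ⟨3, [⟨0, true, 3, 3, [1, 2, 3]⟩, ⟨1, false, 3, 4, [0, 4, 5, 6]⟩, ⟨2, false, 3,
  3, [0, 7, 8]⟩, ⟨3, false, 3, 3, [0, 9, 10]⟩, ⟨4, true, 3, 5, [1]⟩, ⟨5, true, 3, 5, [1]⟩, ⟨6,
  true, 3, 5, [1]⟩, ⟨7, true, 3, 3, [2, 11, 12]⟩, ⟨8, true, 3, 3, [2, 13, 14]⟩, ⟨9, true, 3, 5,
  [3, 11]⟩, ⟨10, true, 3, 5, [3]⟩, ⟨11, false, 3, 3, [7, 9, 15]⟩, ⟨12, false, 3, 3, [7, 16,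
  17]⟩, ⟨13, false, 3, 3, [8, 18, 19]⟩, ⟨14, false, 3, 5, [8]⟩, ⟨15, true, 3, 5, [11]⟩, ⟨16,
  true, 3, 5, [12]⟩, ⟨17, true, 3, 5, [12]⟩, ⟨18, true, 3, 5, [13]⟩, ⟨19, true, 3, 5, [13]⟩],
  .cert (.edge 8 14 (.contr 8 .nil) (.edge 0 3 (.contr 0 .nil) (.vert 2 (.cons 7 .nil .nil))))⟩

noncomputable def e119 : Ent := ⟨3, [⟨0, true, 3, 3, [1, 2, 3]⟩, ⟨1, false, 4, 4, [0, 4, 5, 6]⟩, ⟨2, false, 3,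
  3, [0, 7, 8]⟩, ⟨3, false, 3, 3, [0, 9, 10]⟩, ⟨4, true, 3, 5, [1]⟩, ⟨5, true, 3, 5, [1]⟩, ⟨6,
  true, 3, 5, [1]⟩, ⟨7, true, 3, 3, [2, 11, 12]⟩, ⟨8, true, 3, 3, [2, 13, 14]⟩, ⟨9, true, 3, 3,
  [3, 11, 15]⟩, ⟨10, true, 3, 5, [3]⟩, ⟨11, false, 3, 3, [7, 9, 16]⟩, ⟨12, false, 3, 3, [7, 17,
  18]⟩, ⟨13, false, 4, 5, [8]⟩, ⟨14, false, 3, 5, [8]⟩, ⟨15, false, 3, 5, [9]⟩, ⟨16, true, 3, 5,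
  [11]⟩, ⟨17, true, 3, 5, [12]⟩, ⟨18, true, 3, 5, [12]⟩], .cert (.vert 8 (.cons 2 (.vert 7
  (.cons 11 (.vert 3 (.cons 0 (.vert 9 (.cons 15 .nil .nil)) (.cons 9 (.vert 0 (.cons 1 .nil
  .nil)) (.cons 10 (.vert 0 (.cons 1 .nil .nil)) .nil)))) (.cons 12 (.vert 3 (.cons 0 .nil
  (.cons 9 (.vert 0 (.cons 1 (.vert 11 (.cons 16 .nil .nil)) .nil)) (.cons 10 (.vert 0 (.cons 1
  .nil .nil)) .nil)))) .nil))) (.cons 13 (.edge 0 3 (.contr 0 .nil) (.vert 2 (.cons 7 .nil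
  .nil))) (.cons 14 (.edge 0 3 (.contr 0 .nil) (.vert 2 (.cons 7 .nil .nil))) .nil))))⟩

noncomputable def e120 : Ent := ⟨3, [⟨0, true, 3, 3, [1, 2, 3]⟩, ⟨1, false, 4, 4, [0, 4, 5, 6]⟩, ⟨2, false, 3,
  3, [0, 7, 8]⟩, ⟨3, false, 3, 3, [0, 9, 10]⟩, ⟨4, true, 3, 5, [1]⟩, ⟨5, true, 3, 5, [1]⟩, ⟨6,
  true, 3, 5, [1]⟩, ⟨7, true, 3, 3, [2, 11, 12]⟩, ⟨8, true, 3, 5, [2]⟩, ⟨9, true, 3, 3, [3, 11,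
  13]⟩, ⟨10, true, 3, 5, [3]⟩, ⟨11, false, 3, 3, [7, 9, 14]⟩, ⟨12, false, 3, 3, [7, 15, 16]⟩,
  ⟨13, false, 3, 3, [9, 15, 17]⟩, ⟨14, true, 3, 5, [11]⟩, ⟨15, true, 3, 5, [12, 13]⟩, ⟨16, true,
  3, 5, [12]⟩, ⟨17, true, 3, 5, [13]⟩], .cert (.vert 0 (.cons 1 (.vert 2 (.cons 7 (.vert 3
  (.cons 9 (.vert 11 (.cons 14 .nil .nil)) (.cons 10 .nil .nil))) (.cons 8 .nil .nil))) (.cons 2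
  (.vert 9 (.cons 3 (.vert 12 (.cons 7 (.vert 11 (.cons 14 .nil .nil)) (.cons 15 (.vert 7 (.cons
  11 (.vert 13 (.cons 17 .nil .nil)) .nil)) (.cons 16 (.vert 7 (.cons 11 .nil .nil)) .nil))))
  (.cons 11 (.vert 3 (.cons 10 (.vert 7 (.cons 12 .nil .nil)) .nil)) (.cons 13 (.vert 3 (.cons
  10 .nil .nil)) .nil)))) (.cons 3 (.vert 7 (.cons 2 (.vert 13 (.cons 9 (.vert 11 (.cons 14 .nil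
  .nil)) (.cons 15 (.vert 9 (.cons 11 (.vert 12 (.cons 16 .nil .nil)) .nil)) (.cons 17 (.vert 9
  (.cons 11 .nil .nil)) .nil)))) (.cons 11 (.vert 2 (.cons 8 (.vert 9 (.cons 13 .nil .nil))
  .nil)) (.cons 12 (.vert 2 (.cons 8 .nil .nil)) .nil)))) .nil))))⟩

noncomputable def e121 : Ent := ⟨3, [⟨0, true, 3, 3, [1, 2, 3]⟩, ⟨1, false, 4, 4, [0, 4, 5, 6]⟩, ⟨2, false, 3,
  3, [0, 7, 8]⟩, ⟨3, false, 3, 3, [0, 9, 10]⟩, ⟨4, true, 3, 5, [1]⟩, ⟨5, true, 3, 5, [1]⟩, ⟨6,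
  true, 3, 5, [1]⟩, ⟨7, true, 3, 3, [2, 11, 12]⟩, ⟨8, true, 3, 5, [2]⟩, ⟨9, true, 3, 3, [3, 11,
  13]⟩, ⟨10, true, 3, 5, [3]⟩, ⟨11, false, 3, 3, [7, 9, 14]⟩, ⟨12, false, 3, 3, [7, 15, 16]⟩,
  ⟨13, false, 3, 3, [9, 17, 18]⟩, ⟨14, true, 3, 5, [11]⟩, ⟨15, true, 3, 5, [12]⟩, ⟨16, true, 3,
  5, [12]⟩, ⟨17, true, 3, 5, [13]⟩, ⟨18, true, 3, 5, [13]⟩], .cert (.vert 3 (.cons 0 (.edge 11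
  14 (.contr 9 .nil) (.vert 9 (.cons 13 .nil .nil))) (.cons 9 (.vert 0 (.cons 1 (.vert 7 (.cons
  2 (.vert 11 (.cons 14 .nil .nil)) (.cons 11 (.vert 2 (.cons 8 .nil .nil)) (.cons 12 (.vert 2
  (.cons 8 (.vert 11 (.cons 14 .nil .nil)) .nil)) .nil)))) (.cons 2 .nil .nil))) (.cons 10
  (.edge 11 14 (.contr 9 (.edge 2 8 (.contr 0 .nil) (.vert 0 (.cons 1 .nil .nil)))) (.vert 9
  (.cons 13 (.vert 2 (.cons 0 (.vert 7 (.cons 12 .nil .nil)) (.cons 7 (.vert 0 (.cons 1 .nil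
  .nil)) (.cons 8 (.vert 0 (.cons 1 (.vert 7 (.cons 12 .nil .nil)) .nil)) .nil)))) .nil)))
  .nil))))⟩

noncomputable def e122 : Ent := ⟨3, [⟨0, true, 3, 3, [1, 2, 3]⟩, ⟨1, false, 4, 4, [0, 4, 5, 6]⟩, ⟨2, false, 3,
  3, [0, 7, 8]⟩, ⟨3, false, 3, 3, [0, 9, 10]⟩, ⟨4, true, 3, 5, [1]⟩, ⟨5, true, 3, 5, [1]⟩, ⟨6,
  true, 3, 5, [1]⟩, ⟨7, true, 3, 3, [2, 11, 12]⟩, ⟨8, true, 3, 3, [2, 13, 14]⟩, ⟨9, true, 3, 3,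
  [3, 11, 15]⟩, ⟨10, true, 3, 3, [3, 17, 18]⟩, ⟨11, false, 3, 3, [7, 9, 16]⟩, ⟨12, false, 3, 3,
  [7, 19, 20]⟩, ⟨13, false, 3, 5, [8]⟩, ⟨14, false, 3, 5, [8]⟩, ⟨15, false, 3, 5, [9]⟩, ⟨16,
  true, 3, 5, [11]⟩, ⟨17, false, 3, 5, [10]⟩, ⟨18, false, 3, 5, [10]⟩, ⟨19, true, 3, 5, [12]⟩,
  ⟨20, true, 3, 5, [12]⟩], .split (.deg 15 (.cons 3 (.fill 15 21 (.fill 15 22 (.emb 121 false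
  [0, 1, 2, 3, 4, 5, 6, 7, 8, 9, 10, 11, 12, 15, 16, 19, 20, 21, 22]) (.cons 4 (.emb 117 false
  [0, 1, 3, 2, 4, 5, 6, 9, 10, 7, 8, 11, 15, 17, 18, 12, 16, 13, 14, 21]) (.cons 5 (.emb 117
  false [0, 1, 3, 2, 5, 4, 6, 9, 10, 7, 8, 11, 15, 17, 18, 12, 16, 13, 14, 21]) (.cons 6 (.emb
  117 false [0, 1, 3, 2, 6, 4, 5, 9, 10, 7, 8, 11, 15, 17, 18, 12, 16, 13, 14, 21]) (.cons 19
  (.emb 120 false [0, 1, 2, 3, 4, 5, 6, 7, 8, 9, 10, 11, 12, 15, 16, 19, 20, 21]) (.cons 20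
  (.emb 120 false [0, 1, 2, 3, 4, 5, 6, 7, 8, 9, 10, 11, 12, 15, 16, 20, 19, 21]) .nil))))))
  (.cons 4 (.fill 15 21 (.emb 117 false [0, 1, 3, 2, 4, 5, 6, 9, 10, 7, 8, 11, 15, 17, 18, 12,
  16, 13, 14, 21]) (.cons 19 (.emb 117 false [0, 1, 3, 2, 4, 5, 6, 9, 10, 7, 8, 11, 15, 17, 18,
  12, 16, 13, 14, 19]) (.cons 20 (.emb 117 false [0, 1, 3, 2, 4, 5, 6, 9, 10, 7, 8, 11, 15, 17,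
  18, 12, 16, 13, 14, 20]) .nil))) (.cons 5 (.fill 15 21 (.emb 117 false [0, 1, 3, 2, 5, 4, 6,
  9, 10, 7, 8, 11, 15, 17, 18, 12, 16, 13, 14, 21]) (.cons 19 (.emb 117 false [0, 1, 3, 2, 5, 4,
  6, 9, 10, 7, 8, 11, 15, 17, 18, 12, 16, 13, 14, 19]) (.cons 20 (.emb 117 false [0, 1, 3, 2, 5,
  4, 6, 9, 10, 7, 8, 11, 15, 17, 18, 12, 16, 13, 14, 20]) .nil))) (.cons 6 (.fill 15 21 (.emb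
  117 false [0, 1, 3, 2, 6, 4, 5, 9, 10, 7, 8, 11, 15, 17, 18, 12, 16, 13, 14, 21]) (.cons 19
  (.emb 117 false [0, 1, 3, 2, 6, 4, 5, 9, 10, 7, 8, 11, 15, 17, 18, 12, 16, 13, 14, 19]) (.cons
  20 (.emb 117 false [0, 1, 3, 2, 6, 4, 5, 9, 10, 7, 8, 11, 15, 17, 18, 12, 16, 13, 14, 20])
  .nil))) (.cons 19 (.fill 15 21 (.emb 120 false [0, 1, 2, 3, 4, 5, 6, 7, 8, 9, 10, 11, 12, 15,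
  16, 19, 20, 21]) (.cons 4 (.emb 117 false [0, 1, 3, 2, 4, 5, 6, 9, 10, 7, 8, 11, 15, 17, 18,
  12, 16, 13, 14, 19]) (.cons 5 (.emb 117 false [0, 1, 3, 2, 5, 4, 6, 9, 10, 7, 8, 11, 15, 17,
  18, 12, 16, 13, 14, 19]) (.cons 6 (.emb 117 false [0, 1, 3, 2, 6, 4, 5, 9, 10, 7, 8, 11, 15,
  17, 18, 12, 16, 13, 14, 19]) .nil)))) (.cons 20 (.fill 15 21 (.emb 120 false [0, 1, 2, 3, 4,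
  5, 6, 7, 8, 9, 10, 11, 12, 15, 16, 20, 19, 21]) (.cons 4 (.emb 117 false [0, 1, 3, 2, 4, 5, 6,
  9, 10, 7, 8, 11, 15, 17, 18, 12, 16, 13, 14, 20]) (.cons 5 (.emb 117 false [0, 1, 3, 2, 5, 4,
  6, 9, 10, 7, 8, 11, 15, 17, 18, 12, 16, 13, 14, 20]) (.cons 6 (.emb 117 false [0, 1, 3, 2, 6,
  4, 5, 9, 10, 7, 8, 11, 15, 17, 18, 12, 16, 13, 14, 20]) .nil)))) .nil)))))) (.cons 4 (.emb 116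
  false [0, 1, 3, 2, 9, 10, 7, 8, 11, 15, 17, 18, 12, 13, 14]) (.cons 5 (.emb 58 false [9, 15,
  3, 11, 0, 10, 7, 16, 1, 2, 17, 18]) .nil))))⟩

noncomputable def e123 : Ent := ⟨3, [⟨0, true, 3, 3, [1, 2, 3]⟩, ⟨1, false, 4, 4, [0, 4, 5, 6]⟩, ⟨2, false, 3,
  3, [0, 7, 8]⟩, ⟨3, false, 3, 3, [0, 9, 10]⟩, ⟨4, true, 3, 5, [1]⟩, ⟨5, true, 3, 5, [1]⟩, ⟨6,
  true, 3, 5, [1]⟩, ⟨7, true, 3, 3, [2, 11, 12]⟩, ⟨8, true, 3, 3, [2, 13, 14]⟩, ⟨9, true, 3, 3,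
  [3, 11, 15]⟩, ⟨10, true, 3, 3, [3, 17, 18]⟩, ⟨11, false, 3, 3, [7, 9, 16]⟩, ⟨12, false, 3, 5,
  [7]⟩, ⟨13, false, 3, 5, [8]⟩, ⟨14, false, 3, 5, [8]⟩, ⟨15, false, 3, 5, [9]⟩, ⟨16, true, 3, 5,
  [11]⟩, ⟨17, false, 3, 5, [10]⟩, ⟨18, false, 3, 5, [10]⟩], .split (.deg 12 (.cons 3 (.fill 12
  19 (.fill 12 20 (.emb 122 false [0, 1, 2, 3, 4, 5, 6, 7, 8, 9, 10, 11, 12, 13, 14, 15, 16, 17,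
  18, 19, 20]) (.cons 4 (.emb 117 false [0, 1, 2, 3, 4, 5, 6, 7, 8, 9, 10, 11, 12, 13, 14, 15,
  16, 17, 18, 19]) (.cons 5 (.emb 117 false [0, 1, 2, 3, 5, 4, 6, 7, 8, 9, 10, 11, 12, 13, 14,
  15, 16, 17, 18, 19]) (.cons 6 (.emb 117 false [0, 1, 2, 3, 6, 4, 5, 7, 8, 9, 10, 11, 12, 13,
  14, 15, 16, 17, 18, 19]) .nil)))) (.cons 4 (.fill 12 19 (.emb 117 false [0, 1, 2, 3, 4, 5, 6,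
  7, 8, 9, 10, 11, 12, 13, 14, 15, 16, 17, 18, 19]) .nil) (.cons 5 (.fill 12 19 (.emb 117 false
  [0, 1, 2, 3, 5, 4, 6, 7, 8, 9, 10, 11, 12, 13, 14, 15, 16, 17, 18, 19]) .nil) (.cons 6 (.fill
  12 19 (.emb 117 false [0, 1, 2, 3, 6, 4, 5, 7, 8, 9, 10, 11, 12, 13, 14, 15, 16, 17, 18, 19])
  .nil) .nil)))) (.cons 4 (.emb 116 false [0, 1, 2, 3, 7, 8, 9, 10, 11, 12, 13, 14, 15, 17, 18])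
  (.cons 5 (.emb 58 false [7, 12, 2, 11, 0, 8, 9, 16, 1, 3, 13, 14]) .nil))))⟩

noncomputable def e124 : Ent := ⟨3, [⟨0, true, 3, 3, [1, 2, 3]⟩, ⟨1, false, 4, 4, [0, 4, 5, 6]⟩, ⟨2, false, 3,
  3, [0, 7, 8]⟩, ⟨3, false, 3, 3, [0, 9, 10]⟩, ⟨4, true, 3, 5, [1]⟩, ⟨5, true, 3, 5, [1]⟩, ⟨6,
  true, 3, 5, [1]⟩, ⟨7, true, 3, 3, [2, 11, 12]⟩, ⟨8, true, 3, 3, [2, 13, 14]⟩, ⟨9, true, 3, 3,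
  [3, 11, 15]⟩, ⟨10, true, 4, 4, [3, 12, 13, 17]⟩, ⟨11, false, 3, 3, [7, 9, 16]⟩, ⟨12, false, 3,
  5, [7, 10]⟩, ⟨13, false, 3, 5, [8, 10]⟩, ⟨14, false, 3, 5, [8]⟩, ⟨15, false, 3, 5, [9]⟩, ⟨16,
  true, 3, 5, [11]⟩, ⟨17, false, 3, 5, [10]⟩], .cert (.vert 0 (.cons 1 (.vert 3 (.cons 9 (.vert
  2 (.cons 7 (.vert 11 (.cons 16 .nil .nil)) (.cons 8 .nil .nil))) (.cons 10 (.edge 7 11 .nil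
  (.vert 2 (.cons 8 (.vert 9 (.cons 15 .nil .nil)) .nil))) .nil))) (.cons 2 (.vert 10 (.cons 3
  (.vert 9 (.cons 11 (.vert 7 (.cons 12 .nil .nil)) (.cons 15 .nil .nil))) (.cons 12 (.vert 3
  (.cons 9 (.vert 7 (.cons 11 .nil .nil)) .nil)) (.cons 13 (.vert 3 (.cons 9 (.vert 8 (.cons 14
  .nil .nil)) .nil)) (.cons 17 (.vert 3 (.cons 9 .nil .nil)) .nil))))) (.cons 3 (.vert 7 (.cons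
  2 .nil (.cons 11 (.vert 2 (.cons 8 (.vert 9 (.cons 15 .nil .nil)) .nil)) (.cons 12 (.vert 2
  (.cons 8 .nil .nil)) .nil)))) .nil))))⟩

noncomputable def e125 : Ent := ⟨3, [⟨0, true, 3, 3, [1, 2, 3]⟩, ⟨1, false, 4, 4, [0, 4, 5, 6]⟩, ⟨2, false, 3,
  3, [0, 7, 8]⟩, ⟨3, false, 3, 3, [0, 9, 10]⟩, ⟨4, true, 3, 5, [1]⟩, ⟨5, true, 3, 5, [1]⟩, ⟨6,
  true, 3, 5, [1]⟩, ⟨7, true, 3, 3, [2, 11, 12]⟩, ⟨8, true, 3, 3, [2, 13, 14]⟩, ⟨9, true, 3, 3,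
  [3, 11, 15]⟩, ⟨10, true, 4, 4, [3, 12, 17, 18]⟩, ⟨11, false, 3, 3, [7, 9, 16]⟩, ⟨12, false, 3,
  5, [7, 10]⟩, ⟨13, false, 3, 5, [8]⟩, ⟨14, false, 3, 5, [8]⟩, ⟨15, false, 3, 5, [9]⟩, ⟨16,
  true, 3, 5, [11]⟩, ⟨17, false, 3, 5, [10]⟩, ⟨18, false, 3, 5, [10]⟩], .cert (.star 0 (.cons 1
  (.edge 2 7 (.contr 0 .nil) (.vert 0 (.cons 3 .nil .nil))) (.cons 2 (.vert 3 (.cons 0 (.vert 7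
  (.cons 2 .nil (.cons 11 (.vert 2 (.cons 8 (.vert 9 (.cons 15 .nil .nil)) .nil)) (.cons 12
  (.vert 2 (.cons 8 .nil .nil)) .nil)))) (.cons 9 (.vert 0 (.cons 1 (.vert 2 (.cons 7 (.vert 11
  (.cons 16 .nil .nil)) (.cons 8 .nil .nil))) .nil)) (.cons 10 (.vert 0 (.cons 1 .nil .nil))
  .nil)))) (.cons 3 (.vert 2 (.cons 0 (.vert 9 (.cons 3 .nil (.cons 11 (.vert 3 (.cons 10 (.vert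
  7 (.cons 12 .nil .nil)) .nil)) (.cons 15 (.vert 3 (.cons 10 .nil .nil)) .nil)))) (.cons 7
  (.vert 0 (.cons 1 (.vert 3 (.cons 9 (.vert 11 (.cons 16 .nil .nil)) (.cons 10 .nil .nil)))
  .nil)) (.cons 8 (.vert 0 (.cons 1 (.vert 9 (.cons 3 .nil (.cons 11 (.vert 3 (.cons 10 .nil
  .nil)) (.cons 15 (.vert 3 (.cons 10 .nil .nil)) .nil)))) .nil)) .nil)))) .nil))))⟩

noncomputable def e126 : Ent := ⟨3, [⟨0, true, 3, 3, [1, 2, 3]⟩, ⟨1, false, 4, 4, [0, 4, 5, 6]⟩, ⟨2, false, 3,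
  3, [0, 7, 8]⟩, ⟨3, false, 3, 3, [0, 9, 10]⟩, ⟨4, true, 3, 5, [1]⟩, ⟨5, true, 3, 5, [1]⟩, ⟨6,
  true, 3, 5, [1]⟩, ⟨7, true, 3, 3, [2, 11, 12]⟩, ⟨8, true, 3, 3, [2, 13, 14]⟩, ⟨9, true, 3, 3,
  [3, 11, 15]⟩, ⟨10, true, 4, 4, [3, 13, 17, 18]⟩, ⟨11, false, 3, 3, [7, 9, 16]⟩, ⟨12, false, 3,
  5, [7]⟩, ⟨13, false, 3, 5, [8, 10]⟩, ⟨14, false, 3, 5, [8]⟩, ⟨15, false, 3, 5, [9]⟩, ⟨16,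
  true, 3, 5, [11]⟩, ⟨17, false, 3, 5, [10]⟩, ⟨18, false, 3, 5, [10]⟩], .cert (.vert 0 (.cons 1
  (.vert 3 (.cons 9 (.vert 2 (.cons 7 (.vert 11 (.cons 16 .nil .nil)) (.cons 8 .nil .nil)))
  (.cons 10 .nil .nil))) (.cons 2 (.vert 9 (.cons 3 .nil (.cons 11 (.vert 3 (.cons 10 (.vert 7
  (.cons 12 .nil .nil)) .nil)) (.cons 15 (.vert 3 (.cons 10 .nil .nil)) .nil)))) (.cons 3 (.vert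
  7 (.cons 2 .nil (.cons 11 (.vert 2 (.cons 8 (.vert 9 (.cons 15 .nil .nil)) .nil)) (.cons 12
  (.vert 2 (.cons 8 .nil .nil)) .nil)))) .nil))))⟩

noncomputable def e127 : Ent := ⟨3, [⟨0, true, 3, 3, [1, 2, 3]⟩, ⟨1, false, 4, 4, [0, 4, 5, 6]⟩, ⟨2, false, 3,
  3, [0, 7, 8]⟩, ⟨3, false, 3, 3, [0, 9, 10]⟩, ⟨4, true, 3, 5, [1]⟩, ⟨5, true, 3, 5, [1]⟩, ⟨6,
  true, 3, 5, [1]⟩, ⟨7, true, 3, 3, [2, 11, 12]⟩, ⟨8, true, 3, 3, [2, 13, 14]⟩, ⟨9, true, 3, 3,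
  [3, 11, 15]⟩, ⟨10, true, 3, 5, [3]⟩, ⟨11, false, 3, 3, [7, 9, 16]⟩, ⟨12, false, 3, 5, [7]⟩,
  ⟨13, false, 3, 5, [8]⟩, ⟨14, false, 3, 5, [8]⟩, ⟨15, false, 3, 5, [9]⟩, ⟨16, true, 3, 5,
  [11]⟩], .split (.deg 10 (.cons 3 (.fill 10 17 (.fill 10 18 (.emb 123 false [0, 1, 2, 3, 4, 5,
  6, 7, 8, 9, 10, 11, 12, 13, 14, 15, 16, 17, 18]) (.cons 12 (.emb 75 false [0, 1, 3, 2, 16, 9,
  10, 7, 8, 11, 15, 12, 17, 13, 14]) (.cons 13 (.emb 111 false [0, 1, 2, 3, 4, 5, 6, 7, 8, 9,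
  10, 11, 12, 13, 14, 15, 16, 17]) (.cons 14 (.emb 111 false [0, 1, 2, 3, 4, 5, 6, 7, 8, 9, 10,
  11, 12, 14, 13, 15, 16, 17]) .nil)))) (.cons 12 (.fill 10 17 (.emb 75 false [0, 1, 3, 2, 16,
  9, 10, 7, 8, 11, 15, 12, 17, 13, 14]) (.cons 13 (.emb 66 false [0, 1, 2, 3, 7, 8, 10, 9, 12,
  11, 13, 14, 15]) (.cons 14 (.emb 66 false [0, 1, 2, 3, 7, 8, 10, 9, 12, 11, 14, 13, 15])
  .nil))) (.cons 13 (.fill 10 17 (.emb 111 false [0, 1, 2, 3, 4, 5, 6, 7, 8, 9, 10, 11, 12, 13,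
  14, 15, 16, 17]) (.cons 12 (.emb 66 false [0, 1, 2, 3, 7, 8, 10, 9, 12, 11, 13, 14, 15])
  .nil)) (.cons 14 (.fill 10 17 (.emb 111 false [0, 1, 2, 3, 4, 5, 6, 7, 8, 9, 10, 11, 12, 14,
  13, 15, 16, 17]) (.cons 12 (.emb 66 false [0, 1, 2, 3, 7, 8, 10, 9, 12, 11, 14, 13, 15])
  .nil)) .nil)))) (.cons 4 (.fill 10 17 (.fill 10 18 (.fill 10 19 (.emb 110 false [0, 1, 2, 3,
  7, 8, 9, 10, 11, 12, 13, 14, 15, 16, 17, 18, 19]) (.cons 12 (.emb 125 false [0, 1, 2, 3, 4, 5,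
  6, 7, 8, 9, 10, 11, 12, 13, 14, 15, 16, 17, 18]) (.cons 13 (.emb 126 false [0, 1, 2, 3, 4, 5,
  6, 7, 8, 9, 10, 11, 12, 13, 14, 15, 16, 17, 18]) (.cons 14 (.emb 126 false [0, 1, 2, 3, 4, 5,
  6, 7, 8, 9, 10, 11, 12, 14, 13, 15, 16, 17, 18]) .nil)))) (.cons 12 (.fill 10 18 (.emb 125
  false [0, 1, 2, 3, 4, 5, 6, 7, 8, 9, 10, 11, 12, 13, 14, 15, 16, 17, 18]) (.cons 13 (.emb 124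
  false [0, 1, 2, 3, 4, 5, 6, 7, 8, 9, 10, 11, 12, 13, 14, 15, 16, 17]) (.cons 14 (.emb 124
  false [0, 1, 2, 3, 4, 5, 6, 7, 8, 9, 10, 11, 12, 14, 13, 15, 16, 17]) .nil))) (.cons 13 (.fill
  10 18 (.emb 126 false [0, 1, 2, 3, 4, 5, 6, 7, 8, 9, 10, 11, 12, 13, 14, 15, 16, 17, 18])
  (.cons 12 (.emb 124 false [0, 1, 2, 3, 4, 5, 6, 7, 8, 9, 10, 11, 12, 13, 14, 15, 16, 17])
  .nil)) (.cons 14 (.fill 10 18 (.emb 126 false [0, 1, 2, 3, 4, 5, 6, 7, 8, 9, 10, 11, 12, 14,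
  13, 15, 16, 17, 18]) (.cons 12 (.emb 124 false [0, 1, 2, 3, 4, 5, 6, 7, 8, 9, 10, 11, 12, 14,
  13, 15, 16, 17]) .nil)) .nil)))) (.cons 12 (.fill 10 17 (.fill 10 18 (.emb 125 false [0, 1, 2,
  3, 4, 5, 6, 7, 8, 9, 10, 11, 12, 13, 14, 15, 16, 17, 18]) (.cons 13 (.emb 124 false [0, 1, 2,
  3, 4, 5, 6, 7, 8, 9, 10, 11, 12, 13, 14, 15, 16, 17]) (.cons 14 (.emb 124 false [0, 1, 2, 3,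
  4, 5, 6, 7, 8, 9, 10, 11, 12, 14, 13, 15, 16, 17]) .nil))) (.cons 13 (.fill 10 17 (.emb 124
  false [0, 1, 2, 3, 4, 5, 6, 7, 8, 9, 10, 11, 12, 13, 14, 15, 16, 17]) .nil) (.cons 14 (.fill
  10 17 (.emb 124 false [0, 1, 2, 3, 4, 5, 6, 7, 8, 9, 10, 11, 12, 14, 13, 15, 16, 17]) .nil)
  .nil))) (.cons 13 (.fill 10 17 (.fill 10 18 (.emb 126 false [0, 1, 2, 3, 4, 5, 6, 7, 8, 9, 10,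
  11, 12, 13, 14, 15, 16, 17, 18]) (.cons 12 (.emb 124 false [0, 1, 2, 3, 4, 5, 6, 7, 8, 9, 10,
  11, 12, 13, 14, 15, 16, 17]) .nil)) (.cons 12 (.fill 10 17 (.emb 124 false [0, 1, 2, 3, 4, 5,
  6, 7, 8, 9, 10, 11, 12, 13, 14, 15, 16, 17]) .nil) .nil)) (.cons 14 (.fill 10 17 (.fill 10 18
  (.emb 126 false [0, 1, 2, 3, 4, 5, 6, 7, 8, 9, 10, 11, 12, 14, 13, 15, 16, 17, 18]) (.cons 12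
  (.emb 124 false [0, 1, 2, 3, 4, 5, 6, 7, 8, 9, 10, 11, 12, 14, 13, 15, 16, 17]) .nil)) (.cons
  12 (.fill 10 17 (.emb 124 false [0, 1, 2, 3, 4, 5, 6, 7, 8, 9, 10, 11, 12, 14, 13, 15, 16,
  17]) .nil) .nil)) .nil)))) (.cons 5 (.emb 53 true [3, 10, 0, 9, 1, 2, 11, 15]) .nil))))⟩

noncomputable def e128 : Ent := ⟨3, [⟨0, true, 3, 3, [1, 2, 3]⟩, ⟨1, false, 4, 5, [0]⟩, ⟨2, false, 3, 3, [0,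
  4, 5]⟩, ⟨3, false, 3, 3, [0, 6, 7]⟩, ⟨4, true, 3, 3, [2, 8, 9]⟩, ⟨5, true, 3, 3, [2, 10, 11]⟩,
  ⟨6, true, 3, 3, [3, 8, 12]⟩, ⟨7, true, 3, 3, [3, 13, 14]⟩, ⟨8, false, 4, 5, [4, 6]⟩, ⟨9,
  false, 3, 5, [4]⟩, ⟨10, false, 3, 5, [5]⟩, ⟨11, false, 3, 5, [5]⟩, ⟨12, false, 3, 5, [6]⟩,
  ⟨13, false, 3, 5, [7]⟩, ⟨14, false, 3, 5, [7]⟩], .cert (.vert 6 (.cons 3 (.vert 0 (.cons 1
  .nil (.cons 2 .nil .nil))) (.cons 8 (.edge 0 1 (.contr 0 .nil) (.vert 3 (.cons 7 .nil .nil)))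
  (.cons 12 (.edge 0 1 (.contr 0 .nil) (.vert 3 (.cons 7 .nil .nil))) .nil))))⟩

noncomputable def e129 : Ent := ⟨3, [⟨0, true, 3, 3, [1, 2, 3]⟩, ⟨1, false, 4, 5, [0]⟩, ⟨2, false, 3, 3, [0,
  4, 5]⟩, ⟨3, false, 3, 3, [0, 6, 7]⟩, ⟨4, true, 3, 3, [2, 8, 9]⟩, ⟨5, true, 3, 3, [2, 10, 11]⟩,
  ⟨6, true, 3, 3, [3, 8, 12]⟩, ⟨7, true, 3, 5, [3, 9, 10, 13]⟩, ⟨8, false, 4, 5, [4, 6]⟩, ⟨9,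
  false, 3, 5, [4, 7]⟩, ⟨10, false, 3, 5, [5, 7]⟩, ⟨11, false, 3, 5, [5]⟩, ⟨12, false, 3, 5,
  [6]⟩, ⟨13, false, 3, 5, [7]⟩], .cert (.vert 0 (.cons 1 (.vert 6 (.cons 3 .nil (.cons 8 (.vert
  3 (.cons 7 .nil .nil)) (.cons 12 (.vert 3 (.cons 7 .nil .nil)) .nil)))) (.cons 2 (.vert 6
  (.cons 3 .nil (.cons 8 (.vert 3 (.cons 7 (.vert 4 (.cons 9 .nil .nil)) .nil)) (.cons 12 (.vert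
  3 (.cons 7 .nil .nil)) .nil)))) (.cons 3 (.vert 2 (.cons 4 .nil (.cons 5 (.vert 4 (.cons 8
  (.vert 6 (.cons 12 .nil .nil)) (.cons 9 .nil .nil))) .nil))) .nil))))⟩

noncomputable def e130 : Ent := ⟨3, [⟨0, true, 3, 3, [1, 2, 3]⟩, ⟨1, false, 4, 5, [0]⟩, ⟨2, false, 3, 3, [0,
  4, 5]⟩, ⟨3, false, 3, 3, [0, 6, 7]⟩, ⟨4, true, 3, 3, [2, 8, 9]⟩, ⟨5, true, 3, 3, [2, 10, 11]⟩,
  ⟨6, true, 3, 3, [3, 8, 12]⟩, ⟨7, true, 3, 5, [3, 9, 13, 14]⟩, ⟨8, false, 4, 5, [4, 6]⟩, ⟨9,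
  false, 3, 5, [4, 7]⟩, ⟨10, false, 3, 5, [5]⟩, ⟨11, false, 3, 5, [5]⟩, ⟨12, false, 3, 5, [6]⟩,
  ⟨13, false, 3, 5, [7]⟩, ⟨14, false, 3, 5, [7]⟩], .cert (.vert 0 (.cons 1 (.vert 6 (.cons 3
  .nil (.cons 8 (.vert 3 (.cons 7 .nil .nil)) (.cons 12 (.vert 3 (.cons 7 .nil .nil)) .nil))))
  (.cons 2 (.vert 6 (.cons 3 .nil (.cons 8 (.vert 3 (.cons 7 (.vert 4 (.cons 9 .nil .nil))
  .nil)) (.cons 12 (.vert 3 (.cons 7 .nil .nil)) .nil)))) (.cons 3 (.vert 2 (.cons 4 .nil (.cons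
  5 (.vert 4 (.cons 8 (.vert 6 (.cons 12 .nil .nil)) (.cons 9 .nil .nil))) .nil))) .nil))))⟩

noncomputable def e131 : Ent := ⟨3, [⟨0, true, 3, 3, [1, 2, 3]⟩, ⟨1, false, 4, 5, [0]⟩, ⟨2, false, 3, 3, [0,
  4, 5]⟩, ⟨3, false, 3, 3, [0, 6, 7]⟩, ⟨4, true, 3, 3, [2, 8, 9]⟩, ⟨5, true, 3, 3, [2, 10, 11]⟩,
  ⟨6, true, 3, 3, [3, 8, 12]⟩, ⟨7, true, 3, 5, [3, 10, 13, 14]⟩, ⟨8, false, 4, 5, [4, 6]⟩, ⟨9,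
  false, 3, 5, [4]⟩, ⟨10, false, 3, 5, [5, 7]⟩, ⟨11, false, 3, 5, [5]⟩, ⟨12, false, 3, 5, [6]⟩,
  ⟨13, false, 3, 5, [7]⟩, ⟨14, false, 3, 5, [7]⟩], .cert (.vert 0 (.cons 1 (.vert 6 (.cons 3
  .nil (.cons 8 (.vert 3 (.cons 7 .nil .nil)) (.cons 12 (.vert 3 (.cons 7 .nil .nil)) .nil))))
  (.cons 2 (.vert 6 (.cons 3 .nil (.cons 8 (.vert 3 (.cons 7 (.vert 4 (.cons 9 .nil .nil))
  .nil)) (.cons 12 (.vert 3 (.cons 7 .nil .nil)) .nil)))) (.cons 3 (.vert 2 (.cons 4 .nil (.cons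
  5 (.vert 4 (.cons 8 (.vert 6 (.cons 12 .nil .nil)) (.cons 9 .nil .nil))) .nil))) .nil))))⟩

noncomputable def e132 : Ent := ⟨3, [⟨0, true, 3, 3, [1, 2, 3]⟩, ⟨1, false, 4, 5, [0]⟩, ⟨2, false, 3, 3, [0,
  4, 5]⟩, ⟨3, false, 3, 3, [0, 6, 7]⟩, ⟨4, true, 3, 3, [2, 8, 9]⟩, ⟨5, true, 3, 3, [2, 10, 11]⟩,
  ⟨6, true, 3, 3, [3, 8, 12]⟩, ⟨7, true, 3, 5, [3, 13, 14, 15]⟩, ⟨8, false, 4, 5, [4, 6]⟩, ⟨9,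
  false, 3, 5, [4]⟩, ⟨10, false, 3, 5, [5]⟩, ⟨11, false, 3, 5, [5]⟩, ⟨12, false, 3, 5, [6]⟩,
  ⟨13, false, 3, 5, [7]⟩, ⟨14, false, 3, 5, [7]⟩, ⟨15, false, 3, 5, [7]⟩], .cert (.vert 0 (.cons
  1 (.vert 6 (.cons 3 .nil (.cons 8 (.vert 3 (.cons 7 .nil .nil)) (.cons 12 (.vert 3 (.cons 7
  .nil .nil)) .nil)))) (.cons 2 (.vert 6 (.cons 3 .nil (.cons 8 (.vert 3 (.cons 7 (.vert 4
  (.cons 9 .nil .nil)) .nil)) (.cons 12 (.vert 3 (.cons 7 .nil .nil)) .nil)))) (.cons 3 (.vert 2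
  (.cons 4 .nil (.cons 5 (.vert 4 (.cons 8 (.vert 6 (.cons 12 .nil .nil)) (.cons 9 .nil .nil)))
  .nil))) .nil))))⟩

noncomputable def e133 : Ent := ⟨3, [⟨0, true, 3, 3, [1, 2, 3]⟩, ⟨1, false, 4, 5, [0]⟩, ⟨2, false, 3, 3, [0,
  4, 5]⟩, ⟨3, false, 3, 3, [0, 6, 7]⟩, ⟨4, true, 3, 3, [2, 8, 9]⟩, ⟨5, true, 3, 3, [2, 10, 11]⟩,
  ⟨6, true, 3, 3, [3, 8, 12]⟩, ⟨7, true, 3, 3, [3, 10, 13]⟩, ⟨8, false, 4, 5, [4, 6]⟩, ⟨9,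
  false, 3, 5, [4]⟩, ⟨10, false, 3, 5, [5, 7]⟩, ⟨11, false, 3, 5, [5]⟩, ⟨12, false, 3, 5, [6]⟩,
  ⟨13, false, 3, 5, [7]⟩], .cert (.vert 0 (.cons 1 .nil (.cons 2 (.vert 3 (.cons 6 (.vert 5
  (.cons 10 (.vert 7 (.cons 13 .nil .nil)) (.cons 11 .nil .nil))) (.cons 7 (.vert 4 (.cons 8
  (.vert 6 (.cons 12 .nil .nil)) (.cons 9 .nil .nil))) .nil))) (.cons 3 (.vert 2 (.cons 4 (.vert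
  5 (.cons 10 (.vert 7 (.cons 13 .nil .nil)) (.cons 11 .nil .nil))) (.cons 5 (.vert 4 (.cons 8
  (.vert 6 (.cons 12 .nil .nil)) (.cons 9 .nil .nil))) .nil))) .nil))))⟩

noncomputable def e134 : Ent := ⟨3, [⟨0, true, 3, 3, [1, 2, 3]⟩, ⟨1, false, 4, 5, [0]⟩, ⟨2, false, 3, 3, [0,
  4, 5]⟩, ⟨3, false, 3, 3, [0, 6, 7]⟩, ⟨4, true, 3, 3, [2, 8, 9]⟩, ⟨5, true, 3, 3, [2, 10, 11]⟩,
  ⟨6, true, 3, 3, [3, 8, 12]⟩, ⟨7, true, 3, 5, [3]⟩, ⟨8, false, 4, 5, [4, 6]⟩, ⟨9, false, 3, 5,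
  [4]⟩, ⟨10, false, 3, 5, [5]⟩, ⟨11, false, 3, 5, [5]⟩, ⟨12, false, 3, 5, [6]⟩], .split (.deg 7
  (.cons 3 (.fill 7 13 (.fill 7 14 (.emb 128 false [0, 1, 2, 3, 4, 5, 6, 7, 8, 9, 10, 11, 12,
  13, 14]) (.cons 9 (.emb 68 false [0, 1, 3, 2, 6, 7, 4, 5, 8, 12, 9, 13, 10, 11]) (.cons 10
  (.emb 133 false [0, 1, 2, 3, 4, 5, 6, 7, 8, 9, 10, 11, 12, 13]) (.cons 11 (.emb 133 false [0,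
  1, 2, 3, 4, 5, 6, 7, 8, 9, 11, 10, 12, 13]) .nil)))) (.cons 9 (.fill 7 13 (.emb 68 false [0,
  1, 3, 2, 6, 7, 4, 5, 8, 12, 9, 13, 10, 11]) (.cons 10 (.emb 66 false [0, 1, 2, 3, 4, 5, 7, 6,
  9, 8, 10, 11, 12]) (.cons 11 (.emb 66 false [0, 1, 2, 3, 4, 5, 7, 6, 9, 8, 11, 10, 12])
  .nil))) (.cons 10 (.fill 7 13 (.emb 133 false [0, 1, 2, 3, 4, 5, 6, 7, 8, 9, 10, 11, 12, 13])
  (.cons 9 (.emb 66 false [0, 1, 2, 3, 4, 5, 7, 6, 9, 8, 10, 11, 12]) .nil)) (.cons 11 (.fill 7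
  13 (.emb 133 false [0, 1, 2, 3, 4, 5, 6, 7, 8, 9, 11, 10, 12, 13]) (.cons 9 (.emb 66 false [0,
  1, 2, 3, 4, 5, 7, 6, 9, 8, 11, 10, 12]) .nil)) .nil)))) (.cons 4 (.fill 7 13 (.fill 7 14
  (.fill 7 15 (.emb 132 false [0, 1, 2, 3, 4, 5, 6, 7, 8, 9, 10, 11, 12, 13, 14, 15]) (.cons 9
  (.emb 130 false [0, 1, 2, 3, 4, 5, 6, 7, 8, 9, 10, 11, 12, 13, 14]) (.cons 10 (.emb 131 false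
  [0, 1, 2, 3, 4, 5, 6, 7, 8, 9, 10, 11, 12, 13, 14]) (.cons 11 (.emb 131 false [0, 1, 2, 3, 4,
  5, 6, 7, 8, 9, 11, 10, 12, 13, 14]) .nil)))) (.cons 9 (.fill 7 14 (.emb 130 false [0, 1, 2, 3,
  4, 5, 6, 7, 8, 9, 10, 11, 12, 13, 14]) (.cons 10 (.emb 129 false [0, 1, 2, 3, 4, 5, 6, 7, 8,
  9, 10, 11, 12, 13]) (.cons 11 (.emb 129 false [0, 1, 2, 3, 4, 5, 6, 7, 8, 9, 11, 10, 12, 13])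
  .nil))) (.cons 10 (.fill 7 14 (.emb 131 false [0, 1, 2, 3, 4, 5, 6, 7, 8, 9, 10, 11, 12, 13,
  14]) (.cons 9 (.emb 129 false [0, 1, 2, 3, 4, 5, 6, 7, 8, 9, 10, 11, 12, 13]) .nil)) (.cons 11
  (.fill 7 14 (.emb 131 false [0, 1, 2, 3, 4, 5, 6, 7, 8, 9, 11, 10, 12, 13, 14]) (.cons 9 (.emb
  129 false [0, 1, 2, 3, 4, 5, 6, 7, 8, 9, 11, 10, 12, 13]) .nil)) .nil)))) (.cons 9 (.fill 7 13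
  (.fill 7 14 (.emb 130 false [0, 1, 2, 3, 4, 5, 6, 7, 8, 9, 10, 11, 12, 13, 14]) (.cons 10
  (.emb 129 false [0, 1, 2, 3, 4, 5, 6, 7, 8, 9, 10, 11, 12, 13]) (.cons 11 (.emb 129 false [0,
  1, 2, 3, 4, 5, 6, 7, 8, 9, 11, 10, 12, 13]) .nil))) (.cons 10 (.fill 7 13 (.emb 129 false [0,
  1, 2, 3, 4, 5, 6, 7, 8, 9, 10, 11, 12, 13]) .nil) (.cons 11 (.fill 7 13 (.emb 129 false [0, 1,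
  2, 3, 4, 5, 6, 7, 8, 9, 11, 10, 12, 13]) .nil) .nil))) (.cons 10 (.fill 7 13 (.fill 7 14 (.emb
  131 false [0, 1, 2, 3, 4, 5, 6, 7, 8, 9, 10, 11, 12, 13, 14]) (.cons 9 (.emb 129 false [0, 1,
  2, 3, 4, 5, 6, 7, 8, 9, 10, 11, 12, 13]) .nil)) (.cons 9 (.fill 7 13 (.emb 129 false [0, 1, 2,
  3, 4, 5, 6, 7, 8, 9, 10, 11, 12, 13]) .nil) .nil)) (.cons 11 (.fill 7 13 (.fill 7 14 (.emb 131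
  false [0, 1, 2, 3, 4, 5, 6, 7, 8, 9, 11, 10, 12, 13, 14]) (.cons 9 (.emb 129 false [0, 1, 2,
  3, 4, 5, 6, 7, 8, 9, 11, 10, 12, 13]) .nil)) (.cons 9 (.fill 7 13 (.emb 129 false [0, 1, 2, 3,
  4, 5, 6, 7, 8, 9, 11, 10, 12, 13]) .nil) .nil)) .nil)))) (.cons 5 (.emb 53 true [3, 7, 0, 6,
  1, 2, 8, 12]) .nil))))⟩

noncomputable def e135 : Ent := ⟨3, [⟨0, true, 3, 3, [1, 2, 3]⟩, ⟨1, false, 4, 4, [0, 4, 5, 6]⟩, ⟨2, false, 3,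
  3, [0, 7, 8]⟩, ⟨3, false, 3, 3, [0, 9, 10]⟩, ⟨4, true, 3, 5, [1]⟩, ⟨5, true, 3, 5, [1]⟩, ⟨6,
  true, 3, 5, [1]⟩, ⟨7, true, 3, 3, [2, 11, 12]⟩, ⟨8, true, 3, 3, [2, 13, 14]⟩, ⟨9, true, 3, 3,
  [3, 11, 15]⟩, ⟨10, true, 3, 5, [3]⟩, ⟨11, false, 3, 5, [7, 9]⟩, ⟨12, false, 3, 5, [7]⟩, ⟨13,
  false, 3, 5, [8]⟩, ⟨14, false, 3, 5, [8]⟩, ⟨15, false, 3, 5, [9]⟩], .split (.deg 11 (.cons 3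
  (.fill 11 16 (.emb 127 false [0, 1, 2, 3, 4, 5, 6, 7, 8, 9, 10, 11, 12, 13, 14, 15, 16])
  (.cons 4 (.emb 109 false [0, 1, 2, 3, 4, 5, 6, 7, 8, 9, 10, 11, 12, 13, 14, 15]) (.cons 5
  (.emb 109 false [0, 1, 2, 3, 5, 4, 6, 7, 8, 9, 10, 11, 12, 13, 14, 15]) (.cons 6 (.emb 109
  false [0, 1, 2, 3, 6, 4, 5, 7, 8, 9, 10, 11, 12, 13, 14, 15]) .nil)))) (.cons 4 (.emb 134
  false [0, 1, 2, 3, 7, 8, 9, 10, 11, 12, 13, 14, 15]) (.cons 5 (.emb 61 false [7, 11, 2, 12, 0,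
  8]) .nil))))⟩

noncomputable def e136 : Ent := ⟨3, [⟨0, true, 3, 3, [1, 2, 3]⟩, ⟨1, false, 4, 5, [0]⟩, ⟨2, false, 3, 3, [0,
  4, 5]⟩, ⟨3, false, 3, 3, [0, 6, 7]⟩, ⟨4, true, 3, 3, [2, 8, 9]⟩, ⟨5, true, 3, 3, [2, 10, 11]⟩,
  ⟨6, true, 3, 3, [3, 12, 13]⟩, ⟨7, true, 3, 3, [3, 14, 15]⟩, ⟨8, false, 3, 5, [4]⟩, ⟨9, false,
  3, 5, [4]⟩, ⟨10, false, 3, 5, [5]⟩, ⟨11, false, 3, 5, [5]⟩, ⟨12, false, 3, 5, [6]⟩, ⟨13,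
  false, 3, 5, [6]⟩, ⟨14, false, 3, 5, [7]⟩, ⟨15, false, 3, 5, [7]⟩], .cert (.edge 0 1 (.contr 0
  .nil) .nil)⟩

noncomputable def e137 : Ent := ⟨3, [⟨0, true, 3, 3, [1, 2, 3]⟩, ⟨1, false, 4, 5, [0]⟩, ⟨2, false, 3, 3, [0,
  4, 5]⟩, ⟨3, false, 3, 3, [0, 6, 7]⟩, ⟨4, true, 3, 3, [2, 8, 9]⟩, ⟨5, true, 3, 3, [2, 10, 11]⟩,
  ⟨6, true, 3, 3, [3, 12, 13]⟩, ⟨7, true, 4, 5, [3]⟩, ⟨8, false, 3, 5, [4]⟩, ⟨9, false, 3, 5,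
  [4]⟩, ⟨10, false, 3, 5, [5]⟩, ⟨11, false, 3, 5, [5]⟩, ⟨12, false, 3, 5, [6]⟩, ⟨13, false, 3,
  5, [6]⟩], .cert (.edge 3 7 (.edge 0 1 (.contr 0 .nil) (.vert 3 (.cons 6 .nil .nil))) .nil)⟩

noncomputable def e138 : Ent := ⟨3, [⟨0, true, 3, 3, [1, 2, 3]⟩, ⟨1, false, 4, 4, [0, 4, 5, 6]⟩, ⟨2, false, 3,
  3, [0, 7, 8]⟩, ⟨3, false, 3, 3, [0, 9, 10]⟩, ⟨4, true, 3, 5, [1]⟩, ⟨5, true, 3, 5, [1]⟩, ⟨6,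
  true, 3, 5, [1]⟩, ⟨7, true, 3, 3, [2, 11, 12]⟩, ⟨8, true, 3, 3, [2, 13, 14]⟩, ⟨9, true, 3, 3,
  [3, 15, 16]⟩, ⟨10, true, 3, 5, [3]⟩, ⟨11, false, 3, 5, [7]⟩, ⟨12, false, 3, 5, [7]⟩, ⟨13,
  false, 3, 5, [8]⟩, ⟨14, false, 3, 5, [8]⟩, ⟨15, false, 3, 5, [9]⟩, ⟨16, false, 3, 5, [9]⟩],
  .split (.deg 10 (.cons 3 (.fill 10 17 (.fill 10 18 (.emb 136 false [0, 1, 2, 3, 7, 8, 9, 10,
  11, 12, 13, 14, 15, 16, 17, 18]) (.cons 11 (.emb 135 false [0, 1, 2, 3, 4, 5, 6, 7, 8, 10, 9,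
  11, 12, 13, 14, 17]) (.cons 12 (.emb 135 false [0, 1, 2, 3, 4, 5, 6, 7, 8, 10, 9, 12, 11, 13,
  14, 17]) (.cons 13 (.emb 135 false [0, 1, 2, 3, 4, 5, 6, 8, 7, 10, 9, 13, 14, 11, 12, 17])
  (.cons 14 (.emb 135 false [0, 1, 2, 3, 4, 5, 6, 8, 7, 10, 9, 14, 13, 11, 12, 17]) .nil)))))
  (.cons 11 (.fill 10 17 (.emb 135 false [0, 1, 2, 3, 4, 5, 6, 7, 8, 10, 9, 11, 12, 13, 14, 17])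
  (.cons 13 (.emb 76 false [0, 1, 2, 3, 7, 8, 10, 9, 11, 12, 13, 14, 15, 16]) (.cons 14 (.emb 76
  false [0, 1, 2, 3, 7, 8, 10, 9, 11, 12, 14, 13, 15, 16]) .nil))) (.cons 12 (.fill 10 17 (.emb
  135 false [0, 1, 2, 3, 4, 5, 6, 7, 8, 10, 9, 12, 11, 13, 14, 17]) (.cons 13 (.emb 76 false [0,
  1, 2, 3, 7, 8, 10, 9, 12, 11, 13, 14, 15, 16]) (.cons 14 (.emb 76 false [0, 1, 2, 3, 7, 8, 10,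
  9, 12, 11, 14, 13, 15, 16]) .nil))) (.cons 13 (.fill 10 17 (.emb 135 false [0, 1, 2, 3, 4, 5,
  6, 8, 7, 10, 9, 13, 14, 11, 12, 17]) (.cons 11 (.emb 76 false [0, 1, 2, 3, 7, 8, 10, 9, 11,
  12, 13, 14, 15, 16]) (.cons 12 (.emb 76 false [0, 1, 2, 3, 7, 8, 10, 9, 12, 11, 13, 14, 15,
  16]) .nil))) (.cons 14 (.fill 10 17 (.emb 135 false [0, 1, 2, 3, 4, 5, 6, 8, 7, 10, 9, 14, 13,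
  11, 12, 17]) (.cons 11 (.emb 76 false [0, 1, 2, 3, 7, 8, 10, 9, 11, 12, 14, 13, 15, 16])
  (.cons 12 (.emb 76 false [0, 1, 2, 3, 7, 8, 10, 9, 12, 11, 14, 13, 15, 16]) .nil))) .nil)))))
  (.cons 4 (.emb 137 false [0, 1, 2, 3, 7, 8, 9, 10, 11, 12, 13, 14, 15, 16]) (.cons 5 (.emb 53
  true [3, 10, 0, 9, 1, 2, 15, 16]) .nil))))⟩

noncomputable def e139 : Ent := ⟨3, [⟨0, true, 3, 3, [1, 2, 3]⟩, ⟨1, false, 4, 5, [0]⟩, ⟨2, false, 3, 5, [0,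
  4, 5]⟩, ⟨3, false, 3, 3, [0, 6, 7]⟩, ⟨4, true, 3, 3, [2, 8, 9]⟩, ⟨5, true, 3, 3, [2, 10, 11]⟩,
  ⟨6, true, 4, 4, [3, 8, 10, 12]⟩, ⟨7, true, 4, 4, [3, 9, 13, 14]⟩, ⟨8, false, 3, 5, [4, 6]⟩,
  ⟨9, false, 3, 5, [4, 7]⟩, ⟨10, false, 3, 5, [5, 6]⟩, ⟨11, false, 3, 5, [5]⟩, ⟨12, false, 3, 5,
  [6]⟩, ⟨13, false, 3, 5, [7]⟩, ⟨14, false, 3, 5, [7]⟩], .cert (.vert 0 (.cons 1 (.vert 3 (.cons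
  6 .nil (.cons 7 .nil .nil))) (.cons 2 (.vert 6 (.cons 3 .nil (.cons 8 (.vert 3 (.cons 7 (.vert
  4 (.cons 9 .nil .nil)) .nil)) (.cons 10 (.vert 3 (.cons 7 (.vert 5 (.cons 11 .nil .nil))
  .nil)) (.cons 12 (.vert 3 (.cons 7 .nil .nil)) .nil))))) (.cons 3 .nil .nil))))⟩

noncomputable def e140 : Ent := ⟨3, [⟨0, true, 3, 3, [1, 2, 3]⟩, ⟨1, false, 4, 5, [0]⟩, ⟨2, false, 3, 5, [0,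
  4, 5]⟩, ⟨3, false, 3, 3, [0, 6, 7]⟩, ⟨4, true, 3, 3, [2, 8, 9]⟩, ⟨5, true, 3, 3, [2, 10, 11]⟩,
  ⟨6, true, 4, 4, [3, 8, 10, 12]⟩, ⟨7, true, 4, 4, [3, 13, 14, 15]⟩, ⟨8, false, 3, 5, [4, 6]⟩,
  ⟨9, false, 3, 5, [4]⟩, ⟨10, false, 3, 5, [5, 6]⟩, ⟨11, false, 3, 5, [5]⟩, ⟨12, false, 3, 5,
  [6]⟩, ⟨13, false, 3, 5, [7]⟩, ⟨14, false, 3, 5, [7]⟩, ⟨15, false, 3, 5, [7]⟩], .cert (.vert 0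
  (.cons 1 (.vert 3 (.cons 6 .nil (.cons 7 .nil .nil))) (.cons 2 (.vert 6 (.cons 3 .nil (.cons 8
  (.vert 3 (.cons 7 (.vert 4 (.cons 9 .nil .nil)) .nil)) (.cons 10 (.vert 3 (.cons 7 (.vert 5
  (.cons 11 .nil .nil)) .nil)) (.cons 12 (.vert 3 (.cons 7 .nil .nil)) .nil))))) (.cons 3 .nil
  .nil))))⟩

noncomputable def e141 : Ent := ⟨3, [⟨0, true, 3, 3, [1, 2, 3]⟩, ⟨1, false, 4, 5, [0, 4]⟩, ⟨2, false, 3, 5,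
  [0]⟩, ⟨3, false, 3, 3, [0, 5, 6]⟩, ⟨4, true, 5, 5, [1, 7, 10, 13, 14]⟩, ⟨5, true, 4, 4, [3, 7,
  9, 11]⟩, ⟨6, true, 4, 4, [3, 8, 10, 12]⟩, ⟨7, false, 3, 5, [4, 5]⟩, ⟨8, false, 3, 5, [6]⟩, ⟨9,
  false, 3, 5, [5]⟩, ⟨10, false, 3, 5, [4, 6]⟩, ⟨11, false, 3, 5, [5]⟩, ⟨12, false, 3, 5, [6]⟩,
  ⟨13, false, 3, 5, [4]⟩, ⟨14, false, 3, 5, [4]⟩], .cert (.edge 1 4 .nil (.vert 3 (.cons 0 .nil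
  (.cons 5 (.vert 0 (.cons 2 .nil .nil)) (.cons 6 (.vert 0 (.cons 2 .nil .nil)) .nil)))))⟩

noncomputable def e142 : Ent := ⟨3, [⟨0, true, 3, 3, [1, 2, 3]⟩, ⟨1, false, 4, 5, [0, 4]⟩, ⟨2, false, 3, 5,
  [0]⟩, ⟨3, false, 3, 3, [0, 5, 6]⟩, ⟨4, true, 5, 5, [1, 7, 13, 14, 15]⟩, ⟨5, true, 4, 4, [3, 7,
  9, 11]⟩, ⟨6, true, 4, 4, [3, 8, 10, 12]⟩, ⟨7, false, 3, 5, [4, 5]⟩, ⟨8, false, 3, 5, [6]⟩, ⟨9,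
  false, 3, 5, [5]⟩, ⟨10, false, 3, 5, [6]⟩, ⟨11, false, 3, 5, [5]⟩, ⟨12, false, 3, 5, [6]⟩,
  ⟨13, false, 3, 5, [4]⟩, ⟨14, false, 3, 5, [4]⟩, ⟨15, false, 3, 5, [4]⟩], .cert (.edge 1 4 .nil
  (.vert 3 (.cons 0 .nil (.cons 5 (.vert 0 (.cons 2 .nil .nil)) (.cons 6 (.vert 0 (.cons 2 .nil
  .nil)) .nil)))))⟩

noncomputable def e143 : Ent := ⟨3, [⟨0, true, 3, 3, [1, 2, 3]⟩, ⟨1, false, 4, 5, [0, 4]⟩, ⟨2, false, 3, 5,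
  [0]⟩, ⟨3, false, 3, 3, [0, 5, 6]⟩, ⟨4, true, 5, 5, [1, 13, 14, 15, 16]⟩, ⟨5, true, 4, 4, [3,
  7, 9, 11]⟩, ⟨6, true, 4, 4, [3, 8, 10, 12]⟩, ⟨7, false, 3, 5, [5]⟩, ⟨8, false, 3, 5, [6]⟩, ⟨9,
  false, 3, 5, [5]⟩, ⟨10, false, 3, 5, [6]⟩, ⟨11, false, 3, 5, [5]⟩, ⟨12, false, 3, 5, [6]⟩,
  ⟨13, false, 3, 5, [4]⟩, ⟨14, false, 3, 5, [4]⟩, ⟨15, false, 3, 5, [4]⟩, ⟨16, false, 3, 5,
  [4]⟩], .cert (.edge 1 4 .nil (.vert 3 (.cons 0 .nil (.cons 5 (.vert 0 (.cons 2 .nil .nil))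
  (.cons 6 (.vert 0 (.cons 2 .nil .nil)) .nil)))))⟩

noncomputable def e144 : Ent := ⟨3, [⟨0, true, 3, 3, [1, 2, 3]⟩, ⟨1, false, 4, 5, [0]⟩, ⟨2, false, 3, 3, [0,
  5, 6]⟩, ⟨3, false, 3, 3, [0, 7, 8]⟩, ⟨4, true, 3, 5, [9]⟩, ⟨5, true, 3, 3, [2, 9, 10]⟩, ⟨6,
  true, 3, 3, [2, 11, 12]⟩, ⟨7, true, 4, 4, [3, 9, 11, 13]⟩, ⟨8, true, 4, 4, [3, 10, 12, 14]⟩,
  ⟨9, false, 3, 3, [4, 5, 7]⟩, ⟨10, false, 3, 5, [5, 8]⟩, ⟨11, false, 3, 5, [6, 7]⟩, ⟨12, false,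
  3, 5, [6, 8]⟩, ⟨13, false, 3, 5, [7]⟩, ⟨14, false, 3, 5, [8]⟩], .cert (.vert 2 (.cons 0 (.vert
  3 (.cons 7 .nil (.cons 8 .nil .nil))) (.cons 5 (.vert 3 (.cons 0 .nil (.cons 7 (.vert 0 (.cons
  1 (.vert 9 (.cons 4 .nil .nil)) .nil)) (.cons 8 (.vert 0 (.cons 1 .nil .nil)) .nil)))) (.cons
  6 (.vert 3 (.cons 0 .nil (.cons 7 (.vert 0 (.cons 1 .nil .nil)) (.cons 8 (.vert 0 (.cons 1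
  .nil .nil)) .nil)))) .nil))))⟩

noncomputable def e145 : Ent := ⟨3, [⟨0, true, 3, 3, [1, 2, 3]⟩, ⟨1, false, 4, 5, [0]⟩, ⟨2, false, 3, 5, [0,
  4, 5]⟩, ⟨3, false, 3, 3, [0, 6, 7]⟩, ⟨4, true, 3, 3, [2, 8, 9]⟩, ⟨5, true, 3, 3, [2, 10, 11]⟩,
  ⟨6, true, 4, 4, [3, 8, 10, 12]⟩, ⟨7, true, 3, 5, [3, 9, 11, 13]⟩, ⟨8, false, 4, 5, [4, 6]⟩,
  ⟨9, false, 3, 5, [4, 7]⟩, ⟨10, false, 3, 5, [5, 6]⟩, ⟨11, false, 3, 5, [5, 7]⟩, ⟨12, false, 3,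
  5, [6]⟩, ⟨13, false, 3, 5, [7]⟩], .cert (.vert 0 (.cons 1 (.vert 3 (.cons 6 .nil (.cons 7 .nil
  .nil))) (.cons 2 (.vert 6 (.cons 3 .nil (.cons 8 (.vert 3 (.cons 7 (.vert 4 (.cons 9 .nil
  .nil)) .nil)) (.cons 10 (.vert 3 (.cons 7 (.vert 5 (.cons 11 .nil .nil)) .nil)) (.cons 12
  (.vert 3 (.cons 7 .nil .nil)) .nil))))) (.cons 3 .nil .nil))))⟩

noncomputable def e146 : Ent := ⟨3, [⟨0, true, 3, 3, [1, 2, 3]⟩, ⟨1, false, 4, 5, [0]⟩, ⟨2, false, 3, 3, [0,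
  4, 5]⟩, ⟨3, false, 3, 3, [0, 6, 7]⟩, ⟨4, true, 3, 3, [2, 8, 9]⟩, ⟨5, true, 3, 3, [2, 10, 11]⟩,
  ⟨6, true, 4, 4, [3, 8, 10, 12]⟩, ⟨7, true, 4, 4, [3, 9, 11, 13]⟩, ⟨8, false, 3, 5, [4, 6]⟩,
  ⟨9, false, 3, 5, [4, 7]⟩, ⟨10, false, 3, 5, [5, 6]⟩, ⟨11, false, 3, 5, [5, 7]⟩, ⟨12, false, 3,
  5, [6]⟩, ⟨13, false, 3, 5, [7]⟩], .split (.deg 8 (.cons 3 (.fill 8 14 (.emb 144 false [0, 1,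
  2, 3, 14, 4, 5, 6, 7, 8, 9, 10, 11, 12, 13]) .nil) (.cons 4 (.emb 145 false [0, 1, 2, 3, 4, 5,
  6, 7, 8, 9, 10, 11, 12, 13]) (.cons 5 (.emb 61 false [4, 8, 2, 9, 0, 5]) .nil))))⟩

noncomputable def e147 : Ent := ⟨3, [⟨0, true, 3, 3, [1, 2, 3]⟩, ⟨1, false, 4, 4, [0, 4, 5, 6]⟩, ⟨2, false, 3,
  3, [0, 7, 8]⟩, ⟨3, false, 3, 3, [0, 9, 10]⟩, ⟨4, true, 3, 5, [1]⟩, ⟨5, true, 3, 5, [1]⟩, ⟨6,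
  true, 3, 5, [1]⟩, ⟨7, true, 3, 3, [2, 11, 12]⟩, ⟨8, true, 3, 3, [2, 13, 14]⟩, ⟨9, true, 4, 4,
  [3, 11, 13, 15]⟩, ⟨10, true, 3, 5, [3]⟩, ⟨11, false, 3, 5, [7, 9]⟩, ⟨12, false, 3, 5, [7]⟩,
  ⟨13, false, 3, 5, [8, 9]⟩, ⟨14, false, 3, 5, [8]⟩, ⟨15, false, 3, 5, [9]⟩], .split (.deg 10
  (.cons 3 (.fill 10 16 (.fill 10 17 (.emb 137 false [0, 1, 2, 3, 7, 8, 10, 9, 11, 12, 13, 14,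
  16, 17]) (.cons 12 (.emb 135 false [0, 1, 2, 3, 4, 5, 6, 7, 8, 10, 9, 12, 11, 13, 14, 16])
  (.cons 14 (.emb 135 false [0, 1, 2, 3, 4, 5, 6, 8, 7, 10, 9, 14, 13, 11, 12, 16]) .nil)))
  (.cons 12 (.fill 10 16 (.emb 135 false [0, 1, 2, 3, 4, 5, 6, 7, 8, 10, 9, 12, 11, 13, 14, 16])
  (.cons 14 (.emb 80 false [0, 1, 2, 3, 7, 8, 10, 9, 12, 11, 14, 13, 15]) .nil)) (.cons 14
  (.fill 10 16 (.emb 135 false [0, 1, 2, 3, 4, 5, 6, 8, 7, 10, 9, 14, 13, 11, 12, 16]) (.cons 12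
  (.emb 80 false [0, 1, 2, 3, 7, 8, 10, 9, 12, 11, 14, 13, 15]) .nil)) .nil))) (.cons 4 (.fill
  10 16 (.fill 10 17 (.fill 10 18 (.emb 140 false [0, 1, 2, 3, 7, 8, 9, 10, 11, 12, 13, 14, 15,
  16, 17, 18]) (.cons 12 (.emb 139 false [0, 1, 2, 3, 7, 8, 9, 10, 11, 12, 13, 14, 15, 16, 17])
  (.cons 14 (.emb 139 false [0, 1, 2, 3, 8, 7, 9, 10, 13, 14, 11, 12, 15, 16, 17]) .nil)))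
  (.cons 12 (.fill 10 17 (.emb 139 false [0, 1, 2, 3, 7, 8, 9, 10, 11, 12, 13, 14, 15, 16, 17])
  (.cons 14 (.emb 146 false [0, 1, 2, 3, 7, 8, 9, 10, 11, 12, 13, 14, 15, 16]) .nil)) (.cons 14
  (.fill 10 17 (.emb 139 false [0, 1, 2, 3, 8, 7, 9, 10, 13, 14, 11, 12, 15, 16, 17]) (.cons 12
  (.emb 146 false [0, 1, 2, 3, 7, 8, 9, 10, 11, 12, 13, 14, 15, 16]) .nil)) .nil))) (.cons 12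
  (.fill 10 16 (.fill 10 17 (.emb 139 false [0, 1, 2, 3, 7, 8, 9, 10, 11, 12, 13, 14, 15, 16,
  17]) (.cons 14 (.emb 146 false [0, 1, 2, 3, 7, 8, 9, 10, 11, 12, 13, 14, 15, 16]) .nil))
  (.cons 14 (.fill 10 16 (.emb 146 false [0, 1, 2, 3, 7, 8, 9, 10, 11, 12, 13, 14, 15, 16])
  .nil) .nil)) (.cons 14 (.fill 10 16 (.fill 10 17 (.emb 139 false [0, 1, 2, 3, 8, 7, 9, 10, 13,
  14, 11, 12, 15, 16, 17]) (.cons 12 (.emb 146 false [0, 1, 2, 3, 7, 8, 9, 10, 11, 12, 13, 14,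
  15, 16]) .nil)) (.cons 12 (.fill 10 16 (.emb 146 false [0, 1, 2, 3, 7, 8, 9, 10, 11, 12, 13,
  14, 15, 16]) .nil) .nil)) .nil))) (.cons 5 (.emb 52 true [3, 10, 9, 0]) .nil))))⟩

noncomputable def e148 : Ent := ⟨3, [⟨0, true, 3, 3, [1, 2, 3]⟩, ⟨1, false, 4, 5, [0]⟩, ⟨2, false, 3, 3, [0,
  4, 5]⟩, ⟨3, false, 3, 3, [0, 6, 7]⟩, ⟨4, true, 3, 5, [2]⟩, ⟨5, true, 3, 3, [2, 10, 11]⟩, ⟨6,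
  true, 4, 4, [3, 8, 12, 13]⟩, ⟨7, true, 4, 4, [3, 9, 14, 15]⟩, ⟨8, false, 3, 5, [6]⟩, ⟨9,
  false, 3, 5, [7]⟩, ⟨10, false, 3, 5, [5]⟩, ⟨11, false, 3, 5, [5]⟩, ⟨12, false, 3, 5, [6]⟩,
  ⟨13, false, 3, 5, [6]⟩, ⟨14, false, 3, 5, [7]⟩, ⟨15, false, 3, 5, [7]⟩], .cert (.edge 0 1
  (.edge 2 4 (.contr 0 .nil) (.vert 0 (.cons 3 .nil .nil))) (.vert 3 (.cons 6 .nil (.cons 7 .nil
  .nil))))⟩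

noncomputable def e149 : Ent := ⟨3, [⟨0, true, 3, 3, [1, 2, 3]⟩, ⟨1, false, 4, 5, [0]⟩, ⟨2, false, 3, 3, [0,
  4, 5]⟩, ⟨3, false, 3, 3, [0, 6, 7]⟩, ⟨4, true, 3, 3, [2, 8, 9]⟩, ⟨5, true, 3, 3, [2, 10, 11]⟩,
  ⟨6, true, 4, 4, [3, 8, 12, 13]⟩, ⟨7, true, 4, 4, [3, 10, 14, 15]⟩, ⟨8, false, 3, 5, [4, 6]⟩,
  ⟨9, false, 3, 5, [4]⟩, ⟨10, false, 3, 5, [5, 7]⟩, ⟨11, false, 3, 5, [5]⟩, ⟨12, false, 3, 5,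
  [6]⟩, ⟨13, false, 3, 5, [6]⟩, ⟨14, false, 3, 5, [7]⟩, ⟨15, false, 3, 5, [7]⟩], .cert (.edge 3
  7 (.edge 6 8 (.edge 0 1 (.contr 0 .nil) (.vert 3 (.cons 6 .nil .nil))) (.vert 3 (.cons 0
  (.vert 2 (.cons 4 .nil (.cons 5 (.vert 4 (.cons 9 .nil .nil)) .nil))) .nil))) (.vert 0 (.cons
  1 .nil (.cons 2 .nil .nil))))⟩

noncomputable def e150 : Ent := ⟨3, [⟨0, true, 3, 3, [1, 2, 3]⟩, ⟨1, false, 4, 4, [0, 4, 5, 6]⟩, ⟨2, false, 3,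
  3, [0, 7, 8]⟩, ⟨3, false, 3, 3, [0, 9, 10]⟩, ⟨4, true, 3, 5, [1]⟩, ⟨5, true, 3, 5, [1]⟩, ⟨6,
  true, 3, 5, [1]⟩, ⟨7, true, 3, 3, [2, 11, 12]⟩, ⟨8, true, 3, 3, [2, 13, 14]⟩, ⟨9, true, 4, 4,
  [3, 11, 15, 16]⟩, ⟨10, true, 3, 5, [3]⟩, ⟨11, false, 3, 5, [7, 9]⟩, ⟨12, false, 3, 5, [7]⟩,
  ⟨13, false, 3, 5, [8]⟩, ⟨14, false, 3, 5, [8]⟩, ⟨15, false, 3, 5, [9]⟩, ⟨16, false, 3, 5,
  [9]⟩], .split (.deg 10 (.cons 3 (.fill 10 17 (.fill 10 18 (.emb 137 false [0, 1, 2, 3, 7, 8,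
  10, 9, 11, 12, 13, 14, 17, 18]) (.cons 12 (.emb 135 false [0, 1, 2, 3, 4, 5, 6, 7, 8, 10, 9,
  12, 11, 13, 14, 17]) (.cons 13 (.emb 135 false [0, 1, 2, 3, 4, 5, 6, 8, 7, 10, 9, 13, 14, 11,
  12, 17]) (.cons 14 (.emb 135 false [0, 1, 2, 3, 4, 5, 6, 8, 7, 10, 9, 14, 13, 11, 12, 17])
  .nil)))) (.cons 12 (.fill 10 17 (.emb 135 false [0, 1, 2, 3, 4, 5, 6, 7, 8, 10, 9, 12, 11, 13,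
  14, 17]) (.cons 13 (.emb 81 false [0, 1, 2, 3, 7, 8, 10, 9, 12, 11, 13, 14, 15, 16]) (.cons 14
  (.emb 81 false [0, 1, 2, 3, 7, 8, 10, 9, 12, 11, 14, 13, 15, 16]) .nil))) (.cons 13 (.fill 10
  17 (.emb 135 false [0, 1, 2, 3, 4, 5, 6, 8, 7, 10, 9, 13, 14, 11, 12, 17]) (.cons 12 (.emb 81
  false [0, 1, 2, 3, 7, 8, 10, 9, 12, 11, 13, 14, 15, 16]) .nil)) (.cons 14 (.fill 10 17 (.emb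
  135 false [0, 1, 2, 3, 4, 5, 6, 8, 7, 10, 9, 14, 13, 11, 12, 17]) (.cons 12 (.emb 81 false [0,
  1, 2, 3, 7, 8, 10, 9, 12, 11, 14, 13, 15, 16]) .nil)) .nil)))) (.cons 4 (.fill 10 17 (.fill 10
  18 (.fill 10 19 (.emb 148 false [0, 1, 2, 3, 7, 8, 9, 10, 11, 17, 13, 14, 15, 16, 18, 19])
  (.cons 12 (.emb 148 false [0, 1, 2, 3, 7, 8, 9, 10, 11, 12, 13, 14, 15, 16, 17, 18]) (.cons 13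
  (.emb 149 false [0, 1, 2, 3, 7, 8, 9, 10, 11, 12, 13, 14, 15, 16, 17, 18]) (.cons 14 (.emb 149
  false [0, 1, 2, 3, 7, 8, 9, 10, 11, 12, 14, 13, 15, 16, 17, 18]) .nil)))) (.cons 12 (.fill 10
  18 (.emb 148 false [0, 1, 2, 3, 7, 8, 9, 10, 11, 12, 13, 14, 15, 16, 17, 18]) (.cons 13 (.emb
  139 false [0, 1, 2, 3, 7, 8, 10, 9, 12, 11, 13, 14, 17, 15, 16]) (.cons 14 (.emb 139 false [0,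
  1, 2, 3, 7, 8, 10, 9, 12, 11, 14, 13, 17, 15, 16]) .nil))) (.cons 13 (.fill 10 18 (.emb 149
  false [0, 1, 2, 3, 7, 8, 9, 10, 11, 12, 13, 14, 15, 16, 17, 18]) (.cons 12 (.emb 139 false [0,
  1, 2, 3, 7, 8, 10, 9, 12, 11, 13, 14, 17, 15, 16]) .nil)) (.cons 14 (.fill 10 18 (.emb 149
  false [0, 1, 2, 3, 7, 8, 9, 10, 11, 12, 14, 13, 15, 16, 17, 18]) (.cons 12 (.emb 139 false [0,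
  1, 2, 3, 7, 8, 10, 9, 12, 11, 14, 13, 17, 15, 16]) .nil)) .nil)))) (.cons 12 (.fill 10 17
  (.fill 10 18 (.emb 148 false [0, 1, 2, 3, 7, 8, 9, 10, 11, 12, 13, 14, 15, 16, 17, 18]) (.cons
  13 (.emb 139 false [0, 1, 2, 3, 7, 8, 10, 9, 12, 11, 13, 14, 17, 15, 16]) (.cons 14 (.emb 139
  false [0, 1, 2, 3, 7, 8, 10, 9, 12, 11, 14, 13, 17, 15, 16]) .nil))) (.cons 13 (.fill 10 17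
  (.emb 139 false [0, 1, 2, 3, 7, 8, 10, 9, 12, 11, 13, 14, 17, 15, 16]) .nil) (.cons 14 (.fill
  10 17 (.emb 139 false [0, 1, 2, 3, 7, 8, 10, 9, 12, 11, 14, 13, 17, 15, 16]) .nil) .nil)))
  (.cons 13 (.fill 10 17 (.fill 10 18 (.emb 149 false [0, 1, 2, 3, 7, 8, 9, 10, 11, 12, 13, 14,
  15, 16, 17, 18]) (.cons 12 (.emb 139 false [0, 1, 2, 3, 7, 8, 10, 9, 12, 11, 13, 14, 17, 15,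
  16]) .nil)) (.cons 12 (.fill 10 17 (.emb 139 false [0, 1, 2, 3, 7, 8, 10, 9, 12, 11, 13, 14,
  17, 15, 16]) .nil) .nil)) (.cons 14 (.fill 10 17 (.fill 10 18 (.emb 149 false [0, 1, 2, 3, 7,
  8, 9, 10, 11, 12, 14, 13, 15, 16, 17, 18]) (.cons 12 (.emb 139 false [0, 1, 2, 3, 7, 8, 10, 9,
  12, 11, 14, 13, 17, 15, 16]) .nil)) (.cons 12 (.fill 10 17 (.emb 139 false [0, 1, 2, 3, 7, 8,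
  10, 9, 12, 11, 14, 13, 17, 15, 16]) .nil) .nil)) .nil)))) (.cons 5 (.emb 52 true [3, 10, 9,
  0]) .nil))))⟩

noncomputable def part3 : List Ent := [e112, e113, e114, e115, e116, e117, e118, e119, e120,
  e121, e122, e123, e124, e125, e126, e127, e128, e129, e130, e131, e132, e133, e134, e135,
  e136, e137, e138, e139, e140, e141, e142, e143, e144, e145, e146, e147, e148, e149, e150]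

end Pool.Agent.Helper76.PC
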