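import Pool.Agent.Helper76.PC.Defs

/-! MP_c33217_co: library of reducible configurations, part 4 (machine generated). -/

namespace Pool.Agent.Helper76.PC

noncomputable def e151 : Ent := ⟨3, [⟨0, true, 3, 3, [1, 2, 3]⟩, ⟨1, false, 4, 5, [0, 4]⟩, ⟨2, false, 3, 3,
  [0, 5, 6]⟩, ⟨3, false, 3, 3, [0, 7, 8]⟩, ⟨4, true, 5, 5, [1]⟩, ⟨5, true, 3, 3, [2, 9, 10]⟩,
  ⟨6, true, 3, 3, [2, 11, 12]⟩, ⟨7, true, 3, 4, [3, 13, 14, 15]⟩, ⟨8, true, 3, 5, [3]⟩, ⟨9,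
  false, 3, 5, [5]⟩, ⟨10, false, 3, 5, [5]⟩, ⟨11, false, 3, 5, [6]⟩, ⟨12, false, 3, 5, [6]⟩,
  ⟨13, false, 3, 5, [7]⟩, ⟨14, false, 3, 5, [7]⟩, ⟨15, false, 3, 5, [7]⟩], .cert (.edge 1 4 .nil
  (.edge 3 8 (.contr 0 .nil) (.vert 0 (.cons 2 .nil .nil))))⟩

noncomputable def e152 : Ent := ⟨3, [⟨0, true, 3, 3, [1, 2, 3]⟩, ⟨1, false, 4, 4, [0, 4, 5, 6]⟩, ⟨2, false, 3,
  3, [0, 7, 8]⟩, ⟨3, false, 3, 3, [0, 9, 10]⟩, ⟨4, true, 3, 5, [1]⟩, ⟨5, true, 3, 5, [1]⟩, ⟨6,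
  true, 3, 5, [1]⟩, ⟨7, true, 3, 3, [2, 11, 12]⟩, ⟨8, true, 3, 3, [2, 13, 14]⟩, ⟨9, true, 4, 4,
  [3, 15, 16, 17]⟩, ⟨10, true, 3, 5, [3]⟩, ⟨11, false, 3, 5, [7]⟩, ⟨12, false, 3, 5, [7]⟩, ⟨13,
  false, 3, 5, [8]⟩, ⟨14, false, 3, 5, [8]⟩, ⟨15, false, 3, 5, [9]⟩, ⟨16, false, 3, 5, [9]⟩,
  ⟨17, false, 3, 5, [9]⟩], .split (.deg 10 (.cons 3 (.fill 10 18 (.fill 10 19 (.emb 137 false
  [0, 1, 2, 3, 7, 8, 10, 9, 11, 12, 13, 14, 18, 19]) (.cons 11 (.emb 135 false [0, 1, 2, 3, 4,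
  5, 6, 7, 8, 10, 9, 11, 12, 13, 14, 18]) (.cons 12 (.emb 135 false [0, 1, 2, 3, 4, 5, 6, 7, 8,
  10, 9, 12, 11, 13, 14, 18]) (.cons 13 (.emb 135 false [0, 1, 2, 3, 4, 5, 6, 8, 7, 10, 9, 13,
  14, 11, 12, 18]) (.cons 14 (.emb 135 false [0, 1, 2, 3, 4, 5, 6, 8, 7, 10, 9, 14, 13, 11, 12,
  18]) .nil))))) (.cons 11 (.fill 10 18 (.emb 135 false [0, 1, 2, 3, 4, 5, 6, 7, 8, 10, 9, 11,
  12, 13, 14, 18]) (.cons 13 (.emb 64 false [0, 1, 2, 3, 7, 8, 10, 9, 11, 12, 13, 14, 15, 16,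
  17]) (.cons 14 (.emb 64 false [0, 1, 2, 3, 7, 8, 10, 9, 11, 12, 14, 13, 15, 16, 17]) .nil)))
  (.cons 12 (.fill 10 18 (.emb 135 false [0, 1, 2, 3, 4, 5, 6, 7, 8, 10, 9, 12, 11, 13, 14, 18])
  (.cons 13 (.emb 64 false [0, 1, 2, 3, 7, 8, 10, 9, 12, 11, 13, 14, 15, 16, 17]) (.cons 14
  (.emb 64 false [0, 1, 2, 3, 7, 8, 10, 9, 12, 11, 14, 13, 15, 16, 17]) .nil))) (.cons 13 (.fill
  10 18 (.emb 135 false [0, 1, 2, 3, 4, 5, 6, 8, 7, 10, 9, 13, 14, 11, 12, 18]) (.cons 11 (.emb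
  64 false [0, 1, 2, 3, 7, 8, 10, 9, 11, 12, 13, 14, 15, 16, 17]) (.cons 12 (.emb 64 false [0,
  1, 2, 3, 7, 8, 10, 9, 12, 11, 13, 14, 15, 16, 17]) .nil))) (.cons 14 (.fill 10 18 (.emb 135
  false [0, 1, 2, 3, 4, 5, 6, 8, 7, 10, 9, 14, 13, 11, 12, 18]) (.cons 11 (.emb 64 false [0, 1,
  2, 3, 7, 8, 10, 9, 11, 12, 14, 13, 15, 16, 17]) (.cons 12 (.emb 64 false [0, 1, 2, 3, 7, 8,
  10, 9, 12, 11, 14, 13, 15, 16, 17]) .nil))) .nil))))) (.cons 4 (.fill 10 18 (.fill 10 19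
  (.fill 10 20 (.emb 148 false [0, 1, 2, 3, 8, 7, 9, 10, 15, 18, 11, 12, 16, 17, 19, 20]) (.cons
  11 (.emb 148 false [0, 1, 2, 3, 7, 8, 9, 10, 15, 11, 13, 14, 16, 17, 18, 19]) (.cons 12 (.emb
  148 false [0, 1, 2, 3, 7, 8, 9, 10, 15, 12, 13, 14, 16, 17, 18, 19]) (.cons 13 (.emb 148 false
  [0, 1, 2, 3, 8, 7, 9, 10, 15, 13, 11, 12, 16, 17, 18, 19]) (.cons 14 (.emb 148 false [0, 1, 2,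
  3, 8, 7, 9, 10, 15, 14, 11, 12, 16, 17, 18, 19]) .nil))))) (.cons 11 (.fill 10 19 (.emb 148
  false [0, 1, 2, 3, 7, 8, 9, 10, 15, 11, 13, 14, 16, 17, 18, 19]) (.cons 13 (.emb 140 false [0,
  1, 2, 3, 7, 8, 10, 9, 11, 12, 13, 14, 18, 15, 16, 17]) (.cons 14 (.emb 140 false [0, 1, 2, 3,
  7, 8, 10, 9, 11, 12, 14, 13, 18, 15, 16, 17]) .nil))) (.cons 12 (.fill 10 19 (.emb 148 false
  [0, 1, 2, 3, 7, 8, 9, 10, 15, 12, 13, 14, 16, 17, 18, 19]) (.cons 13 (.emb 140 false [0, 1, 2,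
  3, 7, 8, 10, 9, 12, 11, 13, 14, 18, 15, 16, 17]) (.cons 14 (.emb 140 false [0, 1, 2, 3, 7, 8,
  10, 9, 12, 11, 14, 13, 18, 15, 16, 17]) .nil))) (.cons 13 (.fill 10 19 (.emb 148 false [0, 1,
  2, 3, 8, 7, 9, 10, 15, 13, 11, 12, 16, 17, 18, 19]) (.cons 11 (.emb 140 false [0, 1, 2, 3, 7,
  8, 10, 9, 11, 12, 13, 14, 18, 15, 16, 17]) (.cons 12 (.emb 140 false [0, 1, 2, 3, 7, 8, 10, 9,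
  12, 11, 13, 14, 18, 15, 16, 17]) .nil))) (.cons 14 (.fill 10 19 (.emb 148 false [0, 1, 2, 3,
  8, 7, 9, 10, 15, 14, 11, 12, 16, 17, 18, 19]) (.cons 11 (.emb 140 false [0, 1, 2, 3, 7, 8, 10,
  9, 11, 12, 14, 13, 18, 15, 16, 17]) (.cons 12 (.emb 140 false [0, 1, 2, 3, 7, 8, 10, 9, 12,
  11, 14, 13, 18, 15, 16, 17]) .nil))) .nil))))) (.cons 11 (.fill 10 18 (.fill 10 19 (.emb 148
  false [0, 1, 2, 3, 7, 8, 9, 10, 15, 11, 13, 14, 16, 17, 18, 19]) (.cons 13 (.emb 140 false [0,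
  1, 2, 3, 7, 8, 10, 9, 11, 12, 13, 14, 18, 15, 16, 17]) (.cons 14 (.emb 140 false [0, 1, 2, 3,
  7, 8, 10, 9, 11, 12, 14, 13, 18, 15, 16, 17]) .nil))) (.cons 13 (.fill 10 18 (.emb 140 false
  [0, 1, 2, 3, 7, 8, 10, 9, 11, 12, 13, 14, 18, 15, 16, 17]) .nil) (.cons 14 (.fill 10 18 (.emb
  140 false [0, 1, 2, 3, 7, 8, 10, 9, 11, 12, 14, 13, 18, 15, 16, 17]) .nil) .nil))) (.cons 12
  (.fill 10 18 (.fill 10 19 (.emb 148 false [0, 1, 2, 3, 7, 8, 9, 10, 15, 12, 13, 14, 16, 17,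
  18, 19]) (.cons 13 (.emb 140 false [0, 1, 2, 3, 7, 8, 10, 9, 12, 11, 13, 14, 18, 15, 16, 17])
  (.cons 14 (.emb 140 false [0, 1, 2, 3, 7, 8, 10, 9, 12, 11, 14, 13, 18, 15, 16, 17]) .nil)))
  (.cons 13 (.fill 10 18 (.emb 140 false [0, 1, 2, 3, 7, 8, 10, 9, 12, 11, 13, 14, 18, 15, 16,
  17]) .nil) (.cons 14 (.fill 10 18 (.emb 140 false [0, 1, 2, 3, 7, 8, 10, 9, 12, 11, 14, 13,
  18, 15, 16, 17]) .nil) .nil))) (.cons 13 (.fill 10 18 (.fill 10 19 (.emb 148 false [0, 1, 2,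
  3, 8, 7, 9, 10, 15, 13, 11, 12, 16, 17, 18, 19]) (.cons 11 (.emb 140 false [0, 1, 2, 3, 7, 8,
  10, 9, 11, 12, 13, 14, 18, 15, 16, 17]) (.cons 12 (.emb 140 false [0, 1, 2, 3, 7, 8, 10, 9,
  12, 11, 13, 14, 18, 15, 16, 17]) .nil))) (.cons 11 (.fill 10 18 (.emb 140 false [0, 1, 2, 3,
  7, 8, 10, 9, 11, 12, 13, 14, 18, 15, 16, 17]) .nil) (.cons 12 (.fill 10 18 (.emb 140 false [0,
  1, 2, 3, 7, 8, 10, 9, 12, 11, 13, 14, 18, 15, 16, 17]) .nil) .nil))) (.cons 14 (.fill 10 18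
  (.fill 10 19 (.emb 148 false [0, 1, 2, 3, 8, 7, 9, 10, 15, 14, 11, 12, 16, 17, 18, 19]) (.cons
  11 (.emb 140 false [0, 1, 2, 3, 7, 8, 10, 9, 11, 12, 14, 13, 18, 15, 16, 17]) (.cons 12 (.emb
  140 false [0, 1, 2, 3, 7, 8, 10, 9, 12, 11, 14, 13, 18, 15, 16, 17]) .nil))) (.cons 11 (.fill
  10 18 (.emb 140 false [0, 1, 2, 3, 7, 8, 10, 9, 11, 12, 14, 13, 18, 15, 16, 17]) .nil) (.cons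
  12 (.fill 10 18 (.emb 140 false [0, 1, 2, 3, 7, 8, 10, 9, 12, 11, 14, 13, 18, 15, 16, 17])
  .nil) .nil))) .nil))))) (.cons 5 (.emb 52 true [3, 10, 9, 0]) .nil))))⟩

noncomputable def e153 : Ent := ⟨3, [⟨0, true, 3, 3, [1, 2, 3]⟩, ⟨1, false, 4, 4, [0, 4, 5, 6]⟩, ⟨2, false, 3,
  3, [0, 7, 8]⟩, ⟨3, false, 3, 3, [0, 9, 10]⟩, ⟨4, true, 3, 5, [1]⟩, ⟨5, true, 3, 5, [1]⟩, ⟨6,
  true, 3, 5, [1]⟩, ⟨7, true, 3, 3, [2, 11, 12]⟩, ⟨8, true, 3, 3, [2, 13, 14]⟩, ⟨9, true, 3, 5,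
  [3]⟩, ⟨10, true, 3, 5, [3]⟩, ⟨11, false, 3, 5, [7]⟩, ⟨12, false, 3, 5, [7]⟩, ⟨13, false, 3, 5,
  [8]⟩, ⟨14, false, 3, 5, [8]⟩], .split (.deg 9 (.cons 3 (.fill 9 15 (.fill 9 16 (.emb 138 false
  [0, 1, 2, 3, 4, 5, 6, 7, 8, 9, 10, 11, 12, 13, 14, 15, 16]) (.cons 11 (.emb 135 false [0, 1,
  2, 3, 4, 5, 6, 7, 8, 9, 10, 11, 12, 13, 14, 15]) (.cons 12 (.emb 135 false [0, 1, 2, 3, 4, 5,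
  6, 7, 8, 9, 10, 12, 11, 13, 14, 15]) (.cons 13 (.emb 135 false [0, 1, 2, 3, 4, 5, 6, 8, 7, 9,
  10, 13, 14, 11, 12, 15]) (.cons 14 (.emb 135 false [0, 1, 2, 3, 4, 5, 6, 8, 7, 9, 10, 14, 13,
  11, 12, 15]) .nil))))) (.cons 11 (.fill 9 15 (.emb 135 false [0, 1, 2, 3, 4, 5, 6, 7, 8, 9,
  10, 11, 12, 13, 14, 15]) (.cons 13 (.emb 82 false [0, 1, 2, 3, 7, 8, 9, 10, 11, 12, 13, 14])
  (.cons 14 (.emb 82 false [0, 1, 2, 3, 7, 8, 9, 10, 11, 12, 14, 13]) .nil))) (.cons 12 (.fill 9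
  15 (.emb 135 false [0, 1, 2, 3, 4, 5, 6, 7, 8, 9, 10, 12, 11, 13, 14, 15]) (.cons 13 (.emb 82
  false [0, 1, 2, 3, 7, 8, 9, 10, 12, 11, 13, 14]) (.cons 14 (.emb 82 false [0, 1, 2, 3, 7, 8,
  9, 10, 12, 11, 14, 13]) .nil))) (.cons 13 (.fill 9 15 (.emb 135 false [0, 1, 2, 3, 4, 5, 6, 8,
  7, 9, 10, 13, 14, 11, 12, 15]) (.cons 11 (.emb 82 false [0, 1, 2, 3, 7, 8, 9, 10, 11, 12, 13,
  14]) (.cons 12 (.emb 82 false [0, 1, 2, 3, 7, 8, 9, 10, 12, 11, 13, 14]) .nil))) (.cons 14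
  (.fill 9 15 (.emb 135 false [0, 1, 2, 3, 4, 5, 6, 8, 7, 9, 10, 14, 13, 11, 12, 15]) (.cons 11
  (.emb 82 false [0, 1, 2, 3, 7, 8, 9, 10, 11, 12, 14, 13]) (.cons 12 (.emb 82 false [0, 1, 2,
  3, 7, 8, 9, 10, 12, 11, 14, 13]) .nil))) .nil))))) (.cons 4 (.fill 9 15 (.fill 9 16 (.fill 9
  17 (.emb 152 false [0, 1, 2, 3, 4, 5, 6, 7, 8, 9, 10, 11, 12, 13, 14, 15, 16, 17]) (.cons 11
  (.emb 150 false [0, 1, 2, 3, 4, 5, 6, 7, 8, 9, 10, 11, 12, 13, 14, 15, 16]) (.cons 12 (.emb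
  150 false [0, 1, 2, 3, 4, 5, 6, 7, 8, 9, 10, 12, 11, 13, 14, 15, 16]) (.cons 13 (.emb 150
  false [0, 1, 2, 3, 4, 5, 6, 8, 7, 9, 10, 13, 14, 11, 12, 15, 16]) (.cons 14 (.emb 150 false
  [0, 1, 2, 3, 4, 5, 6, 8, 7, 9, 10, 14, 13, 11, 12, 15, 16]) .nil))))) (.cons 11 (.fill 9 16
  (.emb 150 false [0, 1, 2, 3, 4, 5, 6, 7, 8, 9, 10, 11, 12, 13, 14, 15, 16]) (.cons 13 (.emb
  147 false [0, 1, 2, 3, 4, 5, 6, 7, 8, 9, 10, 11, 12, 13, 14, 15]) (.cons 14 (.emb 147 false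
  [0, 1, 2, 3, 4, 5, 6, 7, 8, 9, 10, 11, 12, 14, 13, 15]) .nil))) (.cons 12 (.fill 9 16 (.emb
  150 false [0, 1, 2, 3, 4, 5, 6, 7, 8, 9, 10, 12, 11, 13, 14, 15, 16]) (.cons 13 (.emb 147
  false [0, 1, 2, 3, 4, 5, 6, 7, 8, 9, 10, 12, 11, 13, 14, 15]) (.cons 14 (.emb 147 false [0, 1,
  2, 3, 4, 5, 6, 7, 8, 9, 10, 12, 11, 14, 13, 15]) .nil))) (.cons 13 (.fill 9 16 (.emb 150 false
  [0, 1, 2, 3, 4, 5, 6, 8, 7, 9, 10, 13, 14, 11, 12, 15, 16]) (.cons 11 (.emb 147 false [0, 1,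
  2, 3, 4, 5, 6, 7, 8, 9, 10, 11, 12, 13, 14, 15]) (.cons 12 (.emb 147 false [0, 1, 2, 3, 4, 5,
  6, 7, 8, 9, 10, 12, 11, 13, 14, 15]) .nil))) (.cons 14 (.fill 9 16 (.emb 150 false [0, 1, 2,
  3, 4, 5, 6, 8, 7, 9, 10, 14, 13, 11, 12, 15, 16]) (.cons 11 (.emb 147 false [0, 1, 2, 3, 4, 5,
  6, 7, 8, 9, 10, 11, 12, 14, 13, 15]) (.cons 12 (.emb 147 false [0, 1, 2, 3, 4, 5, 6, 7, 8, 9,
  10, 12, 11, 14, 13, 15]) .nil))) .nil))))) (.cons 11 (.fill 9 15 (.fill 9 16 (.emb 150 false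
  [0, 1, 2, 3, 4, 5, 6, 7, 8, 9, 10, 11, 12, 13, 14, 15, 16]) (.cons 13 (.emb 147 false [0, 1,
  2, 3, 4, 5, 6, 7, 8, 9, 10, 11, 12, 13, 14, 15]) (.cons 14 (.emb 147 false [0, 1, 2, 3, 4, 5,
  6, 7, 8, 9, 10, 11, 12, 14, 13, 15]) .nil))) (.cons 13 (.fill 9 15 (.emb 147 false [0, 1, 2,
  3, 4, 5, 6, 7, 8, 9, 10, 11, 12, 13, 14, 15]) .nil) (.cons 14 (.fill 9 15 (.emb 147 false [0,
  1, 2, 3, 4, 5, 6, 7, 8, 9, 10, 11, 12, 14, 13, 15]) .nil) .nil))) (.cons 12 (.fill 9 15 (.fill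
  9 16 (.emb 150 false [0, 1, 2, 3, 4, 5, 6, 7, 8, 9, 10, 12, 11, 13, 14, 15, 16]) (.cons 13
  (.emb 147 false [0, 1, 2, 3, 4, 5, 6, 7, 8, 9, 10, 12, 11, 13, 14, 15]) (.cons 14 (.emb 147
  false [0, 1, 2, 3, 4, 5, 6, 7, 8, 9, 10, 12, 11, 14, 13, 15]) .nil))) (.cons 13 (.fill 9 15
  (.emb 147 false [0, 1, 2, 3, 4, 5, 6, 7, 8, 9, 10, 12, 11, 13, 14, 15]) .nil) (.cons 14 (.fill
  9 15 (.emb 147 false [0, 1, 2, 3, 4, 5, 6, 7, 8, 9, 10, 12, 11, 14, 13, 15]) .nil) .nil)))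
  (.cons 13 (.fill 9 15 (.fill 9 16 (.emb 150 false [0, 1, 2, 3, 4, 5, 6, 8, 7, 9, 10, 13, 14,
  11, 12, 15, 16]) (.cons 11 (.emb 147 false [0, 1, 2, 3, 4, 5, 6, 7, 8, 9, 10, 11, 12, 13, 14,
  15]) (.cons 12 (.emb 147 false [0, 1, 2, 3, 4, 5, 6, 7, 8, 9, 10, 12, 11, 13, 14, 15]) .nil)))
  (.cons 11 (.fill 9 15 (.emb 147 false [0, 1, 2, 3, 4, 5, 6, 7, 8, 9, 10, 11, 12, 13, 14, 15])
  .nil) (.cons 12 (.fill 9 15 (.emb 147 false [0, 1, 2, 3, 4, 5, 6, 7, 8, 9, 10, 12, 11, 13, 14,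
  15]) .nil) .nil))) (.cons 14 (.fill 9 15 (.fill 9 16 (.emb 150 false [0, 1, 2, 3, 4, 5, 6, 8,
  7, 9, 10, 14, 13, 11, 12, 15, 16]) (.cons 11 (.emb 147 false [0, 1, 2, 3, 4, 5, 6, 7, 8, 9,
  10, 11, 12, 14, 13, 15]) (.cons 12 (.emb 147 false [0, 1, 2, 3, 4, 5, 6, 7, 8, 9, 10, 12, 11,
  14, 13, 15]) .nil))) (.cons 11 (.fill 9 15 (.emb 147 false [0, 1, 2, 3, 4, 5, 6, 7, 8, 9, 10,
  11, 12, 14, 13, 15]) .nil) (.cons 12 (.fill 9 15 (.emb 147 false [0, 1, 2, 3, 4, 5, 6, 7, 8,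
  9, 10, 12, 11, 14, 13, 15]) .nil) .nil))) .nil))))) (.cons 5 (.emb 61 true [3, 9, 0, 10, 1,
  2]) .nil))))⟩

noncomputable def e154 : Ent := ⟨3, [⟨0, true, 3, 3, [1, 2, 3]⟩, ⟨1, false, 4, 5, [0, 4, 5, 6]⟩, ⟨2, false, 3,
  3, [0, 7, 8]⟩, ⟨3, false, 3, 3, [0, 9, 10]⟩, ⟨4, true, 3, 5, [1]⟩, ⟨5, true, 3, 5, [1]⟩, ⟨6,
  true, 3, 5, [1]⟩, ⟨7, true, 3, 3, [2, 11, 12]⟩, ⟨8, true, 4, 4, [2, 13, 14, 15]⟩, ⟨9, true, 4,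
  4, [3, 16, 17, 18]⟩, ⟨10, true, 3, 5, [3]⟩, ⟨11, false, 3, 5, [7]⟩, ⟨12, false, 3, 5, [7]⟩,
  ⟨13, false, 3, 5, [8]⟩, ⟨14, false, 3, 5, [8]⟩, ⟨15, false, 3, 5, [8]⟩, ⟨16, false, 3, 5,
  [9]⟩, ⟨17, false, 3, 5, [9]⟩, ⟨18, false, 3, 5, [9]⟩], .cert (.edge 3 10 (.edge 0 1 (.contr 0
  .nil) (.vert 3 (.cons 9 .nil .nil))) (.vert 2 (.cons 0 .nil (.cons 7 (.vert 0 (.cons 1 .nil
  .nil)) (.cons 8 (.vert 0 (.cons 1 .nil .nil)) .nil)))))⟩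

noncomputable def e155 : Ent := ⟨3, [⟨0, true, 3, 3, [1, 2, 3]⟩, ⟨1, false, 4, 5, [0]⟩, ⟨2, false, 3, 3, [0,
  4, 5]⟩, ⟨3, false, 3, 3, [0, 6, 7]⟩, ⟨4, true, 3, 3, [2, 8, 9]⟩, ⟨5, true, 4, 4, [2, 10, 11,
  12]⟩, ⟨6, true, 3, 3, [3, 8, 10]⟩, ⟨7, true, 4, 4, [3, 9, 11, 13]⟩, ⟨8, false, 3, 5, [4, 6]⟩,
  ⟨9, false, 3, 5, [4, 7]⟩, ⟨10, false, 3, 5, [5, 6]⟩, ⟨11, false, 3, 5, [5, 7]⟩, ⟨12, false, 3,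
  5, [5]⟩, ⟨13, false, 3, 5, [7]⟩], .cert (.vert 2 (.cons 0 (.vert 6 (.cons 3 .nil (.cons 8
  (.vert 3 (.cons 7 (.vert 4 (.cons 9 .nil .nil)) .nil)) (.cons 10 (.vert 3 (.cons 7 .nil .nil))
  .nil)))) (.cons 4 (.vert 3 (.cons 0 .nil (.cons 6 (.vert 0 (.cons 1 .nil .nil)) (.cons 7
  (.vert 0 (.cons 1 .nil .nil)) .nil)))) (.cons 5 (.vert 0 (.cons 1 .nil (.cons 3 (.vert 4
  (.cons 8 (.vert 6 (.cons 10 .nil .nil)) (.cons 9 .nil .nil))) .nil))) .nil))))⟩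

noncomputable def e156 : Ent := ⟨3, [⟨0, true, 3, 3, [1, 2, 3]⟩, ⟨1, false, 4, 5, [0]⟩, ⟨2, false, 3, 3, [0,
  4, 5]⟩, ⟨3, false, 3, 3, [0, 6, 7]⟩, ⟨4, true, 3, 3, [2, 8, 9]⟩, ⟨5, true, 4, 4, [2, 10, 11,
  12]⟩, ⟨6, true, 3, 3, [3, 8, 10]⟩, ⟨7, true, 4, 4, [3, 9, 13, 14]⟩, ⟨8, false, 3, 5, [4, 6]⟩,
  ⟨9, false, 3, 5, [4, 7]⟩, ⟨10, false, 3, 5, [5, 6]⟩, ⟨11, false, 3, 5, [5]⟩, ⟨12, false, 3, 5,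
  [5]⟩, ⟨13, false, 3, 5, [7]⟩, ⟨14, false, 3, 5, [7]⟩], .cert (.vert 2 (.cons 0 (.vert 6 (.cons
  3 .nil (.cons 8 (.vert 3 (.cons 7 (.vert 4 (.cons 9 .nil .nil)) .nil)) (.cons 10 (.vert 3
  (.cons 7 .nil .nil)) .nil)))) (.cons 4 (.vert 3 (.cons 0 .nil (.cons 6 (.vert 0 (.cons 1 .nil
  .nil)) (.cons 7 (.vert 0 (.cons 1 .nil .nil)) .nil)))) (.cons 5 (.vert 0 (.cons 1 .nil (.cons
  3 (.vert 4 (.cons 8 (.vert 6 (.cons 10 .nil .nil)) (.cons 9 .nil .nil))) .nil))) .nil))))⟩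

noncomputable def e157 : Ent := ⟨3, [⟨0, true, 3, 3, [1, 2, 3]⟩, ⟨1, false, 4, 5, [0]⟩, ⟨2, false, 3, 3, [0,
  4, 5]⟩, ⟨3, false, 3, 3, [0, 6, 7]⟩, ⟨4, true, 3, 3, [2, 8, 9]⟩, ⟨5, true, 3, 5, [2, 10, 11,
  12]⟩, ⟨6, true, 3, 3, [3, 8, 10]⟩, ⟨7, true, 4, 4, [3, 11, 13, 14]⟩, ⟨8, false, 3, 5, [4, 6]⟩,
  ⟨9, false, 3, 5, [4]⟩, ⟨10, false, 3, 5, [5, 6]⟩, ⟨11, false, 3, 5, [5, 7]⟩, ⟨12, false, 3, 5,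
  [5]⟩, ⟨13, false, 3, 5, [7]⟩, ⟨14, false, 3, 5, [7]⟩], .cert (.vert 0 (.cons 1 (.vert 2 (.cons
  4 .nil (.cons 5 .nil .nil))) (.cons 2 (.vert 6 (.cons 3 .nil (.cons 8 (.vert 3 (.cons 7 (.vert
  4 (.cons 9 .nil .nil)) .nil)) (.cons 10 (.vert 3 (.cons 7 .nil .nil)) .nil)))) (.cons 3 (.vert
  4 (.cons 2 .nil (.cons 8 (.vert 2 (.cons 5 (.vert 6 (.cons 10 .nil .nil)) .nil)) (.cons 9
  (.vert 2 (.cons 5 .nil .nil)) .nil)))) .nil))))⟩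

noncomputable def e158 : Ent := ⟨3, [⟨0, true, 3, 3, [1, 2, 3]⟩, ⟨1, false, 4, 4, [0, 4, 5, 6]⟩, ⟨2, false, 3,
  3, [0, 7, 8]⟩, ⟨3, false, 3, 3, [0, 9, 10]⟩, ⟨4, true, 3, 5, [1]⟩, ⟨5, true, 3, 5, [1]⟩, ⟨6,
  true, 3, 5, [1]⟩, ⟨7, true, 3, 3, [2, 11, 12]⟩, ⟨8, true, 4, 4, [2, 13, 14, 15]⟩, ⟨9, true, 3,
  3, [3, 11, 13]⟩, ⟨10, true, 3, 5, [3]⟩, ⟨11, false, 3, 5, [7, 9]⟩, ⟨12, false, 3, 5, [7]⟩,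
  ⟨13, false, 3, 5, [8, 9]⟩, ⟨14, false, 3, 5, [8]⟩, ⟨15, false, 3, 5, [8]⟩], .split (.deg 10
  (.cons 3 (.fill 10 16 (.fill 10 17 (.emb 135 false [0, 1, 3, 2, 4, 5, 6, 9, 10, 7, 8, 11, 13,
  16, 17, 12]) (.cons 12 (.emb 81 false [0, 1, 3, 2, 9, 10, 7, 8, 11, 13, 12, 16, 14, 15])
  (.cons 14 (.emb 135 false [0, 1, 3, 2, 4, 5, 6, 9, 10, 7, 8, 11, 13, 14, 16, 12]) (.cons 15
  (.emb 135 false [0, 1, 3, 2, 4, 5, 6, 9, 10, 7, 8, 11, 13, 15, 16, 12]) .nil)))) (.cons 12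
  (.fill 10 16 (.emb 81 false [0, 1, 3, 2, 9, 10, 7, 8, 11, 13, 12, 16, 14, 15]) (.cons 14 (.emb
  80 false [0, 1, 3, 2, 9, 10, 7, 8, 11, 13, 12, 14, 15]) (.cons 15 (.emb 80 false [0, 1, 3, 2,
  9, 10, 7, 8, 11, 13, 12, 15, 14]) .nil))) (.cons 14 (.fill 10 16 (.emb 135 false [0, 1, 3, 2,
  4, 5, 6, 9, 10, 7, 8, 11, 13, 14, 16, 12]) (.cons 12 (.emb 80 false [0, 1, 3, 2, 9, 10, 7, 8,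
  11, 13, 12, 14, 15]) .nil)) (.cons 15 (.fill 10 16 (.emb 135 false [0, 1, 3, 2, 4, 5, 6, 9,
  10, 7, 8, 11, 13, 15, 16, 12]) (.cons 12 (.emb 80 false [0, 1, 3, 2, 9, 10, 7, 8, 11, 13, 12,
  15, 14]) .nil)) .nil)))) (.cons 4 (.fill 10 16 (.fill 10 17 (.fill 10 18 (.emb 154 false [0,
  1, 2, 3, 4, 5, 6, 7, 8, 10, 9, 11, 12, 13, 14, 15, 16, 17, 18]) (.cons 12 (.emb 156 false [0,
  1, 2, 3, 7, 8, 9, 10, 11, 12, 13, 14, 15, 16, 17]) (.cons 14 (.emb 157 false [0, 1, 2, 3, 7,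
  8, 9, 10, 11, 12, 13, 14, 15, 16, 17]) (.cons 15 (.emb 157 false [0, 1, 2, 3, 7, 8, 9, 10, 11,
  12, 13, 15, 14, 16, 17]) .nil)))) (.cons 12 (.fill 10 17 (.emb 156 false [0, 1, 2, 3, 7, 8, 9,
  10, 11, 12, 13, 14, 15, 16, 17]) (.cons 14 (.emb 155 false [0, 1, 2, 3, 7, 8, 9, 10, 11, 12,
  13, 14, 15, 16]) (.cons 15 (.emb 155 false [0, 1, 2, 3, 7, 8, 9, 10, 11, 12, 13, 15, 14, 16])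
  .nil))) (.cons 14 (.fill 10 17 (.emb 157 false [0, 1, 2, 3, 7, 8, 9, 10, 11, 12, 13, 14, 15,
  16, 17]) (.cons 12 (.emb 155 false [0, 1, 2, 3, 7, 8, 9, 10, 11, 12, 13, 14, 15, 16]) .nil))
  (.cons 15 (.fill 10 17 (.emb 157 false [0, 1, 2, 3, 7, 8, 9, 10, 11, 12, 13, 15, 14, 16, 17])
  (.cons 12 (.emb 155 false [0, 1, 2, 3, 7, 8, 9, 10, 11, 12, 13, 15, 14, 16]) .nil)) .nil))))
  (.cons 12 (.fill 10 16 (.fill 10 17 (.emb 156 false [0, 1, 2, 3, 7, 8, 9, 10, 11, 12, 13, 14,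
  15, 16, 17]) (.cons 14 (.emb 155 false [0, 1, 2, 3, 7, 8, 9, 10, 11, 12, 13, 14, 15, 16])
  (.cons 15 (.emb 155 false [0, 1, 2, 3, 7, 8, 9, 10, 11, 12, 13, 15, 14, 16]) .nil))) (.cons 14
  (.fill 10 16 (.emb 155 false [0, 1, 2, 3, 7, 8, 9, 10, 11, 12, 13, 14, 15, 16]) .nil) (.cons
  15 (.fill 10 16 (.emb 155 false [0, 1, 2, 3, 7, 8, 9, 10, 11, 12, 13, 15, 14, 16]) .nil)
  .nil))) (.cons 14 (.fill 10 16 (.fill 10 17 (.emb 157 false [0, 1, 2, 3, 7, 8, 9, 10, 11, 12,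
  13, 14, 15, 16, 17]) (.cons 12 (.emb 155 false [0, 1, 2, 3, 7, 8, 9, 10, 11, 12, 13, 14, 15,
  16]) .nil)) (.cons 12 (.fill 10 16 (.emb 155 false [0, 1, 2, 3, 7, 8, 9, 10, 11, 12, 13, 14,
  15, 16]) .nil) .nil)) (.cons 15 (.fill 10 16 (.fill 10 17 (.emb 157 false [0, 1, 2, 3, 7, 8,
  9, 10, 11, 12, 13, 15, 14, 16, 17]) (.cons 12 (.emb 155 false [0, 1, 2, 3, 7, 8, 9, 10, 11,
  12, 13, 15, 14, 16]) .nil)) (.cons 12 (.fill 10 16 (.emb 155 false [0, 1, 2, 3, 7, 8, 9, 10,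
  11, 12, 13, 15, 14, 16]) .nil) .nil)) .nil)))) (.cons 5 (.emb 53 true [3, 10, 0, 9, 1, 2, 11,
  13]) .nil))))⟩

noncomputable def e159 : Ent := ⟨3, [⟨0, true, 3, 3, [1, 2, 3]⟩, ⟨1, false, 4, 5, [0]⟩, ⟨2, false, 3, 3, [0,
  4, 5]⟩, ⟨3, false, 3, 3, [0, 6, 7]⟩, ⟨4, true, 3, 3, [2, 8, 9]⟩, ⟨5, true, 3, 5, [2, 10, 11,
  12]⟩, ⟨6, true, 3, 3, [3, 8, 13]⟩, ⟨7, true, 4, 4, [3, 10, 14, 15]⟩, ⟨8, false, 3, 5, [4, 6]⟩,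
  ⟨9, false, 3, 5, [4]⟩, ⟨10, false, 3, 5, [5, 7]⟩, ⟨11, false, 3, 5, [5]⟩, ⟨12, false, 3, 5,
  [5]⟩, ⟨13, false, 3, 5, [6]⟩, ⟨14, false, 3, 5, [7]⟩, ⟨15, false, 3, 5, [7]⟩], .cert (.vert 0
  (.cons 1 (.vert 2 (.cons 4 .nil (.cons 5 .nil .nil))) (.cons 2 (.vert 6 (.cons 3 .nil (.cons 8
  (.vert 3 (.cons 7 (.vert 4 (.cons 9 .nil .nil)) .nil)) (.cons 13 (.vert 3 (.cons 7 .nil .nil))
  .nil)))) (.cons 3 (.vert 4 (.cons 2 .nil (.cons 8 (.vert 2 (.cons 5 (.vert 6 (.cons 13 .nil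
  .nil)) .nil)) (.cons 9 (.vert 2 (.cons 5 .nil .nil)) .nil)))) .nil))))⟩

noncomputable def e160 : Ent := ⟨3, [⟨0, true, 3, 3, [1, 2, 3]⟩, ⟨1, false, 4, 4, [0, 4, 5, 6]⟩, ⟨2, false, 3,
  3, [0, 7, 8]⟩, ⟨3, false, 3, 3, [0, 9, 10]⟩, ⟨4, true, 3, 5, [1]⟩, ⟨5, true, 3, 5, [1]⟩, ⟨6,
  true, 3, 5, [1]⟩, ⟨7, true, 3, 3, [2, 11, 12]⟩, ⟨8, true, 4, 4, [2, 13, 14, 15]⟩, ⟨9, true, 3,
  3, [3, 11, 16]⟩, ⟨10, true, 3, 5, [3]⟩, ⟨11, false, 3, 5, [7, 9]⟩, ⟨12, false, 3, 5, [7]⟩,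
  ⟨13, false, 3, 5, [8]⟩, ⟨14, false, 3, 5, [8]⟩, ⟨15, false, 3, 5, [8]⟩, ⟨16, false, 3, 5,
  [9]⟩], .split (.deg 10 (.cons 3 (.fill 10 17 (.fill 10 18 (.emb 135 false [0, 1, 3, 2, 4, 5,
  6, 9, 10, 7, 8, 11, 16, 17, 18, 12]) (.cons 12 (.emb 64 false [0, 1, 3, 2, 9, 10, 7, 8, 11,
  16, 12, 17, 13, 14, 15]) (.cons 13 (.emb 135 false [0, 1, 3, 2, 4, 5, 6, 9, 10, 7, 8, 11, 16,
  13, 17, 12]) (.cons 14 (.emb 135 false [0, 1, 3, 2, 4, 5, 6, 9, 10, 7, 8, 11, 16, 14, 17, 12])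
  (.cons 15 (.emb 135 false [0, 1, 3, 2, 4, 5, 6, 9, 10, 7, 8, 11, 16, 15, 17, 12]) .nil)))))
  (.cons 12 (.fill 10 17 (.emb 64 false [0, 1, 3, 2, 9, 10, 7, 8, 11, 16, 12, 17, 13, 14, 15])
  (.cons 13 (.emb 81 false [0, 1, 3, 2, 10, 9, 7, 8, 12, 13, 11, 16, 14, 15]) (.cons 14 (.emb 81
  false [0, 1, 3, 2, 10, 9, 7, 8, 12, 14, 11, 16, 13, 15]) (.cons 15 (.emb 81 false [0, 1, 3, 2,
  10, 9, 7, 8, 12, 15, 11, 16, 13, 14]) .nil)))) (.cons 13 (.fill 10 17 (.emb 135 false [0, 1,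
  3, 2, 4, 5, 6, 9, 10, 7, 8, 11, 16, 13, 17, 12]) (.cons 12 (.emb 81 false [0, 1, 3, 2, 10, 9,
  7, 8, 12, 13, 11, 16, 14, 15]) .nil)) (.cons 14 (.fill 10 17 (.emb 135 false [0, 1, 3, 2, 4,
  5, 6, 9, 10, 7, 8, 11, 16, 14, 17, 12]) (.cons 12 (.emb 81 false [0, 1, 3, 2, 10, 9, 7, 8, 12,
  14, 11, 16, 13, 15]) .nil)) (.cons 15 (.fill 10 17 (.emb 135 false [0, 1, 3, 2, 4, 5, 6, 9,
  10, 7, 8, 11, 16, 15, 17, 12]) (.cons 12 (.emb 81 false [0, 1, 3, 2, 10, 9, 7, 8, 12, 15, 11,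
  16, 13, 14]) .nil)) .nil))))) (.cons 4 (.fill 10 17 (.fill 10 18 (.fill 10 19 (.emb 154 false
  [0, 1, 2, 3, 4, 5, 6, 7, 8, 10, 9, 11, 12, 13, 14, 15, 17, 18, 19]) (.cons 12 (.emb 154 false
  [0, 1, 3, 2, 4, 5, 6, 9, 10, 8, 7, 11, 16, 12, 17, 18, 13, 14, 15]) (.cons 13 (.emb 159 false
  [0, 1, 3, 2, 9, 10, 7, 8, 11, 16, 13, 17, 18, 12, 14, 15]) (.cons 14 (.emb 159 false [0, 1, 3,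
  2, 9, 10, 7, 8, 11, 16, 14, 17, 18, 12, 13, 15]) (.cons 15 (.emb 159 false [0, 1, 3, 2, 9, 10,
  7, 8, 11, 16, 15, 17, 18, 12, 13, 14]) .nil))))) (.cons 12 (.fill 10 18 (.emb 154 false [0, 1,
  3, 2, 4, 5, 6, 9, 10, 8, 7, 11, 16, 12, 17, 18, 13, 14, 15]) (.cons 13 (.emb 157 false [0, 1,
  3, 2, 9, 10, 7, 8, 11, 16, 12, 13, 17, 14, 15]) (.cons 14 (.emb 157 false [0, 1, 3, 2, 9, 10,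
  7, 8, 11, 16, 12, 14, 17, 13, 15]) (.cons 15 (.emb 157 false [0, 1, 3, 2, 9, 10, 7, 8, 11, 16,
  12, 15, 17, 13, 14]) .nil)))) (.cons 13 (.fill 10 18 (.emb 159 false [0, 1, 3, 2, 9, 10, 7, 8,
  11, 16, 13, 17, 18, 12, 14, 15]) (.cons 12 (.emb 157 false [0, 1, 3, 2, 9, 10, 7, 8, 11, 16,
  12, 13, 17, 14, 15]) .nil)) (.cons 14 (.fill 10 18 (.emb 159 false [0, 1, 3, 2, 9, 10, 7, 8,
  11, 16, 14, 17, 18, 12, 13, 15]) (.cons 12 (.emb 157 false [0, 1, 3, 2, 9, 10, 7, 8, 11, 16,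
  12, 14, 17, 13, 15]) .nil)) (.cons 15 (.fill 10 18 (.emb 159 false [0, 1, 3, 2, 9, 10, 7, 8,
  11, 16, 15, 17, 18, 12, 13, 14]) (.cons 12 (.emb 157 false [0, 1, 3, 2, 9, 10, 7, 8, 11, 16,
  12, 15, 17, 13, 14]) .nil)) .nil))))) (.cons 12 (.fill 10 17 (.fill 10 18 (.emb 154 false [0,
  1, 3, 2, 4, 5, 6, 9, 10, 8, 7, 11, 16, 12, 17, 18, 13, 14, 15]) (.cons 13 (.emb 157 false [0,
  1, 3, 2, 9, 10, 7, 8, 11, 16, 12, 13, 17, 14, 15]) (.cons 14 (.emb 157 false [0, 1, 3, 2, 9,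
  10, 7, 8, 11, 16, 12, 14, 17, 13, 15]) (.cons 15 (.emb 157 false [0, 1, 3, 2, 9, 10, 7, 8, 11,
  16, 12, 15, 17, 13, 14]) .nil)))) (.cons 13 (.fill 10 17 (.emb 157 false [0, 1, 3, 2, 9, 10,
  7, 8, 11, 16, 12, 13, 17, 14, 15]) .nil) (.cons 14 (.fill 10 17 (.emb 157 false [0, 1, 3, 2,
  9, 10, 7, 8, 11, 16, 12, 14, 17, 13, 15]) .nil) (.cons 15 (.fill 10 17 (.emb 157 false [0, 1,
  3, 2, 9, 10, 7, 8, 11, 16, 12, 15, 17, 13, 14]) .nil) .nil)))) (.cons 13 (.fill 10 17 (.fill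
  10 18 (.emb 159 false [0, 1, 3, 2, 9, 10, 7, 8, 11, 16, 13, 17, 18, 12, 14, 15]) (.cons 12
  (.emb 157 false [0, 1, 3, 2, 9, 10, 7, 8, 11, 16, 12, 13, 17, 14, 15]) .nil)) (.cons 12 (.fill
  10 17 (.emb 157 false [0, 1, 3, 2, 9, 10, 7, 8, 11, 16, 12, 13, 17, 14, 15]) .nil) .nil))
  (.cons 14 (.fill 10 17 (.fill 10 18 (.emb 159 false [0, 1, 3, 2, 9, 10, 7, 8, 11, 16, 14, 17,
  18, 12, 13, 15]) (.cons 12 (.emb 157 false [0, 1, 3, 2, 9, 10, 7, 8, 11, 16, 12, 14, 17, 13,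
  15]) .nil)) (.cons 12 (.fill 10 17 (.emb 157 false [0, 1, 3, 2, 9, 10, 7, 8, 11, 16, 12, 14,
  17, 13, 15]) .nil) .nil)) (.cons 15 (.fill 10 17 (.fill 10 18 (.emb 159 false [0, 1, 3, 2, 9,
  10, 7, 8, 11, 16, 15, 17, 18, 12, 13, 14]) (.cons 12 (.emb 157 false [0, 1, 3, 2, 9, 10, 7, 8,
  11, 16, 12, 15, 17, 13, 14]) .nil)) (.cons 12 (.fill 10 17 (.emb 157 false [0, 1, 3, 2, 9, 10,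
  7, 8, 11, 16, 12, 15, 17, 13, 14]) .nil) .nil)) .nil))))) (.cons 5 (.emb 53 true [3, 10, 0, 9,
  1, 2, 11, 16]) .nil))))⟩

noncomputable def e161 : Ent := ⟨3, [⟨0, true, 3, 3, [1, 2, 3]⟩, ⟨1, false, 4, 5, [0]⟩, ⟨2, false, 3, 3, [0,
  4, 5]⟩, ⟨3, false, 3, 3, [0, 6, 7]⟩, ⟨4, true, 3, 3, [2, 8, 9]⟩, ⟨5, true, 4, 5, [2]⟩, ⟨6,
  true, 3, 3, [3, 10, 12]⟩, ⟨7, true, 3, 4, [3, 11, 13, 14]⟩, ⟨8, false, 3, 5, [4]⟩, ⟨9, false,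
  3, 5, [4]⟩, ⟨10, false, 3, 5, [6]⟩, ⟨11, false, 3, 5, [7]⟩, ⟨12, false, 3, 5, [6]⟩, ⟨13,
  false, 3, 5, [7]⟩, ⟨14, false, 3, 5, [7]⟩], .cert (.edge 0 1 (.edge 2 5 (.contr 0 .nil) (.vert
  0 (.cons 3 .nil .nil))) .nil)⟩

noncomputable def e162 : Ent := ⟨3, [⟨0, true, 3, 3, [1, 2, 3]⟩, ⟨1, false, 4, 5, [0]⟩, ⟨2, false, 3, 3, [0,
  4, 5]⟩, ⟨3, false, 3, 3, [0, 6, 7]⟩, ⟨4, true, 3, 3, [2, 8, 9]⟩, ⟨5, true, 3, 5, [2, 10, 11,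
  12]⟩, ⟨6, true, 3, 3, [3, 10, 13]⟩, ⟨7, true, 4, 4, [3, 8, 11, 14]⟩, ⟨8, false, 4, 5, [4, 7]⟩,
  ⟨9, false, 3, 5, [4]⟩, ⟨10, false, 3, 5, [5, 6]⟩, ⟨11, false, 3, 5, [5, 7]⟩, ⟨12, false, 3, 5,
  [5]⟩, ⟨13, false, 3, 5, [6]⟩, ⟨14, false, 3, 5, [7]⟩], .cert (.vert 0 (.cons 1 (.vert 2 (.cons
  4 (.vert 3 (.cons 6 .nil (.cons 7 .nil .nil))) (.cons 5 (.vert 3 (.cons 6 .nil (.cons 7 .nil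
  .nil))) .nil))) (.cons 2 (.edge 7 8 .nil (.vert 3 (.cons 6 (.vert 4 (.cons 9 .nil .nil))
  .nil))) (.cons 3 (.vert 4 (.cons 2 .nil (.cons 8 (.vert 2 (.cons 5 .nil .nil)) (.cons 9 (.vert
  2 (.cons 5 .nil .nil)) .nil)))) .nil))))⟩

noncomputable def e163 : Ent := ⟨3, [⟨0, true, 3, 3, [1, 2, 3]⟩, ⟨1, false, 4, 4, [0, 4, 5, 6]⟩, ⟨2, false, 3,
  3, [0, 7, 8]⟩, ⟨3, false, 3, 3, [0, 9, 10]⟩, ⟨4, true, 3, 5, [1]⟩, ⟨5, true, 3, 5, [1]⟩, ⟨6,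
  true, 3, 5, [1]⟩, ⟨7, true, 3, 3, [2, 11, 12]⟩, ⟨8, true, 4, 4, [2, 13, 14, 15]⟩, ⟨9, true, 3,
  3, [3, 13, 16]⟩, ⟨10, true, 4, 4, [3, 11, 14, 17]⟩, ⟨11, false, 3, 5, [7, 10]⟩, ⟨12, false, 3,
  5, [7]⟩, ⟨13, false, 3, 5, [8, 9]⟩, ⟨14, false, 3, 5, [8, 10]⟩, ⟨15, false, 3, 5, [8]⟩, ⟨16,
  false, 3, 5, [9]⟩, ⟨17, false, 3, 5, [10]⟩], .split (.deg 11 (.cons 3 (.fill 11 18 (.emb 160
  true [2, 8, 0, 7, 13, 14, 15, 3, 1, 11, 12, 10, 9, 4, 5, 6, 18]) (.cons 4 (.emb 158 true [2,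
  8, 0, 7, 13, 14, 15, 3, 1, 11, 12, 10, 9, 4, 5, 6]) (.cons 5 (.emb 158 true [2, 8, 0, 7, 13,
  14, 15, 3, 1, 11, 12, 10, 9, 5, 4, 6]) (.cons 6 (.emb 158 true [2, 8, 0, 7, 13, 14, 15, 3, 1,
  11, 12, 10, 9, 6, 4, 5]) .nil)))) (.cons 4 (.emb 162 false [0, 1, 2, 3, 7, 8, 9, 10, 11, 12,
  13, 14, 15, 16, 17]) (.cons 5 (.emb 61 false [7, 11, 2, 12, 0, 8]) .nil))))⟩

noncomputable def e164 : Ent := ⟨3, [⟨0, true, 3, 3, [1, 2, 3]⟩, ⟨1, false, 4, 5, [0]⟩, ⟨2, false, 3, 3, [0,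
  4, 5]⟩, ⟨3, false, 3, 3, [0, 6, 7]⟩, ⟨4, true, 3, 3, [2, 8, 9]⟩, ⟨5, true, 3, 5, [2, 10, 11,
  12]⟩, ⟨6, true, 3, 3, [3, 10, 13]⟩, ⟨7, true, 4, 4, [3, 8, 14, 15]⟩, ⟨8, false, 4, 5, [4, 7]⟩,
  ⟨9, false, 3, 5, [4]⟩, ⟨10, false, 3, 5, [5, 6]⟩, ⟨11, false, 3, 5, [5]⟩, ⟨12, false, 3, 5,
  [5]⟩, ⟨13, false, 3, 5, [6]⟩, ⟨14, false, 3, 5, [7]⟩, ⟨15, false, 3, 5, [7]⟩], .cert (.vert 0
  (.cons 1 (.vert 2 (.cons 4 (.vert 3 (.cons 6 .nil (.cons 7 .nil .nil))) (.cons 5 (.vert 3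
  (.cons 6 .nil (.cons 7 .nil .nil))) .nil))) (.cons 2 (.edge 7 8 .nil (.vert 3 (.cons 6 (.vert
  4 (.cons 9 .nil .nil)) .nil))) (.cons 3 (.vert 4 (.cons 2 .nil (.cons 8 (.vert 2 (.cons 5 .nil
  .nil)) (.cons 9 (.vert 2 (.cons 5 .nil .nil)) .nil)))) .nil))))⟩

noncomputable def e165 : Ent := ⟨3, [⟨0, true, 3, 3, [1, 2, 3]⟩, ⟨1, false, 4, 4, [0, 4, 5, 6]⟩, ⟨2, false, 3,
  3, [0, 7, 8]⟩, ⟨3, false, 3, 3, [0, 9, 10]⟩, ⟨4, true, 3, 5, [1]⟩, ⟨5, true, 3, 5, [1]⟩, ⟨6,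
  true, 3, 5, [1]⟩, ⟨7, true, 3, 3, [2, 11, 12]⟩, ⟨8, true, 4, 4, [2, 13, 14, 15]⟩, ⟨9, true, 3,
  3, [3, 13, 16]⟩, ⟨10, true, 4, 4, [3, 11, 17, 18]⟩, ⟨11, false, 3, 5, [7, 10]⟩, ⟨12, false, 3,
  5, [7]⟩, ⟨13, false, 3, 5, [8, 9]⟩, ⟨14, false, 3, 5, [8]⟩, ⟨15, false, 3, 5, [8]⟩, ⟨16,
  false, 3, 5, [9]⟩, ⟨17, false, 3, 5, [10]⟩, ⟨18, false, 3, 5, [10]⟩], .split (.deg 11 (.cons 3
  (.fill 11 19 (.emb 160 true [2, 8, 0, 7, 13, 14, 15, 3, 1, 11, 12, 10, 9, 4, 5, 6, 19]) (.cons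
  4 (.emb 158 true [2, 8, 0, 7, 13, 14, 15, 3, 1, 11, 12, 10, 9, 4, 5, 6]) (.cons 5 (.emb 158
  true [2, 8, 0, 7, 13, 14, 15, 3, 1, 11, 12, 10, 9, 5, 4, 6]) (.cons 6 (.emb 158 true [2, 8, 0,
  7, 13, 14, 15, 3, 1, 11, 12, 10, 9, 6, 4, 5]) .nil)))) (.cons 4 (.emb 164 false [0, 1, 2, 3,
  7, 8, 9, 10, 11, 12, 13, 14, 15, 16, 17, 18]) (.cons 5 (.emb 61 false [7, 11, 2, 12, 0, 8])
  .nil))))⟩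

noncomputable def e166 : Ent := ⟨3, [⟨0, true, 3, 3, [1, 2, 3]⟩, ⟨1, false, 4, 4, [0, 4, 5, 6]⟩, ⟨2, false, 3,
  3, [0, 7, 8]⟩, ⟨3, false, 3, 3, [0, 9, 10]⟩, ⟨4, true, 3, 5, [1]⟩, ⟨5, true, 3, 5, [1]⟩, ⟨6,
  true, 3, 5, [1]⟩, ⟨7, true, 3, 3, [2, 11, 12]⟩, ⟨8, true, 4, 4, [2, 13, 14, 15]⟩, ⟨9, true, 3,
  3, [3, 13, 16]⟩, ⟨10, true, 3, 5, [3]⟩, ⟨11, false, 3, 5, [7]⟩, ⟨12, false, 3, 5, [7]⟩, ⟨13,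
  false, 3, 5, [8, 9]⟩, ⟨14, false, 3, 5, [8]⟩, ⟨15, false, 3, 5, [8]⟩, ⟨16, false, 3, 5, [9]⟩],
  .split (.deg 10 (.cons 3 (.fill 10 17 (.fill 10 18 (.emb 137 false [0, 1, 3, 2, 9, 10, 7, 8,
  13, 16, 17, 18, 11, 12]) (.cons 11 (.emb 135 false [0, 1, 3, 2, 4, 5, 6, 10, 9, 7, 8, 11, 17,
  13, 16, 12]) (.cons 12 (.emb 135 false [0, 1, 3, 2, 4, 5, 6, 10, 9, 7, 8, 12, 17, 13, 16, 11])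
  (.cons 14 (.emb 137 false [0, 1, 3, 2, 9, 10, 7, 8, 13, 16, 14, 17, 11, 12]) (.cons 15 (.emb
  137 false [0, 1, 3, 2, 9, 10, 7, 8, 13, 16, 15, 17, 11, 12]) .nil))))) (.cons 11 (.fill 10 17
  (.emb 135 false [0, 1, 3, 2, 4, 5, 6, 10, 9, 7, 8, 11, 17, 13, 16, 12]) (.cons 14 (.emb 135
  false [0, 1, 3, 2, 4, 5, 6, 10, 9, 7, 8, 11, 14, 13, 16, 12]) (.cons 15 (.emb 135 false [0, 1,
  3, 2, 4, 5, 6, 10, 9, 7, 8, 11, 15, 13, 16, 12]) .nil))) (.cons 12 (.fill 10 17 (.emb 135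
  false [0, 1, 3, 2, 4, 5, 6, 10, 9, 7, 8, 12, 17, 13, 16, 11]) (.cons 14 (.emb 135 false [0, 1,
  3, 2, 4, 5, 6, 10, 9, 7, 8, 12, 14, 13, 16, 11]) (.cons 15 (.emb 135 false [0, 1, 3, 2, 4, 5,
  6, 10, 9, 7, 8, 12, 15, 13, 16, 11]) .nil))) (.cons 14 (.fill 10 17 (.emb 137 false [0, 1, 3,
  2, 9, 10, 7, 8, 13, 16, 14, 17, 11, 12]) (.cons 11 (.emb 135 false [0, 1, 3, 2, 4, 5, 6, 10,
  9, 7, 8, 11, 14, 13, 16, 12]) (.cons 12 (.emb 135 false [0, 1, 3, 2, 4, 5, 6, 10, 9, 7, 8, 12,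
  14, 13, 16, 11]) .nil))) (.cons 15 (.fill 10 17 (.emb 137 false [0, 1, 3, 2, 9, 10, 7, 8, 13,
  16, 15, 17, 11, 12]) (.cons 11 (.emb 135 false [0, 1, 3, 2, 4, 5, 6, 10, 9, 7, 8, 11, 15, 13,
  16, 12]) (.cons 12 (.emb 135 false [0, 1, 3, 2, 4, 5, 6, 10, 9, 7, 8, 12, 15, 13, 16, 11])
  .nil))) .nil))))) (.cons 4 (.fill 10 17 (.fill 10 18 (.fill 10 19 (.emb 154 false [0, 1, 2, 3,
  4, 5, 6, 7, 8, 10, 9, 11, 12, 13, 14, 15, 17, 18, 19]) (.cons 11 (.emb 165 false [0, 1, 2, 3,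
  4, 5, 6, 7, 8, 9, 10, 11, 12, 13, 14, 15, 16, 17, 18]) (.cons 12 (.emb 165 false [0, 1, 2, 3,
  4, 5, 6, 7, 8, 9, 10, 12, 11, 13, 14, 15, 16, 17, 18]) (.cons 14 (.emb 161 false [0, 1, 2, 3,
  7, 8, 9, 10, 11, 12, 13, 14, 16, 17, 18]) (.cons 15 (.emb 161 false [0, 1, 2, 3, 7, 8, 9, 10,
  11, 12, 13, 15, 16, 17, 18]) .nil))))) (.cons 11 (.fill 10 18 (.emb 165 false [0, 1, 2, 3, 4,
  5, 6, 7, 8, 9, 10, 11, 12, 13, 14, 15, 16, 17, 18]) (.cons 14 (.emb 163 false [0, 1, 2, 3, 4,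
  5, 6, 7, 8, 9, 10, 11, 12, 13, 14, 15, 16, 17]) (.cons 15 (.emb 163 false [0, 1, 2, 3, 4, 5,
  6, 7, 8, 9, 10, 11, 12, 13, 15, 14, 16, 17]) .nil))) (.cons 12 (.fill 10 18 (.emb 165 false
  [0, 1, 2, 3, 4, 5, 6, 7, 8, 9, 10, 12, 11, 13, 14, 15, 16, 17, 18]) (.cons 14 (.emb 163 false
  [0, 1, 2, 3, 4, 5, 6, 7, 8, 9, 10, 12, 11, 13, 14, 15, 16, 17]) (.cons 15 (.emb 163 false [0,
  1, 2, 3, 4, 5, 6, 7, 8, 9, 10, 12, 11, 13, 15, 14, 16, 17]) .nil))) (.cons 14 (.fill 10 18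
  (.emb 161 false [0, 1, 2, 3, 7, 8, 9, 10, 11, 12, 13, 14, 16, 17, 18]) (.cons 11 (.emb 163
  false [0, 1, 2, 3, 4, 5, 6, 7, 8, 9, 10, 11, 12, 13, 14, 15, 16, 17]) (.cons 12 (.emb 163
  false [0, 1, 2, 3, 4, 5, 6, 7, 8, 9, 10, 12, 11, 13, 14, 15, 16, 17]) .nil))) (.cons 15 (.fill
  10 18 (.emb 161 false [0, 1, 2, 3, 7, 8, 9, 10, 11, 12, 13, 15, 16, 17, 18]) (.cons 11 (.emb
  163 false [0, 1, 2, 3, 4, 5, 6, 7, 8, 9, 10, 11, 12, 13, 15, 14, 16, 17]) (.cons 12 (.emb 163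
  false [0, 1, 2, 3, 4, 5, 6, 7, 8, 9, 10, 12, 11, 13, 15, 14, 16, 17]) .nil))) .nil))))) (.cons
  11 (.fill 10 17 (.fill 10 18 (.emb 165 false [0, 1, 2, 3, 4, 5, 6, 7, 8, 9, 10, 11, 12, 13,
  14, 15, 16, 17, 18]) (.cons 14 (.emb 163 false [0, 1, 2, 3, 4, 5, 6, 7, 8, 9, 10, 11, 12, 13,
  14, 15, 16, 17]) (.cons 15 (.emb 163 false [0, 1, 2, 3, 4, 5, 6, 7, 8, 9, 10, 11, 12, 13, 15,
  14, 16, 17]) .nil))) (.cons 14 (.fill 10 17 (.emb 163 false [0, 1, 2, 3, 4, 5, 6, 7, 8, 9, 10,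
  11, 12, 13, 14, 15, 16, 17]) .nil) (.cons 15 (.fill 10 17 (.emb 163 false [0, 1, 2, 3, 4, 5,
  6, 7, 8, 9, 10, 11, 12, 13, 15, 14, 16, 17]) .nil) .nil))) (.cons 12 (.fill 10 17 (.fill 10 18
  (.emb 165 false [0, 1, 2, 3, 4, 5, 6, 7, 8, 9, 10, 12, 11, 13, 14, 15, 16, 17, 18]) (.cons 14
  (.emb 163 false [0, 1, 2, 3, 4, 5, 6, 7, 8, 9, 10, 12, 11, 13, 14, 15, 16, 17]) (.cons 15
  (.emb 163 false [0, 1, 2, 3, 4, 5, 6, 7, 8, 9, 10, 12, 11, 13, 15, 14, 16, 17]) .nil))) (.cons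
  14 (.fill 10 17 (.emb 163 false [0, 1, 2, 3, 4, 5, 6, 7, 8, 9, 10, 12, 11, 13, 14, 15, 16,
  17]) .nil) (.cons 15 (.fill 10 17 (.emb 163 false [0, 1, 2, 3, 4, 5, 6, 7, 8, 9, 10, 12, 11,
  13, 15, 14, 16, 17]) .nil) .nil))) (.cons 14 (.fill 10 17 (.fill 10 18 (.emb 161 false [0, 1,
  2, 3, 7, 8, 9, 10, 11, 12, 13, 14, 16, 17, 18]) (.cons 11 (.emb 163 false [0, 1, 2, 3, 4, 5,
  6, 7, 8, 9, 10, 11, 12, 13, 14, 15, 16, 17]) (.cons 12 (.emb 163 false [0, 1, 2, 3, 4, 5, 6,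
  7, 8, 9, 10, 12, 11, 13, 14, 15, 16, 17]) .nil))) (.cons 11 (.fill 10 17 (.emb 163 false [0,
  1, 2, 3, 4, 5, 6, 7, 8, 9, 10, 11, 12, 13, 14, 15, 16, 17]) .nil) (.cons 12 (.fill 10 17 (.emb
  163 false [0, 1, 2, 3, 4, 5, 6, 7, 8, 9, 10, 12, 11, 13, 14, 15, 16, 17]) .nil) .nil))) (.cons
  15 (.fill 10 17 (.fill 10 18 (.emb 161 false [0, 1, 2, 3, 7, 8, 9, 10, 11, 12, 13, 15, 16, 17,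
  18]) (.cons 11 (.emb 163 false [0, 1, 2, 3, 4, 5, 6, 7, 8, 9, 10, 11, 12, 13, 15, 14, 16, 17])
  (.cons 12 (.emb 163 false [0, 1, 2, 3, 4, 5, 6, 7, 8, 9, 10, 12, 11, 13, 15, 14, 16, 17])
  .nil))) (.cons 11 (.fill 10 17 (.emb 163 false [0, 1, 2, 3, 4, 5, 6, 7, 8, 9, 10, 11, 12, 13,
  15, 14, 16, 17]) .nil) (.cons 12 (.fill 10 17 (.emb 163 false [0, 1, 2, 3, 4, 5, 6, 7, 8, 9,
  10, 12, 11, 13, 15, 14, 16, 17]) .nil) .nil))) .nil))))) (.cons 5 (.emb 53 true [3, 10, 0, 9,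
  1, 2, 13, 16]) .nil))))⟩

noncomputable def e167 : Ent := ⟨3, [⟨0, true, 3, 3, [1, 2, 3]⟩, ⟨1, false, 4, 5, [0, 4]⟩, ⟨2, false, 3, 3,
  [0, 5, 6]⟩, ⟨3, false, 3, 3, [0, 7, 8]⟩, ⟨4, true, 3, 3, [1, 9, 14]⟩, ⟨5, true, 3, 3, [2, 9,
  10]⟩, ⟨6, true, 4, 4, [2, 11, 12, 13]⟩, ⟨7, true, 3, 3, [3, 14, 15]⟩, ⟨8, true, 3, 5, [3]⟩,
  ⟨9, false, 3, 5, [4, 5]⟩, ⟨10, false, 3, 5, [5]⟩, ⟨11, false, 3, 5, [6]⟩, ⟨12, false, 3, 5,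
  [6]⟩, ⟨13, false, 3, 5, [6]⟩, ⟨14, false, 3, 5, [4, 7]⟩, ⟨15, false, 3, 5, [7]⟩], .cert (.edge
  0 1 (.edge 3 8 (.contr 0 .nil) (.vert 0 (.cons 2 .nil .nil))) (.vert 5 (.cons 2 .nil (.cons 9
  (.vert 2 (.cons 6 (.vert 4 (.cons 14 .nil .nil)) .nil)) (.cons 10 (.vert 2 (.cons 6 .nil
  .nil)) .nil)))))⟩

noncomputable def e168 : Ent := ⟨3, [⟨0, true, 3, 3, [1, 2, 3]⟩, ⟨1, false, 4, 5, [0, 4]⟩, ⟨2, false, 3, 3,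
  [0, 5, 6]⟩, ⟨3, false, 3, 3, [0, 7, 8]⟩, ⟨4, true, 3, 3, [1, 9, 16]⟩, ⟨5, true, 3, 3, [2, 9,
  10]⟩, ⟨6, true, 4, 4, [2, 11, 12, 13]⟩, ⟨7, true, 3, 3, [3, 14, 15]⟩, ⟨8, true, 3, 5, [3]⟩,
  ⟨9, false, 3, 5, [4, 5]⟩, ⟨10, false, 3, 5, [5]⟩, ⟨11, false, 3, 5, [6]⟩, ⟨12, false, 3, 5,
  [6]⟩, ⟨13, false, 3, 5, [6]⟩, ⟨14, false, 3, 5, [7]⟩, ⟨15, false, 3, 5, [7]⟩, ⟨16, false, 3,
  5, [4]⟩], .cert (.edge 0 1 (.edge 3 8 (.contr 0 .nil) (.vert 0 (.cons 2 .nil .nil))) (.vert 5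
  (.cons 2 .nil (.cons 9 (.vert 2 (.cons 6 (.vert 4 (.cons 16 .nil .nil)) .nil)) (.cons 10
  (.vert 2 (.cons 6 .nil .nil)) .nil)))))⟩

noncomputable def e169 : Ent := ⟨3, [⟨0, true, 3, 3, [1, 2, 3]⟩, ⟨1, false, 4, 5, [0, 4]⟩, ⟨2, false, 3, 3,
  [0, 5, 6]⟩, ⟨3, false, 3, 3, [0, 7, 8]⟩, ⟨4, true, 5, 5, [1]⟩, ⟨5, true, 3, 3, [2, 9, 10]⟩,
  ⟨6, true, 3, 4, [2, 11, 12, 13]⟩, ⟨7, true, 3, 3, [3, 14, 15]⟩, ⟨8, true, 3, 5, [3]⟩, ⟨9,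
  false, 3, 5, [5]⟩, ⟨10, false, 3, 5, [5]⟩, ⟨11, false, 3, 5, [6]⟩, ⟨12, false, 3, 5, [6]⟩,
  ⟨13, false, 3, 5, [6]⟩, ⟨14, false, 3, 5, [7]⟩, ⟨15, false, 3, 5, [7]⟩], .cert (.edge 1 4 .nil
  (.edge 3 8 (.contr 0 .nil) (.vert 0 (.cons 2 .nil .nil))))⟩

noncomputable def e170 : Ent := ⟨3, [⟨0, true, 3, 3, [1, 2, 3]⟩, ⟨1, false, 4, 4, [0, 4, 5, 6]⟩, ⟨2, false, 3,
  3, [0, 7, 8]⟩, ⟨3, false, 3, 3, [0, 9, 10]⟩, ⟨4, true, 3, 5, [1]⟩, ⟨5, true, 3, 5, [1]⟩, ⟨6,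
  true, 3, 5, [1]⟩, ⟨7, true, 3, 3, [2, 11, 12]⟩, ⟨8, true, 4, 5, [2]⟩, ⟨9, true, 3, 3, [3, 13,
  14]⟩, ⟨10, true, 3, 5, [3]⟩, ⟨11, false, 3, 5, [7]⟩, ⟨12, false, 3, 5, [7]⟩, ⟨13, false, 3, 5,
  [9]⟩, ⟨14, false, 3, 5, [9]⟩], .split (.deg 10 (.cons 3 (.fill 10 15 (.fill 10 16 (.emb 137
  false [0, 1, 3, 2, 9, 10, 7, 8, 13, 14, 15, 16, 11, 12]) (.cons 11 (.emb 135 false [0, 1, 3,
  2, 4, 5, 6, 10, 9, 7, 8, 11, 15, 13, 14, 12]) (.cons 12 (.emb 135 false [0, 1, 3, 2, 4, 5, 6,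
  10, 9, 7, 8, 12, 15, 13, 14, 11]) .nil))) (.cons 11 (.fill 10 15 (.emb 135 false [0, 1, 3, 2,
  4, 5, 6, 10, 9, 7, 8, 11, 15, 13, 14, 12]) .nil) (.cons 12 (.fill 10 15 (.emb 135 false [0, 1,
  3, 2, 4, 5, 6, 10, 9, 7, 8, 12, 15, 13, 14, 11]) .nil) .nil))) (.cons 4 (.fill 10 15 (.fill 10
  16 (.fill 10 17 (.emb 161 false [0, 1, 2, 3, 7, 8, 9, 10, 11, 12, 13, 15, 14, 16, 17]) (.cons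
  11 (.emb 166 false [0, 1, 3, 2, 4, 5, 6, 9, 10, 7, 8, 13, 14, 11, 15, 16, 12]) (.cons 12 (.emb
  166 false [0, 1, 3, 2, 4, 5, 6, 9, 10, 7, 8, 13, 14, 12, 15, 16, 11]) .nil))) (.cons 11 (.fill
  10 16 (.emb 166 false [0, 1, 3, 2, 4, 5, 6, 9, 10, 7, 8, 13, 14, 11, 15, 16, 12]) .nil) (.cons
  12 (.fill 10 16 (.emb 166 false [0, 1, 3, 2, 4, 5, 6, 9, 10, 7, 8, 13, 14, 12, 15, 16, 11])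
  .nil) .nil))) (.cons 11 (.fill 10 15 (.fill 10 16 (.emb 166 false [0, 1, 3, 2, 4, 5, 6, 9, 10,
  7, 8, 13, 14, 11, 15, 16, 12]) .nil) .nil) (.cons 12 (.fill 10 15 (.fill 10 16 (.emb 166 false
  [0, 1, 3, 2, 4, 5, 6, 9, 10, 7, 8, 13, 14, 12, 15, 16, 11]) .nil) .nil) .nil))) (.cons 5 (.emb
  53 true [3, 10, 0, 9, 1, 2, 13, 14]) .nil))))⟩

noncomputable def e171 : Ent := ⟨3, [⟨0, true, 3, 3, [1, 2, 3]⟩, ⟨1, false, 4, 5, [0]⟩, ⟨2, false, 3, 3, [0,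
  4, 5]⟩, ⟨3, false, 3, 3, [0, 6, 7]⟩, ⟨4, true, 3, 3, [2, 8, 9]⟩, ⟨5, true, 4, 5, [2]⟩, ⟨6,
  true, 4, 4, [3, 8, 10, 11]⟩, ⟨7, true, 4, 5, [3]⟩, ⟨8, false, 3, 5, [4, 6]⟩, ⟨9, false, 3, 5,
  [4]⟩, ⟨10, false, 3, 5, [6]⟩, ⟨11, false, 3, 5, [6]⟩], .cert (.vert 3 (.cons 0 (.vert 2 (.cons
  4 .nil (.cons 5 .nil .nil))) (.cons 6 (.vert 2 (.cons 0 .nil (.cons 4 (.vert 0 (.cons 1 .nil
  .nil)) (.cons 5 (.vert 0 (.cons 1 .nil .nil)) .nil)))) (.cons 7 .nil .nil))))⟩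

noncomputable def e172 : Ent := ⟨3, [⟨0, true, 3, 3, [1, 2, 3]⟩, ⟨1, false, 4, 4, [0, 4, 5, 6]⟩, ⟨2, false, 3,
  3, [0, 7, 8]⟩, ⟨3, false, 3, 3, [0, 9, 10]⟩, ⟨4, true, 3, 5, [1]⟩, ⟨5, true, 3, 5, [1]⟩, ⟨6,
  true, 3, 5, [1]⟩, ⟨7, true, 3, 3, [2, 11, 12]⟩, ⟨8, true, 4, 5, [2]⟩, ⟨9, true, 4, 4, [3, 11,
  13, 14]⟩, ⟨10, true, 3, 5, [3]⟩, ⟨11, false, 3, 5, [7, 9]⟩, ⟨12, false, 3, 5, [7]⟩, ⟨13,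
  false, 3, 5, [9]⟩, ⟨14, false, 3, 5, [9]⟩], .split (.deg 10 (.cons 3 (.fill 10 15 (.fill 10 16
  (.emb 166 false [0, 1, 3, 2, 4, 5, 6, 10, 9, 7, 8, 15, 16, 11, 13, 14, 12]) (.cons 12 (.emb
  158 false [0, 1, 3, 2, 4, 5, 6, 10, 9, 7, 8, 12, 15, 11, 13, 14]) .nil)) (.cons 12 (.fill 10
  15 (.emb 158 false [0, 1, 3, 2, 4, 5, 6, 10, 9, 7, 8, 12, 15, 11, 13, 14]) .nil) .nil)) (.cons
  4 (.emb 171 false [0, 1, 2, 3, 7, 8, 9, 10, 11, 12, 13, 14]) (.cons 5 (.emb 52 true [3, 10, 9,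
  0]) .nil))))⟩

noncomputable def e173 : Ent := ⟨3, [⟨0, true, 3, 3, [1, 2, 3]⟩, ⟨1, false, 4, 5, [0]⟩, ⟨2, false, 3, 3, [0,
  4, 5]⟩, ⟨3, false, 3, 3, [0, 6, 7]⟩, ⟨4, true, 3, 3, [2, 8, 9]⟩, ⟨5, true, 4, 5, [2, 10, 11,
  12]⟩, ⟨6, true, 4, 4, [3, 10, 13, 14]⟩, ⟨7, true, 3, 5, [3]⟩, ⟨8, false, 3, 5, [4]⟩, ⟨9,
  false, 3, 5, [4]⟩, ⟨10, false, 3, 5, [5, 6]⟩, ⟨11, false, 3, 5, [5]⟩, ⟨12, false, 3, 5, [5]⟩,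
  ⟨13, false, 3, 5, [6]⟩, ⟨14, false, 3, 5, [6]⟩], .split (.deg 7 (.cons 3 (.fill 7 15 (.fill 7
  16 (.emb 161 false [0, 1, 2, 3, 4, 5, 7, 6, 8, 9, 15, 10, 16, 13, 14]) (.cons 8 (.emb 159
  false [0, 1, 2, 3, 4, 5, 7, 6, 8, 9, 10, 11, 12, 15, 13, 14]) (.cons 9 (.emb 159 false [0, 1,
  2, 3, 4, 5, 7, 6, 9, 8, 10, 11, 12, 15, 13, 14]) (.cons 11 (.emb 161 false [0, 1, 2, 3, 4, 5,
  7, 6, 8, 9, 11, 10, 15, 13, 14]) (.cons 12 (.emb 161 false [0, 1, 2, 3, 4, 5, 7, 6, 8, 9, 12,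
  10, 15, 13, 14]) .nil))))) (.cons 8 (.fill 7 15 (.emb 159 false [0, 1, 2, 3, 4, 5, 7, 6, 8, 9,
  10, 11, 12, 15, 13, 14]) (.cons 11 (.emb 157 false [0, 1, 2, 3, 4, 5, 7, 6, 8, 9, 11, 10, 12,
  13, 14]) (.cons 12 (.emb 157 false [0, 1, 2, 3, 4, 5, 7, 6, 8, 9, 12, 10, 11, 13, 14]) .nil)))
  (.cons 9 (.fill 7 15 (.emb 159 false [0, 1, 2, 3, 4, 5, 7, 6, 9, 8, 10, 11, 12, 15, 13, 14])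
  (.cons 11 (.emb 157 false [0, 1, 2, 3, 4, 5, 7, 6, 9, 8, 11, 10, 12, 13, 14]) (.cons 12 (.emb
  157 false [0, 1, 2, 3, 4, 5, 7, 6, 9, 8, 12, 10, 11, 13, 14]) .nil))) (.cons 11 (.fill 7 15
  (.emb 161 false [0, 1, 2, 3, 4, 5, 7, 6, 8, 9, 11, 10, 15, 13, 14]) (.cons 8 (.emb 157 false
  [0, 1, 2, 3, 4, 5, 7, 6, 8, 9, 11, 10, 12, 13, 14]) (.cons 9 (.emb 157 false [0, 1, 2, 3, 4,
  5, 7, 6, 9, 8, 11, 10, 12, 13, 14]) .nil))) (.cons 12 (.fill 7 15 (.emb 161 false [0, 1, 2, 3,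
  4, 5, 7, 6, 8, 9, 12, 10, 15, 13, 14]) (.cons 8 (.emb 157 false [0, 1, 2, 3, 4, 5, 7, 6, 8, 9,
  12, 10, 11, 13, 14]) (.cons 9 (.emb 157 false [0, 1, 2, 3, 4, 5, 7, 6, 9, 8, 12, 10, 11, 13,
  14]) .nil))) .nil))))) (.cons 4 (.fill 7 15 (.fill 7 16 (.fill 7 17 (.emb 148 false [0, 1, 2,
  3, 5, 4, 6, 7, 10, 15, 8, 9, 13, 14, 16, 17]) (.cons 8 (.emb 171 false [0, 1, 2, 3, 4, 5, 7,
  6, 8, 9, 15, 16]) (.cons 9 (.emb 171 false [0, 1, 2, 3, 4, 5, 7, 6, 9, 8, 15, 16]) (.cons 11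
  (.emb 148 false [0, 1, 2, 3, 5, 4, 6, 7, 10, 11, 8, 9, 13, 14, 15, 16]) (.cons 12 (.emb 148
  false [0, 1, 2, 3, 5, 4, 6, 7, 10, 12, 8, 9, 13, 14, 15, 16]) .nil))))) (.cons 8 (.fill 7 16
  (.emb 171 false [0, 1, 2, 3, 4, 5, 7, 6, 8, 9, 15, 16]) (.cons 11 (.emb 171 false [0, 1, 2, 3,
  4, 5, 7, 6, 8, 9, 11, 15]) (.cons 12 (.emb 171 false [0, 1, 2, 3, 4, 5, 7, 6, 8, 9, 12, 15])
  .nil))) (.cons 9 (.fill 7 16 (.emb 171 false [0, 1, 2, 3, 4, 5, 7, 6, 9, 8, 15, 16]) (.cons 11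
  (.emb 171 false [0, 1, 2, 3, 4, 5, 7, 6, 9, 8, 11, 15]) (.cons 12 (.emb 171 false [0, 1, 2, 3,
  4, 5, 7, 6, 9, 8, 12, 15]) .nil))) (.cons 11 (.fill 7 16 (.emb 148 false [0, 1, 2, 3, 5, 4, 6,
  7, 10, 11, 8, 9, 13, 14, 15, 16]) (.cons 8 (.emb 171 false [0, 1, 2, 3, 4, 5, 7, 6, 8, 9, 11,
  15]) (.cons 9 (.emb 171 false [0, 1, 2, 3, 4, 5, 7, 6, 9, 8, 11, 15]) .nil))) (.cons 12 (.fill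
  7 16 (.emb 148 false [0, 1, 2, 3, 5, 4, 6, 7, 10, 12, 8, 9, 13, 14, 15, 16]) (.cons 8 (.emb
  171 false [0, 1, 2, 3, 4, 5, 7, 6, 8, 9, 12, 15]) (.cons 9 (.emb 171 false [0, 1, 2, 3, 4, 5,
  7, 6, 9, 8, 12, 15]) .nil))) .nil))))) (.cons 8 (.fill 7 15 (.fill 7 16 (.emb 171 false [0, 1,
  2, 3, 4, 5, 7, 6, 8, 9, 15, 16]) (.cons 11 (.emb 171 false [0, 1, 2, 3, 4, 5, 7, 6, 8, 9, 11,
  15]) (.cons 12 (.emb 171 false [0, 1, 2, 3, 4, 5, 7, 6, 8, 9, 12, 15]) .nil))) (.cons 11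
  (.fill 7 15 (.emb 171 false [0, 1, 2, 3, 4, 5, 7, 6, 8, 9, 11, 15]) .nil) (.cons 12 (.fill 7
  15 (.emb 171 false [0, 1, 2, 3, 4, 5, 7, 6, 8, 9, 12, 15]) .nil) .nil))) (.cons 9 (.fill 7 15
  (.fill 7 16 (.emb 171 false [0, 1, 2, 3, 4, 5, 7, 6, 9, 8, 15, 16]) (.cons 11 (.emb 171 false
  [0, 1, 2, 3, 4, 5, 7, 6, 9, 8, 11, 15]) (.cons 12 (.emb 171 false [0, 1, 2, 3, 4, 5, 7, 6, 9,
  8, 12, 15]) .nil))) (.cons 11 (.fill 7 15 (.emb 171 false [0, 1, 2, 3, 4, 5, 7, 6, 9, 8, 11,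
  15]) .nil) (.cons 12 (.fill 7 15 (.emb 171 false [0, 1, 2, 3, 4, 5, 7, 6, 9, 8, 12, 15]) .nil)
  .nil))) (.cons 11 (.fill 7 15 (.fill 7 16 (.emb 148 false [0, 1, 2, 3, 5, 4, 6, 7, 10, 11, 8,
  9, 13, 14, 15, 16]) (.cons 8 (.emb 171 false [0, 1, 2, 3, 4, 5, 7, 6, 8, 9, 11, 15]) (.cons 9
  (.emb 171 false [0, 1, 2, 3, 4, 5, 7, 6, 9, 8, 11, 15]) .nil))) (.cons 8 (.fill 7 15 (.emb 171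
  false [0, 1, 2, 3, 4, 5, 7, 6, 8, 9, 11, 15]) .nil) (.cons 9 (.fill 7 15 (.emb 171 false [0,
  1, 2, 3, 4, 5, 7, 6, 9, 8, 11, 15]) .nil) .nil))) (.cons 12 (.fill 7 15 (.fill 7 16 (.emb 148
  false [0, 1, 2, 3, 5, 4, 6, 7, 10, 12, 8, 9, 13, 14, 15, 16]) (.cons 8 (.emb 171 false [0, 1,
  2, 3, 4, 5, 7, 6, 8, 9, 12, 15]) (.cons 9 (.emb 171 false [0, 1, 2, 3, 4, 5, 7, 6, 9, 8, 12,
  15]) .nil))) (.cons 8 (.fill 7 15 (.emb 171 false [0, 1, 2, 3, 4, 5, 7, 6, 8, 9, 12, 15])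
  .nil) (.cons 9 (.fill 7 15 (.emb 171 false [0, 1, 2, 3, 4, 5, 7, 6, 9, 8, 12, 15]) .nil)
  .nil))) .nil))))) (.cons 5 (.emb 52 true [3, 7, 6, 0]) .nil))))⟩

noncomputable def part4 : List Ent := [e151, e152, e153, e154, e155, e156, e157, e158, e159,
  e160, e161, e162, e163, e164, e165, e166, e167, e168, e169, e170, e171, e172, e173]

end Pool.Agent.Helper76.PC
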