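import Pool.Agent.Helper76.PC.Defs

/-! MP_c33217_co: library of reducible configurations, part 5 (machine generated). -/

namespace Pool.Agent.Helper76.PC

noncomputable def e174 : Ent := ⟨3, [⟨0, true, 3, 3, [1, 2, 3]⟩, ⟨1, false, 4, 4, [0, 4, 5, 6]⟩, ⟨2, false, 3,
  3, [0, 7, 8]⟩, ⟨3, false, 3, 3, [0, 9, 10]⟩, ⟨4, true, 3, 5, [1]⟩, ⟨5, true, 3, 5, [1]⟩, ⟨6,
  true, 3, 5, [1]⟩, ⟨7, true, 3, 3, [2, 11, 12]⟩, ⟨8, true, 4, 4, [2, 13, 14, 15]⟩, ⟨9, true, 3,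
  5, [3]⟩, ⟨10, true, 3, 5, [3]⟩, ⟨11, false, 3, 5, [7]⟩, ⟨12, false, 3, 5, [7]⟩, ⟨13, false, 3,
  5, [8]⟩, ⟨14, false, 3, 5, [8]⟩, ⟨15, false, 3, 5, [8]⟩], .split (.deg 9 (.cons 3 (.fill 9 16
  (.fill 9 17 (.emb 170 false [0, 1, 2, 3, 4, 5, 6, 7, 8, 9, 10, 11, 12, 16, 17]) (.cons 11
  (.emb 160 false [0, 1, 2, 3, 4, 5, 6, 7, 8, 9, 10, 11, 12, 13, 14, 15, 16]) (.cons 12 (.emb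
  160 false [0, 1, 2, 3, 4, 5, 6, 7, 8, 9, 10, 12, 11, 13, 14, 15, 16]) (.cons 13 (.emb 166
  false [0, 1, 2, 3, 4, 5, 6, 7, 8, 9, 10, 11, 12, 13, 14, 15, 16]) (.cons 14 (.emb 166 false
  [0, 1, 2, 3, 4, 5, 6, 7, 8, 9, 10, 11, 12, 14, 13, 15, 16]) (.cons 15 (.emb 166 false [0, 1,
  2, 3, 4, 5, 6, 7, 8, 9, 10, 11, 12, 15, 13, 14, 16]) .nil)))))) (.cons 11 (.fill 9 16 (.emb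
  160 false [0, 1, 2, 3, 4, 5, 6, 7, 8, 9, 10, 11, 12, 13, 14, 15, 16]) (.cons 13 (.emb 158
  false [0, 1, 2, 3, 4, 5, 6, 7, 8, 9, 10, 11, 12, 13, 14, 15]) (.cons 14 (.emb 158 false [0, 1,
  2, 3, 4, 5, 6, 7, 8, 9, 10, 11, 12, 14, 13, 15]) (.cons 15 (.emb 158 false [0, 1, 2, 3, 4, 5,
  6, 7, 8, 9, 10, 11, 12, 15, 13, 14]) .nil)))) (.cons 12 (.fill 9 16 (.emb 160 false [0, 1, 2,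
  3, 4, 5, 6, 7, 8, 9, 10, 12, 11, 13, 14, 15, 16]) (.cons 13 (.emb 158 false [0, 1, 2, 3, 4, 5,
  6, 7, 8, 9, 10, 12, 11, 13, 14, 15]) (.cons 14 (.emb 158 false [0, 1, 2, 3, 4, 5, 6, 7, 8, 9,
  10, 12, 11, 14, 13, 15]) (.cons 15 (.emb 158 false [0, 1, 2, 3, 4, 5, 6, 7, 8, 9, 10, 12, 11,
  15, 13, 14]) .nil)))) (.cons 13 (.fill 9 16 (.emb 166 false [0, 1, 2, 3, 4, 5, 6, 7, 8, 9, 10,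
  11, 12, 13, 14, 15, 16]) (.cons 11 (.emb 158 false [0, 1, 2, 3, 4, 5, 6, 7, 8, 9, 10, 11, 12,
  13, 14, 15]) (.cons 12 (.emb 158 false [0, 1, 2, 3, 4, 5, 6, 7, 8, 9, 10, 12, 11, 13, 14, 15])
  .nil))) (.cons 14 (.fill 9 16 (.emb 166 false [0, 1, 2, 3, 4, 5, 6, 7, 8, 9, 10, 11, 12, 14,
  13, 15, 16]) (.cons 11 (.emb 158 false [0, 1, 2, 3, 4, 5, 6, 7, 8, 9, 10, 11, 12, 14, 13, 15])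
  (.cons 12 (.emb 158 false [0, 1, 2, 3, 4, 5, 6, 7, 8, 9, 10, 12, 11, 14, 13, 15]) .nil)))
  (.cons 15 (.fill 9 16 (.emb 166 false [0, 1, 2, 3, 4, 5, 6, 7, 8, 9, 10, 11, 12, 15, 13, 14,
  16]) (.cons 11 (.emb 158 false [0, 1, 2, 3, 4, 5, 6, 7, 8, 9, 10, 11, 12, 15, 13, 14]) (.cons
  12 (.emb 158 false [0, 1, 2, 3, 4, 5, 6, 7, 8, 9, 10, 12, 11, 15, 13, 14]) .nil))) .nil))))))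
  (.cons 4 (.fill 9 16 (.fill 9 17 (.fill 9 18 (.emb 154 false [0, 1, 2, 3, 4, 5, 6, 7, 8, 9,
  10, 11, 12, 13, 14, 15, 16, 17, 18]) (.cons 11 (.emb 172 false [0, 1, 2, 3, 4, 5, 6, 7, 8, 9,
  10, 11, 12, 16, 17]) (.cons 12 (.emb 172 false [0, 1, 2, 3, 4, 5, 6, 7, 8, 9, 10, 12, 11, 16,
  17]) (.cons 13 (.emb 173 false [0, 1, 2, 3, 7, 8, 9, 10, 11, 12, 13, 14, 15, 16, 17]) (.cons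
  14 (.emb 173 false [0, 1, 2, 3, 7, 8, 9, 10, 11, 12, 14, 13, 15, 16, 17]) (.cons 15 (.emb 173
  false [0, 1, 2, 3, 7, 8, 9, 10, 11, 12, 15, 13, 14, 16, 17]) .nil)))))) (.cons 11 (.fill 9 17
  (.emb 172 false [0, 1, 2, 3, 4, 5, 6, 7, 8, 9, 10, 11, 12, 16, 17]) (.cons 13 (.emb 172 false
  [0, 1, 2, 3, 4, 5, 6, 7, 8, 9, 10, 11, 12, 13, 16]) (.cons 14 (.emb 172 false [0, 1, 2, 3, 4,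
  5, 6, 7, 8, 9, 10, 11, 12, 14, 16]) (.cons 15 (.emb 172 false [0, 1, 2, 3, 4, 5, 6, 7, 8, 9,
  10, 11, 12, 15, 16]) .nil)))) (.cons 12 (.fill 9 17 (.emb 172 false [0, 1, 2, 3, 4, 5, 6, 7,
  8, 9, 10, 12, 11, 16, 17]) (.cons 13 (.emb 172 false [0, 1, 2, 3, 4, 5, 6, 7, 8, 9, 10, 12,
  11, 13, 16]) (.cons 14 (.emb 172 false [0, 1, 2, 3, 4, 5, 6, 7, 8, 9, 10, 12, 11, 14, 16])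
  (.cons 15 (.emb 172 false [0, 1, 2, 3, 4, 5, 6, 7, 8, 9, 10, 12, 11, 15, 16]) .nil)))) (.cons
  13 (.fill 9 17 (.emb 173 false [0, 1, 2, 3, 7, 8, 9, 10, 11, 12, 13, 14, 15, 16, 17]) (.cons
  11 (.emb 172 false [0, 1, 2, 3, 4, 5, 6, 7, 8, 9, 10, 11, 12, 13, 16]) (.cons 12 (.emb 172
  false [0, 1, 2, 3, 4, 5, 6, 7, 8, 9, 10, 12, 11, 13, 16]) .nil))) (.cons 14 (.fill 9 17 (.emb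
  173 false [0, 1, 2, 3, 7, 8, 9, 10, 11, 12, 14, 13, 15, 16, 17]) (.cons 11 (.emb 172 false [0,
  1, 2, 3, 4, 5, 6, 7, 8, 9, 10, 11, 12, 14, 16]) (.cons 12 (.emb 172 false [0, 1, 2, 3, 4, 5,
  6, 7, 8, 9, 10, 12, 11, 14, 16]) .nil))) (.cons 15 (.fill 9 17 (.emb 173 false [0, 1, 2, 3, 7,
  8, 9, 10, 11, 12, 15, 13, 14, 16, 17]) (.cons 11 (.emb 172 false [0, 1, 2, 3, 4, 5, 6, 7, 8,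
  9, 10, 11, 12, 15, 16]) (.cons 12 (.emb 172 false [0, 1, 2, 3, 4, 5, 6, 7, 8, 9, 10, 12, 11,
  15, 16]) .nil))) .nil)))))) (.cons 11 (.fill 9 16 (.fill 9 17 (.emb 172 false [0, 1, 2, 3, 4,
  5, 6, 7, 8, 9, 10, 11, 12, 16, 17]) (.cons 13 (.emb 172 false [0, 1, 2, 3, 4, 5, 6, 7, 8, 9,
  10, 11, 12, 13, 16]) (.cons 14 (.emb 172 false [0, 1, 2, 3, 4, 5, 6, 7, 8, 9, 10, 11, 12, 14,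
  16]) (.cons 15 (.emb 172 false [0, 1, 2, 3, 4, 5, 6, 7, 8, 9, 10, 11, 12, 15, 16]) .nil))))
  (.cons 13 (.fill 9 16 (.emb 172 false [0, 1, 2, 3, 4, 5, 6, 7, 8, 9, 10, 11, 12, 13, 16])
  .nil) (.cons 14 (.fill 9 16 (.emb 172 false [0, 1, 2, 3, 4, 5, 6, 7, 8, 9, 10, 11, 12, 14,
  16]) .nil) (.cons 15 (.fill 9 16 (.emb 172 false [0, 1, 2, 3, 4, 5, 6, 7, 8, 9, 10, 11, 12,
  15, 16]) .nil) .nil)))) (.cons 12 (.fill 9 16 (.fill 9 17 (.emb 172 false [0, 1, 2, 3, 4, 5,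
  6, 7, 8, 9, 10, 12, 11, 16, 17]) (.cons 13 (.emb 172 false [0, 1, 2, 3, 4, 5, 6, 7, 8, 9, 10,
  12, 11, 13, 16]) (.cons 14 (.emb 172 false [0, 1, 2, 3, 4, 5, 6, 7, 8, 9, 10, 12, 11, 14, 16])
  (.cons 15 (.emb 172 false [0, 1, 2, 3, 4, 5, 6, 7, 8, 9, 10, 12, 11, 15, 16]) .nil)))) (.cons
  13 (.fill 9 16 (.emb 172 false [0, 1, 2, 3, 4, 5, 6, 7, 8, 9, 10, 12, 11, 13, 16]) .nil)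
  (.cons 14 (.fill 9 16 (.emb 172 false [0, 1, 2, 3, 4, 5, 6, 7, 8, 9, 10, 12, 11, 14, 16])
  .nil) (.cons 15 (.fill 9 16 (.emb 172 false [0, 1, 2, 3, 4, 5, 6, 7, 8, 9, 10, 12, 11, 15,
  16]) .nil) .nil)))) (.cons 13 (.fill 9 16 (.fill 9 17 (.emb 173 false [0, 1, 2, 3, 7, 8, 9,
  10, 11, 12, 13, 14, 15, 16, 17]) (.cons 11 (.emb 172 false [0, 1, 2, 3, 4, 5, 6, 7, 8, 9, 10,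
  11, 12, 13, 16]) (.cons 12 (.emb 172 false [0, 1, 2, 3, 4, 5, 6, 7, 8, 9, 10, 12, 11, 13, 16])
  .nil))) (.cons 11 (.fill 9 16 (.emb 172 false [0, 1, 2, 3, 4, 5, 6, 7, 8, 9, 10, 11, 12, 13,
  16]) .nil) (.cons 12 (.fill 9 16 (.emb 172 false [0, 1, 2, 3, 4, 5, 6, 7, 8, 9, 10, 12, 11,
  13, 16]) .nil) .nil))) (.cons 14 (.fill 9 16 (.fill 9 17 (.emb 173 false [0, 1, 2, 3, 7, 8, 9,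
  10, 11, 12, 14, 13, 15, 16, 17]) (.cons 11 (.emb 172 false [0, 1, 2, 3, 4, 5, 6, 7, 8, 9, 10,
  11, 12, 14, 16]) (.cons 12 (.emb 172 false [0, 1, 2, 3, 4, 5, 6, 7, 8, 9, 10, 12, 11, 14, 16])
  .nil))) (.cons 11 (.fill 9 16 (.emb 172 false [0, 1, 2, 3, 4, 5, 6, 7, 8, 9, 10, 11, 12, 14,
  16]) .nil) (.cons 12 (.fill 9 16 (.emb 172 false [0, 1, 2, 3, 4, 5, 6, 7, 8, 9, 10, 12, 11,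
  14, 16]) .nil) .nil))) (.cons 15 (.fill 9 16 (.fill 9 17 (.emb 173 false [0, 1, 2, 3, 7, 8, 9,
  10, 11, 12, 15, 13, 14, 16, 17]) (.cons 11 (.emb 172 false [0, 1, 2, 3, 4, 5, 6, 7, 8, 9, 10,
  11, 12, 15, 16]) (.cons 12 (.emb 172 false [0, 1, 2, 3, 4, 5, 6, 7, 8, 9, 10, 12, 11, 15, 16])
  .nil))) (.cons 11 (.fill 9 16 (.emb 172 false [0, 1, 2, 3, 4, 5, 6, 7, 8, 9, 10, 11, 12, 15,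
  16]) .nil) (.cons 12 (.fill 9 16 (.emb 172 false [0, 1, 2, 3, 4, 5, 6, 7, 8, 9, 10, 12, 11,
  15, 16]) .nil) .nil))) .nil)))))) (.cons 5 (.emb 61 true [3, 9, 0, 10, 1, 2]) .nil))))⟩

noncomputable def e175 : Ent := ⟨3, [⟨0, true, 3, 3, [1, 2, 3]⟩, ⟨1, false, 4, 4, [0, 4, 5, 6]⟩, ⟨2, false, 3,
  3, [0, 7, 8]⟩, ⟨3, false, 3, 3, [0, 9, 10]⟩, ⟨4, true, 3, 5, [1]⟩, ⟨5, true, 3, 5, [1]⟩, ⟨6,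
  true, 3, 5, [1]⟩, ⟨7, true, 3, 3, [2, 11, 12]⟩, ⟨8, true, 3, 5, [2]⟩, ⟨9, true, 3, 5, [3]⟩,
  ⟨10, true, 3, 5, [3]⟩, ⟨11, false, 3, 5, [7]⟩, ⟨12, false, 3, 5, [7]⟩], .split (.deg 8 (.cons
  3 (.fill 8 13 (.fill 8 14 (.emb 153 false [0, 1, 2, 3, 4, 5, 6, 7, 8, 9, 10, 11, 12, 13, 14])
  .nil) .nil) (.cons 4 (.fill 8 13 (.fill 8 14 (.fill 8 15 (.emb 174 false [0, 1, 2, 3, 4, 5, 6,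
  7, 8, 9, 10, 11, 12, 13, 14, 15]) .nil) .nil) .nil) (.cons 5 (.emb 53 true [2, 8, 0, 7, 1, 3,
  11, 12]) .nil))))⟩

noncomputable def e176 : Ent := ⟨3, [⟨0, true, 3, 3, [1, 2, 3]⟩, ⟨1, false, 4, 5, [0]⟩, ⟨2, false, 3, 3, [0,
  4, 5]⟩, ⟨3, false, 3, 3, [0, 6, 7]⟩, ⟨4, true, 4, 5, [2, 8, 9, 10]⟩, ⟨5, true, 4, 5, [2, 11,
  12, 13]⟩, ⟨6, true, 4, 5, [3]⟩, ⟨7, true, 3, 5, [3]⟩, ⟨8, false, 3, 5, [4]⟩, ⟨9, false, 3, 5,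
  [4]⟩, ⟨10, false, 3, 5, [4]⟩, ⟨11, false, 3, 5, [5]⟩, ⟨12, false, 3, 5, [5]⟩, ⟨13, false, 3,
  5, [5]⟩], .cert (.vert 0 (.cons 1 (.vert 2 (.cons 4 .nil (.cons 5 .nil .nil))) (.cons 2 (.vert
  3 (.cons 6 .nil (.cons 7 .nil .nil))) (.cons 3 (.vert 2 (.cons 4 .nil (.cons 5 .nil .nil)))
  .nil))))⟩

noncomputable def e177 : Ent := ⟨3, [⟨0, true, 3, 3, [1, 2, 3]⟩, ⟨1, false, 4, 4, [0, 4, 5, 6]⟩, ⟨2, false, 3,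
  3, [0, 7, 8]⟩, ⟨3, false, 3, 3, [0, 9, 10]⟩, ⟨4, true, 3, 5, [1]⟩, ⟨5, true, 3, 5, [1]⟩, ⟨6,
  true, 3, 5, [1]⟩, ⟨7, true, 4, 5, [2, 11, 12, 13]⟩, ⟨8, true, 4, 5, [2, 14, 15, 16]⟩, ⟨9,
  true, 3, 5, [3]⟩, ⟨10, true, 3, 5, [3]⟩, ⟨11, false, 3, 5, [7]⟩, ⟨12, false, 3, 5, [7]⟩, ⟨13,
  false, 3, 5, [7]⟩, ⟨14, false, 3, 5, [8]⟩, ⟨15, false, 3, 5, [8]⟩, ⟨16, false, 3, 5, [8]⟩],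
  .split (.deg 9 (.cons 3 (.fill 9 17 (.fill 9 18 (.emb 175 false [0, 1, 3, 2, 4, 5, 6, 9, 10,
  7, 8, 17, 18]) (.cons 11 (.emb 175 false [0, 1, 3, 2, 4, 5, 6, 9, 10, 7, 8, 11, 17]) (.cons 12
  (.emb 175 false [0, 1, 3, 2, 4, 5, 6, 9, 10, 7, 8, 12, 17]) (.cons 13 (.emb 175 false [0, 1,
  3, 2, 4, 5, 6, 9, 10, 7, 8, 13, 17]) (.cons 14 (.emb 175 false [0, 1, 3, 2, 4, 5, 6, 9, 10, 7,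
  8, 14, 17]) (.cons 15 (.emb 175 false [0, 1, 3, 2, 4, 5, 6, 9, 10, 7, 8, 15, 17]) (.cons 16
  (.emb 175 false [0, 1, 3, 2, 4, 5, 6, 9, 10, 7, 8, 16, 17]) .nil))))))) (.cons 11 (.fill 9 17
  (.emb 175 false [0, 1, 3, 2, 4, 5, 6, 9, 10, 7, 8, 11, 17]) (.cons 14 (.emb 175 false [0, 1,
  3, 2, 4, 5, 6, 9, 10, 7, 8, 11, 14]) (.cons 15 (.emb 175 false [0, 1, 3, 2, 4, 5, 6, 9, 10, 7,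
  8, 11, 15]) (.cons 16 (.emb 175 false [0, 1, 3, 2, 4, 5, 6, 9, 10, 7, 8, 11, 16]) .nil))))
  (.cons 12 (.fill 9 17 (.emb 175 false [0, 1, 3, 2, 4, 5, 6, 9, 10, 7, 8, 12, 17]) (.cons 14
  (.emb 175 false [0, 1, 3, 2, 4, 5, 6, 9, 10, 7, 8, 12, 14]) (.cons 15 (.emb 175 false [0, 1,
  3, 2, 4, 5, 6, 9, 10, 7, 8, 12, 15]) (.cons 16 (.emb 175 false [0, 1, 3, 2, 4, 5, 6, 9, 10, 7,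
  8, 12, 16]) .nil)))) (.cons 13 (.fill 9 17 (.emb 175 false [0, 1, 3, 2, 4, 5, 6, 9, 10, 7, 8,
  13, 17]) (.cons 14 (.emb 175 false [0, 1, 3, 2, 4, 5, 6, 9, 10, 7, 8, 13, 14]) (.cons 15 (.emb
  175 false [0, 1, 3, 2, 4, 5, 6, 9, 10, 7, 8, 13, 15]) (.cons 16 (.emb 175 false [0, 1, 3, 2,
  4, 5, 6, 9, 10, 7, 8, 13, 16]) .nil)))) (.cons 14 (.fill 9 17 (.emb 175 false [0, 1, 3, 2, 4,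
  5, 6, 9, 10, 7, 8, 14, 17]) (.cons 11 (.emb 175 false [0, 1, 3, 2, 4, 5, 6, 9, 10, 7, 8, 11,
  14]) (.cons 12 (.emb 175 false [0, 1, 3, 2, 4, 5, 6, 9, 10, 7, 8, 12, 14]) (.cons 13 (.emb 175
  false [0, 1, 3, 2, 4, 5, 6, 9, 10, 7, 8, 13, 14]) .nil)))) (.cons 15 (.fill 9 17 (.emb 175
  false [0, 1, 3, 2, 4, 5, 6, 9, 10, 7, 8, 15, 17]) (.cons 11 (.emb 175 false [0, 1, 3, 2, 4, 5,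
  6, 9, 10, 7, 8, 11, 15]) (.cons 12 (.emb 175 false [0, 1, 3, 2, 4, 5, 6, 9, 10, 7, 8, 12, 15])
  (.cons 13 (.emb 175 false [0, 1, 3, 2, 4, 5, 6, 9, 10, 7, 8, 13, 15]) .nil)))) (.cons 16
  (.fill 9 17 (.emb 175 false [0, 1, 3, 2, 4, 5, 6, 9, 10, 7, 8, 16, 17]) (.cons 11 (.emb 175
  false [0, 1, 3, 2, 4, 5, 6, 9, 10, 7, 8, 11, 16]) (.cons 12 (.emb 175 false [0, 1, 3, 2, 4, 5,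
  6, 9, 10, 7, 8, 12, 16]) (.cons 13 (.emb 175 false [0, 1, 3, 2, 4, 5, 6, 9, 10, 7, 8, 13, 16])
  .nil)))) .nil))))))) (.cons 4 (.emb 176 false [0, 1, 2, 3, 7, 8, 9, 10, 11, 12, 13, 14, 15,
  16]) (.cons 5 (.emb 61 true [3, 9, 0, 10, 1, 2]) .nil))))⟩

noncomputable def e178 : Ent := ⟨3, [⟨0, true, 3, 3, [1, 2, 3]⟩, ⟨1, false, 4, 4, [0, 4, 5, 6]⟩, ⟨2, false, 3,
  3, [0, 7, 8]⟩, ⟨3, false, 3, 3, [0, 9, 10]⟩, ⟨4, true, 3, 5, [1]⟩, ⟨5, true, 3, 5, [1]⟩, ⟨6,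
  true, 3, 5, [1]⟩, ⟨7, true, 4, 5, [2, 11, 12, 13]⟩, ⟨8, true, 3, 5, [2]⟩, ⟨9, true, 3, 5,
  [3]⟩, ⟨10, true, 3, 5, [3]⟩, ⟨11, false, 3, 5, [7]⟩, ⟨12, false, 3, 5, [7]⟩, ⟨13, false, 3, 5,
  [7]⟩], .split (.deg 8 (.cons 3 (.fill 8 14 (.fill 8 15 (.emb 175 false [0, 1, 2, 3, 4, 5, 6,
  8, 7, 9, 10, 14, 15]) .nil) .nil) (.cons 4 (.fill 8 14 (.fill 8 15 (.fill 8 16 (.emb 177 false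
  [0, 1, 2, 3, 4, 5, 6, 7, 8, 9, 10, 11, 12, 13, 14, 15, 16]) .nil) .nil) .nil) (.cons 5 (.emb
  52 true [2, 8, 7, 0]) .nil))))⟩

noncomputable def e179 : Ent := ⟨3, [⟨0, true, 3, 3, [1, 2, 3]⟩, ⟨1, false, 4, 4, [0, 4, 5, 6]⟩, ⟨2, false, 3,
  3, [0, 7, 8]⟩, ⟨3, false, 3, 3, [0, 9, 10]⟩, ⟨4, true, 3, 5, [1]⟩, ⟨5, true, 3, 5, [1]⟩, ⟨6,
  true, 3, 5, [1]⟩, ⟨7, true, 3, 5, [2]⟩, ⟨8, true, 3, 5, [2]⟩, ⟨9, true, 3, 5, [3]⟩, ⟨10, true,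
  3, 5, [3]⟩], .split (.deg 7 (.cons 3 (.fill 7 11 (.fill 7 12 (.emb 175 false [0, 1, 2, 3, 4,
  5, 6, 7, 8, 9, 10, 11, 12]) .nil) .nil) (.cons 4 (.fill 7 11 (.fill 7 12 (.fill 7 13 (.emb 178
  false [0, 1, 2, 3, 4, 5, 6, 7, 8, 9, 10, 11, 12, 13]) .nil) .nil) .nil) (.cons 5 (.emb 61 true
  [2, 7, 0, 8, 1, 3]) .nil))))⟩

noncomputable def e180 : Ent := ⟨3, [⟨0, true, 3, 3, [1, 2, 3]⟩, ⟨1, false, 4, 5, [0, 4]⟩, ⟨2, false, 3, 5,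
  [0]⟩, ⟨3, false, 4, 5, [0]⟩, ⟨4, true, 5, 5, [1, 5, 6, 7, 8]⟩, ⟨5, false, 3, 5, [4]⟩, ⟨6,
  false, 3, 5, [4]⟩, ⟨7, false, 3, 5, [4]⟩, ⟨8, false, 3, 5, [4]⟩], .cert (.edge 1 4 .nil (.vert
  0 (.cons 2 .nil (.cons 3 .nil .nil))))⟩

noncomputable def e181 : Ent := ⟨3, [⟨0, true, 3, 3, [1, 2, 3]⟩, ⟨1, false, 4, 4, [0, 4, 5, 6]⟩, ⟨2, false, 3,
  3, [0, 7, 8]⟩, ⟨3, false, 4, 5, [0]⟩, ⟨4, true, 3, 3, [1, 9, 10]⟩, ⟨5, true, 3, 3, [1, 11,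
  12]⟩, ⟨6, true, 3, 3, [1, 13, 14]⟩, ⟨7, true, 3, 3, [2, 15, 16]⟩, ⟨8, true, 3, 5, [2]⟩, ⟨9,
  false, 3, 5, [4]⟩, ⟨10, false, 3, 5, [4]⟩, ⟨11, false, 3, 5, [5]⟩, ⟨12, false, 3, 5, [5]⟩,
  ⟨13, false, 3, 5, [6]⟩, ⟨14, false, 3, 5, [6]⟩, ⟨15, false, 3, 5, [7]⟩, ⟨16, false, 3, 5,
  [7]⟩], .cert (.edge 0 3 (.edge 2 8 (.contr 0 .nil) (.vert 0 (.cons 1 .nil .nil))) .nil)⟩

noncomputable def e182 : Ent := ⟨3, [⟨0, true, 3, 3, [1, 2, 3]⟩, ⟨1, false, 4, 4, [0, 4, 5, 6]⟩, ⟨2, false, 3,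
  3, [0, 7, 8]⟩, ⟨3, false, 4, 5, [0]⟩, ⟨4, true, 3, 3, [1, 9, 10]⟩, ⟨5, true, 3, 3, [1, 11,
  12]⟩, ⟨6, true, 3, 3, [1, 13, 14]⟩, ⟨7, true, 3, 4, [2, 15, 16, 17]⟩, ⟨8, true, 3, 5, [2]⟩,
  ⟨9, false, 3, 5, [4]⟩, ⟨10, false, 3, 5, [4]⟩, ⟨11, false, 3, 5, [5]⟩, ⟨12, false, 3, 5, [5]⟩,
  ⟨13, false, 3, 5, [6]⟩, ⟨14, false, 3, 5, [6]⟩, ⟨15, false, 3, 5, [7]⟩, ⟨16, false, 3, 5,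
  [7]⟩, ⟨17, false, 3, 5, [7]⟩], .cert (.edge 0 3 (.edge 2 8 (.contr 0 .nil) (.vert 0 (.cons 1
  .nil .nil))) .nil)⟩

noncomputable def e183 : Ent := ⟨3, [⟨0, true, 3, 3, [1, 2, 3]⟩, ⟨1, false, 4, 4, [0, 4, 5, 6]⟩, ⟨2, false, 3,
  3, [0, 7, 8]⟩, ⟨3, false, 4, 4, [0, 9, 10, 11]⟩, ⟨4, true, 3, 3, [1, 12, 13]⟩, ⟨5, true, 3, 3,
  [1, 14, 15]⟩, ⟨6, true, 3, 5, [1]⟩, ⟨7, true, 3, 3, [2, 12, 14]⟩, ⟨8, true, 3, 5, [2, 13]⟩,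
  ⟨9, true, 3, 5, [3, 12]⟩, ⟨10, true, 3, 5, [3, 13]⟩, ⟨11, true, 3, 5, [3]⟩, ⟨12, false, 3, 3,
  [4, 7, 9]⟩, ⟨13, false, 4, 4, [4, 8, 10, 16]⟩, ⟨14, false, 3, 5, [5, 7]⟩, ⟨15, false, 3, 5,
  [5]⟩, ⟨16, true, 3, 5, [13]⟩], .cert (.vert 7 (.cons 2 (.vert 0 (.cons 1 (.vert 4 (.cons 12
  .nil (.cons 13 (.vert 12 (.cons 9 .nil .nil)) .nil))) (.cons 3 .nil .nil))) (.cons 12 (.vert 4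
  (.cons 1 (.vert 0 (.cons 2 .nil (.cons 3 (.vert 2 (.cons 8 .nil .nil)) .nil))) (.cons 13 .nil
  .nil))) (.cons 14 (.vert 5 (.cons 1 .nil (.cons 15 .nil .nil))) .nil))))⟩

noncomputable def e184 : Ent := ⟨3, [⟨0, true, 3, 3, [1, 2, 3]⟩, ⟨1, false, 4, 4, [0, 4, 5, 6]⟩, ⟨2, false, 3,
  3, [0, 7, 8]⟩, ⟨3, false, 4, 4, [0, 9, 10, 11]⟩, ⟨4, true, 3, 3, [1, 12, 13]⟩, ⟨5, true, 3, 5,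
  [1]⟩, ⟨6, true, 3, 5, [1]⟩, ⟨7, true, 4, 5, [2, 12]⟩, ⟨8, true, 3, 5, [2]⟩, ⟨9, true, 3, 5,
  [3, 12]⟩, ⟨10, true, 3, 5, [3, 13]⟩, ⟨11, true, 3, 5, [3]⟩, ⟨12, false, 3, 3, [4, 7, 9]⟩, ⟨13,
  false, 3, 5, [4, 10, 14]⟩, ⟨14, true, 3, 5, [13]⟩], .cert (.vert 0 (.cons 1 (.vert 12 (.cons 4
  .nil (.cons 7 (.vert 2 (.cons 8 (.vert 4 (.cons 13 .nil .nil)) .nil)) (.cons 9 (.vert 4 (.cons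
  13 .nil .nil)) .nil)))) (.cons 2 .nil (.cons 3 (.vert 2 (.cons 7 .nil (.cons 8 .nil .nil)))
  .nil))))⟩

noncomputable def e185 : Ent := ⟨3, [⟨0, true, 3, 3, [1, 2, 3]⟩, ⟨1, false, 4, 4, [0, 4, 5, 6]⟩, ⟨2, false, 3,
  3, [0, 7, 8]⟩, ⟨3, false, 4, 5, [0]⟩, ⟨4, true, 3, 3, [1, 11, 12]⟩, ⟨5, true, 3, 5, [1]⟩, ⟨6,
  true, 3, 5, [1]⟩, ⟨7, true, 3, 5, [2, 11]⟩, ⟨8, true, 3, 3, [2, 12, 13]⟩, ⟨9, true, 3, 5,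
  [11]⟩, ⟨10, true, 3, 5, [12]⟩, ⟨11, false, 3, 3, [4, 7, 9]⟩, ⟨12, false, 4, 5, [4, 8, 10,
  14]⟩, ⟨13, false, 3, 5, [8]⟩, ⟨14, true, 3, 5, [12]⟩], .cert (.vert 0 (.cons 1 (.vert 11
  (.cons 4 .nil (.cons 7 (.vert 2 (.cons 8 (.vert 4 (.cons 12 .nil .nil)) .nil)) (.cons 9 (.vert
  4 (.cons 12 .nil .nil)) .nil)))) (.cons 2 (.vert 8 (.cons 12 .nil (.cons 13 .nil .nil)))
  (.cons 3 .nil .nil))))⟩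

noncomputable def e186 : Ent := ⟨3, [⟨0, true, 3, 3, [1, 2, 3]⟩, ⟨1, false, 4, 4, [0, 4, 5, 6]⟩, ⟨2, false, 3,
  3, [0, 7, 8]⟩, ⟨3, false, 4, 4, [0, 9, 10, 11]⟩, ⟨4, true, 3, 3, [1, 12, 13]⟩, ⟨5, true, 3, 5,
  [1]⟩, ⟨6, true, 3, 5, [1]⟩, ⟨7, true, 3, 5, [2, 12]⟩, ⟨8, true, 4, 5, [2]⟩, ⟨9, true, 3, 5,
  [3, 12]⟩, ⟨10, true, 3, 5, [3, 13]⟩, ⟨11, true, 3, 5, [3]⟩, ⟨12, false, 3, 3, [4, 7, 9]⟩, ⟨13,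
  false, 3, 5, [4, 10, 14]⟩, ⟨14, true, 3, 5, [13]⟩], .cert (.vert 0 (.cons 1 (.vert 12 (.cons 4
  .nil (.cons 7 (.vert 2 (.cons 8 (.vert 4 (.cons 13 .nil .nil)) .nil)) (.cons 9 (.vert 4 (.cons
  13 .nil .nil)) .nil)))) (.cons 2 .nil (.cons 3 (.vert 2 (.cons 7 .nil (.cons 8 .nil .nil)))
  .nil))))⟩

noncomputable def e187 : Ent := ⟨3, [⟨0, true, 3, 3, [1, 2, 3]⟩, ⟨1, false, 4, 4, [0, 4, 5, 6]⟩, ⟨2, false, 3,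
  3, [0, 7, 8]⟩, ⟨3, false, 4, 4, [0, 9, 10, 11]⟩, ⟨4, true, 3, 3, [1, 12, 13]⟩, ⟨5, true, 3, 5,
  [1]⟩, ⟨6, true, 3, 5, [1]⟩, ⟨7, true, 3, 5, [2, 12]⟩, ⟨8, true, 3, 5, [2, 13]⟩, ⟨9, true, 3,
  5, [3, 12]⟩, ⟨10, true, 3, 5, [3, 13]⟩, ⟨11, true, 3, 5, [3]⟩, ⟨12, false, 3, 3, [4, 7, 9]⟩,
  ⟨13, false, 4, 5, [4, 8, 10, 14]⟩, ⟨14, true, 3, 5, [13]⟩], .split (.deg 8 (.cons 3 (.fill 8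
  15 (.emb 185 false [0, 1, 2, 3, 4, 5, 6, 7, 8, 9, 10, 12, 13, 15, 14]) .nil) (.cons 4 (.emb
  186 false [0, 1, 2, 3, 4, 5, 6, 7, 8, 9, 10, 11, 12, 13, 14]) (.cons 5 (.emb 61 true [2, 8, 0,
  7, 1, 3]) .nil))))⟩

noncomputable def e188 : Ent := ⟨3, [⟨0, true, 3, 3, [1, 2, 3]⟩, ⟨1, false, 4, 4, [0, 4, 5, 6]⟩, ⟨2, false, 3,
  3, [0, 7, 8]⟩, ⟨3, false, 4, 4, [0, 9, 10, 11]⟩, ⟨4, true, 3, 3, [1, 12, 13]⟩, ⟨5, true, 3, 3,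
  [1, 14, 15]⟩, ⟨6, true, 3, 5, [1]⟩, ⟨7, true, 3, 3, [2, 12, 14]⟩, ⟨8, true, 3, 5, [2, 13]⟩,
  ⟨9, true, 3, 5, [3, 12]⟩, ⟨10, true, 3, 5, [3]⟩, ⟨11, true, 3, 5, [3]⟩, ⟨12, false, 3, 3, [4,
  7, 9]⟩, ⟨13, false, 4, 4, [4, 8, 16, 17]⟩, ⟨14, false, 3, 5, [5, 7]⟩, ⟨15, false, 3, 5, [5]⟩,
  ⟨16, true, 3, 5, [13]⟩, ⟨17, true, 3, 5, [13]⟩], .cert (.vert 7 (.cons 2 (.vert 0 (.cons 1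
  (.vert 4 (.cons 12 .nil (.cons 13 (.vert 12 (.cons 9 .nil .nil)) .nil))) (.cons 3 .nil .nil)))
  (.cons 12 (.vert 4 (.cons 1 (.vert 0 (.cons 2 .nil (.cons 3 (.vert 2 (.cons 8 .nil .nil))
  .nil))) (.cons 13 .nil .nil))) (.cons 14 (.vert 5 (.cons 1 .nil (.cons 15 .nil .nil)))
  .nil))))⟩

noncomputable def e189 : Ent := ⟨3, [⟨0, true, 3, 3, [1, 2, 3]⟩, ⟨1, false, 4, 4, [0, 4, 5, 6]⟩, ⟨2, false, 3,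
  3, [0, 7, 8]⟩, ⟨3, false, 4, 4, [0, 9, 10, 11]⟩, ⟨4, true, 3, 3, [1, 12, 13]⟩, ⟨5, true, 3, 5,
  [1]⟩, ⟨6, true, 3, 5, [1]⟩, ⟨7, true, 4, 5, [2, 12]⟩, ⟨8, true, 3, 5, [2]⟩, ⟨9, true, 3, 5,
  [3, 12]⟩, ⟨10, true, 3, 5, [3]⟩, ⟨11, true, 3, 5, [3]⟩, ⟨12, false, 3, 3, [4, 7, 9]⟩, ⟨13,
  false, 3, 5, [4, 14, 15]⟩, ⟨14, true, 3, 5, [13]⟩, ⟨15, true, 3, 5, [13]⟩], .cert (.vert 0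
  (.cons 1 (.vert 12 (.cons 4 .nil (.cons 7 (.vert 2 (.cons 8 (.vert 4 (.cons 13 .nil .nil))
  .nil)) (.cons 9 (.vert 4 (.cons 13 .nil .nil)) .nil)))) (.cons 2 .nil (.cons 3 (.vert 2 (.cons
  7 .nil (.cons 8 .nil .nil))) .nil))))⟩

noncomputable def e190 : Ent := ⟨3, [⟨0, true, 3, 3, [1, 2, 3]⟩, ⟨1, false, 4, 4, [0, 4, 5, 6]⟩, ⟨2, false, 3,
  3, [0, 7, 8]⟩, ⟨3, false, 4, 4, [0, 9, 10, 11]⟩, ⟨4, true, 3, 3, [1, 12, 13]⟩, ⟨5, true, 3, 5,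
  [1]⟩, ⟨6, true, 3, 5, [1]⟩, ⟨7, true, 3, 5, [2, 12]⟩, ⟨8, true, 4, 5, [2]⟩, ⟨9, true, 3, 5,
  [3, 12]⟩, ⟨10, true, 3, 5, [3]⟩, ⟨11, true, 3, 5, [3]⟩, ⟨12, false, 3, 3, [4, 7, 9]⟩, ⟨13,
  false, 3, 5, [4, 14, 15]⟩, ⟨14, true, 3, 5, [13]⟩, ⟨15, true, 3, 5, [13]⟩], .cert (.vert 0
  (.cons 1 (.vert 12 (.cons 4 .nil (.cons 7 (.vert 2 (.cons 8 (.vert 4 (.cons 13 .nil .nil))
  .nil)) (.cons 9 (.vert 4 (.cons 13 .nil .nil)) .nil)))) (.cons 2 .nil (.cons 3 (.vert 2 (.cons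
  7 .nil (.cons 8 .nil .nil))) .nil))))⟩

noncomputable def e191 : Ent := ⟨3, [⟨0, true, 3, 3, [1, 2, 3]⟩, ⟨1, false, 4, 4, [0, 4, 5, 6]⟩, ⟨2, false, 3,
  3, [0, 7, 8]⟩, ⟨3, false, 4, 4, [0, 9, 10, 11]⟩, ⟨4, true, 3, 3, [1, 12, 13]⟩, ⟨5, true, 3, 5,
  [1]⟩, ⟨6, true, 3, 5, [1]⟩, ⟨7, true, 3, 5, [2, 12]⟩, ⟨8, true, 3, 5, [2, 13]⟩, ⟨9, true, 3,
  5, [3, 12]⟩, ⟨10, true, 3, 5, [3]⟩, ⟨11, true, 3, 5, [3]⟩, ⟨12, false, 3, 3, [4, 7, 9]⟩, ⟨13,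
  false, 4, 5, [4, 8, 14, 15]⟩, ⟨14, true, 3, 5, [13]⟩, ⟨15, true, 3, 5, [13]⟩], .split (.deg 8
  (.cons 3 (.fill 8 16 (.emb 185 false [0, 1, 2, 3, 4, 5, 6, 7, 8, 9, 14, 12, 13, 16, 15]) .nil)
  (.cons 4 (.emb 190 false [0, 1, 2, 3, 4, 5, 6, 7, 8, 9, 10, 11, 12, 13, 14, 15]) (.cons 5
  (.emb 61 true [2, 8, 0, 7, 1, 3]) .nil))))⟩

noncomputable def e192 : Ent := ⟨3, [⟨0, true, 3, 3, [1, 2, 3]⟩, ⟨1, false, 4, 4, [0, 4, 5, 6]⟩, ⟨2, false, 3,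
  3, [0, 7, 8]⟩, ⟨3, false, 4, 4, [0, 9, 10, 11]⟩, ⟨4, true, 3, 3, [1, 12, 13]⟩, ⟨5, true, 3, 3,
  [1, 14, 15]⟩, ⟨6, true, 3, 5, [1]⟩, ⟨7, true, 3, 3, [2, 12, 14]⟩, ⟨8, true, 3, 5, [2]⟩, ⟨9,
  true, 3, 5, [3, 12]⟩, ⟨10, true, 3, 5, [3, 13]⟩, ⟨11, true, 3, 5, [3]⟩, ⟨12, false, 3, 3, [4,
  7, 9]⟩, ⟨13, false, 4, 4, [4, 10, 16, 17]⟩, ⟨14, false, 3, 5, [5, 7]⟩, ⟨15, false, 3, 5, [5]⟩,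
  ⟨16, true, 3, 5, [13]⟩, ⟨17, true, 3, 5, [13]⟩], .cert (.vert 7 (.cons 2 (.vert 0 (.cons 1
  (.vert 4 (.cons 12 .nil (.cons 13 (.vert 12 (.cons 9 .nil .nil)) .nil))) (.cons 3 .nil .nil)))
  (.cons 12 (.vert 4 (.cons 1 (.vert 0 (.cons 2 .nil (.cons 3 (.vert 2 (.cons 8 .nil .nil))
  .nil))) (.cons 13 .nil .nil))) (.cons 14 (.vert 5 (.cons 1 .nil (.cons 15 .nil .nil)))
  .nil))))⟩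

noncomputable def e193 : Ent := ⟨3, [⟨0, true, 3, 3, [1, 2, 3]⟩, ⟨1, false, 4, 4, [0, 4, 5, 6]⟩, ⟨2, false, 3,
  3, [0, 7, 8]⟩, ⟨3, false, 4, 5, [0]⟩, ⟨4, true, 3, 3, [1, 11, 12]⟩, ⟨5, true, 3, 5, [1]⟩, ⟨6,
  true, 3, 5, [1]⟩, ⟨7, true, 3, 5, [2, 11]⟩, ⟨8, true, 3, 5, [2]⟩, ⟨9, true, 4, 5, [11]⟩, ⟨10,
  true, 3, 5, [12]⟩, ⟨11, false, 3, 3, [4, 7, 9]⟩, ⟨12, false, 3, 5, [4, 10, 13, 14]⟩, ⟨13,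
  true, 3, 5, [12]⟩, ⟨14, true, 3, 5, [12]⟩], .cert (.vert 0 (.cons 1 (.vert 11 (.cons 4 .nil
  (.cons 7 (.vert 2 (.cons 8 (.vert 4 (.cons 12 .nil .nil)) .nil)) (.cons 9 (.vert 4 (.cons 12
  .nil .nil)) .nil)))) (.cons 2 .nil (.cons 3 .nil .nil))))⟩

noncomputable def e194 : Ent := ⟨3, [⟨0, true, 3, 3, [1, 2, 3]⟩, ⟨1, false, 4, 4, [0, 4, 5, 6]⟩, ⟨2, false, 3,
  3, [0, 7, 8]⟩, ⟨3, false, 4, 5, [0, 9, 10, 11]⟩, ⟨4, true, 3, 3, [1, 12, 13]⟩, ⟨5, true, 3, 5,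
  [1]⟩, ⟨6, true, 3, 5, [1]⟩, ⟨7, true, 3, 5, [2, 12]⟩, ⟨8, true, 3, 5, [2]⟩, ⟨9, true, 3, 5,
  [3, 12]⟩, ⟨10, true, 3, 5, [3, 13]⟩, ⟨11, true, 3, 5, [3]⟩, ⟨12, false, 3, 3, [4, 7, 9]⟩, ⟨13,
  false, 4, 5, [4, 10, 14, 15]⟩, ⟨14, true, 3, 5, [13]⟩, ⟨15, true, 3, 5, [13]⟩], .split (.deg 9
  (.cons 3 (.fill 9 16 (.emb 185 false [4, 1, 12, 13, 0, 5, 6, 7, 9, 8, 10, 2, 3, 16, 11]) .nil)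
  (.cons 4 (.emb 193 false [0, 1, 2, 3, 4, 5, 6, 7, 8, 9, 10, 12, 13, 14, 15]) (.cons 5 (.emb 61
  true [12, 9, 4, 7, 1, 13]) .nil))))⟩

noncomputable def e195 : Ent := ⟨3, [⟨0, true, 3, 3, [1, 2, 3]⟩, ⟨1, false, 4, 4, [0, 4, 5, 6]⟩, ⟨2, false, 3,
  3, [0, 7, 8]⟩, ⟨3, false, 4, 5, [0, 9, 10, 11]⟩, ⟨4, true, 3, 3, [1, 12, 13]⟩, ⟨5, true, 3, 5,
  [1]⟩, ⟨6, true, 3, 5, [1]⟩, ⟨7, true, 3, 5, [2, 12]⟩, ⟨8, true, 3, 5, [2]⟩, ⟨9, true, 3, 5,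
  [3, 12]⟩, ⟨10, true, 3, 5, [3]⟩, ⟨11, true, 3, 5, [3]⟩, ⟨12, false, 3, 3, [4, 7, 9]⟩, ⟨13,
  false, 4, 5, [4, 14, 15, 16]⟩, ⟨14, true, 3, 5, [13]⟩, ⟨15, true, 3, 5, [13]⟩, ⟨16, true, 3,
  5, [13]⟩], .split (.deg 9 (.cons 3 (.fill 9 17 (.emb 185 false [4, 1, 12, 13, 0, 5, 6, 7, 9,
  8, 10, 2, 3, 17, 11]) .nil) (.cons 4 (.emb 193 false [0, 1, 2, 3, 4, 5, 6, 7, 8, 9, 14, 12,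
  13, 15, 16]) (.cons 5 (.emb 61 true [12, 9, 4, 7, 1, 13]) .nil))))⟩

noncomputable def e196 : Ent := ⟨3, [⟨0, true, 3, 3, [1, 2, 3]⟩, ⟨1, false, 4, 4, [0, 4, 5, 6]⟩, ⟨2, false, 3,
  3, [0, 7, 8]⟩, ⟨3, false, 4, 5, [0, 9, 10, 11]⟩, ⟨4, true, 3, 3, [1, 12, 13]⟩, ⟨5, true, 3, 5,
  [1]⟩, ⟨6, true, 3, 5, [1]⟩, ⟨7, true, 3, 5, [2, 12]⟩, ⟨8, true, 3, 5, [2]⟩, ⟨9, true, 3, 5,
  [3, 12]⟩, ⟨10, true, 3, 5, [3]⟩, ⟨11, true, 3, 5, [3]⟩, ⟨12, false, 3, 3, [4, 7, 9]⟩, ⟨13,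
  false, 3, 5, [4]⟩], .split (.deg 13 (.cons 3 (.fill 13 14 (.fill 13 15 (.emb 179 false [4, 1,
  12, 13, 0, 5, 6, 7, 9, 14, 15]) (.cons 8 (.emb 179 false [4, 1, 12, 13, 0, 5, 6, 7, 9, 8, 14])
  (.cons 10 (.emb 179 false [4, 1, 12, 13, 0, 5, 6, 7, 9, 10, 14]) (.cons 11 (.emb 179 false [4,
  1, 12, 13, 0, 5, 6, 7, 9, 11, 14]) .nil)))) (.cons 8 (.fill 13 14 (.emb 179 false [4, 1, 12,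
  13, 0, 5, 6, 7, 9, 8, 14]) (.cons 10 (.emb 179 false [4, 1, 12, 13, 0, 5, 6, 7, 9, 8, 10])
  (.cons 11 (.emb 179 false [4, 1, 12, 13, 0, 5, 6, 7, 9, 8, 11]) .nil))) (.cons 10 (.fill 13 14
  (.emb 179 false [4, 1, 12, 13, 0, 5, 6, 7, 9, 10, 14]) (.cons 8 (.emb 179 false [4, 1, 12, 13,
  0, 5, 6, 7, 9, 8, 10]) .nil)) (.cons 11 (.fill 13 14 (.emb 179 false [4, 1, 12, 13, 0, 5, 6,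
  7, 9, 11, 14]) (.cons 8 (.emb 179 false [4, 1, 12, 13, 0, 5, 6, 7, 9, 8, 11]) .nil)) .nil))))
  (.cons 4 (.fill 13 14 (.fill 13 15 (.fill 13 16 (.emb 195 false [0, 1, 2, 3, 4, 5, 6, 7, 8, 9,
  10, 11, 12, 13, 14, 15, 16]) (.cons 8 (.emb 191 false [4, 1, 12, 13, 0, 5, 6, 7, 9, 8, 14, 15,
  2, 3, 10, 11]) (.cons 10 (.emb 194 false [0, 1, 2, 3, 4, 5, 6, 7, 8, 9, 10, 11, 12, 13, 14,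
  15]) (.cons 11 (.emb 194 false [0, 1, 2, 3, 4, 5, 6, 7, 8, 9, 11, 10, 12, 13, 14, 15])
  .nil)))) (.cons 8 (.fill 13 15 (.emb 191 false [4, 1, 12, 13, 0, 5, 6, 7, 9, 8, 14, 15, 2, 3,
  10, 11]) (.cons 10 (.emb 187 false [4, 1, 12, 13, 0, 5, 6, 7, 9, 8, 10, 14, 2, 3, 11]) (.cons
  11 (.emb 187 false [4, 1, 12, 13, 0, 5, 6, 7, 9, 8, 11, 14, 2, 3, 10]) .nil))) (.cons 10
  (.fill 13 15 (.emb 194 false [0, 1, 2, 3, 4, 5, 6, 7, 8, 9, 10, 11, 12, 13, 14, 15]) (.cons 8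
  (.emb 187 false [4, 1, 12, 13, 0, 5, 6, 7, 9, 8, 10, 14, 2, 3, 11]) .nil)) (.cons 11 (.fill 13
  15 (.emb 194 false [0, 1, 2, 3, 4, 5, 6, 7, 8, 9, 11, 10, 12, 13, 14, 15]) (.cons 8 (.emb 187
  false [4, 1, 12, 13, 0, 5, 6, 7, 9, 8, 11, 14, 2, 3, 10]) .nil)) .nil)))) (.cons 8 (.fill 13
  14 (.fill 13 15 (.emb 191 false [4, 1, 12, 13, 0, 5, 6, 7, 9, 8, 14, 15, 2, 3, 10, 11]) (.cons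
  10 (.emb 187 false [4, 1, 12, 13, 0, 5, 6, 7, 9, 8, 10, 14, 2, 3, 11]) (.cons 11 (.emb 187
  false [4, 1, 12, 13, 0, 5, 6, 7, 9, 8, 11, 14, 2, 3, 10]) .nil))) (.cons 10 (.fill 13 14 (.emb
  187 false [4, 1, 12, 13, 0, 5, 6, 7, 9, 8, 10, 14, 2, 3, 11]) .nil) (.cons 11 (.fill 13 14
  (.emb 187 false [4, 1, 12, 13, 0, 5, 6, 7, 9, 8, 11, 14, 2, 3, 10]) .nil) .nil))) (.cons 10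
  (.fill 13 14 (.fill 13 15 (.emb 194 false [0, 1, 2, 3, 4, 5, 6, 7, 8, 9, 10, 11, 12, 13, 14,
  15]) (.cons 8 (.emb 187 false [4, 1, 12, 13, 0, 5, 6, 7, 9, 8, 10, 14, 2, 3, 11]) .nil))
  (.cons 8 (.fill 13 14 (.emb 187 false [4, 1, 12, 13, 0, 5, 6, 7, 9, 8, 10, 14, 2, 3, 11])
  .nil) .nil)) (.cons 11 (.fill 13 14 (.fill 13 15 (.emb 194 false [0, 1, 2, 3, 4, 5, 6, 7, 8,
  9, 11, 10, 12, 13, 14, 15]) (.cons 8 (.emb 187 false [4, 1, 12, 13, 0, 5, 6, 7, 9, 8, 11, 14,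
  2, 3, 10]) .nil)) (.cons 8 (.fill 13 14 (.emb 187 false [4, 1, 12, 13, 0, 5, 6, 7, 9, 8, 11,
  14, 2, 3, 10]) .nil) .nil)) .nil)))) (.cons 5 (.emb 52 false [4, 13, 1, 12]) .nil))))⟩

noncomputable def e197 : Ent := ⟨3, [⟨0, true, 3, 3, [1, 2, 3]⟩, ⟨1, false, 4, 4, [0, 4, 5, 6]⟩, ⟨2, false, 3,
  3, [0, 7, 8]⟩, ⟨3, false, 4, 4, [0, 9, 10, 11]⟩, ⟨4, true, 3, 3, [1, 12, 13]⟩, ⟨5, true, 3, 3,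
  [1, 14, 15]⟩, ⟨6, true, 3, 5, [1]⟩, ⟨7, true, 3, 3, [2, 12, 14]⟩, ⟨8, true, 3, 5, [2]⟩, ⟨9,
  true, 3, 5, [3, 13]⟩, ⟨10, true, 3, 5, [3]⟩, ⟨11, true, 3, 5, [3]⟩, ⟨12, false, 3, 3, [4, 7,
  16]⟩, ⟨13, false, 4, 4, [4, 9, 17, 18]⟩, ⟨14, false, 3, 5, [5, 7]⟩, ⟨15, false, 3, 5, [5]⟩,
  ⟨16, true, 3, 5, [12]⟩, ⟨17, true, 3, 5, [13]⟩, ⟨18, true, 3, 5, [13]⟩], .cert (.vert 7 (.cons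
  2 (.vert 0 (.cons 1 (.vert 4 (.cons 12 .nil (.cons 13 (.vert 12 (.cons 16 .nil .nil)) .nil)))
  (.cons 3 .nil .nil))) (.cons 12 (.vert 4 (.cons 1 (.vert 0 (.cons 2 .nil (.cons 3 (.vert 2
  (.cons 8 .nil .nil)) .nil))) (.cons 13 .nil .nil))) (.cons 14 (.vert 5 (.cons 1 .nil (.cons 15
  .nil .nil))) .nil))))⟩

noncomputable def e198 : Ent := ⟨3, [⟨0, true, 3, 3, [1, 2, 3]⟩, ⟨1, false, 4, 4, [0, 4, 5, 6]⟩, ⟨2, false, 3,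
  3, [0, 7, 8]⟩, ⟨3, false, 4, 5, [0]⟩, ⟨4, true, 3, 3, [1, 10, 11]⟩, ⟨5, true, 3, 5, [1]⟩, ⟨6,
  true, 3, 5, [1]⟩, ⟨7, true, 4, 5, [2, 10]⟩, ⟨8, true, 3, 5, [2]⟩, ⟨9, true, 3, 5, [11]⟩, ⟨10,
  false, 3, 3, [4, 7, 12]⟩, ⟨11, false, 3, 5, [4, 9, 13, 14]⟩, ⟨12, true, 3, 5, [10]⟩, ⟨13,
  true, 3, 5, [11]⟩, ⟨14, true, 3, 5, [11]⟩], .cert (.vert 0 (.cons 1 (.vert 10 (.cons 4 .nil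
  (.cons 7 (.vert 2 (.cons 8 (.vert 4 (.cons 11 .nil .nil)) .nil)) (.cons 12 (.vert 4 (.cons 11
  .nil .nil)) .nil)))) (.cons 2 .nil (.cons 3 .nil .nil))))⟩

noncomputable def e199 : Ent := ⟨3, [⟨0, true, 3, 3, [1, 2, 3]⟩, ⟨1, false, 4, 4, [0, 4, 5, 6]⟩, ⟨2, false, 3,
  3, [0, 7, 8]⟩, ⟨3, false, 4, 5, [0, 9, 10, 11]⟩, ⟨4, true, 3, 3, [1, 12, 13]⟩, ⟨5, true, 3, 5,
  [1]⟩, ⟨6, true, 3, 5, [1]⟩, ⟨7, true, 3, 5, [2, 12]⟩, ⟨8, true, 3, 5, [2]⟩, ⟨9, true, 3, 3,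
  [3, 13, 14]⟩, ⟨10, true, 3, 5, [3]⟩, ⟨11, true, 3, 5, [3]⟩, ⟨12, false, 3, 3, [4, 7, 15]⟩,
  ⟨13, false, 4, 4, [4, 9, 16, 17]⟩, ⟨14, false, 3, 5, [9]⟩, ⟨15, true, 3, 5, [12]⟩, ⟨16, true,
  3, 5, [13]⟩, ⟨17, true, 3, 5, [13]⟩], .cert (.vert 9 (.cons 3 (.vert 0 (.cons 1 .nil (.cons 2
  .nil .nil))) (.cons 13 (.vert 4 (.cons 1 (.vert 2 (.cons 0 .nil (.cons 7 (.vert 0 (.cons 3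
  (.vert 12 (.cons 15 .nil .nil)) .nil)) (.cons 8 (.vert 0 (.cons 3 .nil .nil)) .nil)))) (.cons
  12 .nil .nil))) (.cons 14 .nil .nil))))⟩

noncomputable def e200 : Ent := ⟨3, [⟨0, true, 3, 3, [1, 2, 3]⟩, ⟨1, false, 4, 4, [0, 4, 5, 6]⟩, ⟨2, false, 3,
  3, [0, 7, 8]⟩, ⟨3, false, 4, 5, [0]⟩, ⟨4, true, 3, 3, [1, 10, 11]⟩, ⟨5, true, 3, 5, [1]⟩, ⟨6,
  true, 3, 5, [1]⟩, ⟨7, true, 3, 3, [2, 10, 15]⟩, ⟨8, true, 3, 5, [2]⟩, ⟨9, true, 3, 5, [11]⟩,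
  ⟨10, false, 3, 3, [4, 7, 12]⟩, ⟨11, false, 4, 5, [4, 9, 13, 14]⟩, ⟨12, true, 3, 5, [10]⟩, ⟨13,
  true, 3, 5, [11]⟩, ⟨14, true, 3, 5, [11]⟩, ⟨15, false, 3, 5, [7]⟩], .cert (.vert 0 (.cons 1
  (.vert 10 (.cons 4 .nil (.cons 7 (.vert 2 (.cons 8 (.vert 4 (.cons 11 .nil .nil)) .nil))
  (.cons 12 (.vert 4 (.cons 11 .nil .nil)) .nil)))) (.cons 2 (.vert 7 (.cons 10 (.vert 4 (.cons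
  1 .nil (.cons 11 .nil .nil))) (.cons 15 .nil .nil))) (.cons 3 .nil .nil))))⟩

noncomputable def e201 : Ent := ⟨3, [⟨0, true, 3, 3, [1, 2, 3]⟩, ⟨1, false, 4, 4, [0, 4, 5, 6]⟩, ⟨2, false, 3,
  3, [0, 7, 8]⟩, ⟨3, false, 4, 5, [0]⟩, ⟨4, true, 3, 3, [1, 10, 11]⟩, ⟨5, true, 3, 5, [1]⟩, ⟨6,
  true, 3, 5, [1]⟩, ⟨7, true, 3, 5, [2, 10]⟩, ⟨8, true, 3, 5, [2]⟩, ⟨9, true, 3, 5, [11]⟩, ⟨10,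
  false, 3, 3, [4, 7, 12]⟩, ⟨11, false, 4, 5, [4, 9, 13, 14]⟩, ⟨12, true, 3, 5, [10]⟩, ⟨13,
  true, 3, 5, [11]⟩, ⟨14, true, 3, 5, [11]⟩], .split (.deg 7 (.cons 3 (.fill 7 15 (.emb 200
  false [0, 1, 2, 3, 4, 5, 6, 7, 8, 9, 10, 11, 12, 13, 14, 15]) .nil) (.cons 4 (.emb 198 false
  [0, 1, 2, 3, 4, 5, 6, 7, 8, 9, 10, 11, 12, 13, 14]) (.cons 5 (.emb 61 true [2, 7, 0, 8, 1, 3])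
  .nil))))⟩

noncomputable def e202 : Ent := ⟨3, [⟨0, true, 3, 3, [1, 2, 3]⟩, ⟨1, false, 4, 4, [0, 4, 5, 6]⟩, ⟨2, false, 3,
  3, [0, 7, 8]⟩, ⟨3, false, 4, 5, [0]⟩, ⟨4, true, 3, 3, [1, 9, 10]⟩, ⟨5, true, 3, 5, [1]⟩, ⟨6,
  true, 3, 5, [1]⟩, ⟨7, true, 3, 5, [2, 9]⟩, ⟨8, true, 3, 5, [2]⟩, ⟨9, false, 3, 3, [4, 7, 11]⟩,
  ⟨10, false, 3, 5, [4]⟩, ⟨11, true, 3, 5, [9]⟩], .split (.deg 10 (.cons 3 (.fill 10 12 (.fill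
  10 13 (.emb 179 false [4, 1, 9, 10, 0, 5, 6, 7, 11, 12, 13]) (.cons 8 (.emb 179 false [4, 1,
  9, 10, 0, 5, 6, 7, 11, 8, 12]) .nil)) (.cons 8 (.fill 10 12 (.emb 179 false [4, 1, 9, 10, 0,
  5, 6, 7, 11, 8, 12]) .nil) .nil)) (.cons 4 (.fill 10 12 (.fill 10 13 (.fill 10 14 (.emb 201
  false [0, 1, 2, 3, 4, 5, 6, 7, 8, 12, 9, 10, 11, 13, 14]) (.cons 8 (.emb 196 false [4, 1, 9,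
  10, 0, 5, 6, 7, 11, 8, 12, 13, 2, 3]) .nil)) (.cons 8 (.fill 10 13 (.emb 196 false [4, 1, 9,
  10, 0, 5, 6, 7, 11, 8, 12, 13, 2, 3]) .nil) .nil)) (.cons 8 (.fill 10 12 (.fill 10 13 (.emb
  196 false [4, 1, 9, 10, 0, 5, 6, 7, 11, 8, 12, 13, 2, 3]) .nil) .nil) .nil)) (.cons 5 (.emb 52
  false [4, 10, 1, 9]) .nil))))⟩

noncomputable def e203 : Ent := ⟨3, [⟨0, true, 3, 3, [1, 2, 3]⟩, ⟨1, false, 4, 4, [0, 4, 5, 6]⟩, ⟨2, false, 3,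
  3, [0, 7, 8]⟩, ⟨3, false, 4, 5, [0]⟩, ⟨4, true, 3, 3, [1, 10, 11]⟩, ⟨5, true, 3, 3, [1, 12,
  13]⟩, ⟨6, true, 3, 5, [1]⟩, ⟨7, true, 3, 3, [2, 11, 12]⟩, ⟨8, true, 3, 5, [2]⟩, ⟨9, true, 3,
  5, [11]⟩, ⟨10, false, 3, 5, [4]⟩, ⟨11, false, 4, 4, [4, 7, 9, 14]⟩, ⟨12, false, 3, 5, [5, 7]⟩,
  ⟨13, false, 3, 5, [5]⟩, ⟨14, true, 3, 5, [11]⟩], .cert (.vert 0 (.cons 1 (.vert 7 (.cons 2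
  .nil (.cons 11 (.vert 2 (.cons 8 (.vert 4 (.cons 10 .nil .nil)) .nil)) (.cons 12 (.vert 2
  (.cons 8 (.vert 5 (.cons 13 .nil .nil)) .nil)) .nil)))) (.cons 2 (.vert 7 (.cons 11 .nil
  (.cons 12 .nil .nil))) (.cons 3 .nil .nil))))⟩

noncomputable def e204 : Ent := ⟨3, [⟨0, true, 3, 3, [1, 2, 3]⟩, ⟨1, false, 4, 5, [0, 4]⟩, ⟨2, false, 3, 5,
  [0, 5]⟩, ⟨3, false, 4, 5, [0]⟩, ⟨4, true, 3, 3, [1, 6, 7]⟩, ⟨5, true, 3, 3, [2, 7, 8]⟩, ⟨6,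
  false, 3, 5, [4]⟩, ⟨7, false, 4, 5, [4, 5]⟩, ⟨8, false, 3, 5, [5]⟩], .cert (.vert 0 (.cons 1
  (.vert 4 (.cons 6 .nil (.cons 7 .nil .nil))) (.cons 2 (.vert 5 (.cons 7 .nil (.cons 8 .nil
  .nil))) (.cons 3 .nil .nil))))⟩

noncomputable def e205 : Ent := ⟨3, [⟨0, true, 3, 3, [1, 2, 3]⟩, ⟨1, false, 4, 4, [0, 4, 5, 6]⟩, ⟨2, false, 3,
  3, [0, 7, 8]⟩, ⟨3, false, 4, 4, [0, 9, 10, 11]⟩, ⟨4, true, 3, 3, [1, 12, 13]⟩, ⟨5, true, 3, 5,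
  [1]⟩, ⟨6, true, 3, 5, [1]⟩, ⟨7, true, 4, 5, [2, 13]⟩, ⟨8, true, 3, 5, [2]⟩, ⟨9, true, 3, 5,
  [3, 12]⟩, ⟨10, true, 3, 5, [3, 13]⟩, ⟨11, true, 3, 5, [3]⟩, ⟨12, false, 3, 5, [4, 9, 14]⟩,
  ⟨13, false, 4, 4, [4, 7, 10, 15]⟩, ⟨14, true, 3, 5, [12]⟩, ⟨15, true, 3, 5, [13]⟩], .cert
  (.vert 0 (.cons 1 (.edge 7 13 .nil (.vert 2 (.cons 8 (.vert 4 (.cons 12 .nil .nil)) .nil)))
  (.cons 2 .nil (.cons 3 (.vert 2 (.cons 7 .nil (.cons 8 .nil .nil))) .nil))))⟩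

noncomputable def e206 : Ent := ⟨3, [⟨0, true, 3, 3, [1, 2, 3]⟩, ⟨1, false, 4, 4, [0, 4, 5, 6]⟩, ⟨2, false, 3,
  3, [0, 7, 8]⟩, ⟨3, false, 4, 4, [0, 9, 10, 11]⟩, ⟨4, true, 3, 3, [1, 12, 13]⟩, ⟨5, true, 3, 5,
  [1]⟩, ⟨6, true, 3, 5, [1]⟩, ⟨7, true, 3, 5, [2, 13]⟩, ⟨8, true, 3, 5, [2]⟩, ⟨9, true, 3, 5,
  [3, 12]⟩, ⟨10, true, 3, 5, [3, 13]⟩, ⟨11, true, 3, 5, [3]⟩, ⟨12, false, 3, 5, [4, 9, 14]⟩,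
  ⟨13, false, 4, 4, [4, 7, 10, 15]⟩, ⟨14, true, 3, 5, [12]⟩, ⟨15, true, 3, 5, [13]⟩], .split
  (.deg 7 (.cons 3 (.fill 7 16 (.emb 204 false [0, 1, 2, 3, 4, 7, 12, 13, 16]) .nil) (.cons 4
  (.emb 205 false [0, 1, 2, 3, 4, 5, 6, 7, 8, 9, 10, 11, 12, 13, 14, 15]) (.cons 5 (.emb 61 true
  [2, 7, 0, 8, 1, 3]) .nil))))⟩

noncomputable def e207 : Ent := ⟨3, [⟨0, true, 3, 3, [1, 2, 3]⟩, ⟨1, false, 4, 4, [0, 4, 5, 6]⟩, ⟨2, false, 3,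
  3, [0, 7, 8]⟩, ⟨3, false, 4, 4, [0, 9, 10, 11]⟩, ⟨4, true, 3, 3, [1, 12, 13]⟩, ⟨5, true, 3, 5,
  [1]⟩, ⟨6, true, 3, 5, [1]⟩, ⟨7, true, 4, 5, [2, 13]⟩, ⟨8, true, 3, 5, [2]⟩, ⟨9, true, 3, 5,
  [3, 12]⟩, ⟨10, true, 3, 5, [3]⟩, ⟨11, true, 3, 5, [3]⟩, ⟨12, false, 3, 5, [4, 9, 14]⟩, ⟨13,
  false, 4, 4, [4, 7, 15, 16]⟩, ⟨14, true, 3, 5, [12]⟩, ⟨15, true, 3, 5, [13]⟩, ⟨16, true, 3, 5,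
  [13]⟩], .cert (.vert 0 (.cons 1 (.edge 7 13 .nil (.vert 2 (.cons 8 (.vert 4 (.cons 12 .nil
  .nil)) .nil))) (.cons 2 .nil (.cons 3 (.vert 2 (.cons 7 .nil (.cons 8 .nil .nil))) .nil))))⟩

noncomputable def e208 : Ent := ⟨3, [⟨0, true, 3, 3, [1, 2, 3]⟩, ⟨1, false, 4, 4, [0, 4, 5, 6]⟩, ⟨2, false, 3,
  3, [0, 7, 8]⟩, ⟨3, false, 4, 4, [0, 9, 10, 11]⟩, ⟨4, true, 3, 3, [1, 12, 13]⟩, ⟨5, true, 3, 5,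
  [1]⟩, ⟨6, true, 3, 5, [1]⟩, ⟨7, true, 3, 5, [2, 13]⟩, ⟨8, true, 3, 5, [2]⟩, ⟨9, true, 3, 5,
  [3, 12]⟩, ⟨10, true, 3, 5, [3]⟩, ⟨11, true, 3, 5, [3]⟩, ⟨12, false, 3, 5, [4, 9, 14]⟩, ⟨13,
  false, 4, 4, [4, 7, 15, 16]⟩, ⟨14, true, 3, 5, [12]⟩, ⟨15, true, 3, 5, [13]⟩, ⟨16, true, 3, 5,
  [13]⟩], .split (.deg 7 (.cons 3 (.fill 7 17 (.emb 204 false [0, 1, 2, 3, 4, 7, 12, 13, 17])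
  .nil) (.cons 4 (.emb 207 false [0, 1, 2, 3, 4, 5, 6, 7, 8, 9, 10, 11, 12, 13, 14, 15, 16])
  (.cons 5 (.emb 61 true [2, 7, 0, 8, 1, 3]) .nil))))⟩

noncomputable def e209 : Ent := ⟨3, [⟨0, true, 3, 3, [1, 2, 3]⟩, ⟨1, false, 4, 4, [0, 4, 5, 6]⟩, ⟨2, false, 3,
  3, [0, 7, 8]⟩, ⟨3, false, 4, 4, [0, 9, 10, 11]⟩, ⟨4, true, 3, 3, [1, 12, 13]⟩, ⟨5, true, 3, 5,
  [1]⟩, ⟨6, true, 3, 5, [1]⟩, ⟨7, true, 3, 5, [2]⟩, ⟨8, true, 3, 5, [2]⟩, ⟨9, true, 4, 5, [3,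
  12]⟩, ⟨10, true, 3, 5, [3, 13]⟩, ⟨11, true, 3, 5, [3]⟩, ⟨12, false, 3, 3, [4, 9, 14]⟩, ⟨13,
  false, 3, 5, [4, 10, 15, 16]⟩, ⟨14, true, 3, 5, [12]⟩, ⟨15, true, 3, 5, [13]⟩, ⟨16, true, 3,
  5, [13]⟩], .cert (.edge 1 4 (.vert 12 (.cons 4 .nil (.cons 9 (.vert 4 (.cons 13 .nil .nil))
  (.cons 14 (.vert 4 (.cons 13 .nil .nil)) .nil)))) (.edge 3 9 .nil (.vert 0 (.cons 2 (.vert 12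
  (.cons 14 .nil .nil)) .nil))))⟩

noncomputable def e210 : Ent := ⟨3, [⟨0, true, 3, 3, [1, 2, 3]⟩, ⟨1, false, 4, 4, [0, 4, 5, 6]⟩, ⟨2, false, 3,
  3, [0, 7, 8]⟩, ⟨3, false, 4, 4, [0, 9, 10, 11]⟩, ⟨4, true, 3, 3, [1, 12, 13]⟩, ⟨5, true, 3, 5,
  [1]⟩, ⟨6, true, 3, 5, [1]⟩, ⟨7, true, 3, 5, [2]⟩, ⟨8, true, 3, 5, [2]⟩, ⟨9, true, 3, 5, [3,
  12]⟩, ⟨10, true, 3, 5, [3, 13]⟩, ⟨11, true, 3, 5, [3]⟩, ⟨12, false, 3, 3, [4, 9, 14]⟩, ⟨13,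
  false, 4, 5, [4, 10, 15, 16]⟩, ⟨14, true, 3, 5, [12]⟩, ⟨15, true, 3, 5, [13]⟩, ⟨16, true, 3,
  5, [13]⟩], .split (.deg 9 (.cons 3 (.fill 9 17 (.emb 204 false [4, 1, 12, 13, 0, 9, 2, 3, 17])
  .nil) (.cons 4 (.emb 209 false [0, 1, 2, 3, 4, 5, 6, 7, 8, 9, 10, 11, 12, 13, 14, 15, 16])
  (.cons 5 (.emb 61 true [12, 9, 4, 14, 1, 13]) .nil))))⟩

noncomputable def e211 : Ent := ⟨3, [⟨0, true, 3, 3, [1, 2, 3]⟩, ⟨1, false, 4, 4, [0, 4, 5, 6]⟩, ⟨2, false, 3,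
  3, [0, 7, 8]⟩, ⟨3, false, 4, 4, [0, 9, 10, 11]⟩, ⟨4, true, 3, 3, [1, 12, 13]⟩, ⟨5, true, 3, 5,
  [1]⟩, ⟨6, true, 3, 5, [1]⟩, ⟨7, true, 3, 5, [2]⟩, ⟨8, true, 3, 5, [2]⟩, ⟨9, true, 4, 5, [3,
  12]⟩, ⟨10, true, 3, 5, [3]⟩, ⟨11, true, 3, 5, [3]⟩, ⟨12, false, 3, 3, [4, 9, 14]⟩, ⟨13, false,
  3, 5, [4, 15, 16, 17]⟩, ⟨14, true, 3, 5, [12]⟩, ⟨15, true, 3, 5, [13]⟩, ⟨16, true, 3, 5,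
  [13]⟩, ⟨17, true, 3, 5, [13]⟩], .cert (.edge 1 4 (.vert 12 (.cons 4 .nil (.cons 9 (.vert 4
  (.cons 13 .nil .nil)) (.cons 14 (.vert 4 (.cons 13 .nil .nil)) .nil)))) (.edge 3 9 .nil (.vert
  0 (.cons 2 (.vert 12 (.cons 14 .nil .nil)) .nil))))⟩

noncomputable def e212 : Ent := ⟨3, [⟨0, true, 3, 3, [1, 2, 3]⟩, ⟨1, false, 4, 4, [0, 4, 5, 6]⟩, ⟨2, false, 3,
  3, [0, 7, 8]⟩, ⟨3, false, 4, 4, [0, 9, 10, 11]⟩, ⟨4, true, 3, 3, [1, 12, 13]⟩, ⟨5, true, 3, 5,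
  [1]⟩, ⟨6, true, 3, 5, [1]⟩, ⟨7, true, 3, 5, [2]⟩, ⟨8, true, 3, 5, [2]⟩, ⟨9, true, 3, 5, [3,
  12]⟩, ⟨10, true, 3, 5, [3]⟩, ⟨11, true, 3, 5, [3]⟩, ⟨12, false, 3, 3, [4, 9, 14]⟩, ⟨13, false,
  4, 5, [4, 15, 16, 17]⟩, ⟨14, true, 3, 5, [12]⟩, ⟨15, true, 3, 5, [13]⟩, ⟨16, true, 3, 5,
  [13]⟩, ⟨17, true, 3, 5, [13]⟩], .split (.deg 9 (.cons 3 (.fill 9 18 (.emb 204 false [4, 1, 12,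
  13, 0, 9, 2, 3, 18]) .nil) (.cons 4 (.emb 211 false [0, 1, 2, 3, 4, 5, 6, 7, 8, 9, 10, 11, 12,
  13, 14, 15, 16, 17]) (.cons 5 (.emb 61 true [12, 9, 4, 14, 1, 13]) .nil))))⟩

noncomputable def e213 : Ent := ⟨3, [⟨0, true, 3, 3, [1, 2, 3]⟩, ⟨1, false, 4, 4, [0, 4, 5, 6]⟩, ⟨2, false, 3,
  3, [0, 7, 8]⟩, ⟨3, false, 4, 4, [0, 9, 10, 11]⟩, ⟨4, true, 3, 3, [1, 12, 13]⟩, ⟨5, true, 3, 5,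
  [1]⟩, ⟨6, true, 3, 5, [1]⟩, ⟨7, true, 3, 5, [2]⟩, ⟨8, true, 3, 5, [2]⟩, ⟨9, true, 3, 5, [3,
  12]⟩, ⟨10, true, 3, 5, [3]⟩, ⟨11, true, 3, 5, [3]⟩, ⟨12, false, 3, 3, [4, 9, 14]⟩, ⟨13, false,
  3, 5, [4]⟩, ⟨14, true, 3, 5, [12]⟩], .split (.deg 13 (.cons 3 (.fill 13 15 (.fill 13 16 (.emb
  179 false [4, 1, 12, 13, 0, 5, 6, 9, 14, 15, 16]) (.cons 7 (.emb 179 false [4, 1, 12, 13, 0,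
  5, 6, 9, 14, 7, 15]) (.cons 8 (.emb 179 false [4, 1, 12, 13, 0, 5, 6, 9, 14, 8, 15]) (.cons 10
  (.emb 179 false [4, 1, 12, 13, 0, 5, 6, 9, 14, 10, 15]) (.cons 11 (.emb 179 false [4, 1, 12,
  13, 0, 5, 6, 9, 14, 11, 15]) .nil))))) (.cons 7 (.fill 13 15 (.emb 179 false [4, 1, 12, 13, 0,
  5, 6, 9, 14, 7, 15]) (.cons 10 (.emb 179 false [4, 1, 12, 13, 0, 5, 6, 9, 14, 7, 10]) (.cons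
  11 (.emb 179 false [4, 1, 12, 13, 0, 5, 6, 9, 14, 7, 11]) .nil))) (.cons 8 (.fill 13 15 (.emb
  179 false [4, 1, 12, 13, 0, 5, 6, 9, 14, 8, 15]) (.cons 10 (.emb 179 false [4, 1, 12, 13, 0,
  5, 6, 9, 14, 8, 10]) (.cons 11 (.emb 179 false [4, 1, 12, 13, 0, 5, 6, 9, 14, 8, 11]) .nil)))
  (.cons 10 (.fill 13 15 (.emb 179 false [4, 1, 12, 13, 0, 5, 6, 9, 14, 10, 15]) (.cons 7 (.emb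
  179 false [4, 1, 12, 13, 0, 5, 6, 9, 14, 7, 10]) (.cons 8 (.emb 179 false [4, 1, 12, 13, 0, 5,
  6, 9, 14, 8, 10]) .nil))) (.cons 11 (.fill 13 15 (.emb 179 false [4, 1, 12, 13, 0, 5, 6, 9,
  14, 11, 15]) (.cons 7 (.emb 179 false [4, 1, 12, 13, 0, 5, 6, 9, 14, 7, 11]) (.cons 8 (.emb
  179 false [4, 1, 12, 13, 0, 5, 6, 9, 14, 8, 11]) .nil))) .nil))))) (.cons 4 (.fill 13 15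
  (.fill 13 16 (.fill 13 17 (.emb 212 false [0, 1, 2, 3, 4, 5, 6, 7, 8, 9, 10, 11, 12, 13, 14,
  15, 16, 17]) (.cons 7 (.emb 208 false [0, 1, 2, 3, 4, 5, 6, 7, 8, 9, 10, 11, 12, 13, 14, 15,
  16]) (.cons 8 (.emb 208 false [0, 1, 2, 3, 4, 5, 6, 8, 7, 9, 10, 11, 12, 13, 14, 15, 16])
  (.cons 10 (.emb 210 false [0, 1, 2, 3, 4, 5, 6, 7, 8, 9, 10, 11, 12, 13, 14, 15, 16]) (.cons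
  11 (.emb 210 false [0, 1, 2, 3, 4, 5, 6, 7, 8, 9, 11, 10, 12, 13, 14, 15, 16]) .nil)))))
  (.cons 7 (.fill 13 16 (.emb 208 false [0, 1, 2, 3, 4, 5, 6, 7, 8, 9, 10, 11, 12, 13, 14, 15,
  16]) (.cons 10 (.emb 206 false [0, 1, 2, 3, 4, 5, 6, 7, 8, 9, 10, 11, 12, 13, 14, 15]) (.cons
  11 (.emb 206 false [0, 1, 2, 3, 4, 5, 6, 7, 8, 9, 11, 10, 12, 13, 14, 15]) .nil))) (.cons 8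
  (.fill 13 16 (.emb 208 false [0, 1, 2, 3, 4, 5, 6, 8, 7, 9, 10, 11, 12, 13, 14, 15, 16])
  (.cons 10 (.emb 206 false [0, 1, 2, 3, 4, 5, 6, 8, 7, 9, 10, 11, 12, 13, 14, 15]) (.cons 11
  (.emb 206 false [0, 1, 2, 3, 4, 5, 6, 8, 7, 9, 11, 10, 12, 13, 14, 15]) .nil))) (.cons 10
  (.fill 13 16 (.emb 210 false [0, 1, 2, 3, 4, 5, 6, 7, 8, 9, 10, 11, 12, 13, 14, 15, 16])
  (.cons 7 (.emb 206 false [0, 1, 2, 3, 4, 5, 6, 7, 8, 9, 10, 11, 12, 13, 14, 15]) (.cons 8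
  (.emb 206 false [0, 1, 2, 3, 4, 5, 6, 8, 7, 9, 10, 11, 12, 13, 14, 15]) .nil))) (.cons 11
  (.fill 13 16 (.emb 210 false [0, 1, 2, 3, 4, 5, 6, 7, 8, 9, 11, 10, 12, 13, 14, 15, 16])
  (.cons 7 (.emb 206 false [0, 1, 2, 3, 4, 5, 6, 7, 8, 9, 11, 10, 12, 13, 14, 15]) (.cons 8
  (.emb 206 false [0, 1, 2, 3, 4, 5, 6, 8, 7, 9, 11, 10, 12, 13, 14, 15]) .nil))) .nil)))))
  (.cons 7 (.fill 13 15 (.fill 13 16 (.emb 208 false [0, 1, 2, 3, 4, 5, 6, 7, 8, 9, 10, 11, 12,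
  13, 14, 15, 16]) (.cons 10 (.emb 206 false [0, 1, 2, 3, 4, 5, 6, 7, 8, 9, 10, 11, 12, 13, 14,
  15]) (.cons 11 (.emb 206 false [0, 1, 2, 3, 4, 5, 6, 7, 8, 9, 11, 10, 12, 13, 14, 15]) .nil)))
  (.cons 10 (.fill 13 15 (.emb 206 false [0, 1, 2, 3, 4, 5, 6, 7, 8, 9, 10, 11, 12, 13, 14, 15])
  .nil) (.cons 11 (.fill 13 15 (.emb 206 false [0, 1, 2, 3, 4, 5, 6, 7, 8, 9, 11, 10, 12, 13,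
  14, 15]) .nil) .nil))) (.cons 8 (.fill 13 15 (.fill 13 16 (.emb 208 false [0, 1, 2, 3, 4, 5,
  6, 8, 7, 9, 10, 11, 12, 13, 14, 15, 16]) (.cons 10 (.emb 206 false [0, 1, 2, 3, 4, 5, 6, 8, 7,
  9, 10, 11, 12, 13, 14, 15]) (.cons 11 (.emb 206 false [0, 1, 2, 3, 4, 5, 6, 8, 7, 9, 11, 10,
  12, 13, 14, 15]) .nil))) (.cons 10 (.fill 13 15 (.emb 206 false [0, 1, 2, 3, 4, 5, 6, 8, 7, 9,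
  10, 11, 12, 13, 14, 15]) .nil) (.cons 11 (.fill 13 15 (.emb 206 false [0, 1, 2, 3, 4, 5, 6, 8,
  7, 9, 11, 10, 12, 13, 14, 15]) .nil) .nil))) (.cons 10 (.fill 13 15 (.fill 13 16 (.emb 210
  false [0, 1, 2, 3, 4, 5, 6, 7, 8, 9, 10, 11, 12, 13, 14, 15, 16]) (.cons 7 (.emb 206 false [0,
  1, 2, 3, 4, 5, 6, 7, 8, 9, 10, 11, 12, 13, 14, 15]) (.cons 8 (.emb 206 false [0, 1, 2, 3, 4,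
  5, 6, 8, 7, 9, 10, 11, 12, 13, 14, 15]) .nil))) (.cons 7 (.fill 13 15 (.emb 206 false [0, 1,
  2, 3, 4, 5, 6, 7, 8, 9, 10, 11, 12, 13, 14, 15]) .nil) (.cons 8 (.fill 13 15 (.emb 206 false
  [0, 1, 2, 3, 4, 5, 6, 8, 7, 9, 10, 11, 12, 13, 14, 15]) .nil) .nil))) (.cons 11 (.fill 13 15
  (.fill 13 16 (.emb 210 false [0, 1, 2, 3, 4, 5, 6, 7, 8, 9, 11, 10, 12, 13, 14, 15, 16])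
  (.cons 7 (.emb 206 false [0, 1, 2, 3, 4, 5, 6, 7, 8, 9, 11, 10, 12, 13, 14, 15]) (.cons 8
  (.emb 206 false [0, 1, 2, 3, 4, 5, 6, 8, 7, 9, 11, 10, 12, 13, 14, 15]) .nil))) (.cons 7
  (.fill 13 15 (.emb 206 false [0, 1, 2, 3, 4, 5, 6, 7, 8, 9, 11, 10, 12, 13, 14, 15]) .nil)
  (.cons 8 (.fill 13 15 (.emb 206 false [0, 1, 2, 3, 4, 5, 6, 8, 7, 9, 11, 10, 12, 13, 14, 15])
  .nil) .nil))) .nil))))) (.cons 5 (.emb 52 false [4, 13, 1, 12]) .nil))))⟩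

noncomputable def part5 : List Ent := [e174, e175, e176, e177, e178, e179, e180, e181, e182,
  e183, e184, e185, e186, e187, e188, e189, e190, e191, e192, e193, e194, e195, e196, e197,
  e198, e199, e200, e201, e202, e203, e204, e205, e206, e207, e208, e209, e210, e211, e212,
  e213]

end Pool.Agent.Helper76.PC
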