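import Pool.Agent.Helper76.PC.Defs

/-! MP_c33217_co: library of reducible configurations, part 6 (machine generated). -/

namespace Pool.Agent.Helper76.PC

noncomputable def e214 : Ent := ⟨3, [⟨0, true, 3, 3, [1, 2, 3]⟩, ⟨1, false, 4, 4, [0, 4, 5, 6]⟩, ⟨2, false, 3,
  5, [0]⟩, ⟨3, false, 4, 5, [0]⟩, ⟨4, true, 3, 3, [1, 7, 8]⟩, ⟨5, true, 3, 3, [1, 9, 10]⟩, ⟨6,
  true, 3, 5, [1]⟩, ⟨7, false, 3, 5, [4]⟩, ⟨8, false, 4, 5, [4]⟩, ⟨9, false, 4, 5, [5]⟩, ⟨10,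
  false, 3, 5, [5]⟩], .cert (.star 1 (.cons 0 (.vert 0 (.cons 2 .nil (.cons 3 .nil .nil)))
  (.cons 4 (.vert 4 (.cons 7 .nil (.cons 8 .nil .nil))) (.cons 5 (.vert 5 (.cons 9 .nil (.cons
  10 .nil .nil))) (.cons 6 .nil .nil)))))⟩

noncomputable def e215 : Ent := ⟨3, [⟨0, true, 3, 3, [1, 2, 3]⟩, ⟨1, false, 4, 4, [0, 4, 5, 6]⟩, ⟨2, false, 3,
  5, [0]⟩, ⟨3, false, 4, 5, [0]⟩, ⟨4, true, 3, 3, [1, 7, 8]⟩, ⟨5, true, 3, 3, [1, 9, 10]⟩, ⟨6,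
  true, 3, 5, [1]⟩, ⟨7, false, 3, 5, [4]⟩, ⟨8, false, 4, 5, [4]⟩, ⟨9, false, 3, 3, [5, 11, 12]⟩,
  ⟨10, false, 3, 5, [5]⟩, ⟨11, true, 3, 5, [9]⟩, ⟨12, true, 3, 5, [9]⟩], .split (.deg 10 (.cons
  3 (.fill 10 13 (.fill 10 14 (.emb 179 false [5, 1, 9, 10, 0, 4, 6, 11, 12, 13, 14]) .nil)
  .nil) (.cons 4 (.emb 214 false [0, 1, 2, 3, 4, 5, 6, 7, 8, 10, 9]) (.cons 5 (.emb 52 false [5,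
  10, 1, 9]) .nil))))⟩

noncomputable def e216 : Ent := ⟨3, [⟨0, true, 3, 3, [1, 2, 3]⟩, ⟨1, false, 4, 4, [0, 4, 5, 6]⟩, ⟨2, false, 3,
  5, [0]⟩, ⟨3, false, 4, 5, [0]⟩, ⟨4, true, 3, 3, [1, 7, 8]⟩, ⟨5, true, 3, 3, [1, 9, 10]⟩, ⟨6,
  true, 3, 5, [1]⟩, ⟨7, false, 3, 5, [4]⟩, ⟨8, false, 4, 5, [4]⟩, ⟨9, false, 3, 5, [5]⟩, ⟨10,
  false, 3, 5, [5]⟩], .split (.deg 9 (.cons 3 (.fill 9 11 (.fill 9 12 (.emb 215 false [0, 1, 2,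
  3, 4, 5, 6, 7, 8, 9, 10, 11, 12]) .nil) .nil) (.cons 4 (.emb 214 false [0, 1, 2, 3, 4, 5, 6,
  7, 8, 9, 10]) (.cons 5 (.emb 52 false [5, 9, 1, 10]) .nil))))⟩

noncomputable def e217 : Ent := ⟨3, [⟨0, true, 3, 3, [1, 2, 3]⟩, ⟨1, false, 4, 4, [0, 4, 5, 6]⟩, ⟨2, false, 3,
  5, [0]⟩, ⟨3, false, 4, 5, [0]⟩, ⟨4, true, 3, 3, [1, 7, 8]⟩, ⟨5, true, 3, 5, [1]⟩, ⟨6, true, 3,
  3, [1, 9, 10]⟩, ⟨7, false, 3, 3, [4, 11, 12]⟩, ⟨8, false, 3, 5, [4]⟩, ⟨9, false, 3, 5, [6]⟩,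
  ⟨10, false, 3, 5, [6]⟩, ⟨11, true, 3, 5, [7]⟩, ⟨12, true, 3, 5, [7]⟩], .split (.deg 8 (.cons 3
  (.fill 8 13 (.fill 8 14 (.emb 179 false [4, 1, 7, 8, 0, 5, 6, 11, 12, 13, 14]) .nil) .nil)
  (.cons 4 (.emb 216 false [0, 1, 2, 3, 4, 6, 5, 7, 8, 9, 10]) (.cons 5 (.emb 52 false [4, 8, 1,
  7]) .nil))))⟩

noncomputable def e218 : Ent := ⟨3, [⟨0, true, 3, 3, [1, 2, 3]⟩, ⟨1, false, 4, 4, [0, 4, 5, 6]⟩, ⟨2, false, 3,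
  5, [0]⟩, ⟨3, false, 4, 5, [0]⟩, ⟨4, true, 3, 3, [1, 7, 8]⟩, ⟨5, true, 3, 5, [1]⟩, ⟨6, true, 3,
  3, [1, 9, 10]⟩, ⟨7, false, 3, 5, [4]⟩, ⟨8, false, 3, 5, [4]⟩, ⟨9, false, 3, 5, [6]⟩, ⟨10,
  false, 3, 5, [6]⟩], .split (.deg 7 (.cons 3 (.fill 7 11 (.fill 7 12 (.emb 217 false [0, 1, 2,
  3, 4, 5, 6, 7, 8, 9, 10, 11, 12]) .nil) .nil) (.cons 4 (.emb 216 false [0, 1, 2, 3, 4, 6, 5,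
  8, 7, 9, 10]) (.cons 5 (.emb 52 false [4, 7, 1, 8]) .nil))))⟩

noncomputable def e219 : Ent := ⟨3, [⟨0, true, 3, 3, [1, 2, 3]⟩, ⟨1, false, 4, 4, [0, 4, 5, 6]⟩, ⟨2, false, 3,
  5, [0]⟩, ⟨3, false, 4, 5, [0]⟩, ⟨4, true, 3, 3, [1, 7, 8]⟩, ⟨5, true, 3, 3, [1, 9, 10]⟩, ⟨6,
  true, 3, 5, [1]⟩, ⟨7, false, 3, 5, [4]⟩, ⟨8, false, 3, 5, [4]⟩, ⟨9, false, 3, 5, [5]⟩, ⟨10,
  false, 3, 5, [5]⟩], .split (.deg 6 (.cons 3 (.emb 218 false [0, 1, 2, 3, 4, 6, 5, 7, 8, 9,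
  10]) (.cons 4 (.emb 218 false [0, 1, 2, 3, 4, 6, 5, 7, 8, 9, 10]) (.cons 5 (.emb 218 false [0,
  1, 2, 3, 4, 6, 5, 7, 8, 9, 10]) .nil))))⟩

noncomputable def e220 : Ent := ⟨3, [⟨0, true, 3, 3, [1, 2, 3]⟩, ⟨1, false, 4, 4, [0, 4, 5, 6]⟩, ⟨2, false, 3,
  3, [0, 7, 8]⟩, ⟨3, false, 4, 5, [0]⟩, ⟨4, true, 3, 3, [1, 9, 10]⟩, ⟨5, true, 3, 4, [1, 11, 12,
  13]⟩, ⟨6, true, 3, 4, [1, 14, 15, 16]⟩, ⟨7, true, 3, 3, [2, 17, 18]⟩, ⟨8, true, 3, 5, [2]⟩,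
  ⟨9, false, 3, 5, [4]⟩, ⟨10, false, 3, 5, [4]⟩, ⟨11, false, 3, 5, [5]⟩, ⟨12, false, 3, 5, [5]⟩,
  ⟨13, false, 3, 5, [5]⟩, ⟨14, false, 3, 5, [6]⟩, ⟨15, false, 3, 5, [6]⟩, ⟨16, false, 3, 5,
  [6]⟩, ⟨17, false, 3, 5, [7]⟩, ⟨18, false, 3, 5, [7]⟩], .cert (.edge 0 3 (.edge 2 8 (.contr 0
  .nil) (.vert 0 (.cons 1 .nil .nil))) .nil)⟩

noncomputable def e221 : Ent := ⟨3, [⟨0, true, 3, 3, [1, 2, 3]⟩, ⟨1, false, 4, 4, [0, 4, 5, 6]⟩, ⟨2, false, 3,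
  3, [0, 7, 8]⟩, ⟨3, false, 4, 5, [0]⟩, ⟨4, true, 3, 3, [1, 9, 10]⟩, ⟨5, true, 3, 4, [1, 11, 12,
  13]⟩, ⟨6, true, 3, 4, [1, 14, 15, 16]⟩, ⟨7, true, 3, 4, [2, 17, 18, 19]⟩, ⟨8, true, 3, 5,
  [2]⟩, ⟨9, false, 3, 5, [4]⟩, ⟨10, false, 3, 5, [4]⟩, ⟨11, false, 3, 5, [5]⟩, ⟨12, false, 3, 5,
  [5]⟩, ⟨13, false, 3, 5, [5]⟩, ⟨14, false, 3, 5, [6]⟩, ⟨15, false, 3, 5, [6]⟩, ⟨16, false, 3,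
  5, [6]⟩, ⟨17, false, 3, 5, [7]⟩, ⟨18, false, 3, 5, [7]⟩, ⟨19, false, 3, 5, [7]⟩], .cert (.edge
  0 3 (.edge 2 8 (.contr 0 .nil) (.vert 0 (.cons 1 .nil .nil))) .nil)⟩

noncomputable def e222 : Ent := ⟨3, [⟨0, true, 3, 3, [1, 2, 3]⟩, ⟨1, false, 4, 4, [0, 4, 5, 6]⟩, ⟨2, false, 3,
  3, [0, 7, 8]⟩, ⟨3, false, 3, 4, [0, 9, 10, 11]⟩, ⟨4, true, 3, 3, [1, 12, 13]⟩, ⟨5, true, 4, 5,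
  [1]⟩, ⟨6, true, 4, 5, [1]⟩, ⟨7, true, 3, 5, [2]⟩, ⟨8, true, 3, 5, [2]⟩, ⟨9, true, 3, 5, [3]⟩,
  ⟨10, true, 3, 5, [3]⟩, ⟨11, true, 3, 5, [3]⟩, ⟨12, false, 3, 3, [4, 14, 15]⟩, ⟨13, false, 4,
  5, [4]⟩, ⟨14, true, 3, 5, [12]⟩, ⟨15, true, 3, 5, [12]⟩], .cert (.edge 4 13 (.edge 1 5 (.edge
  1 6 (.contr 1 .nil) (.vert 4 (.cons 12 .nil .nil))) (.vert 4 (.cons 12 .nil .nil))) .nil)⟩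

noncomputable def e223 : Ent := ⟨3, [⟨0, true, 3, 3, [1, 2, 3]⟩, ⟨1, false, 4, 4, [0, 4, 5, 6]⟩, ⟨2, false, 3,
  3, [0, 7, 8]⟩, ⟨3, false, 4, 5, [0]⟩, ⟨4, true, 3, 3, [1, 9, 10]⟩, ⟨5, true, 4, 5, [1]⟩, ⟨6,
  true, 4, 5, [1]⟩, ⟨7, true, 3, 5, [2]⟩, ⟨8, true, 3, 5, [2]⟩, ⟨9, false, 3, 3, [4, 11, 12]⟩,
  ⟨10, false, 3, 5, [4]⟩, ⟨11, true, 3, 5, [9]⟩, ⟨12, true, 3, 5, [9]⟩], .split (.deg 10 (.cons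
  3 (.fill 10 13 (.fill 10 14 (.emb 179 false [4, 1, 9, 10, 0, 5, 6, 11, 12, 13, 14]) (.cons 7
  (.emb 179 false [4, 1, 9, 10, 0, 5, 6, 11, 12, 7, 13]) (.cons 8 (.emb 179 false [4, 1, 9, 10,
  0, 5, 6, 11, 12, 8, 13]) .nil))) (.cons 7 (.fill 10 13 (.emb 179 false [4, 1, 9, 10, 0, 5, 6,
  11, 12, 7, 13]) .nil) (.cons 8 (.fill 10 13 (.emb 179 false [4, 1, 9, 10, 0, 5, 6, 11, 12, 8,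
  13]) .nil) .nil))) (.cons 4 (.fill 10 13 (.fill 10 14 (.fill 10 15 (.emb 222 false [4, 1, 9,
  10, 0, 5, 6, 11, 12, 13, 14, 15, 2, 3, 7, 8]) (.cons 7 (.emb 213 false [4, 1, 9, 10, 0, 5, 6,
  11, 12, 7, 13, 14, 2, 3, 8]) (.cons 8 (.emb 213 false [4, 1, 9, 10, 0, 5, 6, 11, 12, 8, 13,
  14, 2, 3, 7]) .nil))) (.cons 7 (.fill 10 14 (.emb 213 false [4, 1, 9, 10, 0, 5, 6, 11, 12, 7,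
  13, 14, 2, 3, 8]) .nil) (.cons 8 (.fill 10 14 (.emb 213 false [4, 1, 9, 10, 0, 5, 6, 11, 12,
  8, 13, 14, 2, 3, 7]) .nil) .nil))) (.cons 7 (.fill 10 13 (.fill 10 14 (.emb 213 false [4, 1,
  9, 10, 0, 5, 6, 11, 12, 7, 13, 14, 2, 3, 8]) .nil) .nil) (.cons 8 (.fill 10 13 (.fill 10 14
  (.emb 213 false [4, 1, 9, 10, 0, 5, 6, 11, 12, 8, 13, 14, 2, 3, 7]) .nil) .nil) .nil))) (.cons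
  5 (.emb 52 false [4, 10, 1, 9]) .nil))))⟩

noncomputable def e224 : Ent := ⟨3, [⟨0, false, 4, 5, [1]⟩, ⟨1, true, 3, 3, [0, 2, 3]⟩, ⟨2, false, 4, 5, [1]⟩,
  ⟨3, false, 4, 5, [1]⟩], .cert (.vert 1 (.cons 0 .nil (.cons 2 .nil (.cons 3 .nil .nil))))⟩

noncomputable def e225 : Ent := ⟨3, [⟨0, true, 3, 3, [1, 2, 3]⟩, ⟨1, false, 4, 4, [0, 4, 5, 6]⟩, ⟨2, false, 3,
  3, [0, 7, 8]⟩, ⟨3, false, 3, 5, [0]⟩, ⟨4, true, 3, 3, [1, 9, 10]⟩, ⟨5, true, 4, 5, [1]⟩, ⟨6,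
  true, 4, 5, [1]⟩, ⟨7, true, 3, 5, [2]⟩, ⟨8, true, 3, 5, [2]⟩, ⟨9, false, 4, 5, [4]⟩, ⟨10,
  false, 3, 5, [4]⟩], .split (.deg 10 (.cons 3 (.fill 10 11 (.fill 10 12 (.emb 223 false [4, 1,
  10, 9, 0, 5, 6, 11, 12, 2, 3, 7, 8]) (.cons 7 (.emb 202 false [4, 1, 10, 9, 0, 5, 6, 7, 11, 2,
  3, 8]) (.cons 8 (.emb 202 false [4, 1, 10, 9, 0, 5, 6, 8, 11, 2, 3, 7]) .nil))) (.cons 7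
  (.fill 10 11 (.emb 202 false [4, 1, 10, 9, 0, 5, 6, 7, 11, 2, 3, 8]) .nil) (.cons 8 (.fill 10
  11 (.emb 202 false [4, 1, 10, 9, 0, 5, 6, 8, 11, 2, 3, 7]) .nil) .nil))) (.cons 4 (.emb 224
  false [1, 4, 9, 10]) (.cons 5 (.emb 52 false [4, 10, 1, 9]) .nil))))⟩

noncomputable def e226 : Ent := ⟨3, [⟨0, true, 3, 3, [1, 2, 3]⟩, ⟨1, false, 4, 4, [0, 4, 5, 6]⟩, ⟨2, false, 3,
  3, [0, 7, 8]⟩, ⟨3, false, 4, 5, [0]⟩, ⟨4, true, 3, 3, [1, 9, 10]⟩, ⟨5, true, 4, 5, [1]⟩, ⟨6,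
  true, 4, 5, [1]⟩, ⟨7, true, 3, 5, [2]⟩, ⟨8, true, 3, 5, [2]⟩, ⟨9, false, 3, 5, [4]⟩, ⟨10,
  false, 3, 5, [4]⟩], .split (.deg 9 (.cons 3 (.fill 9 11 (.fill 9 12 (.emb 223 false [0, 1, 2,
  3, 4, 5, 6, 7, 8, 9, 10, 11, 12]) (.cons 7 (.emb 202 false [0, 1, 2, 3, 4, 5, 6, 7, 8, 9, 10,
  11]) (.cons 8 (.emb 202 false [0, 1, 2, 3, 4, 5, 6, 8, 7, 9, 10, 11]) .nil))) (.cons 7 (.fill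
  9 11 (.emb 202 false [0, 1, 2, 3, 4, 5, 6, 7, 8, 9, 10, 11]) .nil) (.cons 8 (.fill 9 11 (.emb
  202 false [0, 1, 2, 3, 4, 5, 6, 8, 7, 9, 10, 11]) .nil) .nil))) (.cons 4 (.emb 225 false [0,
  1, 2, 3, 4, 5, 6, 7, 8, 9, 10]) (.cons 5 (.emb 52 false [4, 9, 1, 10]) .nil))))⟩

noncomputable def e227 : Ent := ⟨3, [⟨0, true, 3, 3, [1, 2, 3]⟩, ⟨1, false, 4, 4, [0, 4, 5, 6]⟩, ⟨2, false, 3,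
  3, [0, 7, 8]⟩, ⟨3, false, 4, 5, [0]⟩, ⟨4, true, 3, 3, [1, 9, 10]⟩, ⟨5, true, 4, 5, [1]⟩, ⟨6,
  true, 3, 5, [1]⟩, ⟨7, true, 3, 5, [2]⟩, ⟨8, true, 3, 5, [2]⟩, ⟨9, false, 3, 5, [4]⟩, ⟨10,
  false, 3, 5, [4]⟩], .split (.deg 6 (.cons 3 (.fill 6 11 (.fill 6 12 (.emb 218 false [0, 1, 2,
  3, 4, 5, 6, 9, 10, 11, 12]) .nil) .nil) (.cons 4 (.emb 226 false [0, 1, 2, 3, 4, 5, 6, 7, 8,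
  9, 10]) (.cons 5 (.emb 226 false [0, 1, 2, 3, 4, 5, 6, 7, 8, 9, 10]) .nil))))⟩

noncomputable def e228 : Ent := ⟨3, [⟨0, true, 3, 3, [1, 2, 3]⟩, ⟨1, false, 4, 4, [0, 4, 5, 6]⟩, ⟨2, false, 3,
  3, [0, 7, 8]⟩, ⟨3, false, 4, 5, [0]⟩, ⟨4, true, 3, 3, [1, 9, 10]⟩, ⟨5, true, 3, 5, [1]⟩, ⟨6,
  true, 3, 5, [1]⟩, ⟨7, true, 3, 5, [2]⟩, ⟨8, true, 3, 5, [2]⟩, ⟨9, false, 3, 5, [4]⟩, ⟨10,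
  false, 3, 5, [4]⟩], .split (.deg 5 (.cons 3 (.fill 5 11 (.fill 5 12 (.emb 218 false [0, 1, 2,
  3, 4, 6, 5, 9, 10, 11, 12]) .nil) .nil) (.cons 4 (.emb 227 false [0, 1, 2, 3, 4, 5, 6, 7, 8,
  9, 10]) (.cons 5 (.emb 227 false [0, 1, 2, 3, 4, 5, 6, 7, 8, 9, 10]) .nil))))⟩

noncomputable def e229 : Ent := ⟨3, [⟨0, true, 3, 3, [1, 2, 3]⟩, ⟨1, false, 4, 4, [0, 4, 5, 6]⟩, ⟨2, false, 3,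
  3, [0, 7, 8]⟩, ⟨3, false, 4, 5, [0]⟩, ⟨4, true, 3, 4, [1, 9, 10, 11]⟩, ⟨5, true, 3, 4, [1, 12,
  13, 14]⟩, ⟨6, true, 3, 4, [1, 15, 16, 17]⟩, ⟨7, true, 3, 3, [2, 18, 19]⟩, ⟨8, true, 3, 5,
  [2]⟩, ⟨9, false, 3, 5, [4]⟩, ⟨10, false, 3, 5, [4]⟩, ⟨11, false, 3, 5, [4]⟩, ⟨12, false, 3, 5,
  [5]⟩, ⟨13, false, 3, 5, [5]⟩, ⟨14, false, 3, 5, [5]⟩, ⟨15, false, 3, 5, [6]⟩, ⟨16, false, 3,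
  5, [6]⟩, ⟨17, false, 3, 5, [6]⟩, ⟨18, false, 3, 5, [7]⟩, ⟨19, false, 3, 5, [7]⟩], .cert (.edge
  0 3 (.edge 2 8 (.contr 0 .nil) (.vert 0 (.cons 1 .nil .nil))) .nil)⟩

noncomputable def e230 : Ent := ⟨3, [⟨0, true, 3, 3, [1, 2, 3]⟩, ⟨1, false, 4, 4, [0, 4, 5, 6]⟩, ⟨2, false, 3,
  3, [0, 7, 8]⟩, ⟨3, false, 4, 4, [0, 9, 10, 11]⟩, ⟨4, true, 4, 5, [1]⟩, ⟨5, true, 4, 5, [1]⟩,
  ⟨6, true, 4, 5, [1]⟩, ⟨7, true, 4, 5, [2]⟩, ⟨8, true, 3, 5, [2]⟩, ⟨9, true, 3, 5, [3]⟩, ⟨10,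
  true, 3, 5, [3]⟩, ⟨11, true, 3, 5, [3]⟩], .cert (.vert 0 (.cons 1 (.vert 2 (.cons 7 .nil
  (.cons 8 .nil .nil))) (.cons 2 (.vert 1 (.cons 4 .nil (.cons 5 .nil (.cons 6 .nil .nil))))
  (.cons 3 (.vert 2 (.cons 7 .nil (.cons 8 .nil .nil))) .nil))))⟩

noncomputable def e231 : Ent := ⟨3, [⟨0, true, 3, 3, [1, 2, 3]⟩, ⟨1, false, 4, 4, [0, 4, 5, 6]⟩, ⟨2, false, 3,
  3, [0, 7, 8]⟩, ⟨3, false, 4, 4, [0, 9, 10, 11]⟩, ⟨4, true, 4, 4, [1, 12, 13, 14]⟩, ⟨5, true,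
  4, 5, [1]⟩, ⟨6, true, 4, 5, [1, 16, 17, 18]⟩, ⟨7, true, 3, 3, [2, 12, 15]⟩, ⟨8, true, 3, 5,
  [2]⟩, ⟨9, true, 4, 5, [3, 12]⟩, ⟨10, true, 3, 5, [3]⟩, ⟨11, true, 3, 5, [3]⟩, ⟨12, false, 3,
  3, [4, 7, 9]⟩, ⟨13, false, 3, 5, [4]⟩, ⟨14, false, 3, 5, [4]⟩, ⟨15, false, 3, 5, [7]⟩, ⟨16,
  false, 3, 5, [6]⟩, ⟨17, false, 3, 5, [6]⟩, ⟨18, false, 3, 5, [6]⟩], .cert (.vert 12 (.cons 4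
  (.edge 2 0 (.vert 1 (.cons 0 .nil (.cons 5 (.vert 0 (.cons 3 .nil .nil)) (.cons 6 (.vert 0
  (.cons 3 .nil .nil)) .nil)))) (.vert 7 (.cons 15 (.vert 1 (.cons 5 .nil (.cons 6 .nil .nil)))
  .nil))) (.cons 7 (.vert 0 (.cons 1 (.vert 2 (.cons 8 .nil .nil)) (.cons 2 .nil (.cons 3 (.vert
  2 (.cons 8 .nil .nil)) .nil)))) (.cons 9 .nil .nil))))⟩

noncomputable def e232 : Ent := ⟨3, [⟨0, true, 3, 3, [1, 2, 3]⟩, ⟨1, false, 4, 4, [0, 4, 5, 6]⟩, ⟨2, false, 3,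
  3, [0, 7, 8]⟩, ⟨3, false, 4, 4, [0, 9, 10, 11]⟩, ⟨4, true, 4, 4, [1, 12, 13, 14]⟩, ⟨5, true,
  4, 5, [1]⟩, ⟨6, true, 4, 5, [1, 16, 17, 18]⟩, ⟨7, true, 3, 3, [2, 12, 15]⟩, ⟨8, true, 3, 5,
  [2]⟩, ⟨9, true, 3, 5, [3, 12]⟩, ⟨10, true, 3, 5, [3]⟩, ⟨11, true, 3, 5, [3]⟩, ⟨12, false, 3,
  3, [4, 7, 9]⟩, ⟨13, false, 3, 5, [4]⟩, ⟨14, false, 3, 5, [4]⟩, ⟨15, false, 3, 5, [7]⟩, ⟨16,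
  false, 3, 5, [6]⟩, ⟨17, false, 3, 5, [6]⟩, ⟨18, false, 3, 5, [6]⟩], .split (.deg 9 (.cons 3
  (.fill 9 19 (.emb 175 true [12, 4, 7, 9, 1, 13, 14, 2, 15, 3, 19, 0, 8]) (.cons 16 (.emb 175
  true [12, 4, 7, 9, 1, 13, 14, 2, 15, 3, 16, 0, 8]) (.cons 17 (.emb 175 true [12, 4, 7, 9, 1,
  13, 14, 2, 15, 3, 17, 0, 8]) (.cons 18 (.emb 175 true [12, 4, 7, 9, 1, 13, 14, 2, 15, 3, 18,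
  0, 8]) .nil)))) (.cons 4 (.emb 231 false [0, 1, 2, 3, 4, 5, 6, 7, 8, 9, 10, 11, 12, 13, 14,
  15, 16, 17, 18]) (.cons 5 (.emb 52 true [12, 9, 4, 7]) .nil))))⟩

noncomputable def e233 : Ent := ⟨3, [⟨0, true, 3, 3, [1, 2, 3]⟩, ⟨1, false, 4, 5, [0]⟩, ⟨2, false, 3, 3, [0,
  6, 7]⟩, ⟨3, false, 4, 4, [0, 8, 9, 10]⟩, ⟨4, true, 3, 5, [11]⟩, ⟨5, true, 3, 5, [12]⟩, ⟨6,
  true, 3, 3, [2, 11, 12]⟩, ⟨7, true, 3, 5, [2]⟩, ⟨8, true, 3, 5, [3]⟩, ⟨9, true, 3, 5, [3]⟩,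
  ⟨10, true, 3, 5, [3]⟩, ⟨11, false, 3, 3, [4, 6, 13]⟩, ⟨12, false, 3, 3, [5, 6, 14]⟩, ⟨13,
  true, 3, 5, [11]⟩, ⟨14, true, 3, 5, [12]⟩], .cert (.edge 0 1 (.edge 2 7 (.contr 0 .nil) (.vert
  0 (.cons 3 .nil .nil))) .nil)⟩

noncomputable def e234 : Ent := ⟨3, [⟨0, true, 3, 3, [1, 2, 3]⟩, ⟨1, false, 4, 4, [0, 4, 5, 6]⟩, ⟨2, false, 3,
  3, [0, 7, 8]⟩, ⟨3, false, 4, 4, [0, 9, 10, 11]⟩, ⟨4, true, 4, 5, [1, 12]⟩, ⟨5, true, 4, 4, [1,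
  13, 14, 15]⟩, ⟨6, true, 4, 5, [1, 16, 17, 18]⟩, ⟨7, true, 3, 3, [2, 12, 13]⟩, ⟨8, true, 3, 5,
  [2]⟩, ⟨9, true, 3, 5, [3]⟩, ⟨10, true, 3, 5, [3]⟩, ⟨11, true, 3, 5, [3]⟩, ⟨12, false, 3, 3,
  [4, 7, 19]⟩, ⟨13, false, 3, 5, [5, 7]⟩, ⟨14, false, 3, 5, [5]⟩, ⟨15, false, 3, 5, [5]⟩, ⟨16,
  false, 3, 5, [6]⟩, ⟨17, false, 3, 5, [6]⟩, ⟨18, false, 3, 5, [6]⟩, ⟨19, true, 3, 5, [12]⟩],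
  .split (.deg 13 (.cons 3 (.fill 13 20 (.emb 233 false [0, 1, 2, 3, 4, 5, 7, 8, 9, 10, 11, 12,
  13, 19, 20]) (.cons 9 (.emb 232 false [0, 1, 2, 3, 5, 4, 6, 7, 8, 9, 10, 11, 13, 14, 15, 12,
  16, 17, 18]) (.cons 10 (.emb 232 false [0, 1, 2, 3, 5, 4, 6, 7, 8, 10, 9, 11, 13, 14, 15, 12,
  16, 17, 18]) (.cons 11 (.emb 232 false [0, 1, 2, 3, 5, 4, 6, 7, 8, 11, 9, 10, 13, 14, 15, 12,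
  16, 17, 18]) .nil)))) (.cons 4 (.fill 13 20 (.fill 13 21 (.emb 175 false [7, 13, 2, 12, 5, 20,
  21, 0, 8, 4, 19, 1, 3]) (.cons 9 (.emb 175 false [7, 13, 2, 12, 5, 9, 20, 0, 8, 4, 19, 1, 3])
  (.cons 10 (.emb 175 false [7, 13, 2, 12, 5, 10, 20, 0, 8, 4, 19, 1, 3]) (.cons 11 (.emb 175
  false [7, 13, 2, 12, 5, 11, 20, 0, 8, 4, 19, 1, 3]) .nil)))) (.cons 9 (.fill 13 20 (.emb 175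
  false [7, 13, 2, 12, 5, 9, 20, 0, 8, 4, 19, 1, 3]) .nil) (.cons 10 (.fill 13 20 (.emb 175
  false [7, 13, 2, 12, 5, 10, 20, 0, 8, 4, 19, 1, 3]) .nil) (.cons 11 (.fill 13 20 (.emb 175
  false [7, 13, 2, 12, 5, 11, 20, 0, 8, 4, 19, 1, 3]) .nil) .nil)))) (.cons 5 (.emb 53 false [7,
  13, 12, 2, 4, 19, 0, 8]) .nil))))⟩

noncomputable def e235 : Ent := ⟨3, [⟨0, true, 3, 3, [1, 2, 3]⟩, ⟨1, false, 3, 4, [0, 4, 5, 6]⟩, ⟨2, false, 3,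
  5, [0, 7]⟩, ⟨3, false, 4, 5, [0]⟩, ⟨4, true, 3, 5, [1, 8, 9, 10]⟩, ⟨5, true, 4, 4, [1, 11, 12,
  13]⟩, ⟨6, true, 4, 4, [1, 14, 15, 16]⟩, ⟨7, true, 3, 3, [2, 8, 11]⟩, ⟨8, false, 4, 5, [4, 7]⟩,
  ⟨9, false, 3, 5, [4]⟩, ⟨10, false, 3, 5, [4]⟩, ⟨11, false, 4, 5, [5, 7]⟩, ⟨12, false, 3, 5,
  [5]⟩, ⟨13, false, 3, 5, [5]⟩, ⟨14, false, 3, 5, [6]⟩, ⟨15, false, 3, 5, [6]⟩, ⟨16, false, 3,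
  5, [6]⟩], .cert (.vert 7 (.cons 2 (.vert 1 (.cons 0 .nil (.cons 4 (.vert 0 (.cons 3 .nil
  .nil)) (.cons 5 (.vert 0 (.cons 3 .nil .nil)) (.cons 6 (.vert 0 (.cons 3 .nil .nil)) .nil)))))
  (.cons 8 .nil (.cons 11 .nil .nil))))⟩

noncomputable def e236 : Ent := ⟨3, [⟨0, true, 3, 3, [1, 2, 3]⟩, ⟨1, false, 3, 4, [0, 4, 5, 6]⟩, ⟨2, false, 3,
  3, [0, 7, 8]⟩, ⟨3, false, 4, 5, [0]⟩, ⟨4, true, 3, 5, [1, 10, 11, 12]⟩, ⟨5, true, 4, 4, [1,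
  13, 14, 15]⟩, ⟨6, true, 4, 4, [1, 16, 17, 18]⟩, ⟨7, true, 3, 3, [2, 10, 13]⟩, ⟨8, true, 3, 5,
  [2]⟩, ⟨9, true, 3, 5, [10]⟩, ⟨10, false, 4, 4, [4, 7, 9, 19]⟩, ⟨11, false, 3, 5, [4]⟩, ⟨12,
  false, 3, 5, [4]⟩, ⟨13, false, 3, 5, [5, 7]⟩, ⟨14, false, 3, 5, [5]⟩, ⟨15, false, 3, 5, [5]⟩,
  ⟨16, false, 3, 5, [6]⟩, ⟨17, false, 3, 5, [6]⟩, ⟨18, false, 3, 5, [6]⟩, ⟨19, true, 3, 5,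
  [10]⟩], .split (.deg 13 (.cons 3 (.fill 13 20 (.emb 175 false [7, 10, 2, 13, 4, 9, 19, 0, 8,
  5, 20, 1, 3]) .nil) (.cons 4 (.emb 235 false [0, 1, 2, 3, 4, 5, 6, 7, 10, 11, 12, 13, 14, 15,
  16, 17, 18]) (.cons 5 (.emb 52 false [7, 13, 10, 2]) .nil))))⟩

noncomputable def e237 : Ent := ⟨3, [⟨0, true, 3, 3, [1, 2, 3]⟩, ⟨1, false, 4, 4, [0, 4, 5, 6]⟩, ⟨2, false, 3,
  3, [0, 7, 8]⟩, ⟨3, false, 4, 4, [0, 9, 10, 11]⟩, ⟨4, true, 4, 4, [1, 12, 13, 14]⟩, ⟨5, true,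
  4, 4, [1, 15, 16, 17]⟩, ⟨6, true, 4, 4, [1, 18, 19, 20]⟩, ⟨7, true, 3, 3, [2, 12, 15]⟩, ⟨8,
  true, 3, 5, [2]⟩, ⟨9, true, 3, 5, [3]⟩, ⟨10, true, 3, 5, [3]⟩, ⟨11, true, 3, 5, [3]⟩, ⟨12,
  false, 3, 5, [4, 7]⟩, ⟨13, false, 3, 5, [4]⟩, ⟨14, false, 3, 5, [4]⟩, ⟨15, false, 3, 5, [5,
  7]⟩, ⟨16, false, 3, 5, [5]⟩, ⟨17, false, 3, 5, [5]⟩, ⟨18, false, 3, 5, [6]⟩, ⟨19, false, 3, 5,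
  [6]⟩, ⟨20, false, 3, 5, [6]⟩], .split (.deg 12 (.cons 3 (.fill 12 21 (.emb 234 false [0, 1, 2,
  3, 4, 5, 6, 7, 8, 9, 10, 11, 12, 15, 16, 17, 18, 19, 20, 21]) (.cons 9 (.emb 232 false [0, 1,
  2, 3, 4, 5, 6, 7, 8, 9, 10, 11, 12, 13, 14, 15, 18, 19, 20]) (.cons 10 (.emb 232 false [0, 1,
  2, 3, 4, 5, 6, 7, 8, 10, 9, 11, 12, 13, 14, 15, 18, 19, 20]) (.cons 11 (.emb 232 false [0, 1,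
  2, 3, 4, 5, 6, 7, 8, 11, 9, 10, 12, 13, 14, 15, 18, 19, 20]) .nil)))) (.cons 4 (.fill 12 21
  (.fill 12 22 (.emb 236 false [0, 1, 2, 3, 4, 5, 6, 7, 8, 21, 12, 13, 14, 15, 16, 17, 18, 19,
  20, 22]) (.cons 9 (.emb 236 false [0, 1, 2, 3, 4, 5, 6, 7, 8, 9, 12, 13, 14, 15, 16, 17, 18,
  19, 20, 21]) (.cons 10 (.emb 236 false [0, 1, 2, 3, 4, 5, 6, 7, 8, 10, 12, 13, 14, 15, 16, 17,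
  18, 19, 20, 21]) (.cons 11 (.emb 236 false [0, 1, 2, 3, 4, 5, 6, 7, 8, 11, 12, 13, 14, 15, 16,
  17, 18, 19, 20, 21]) .nil)))) (.cons 9 (.fill 12 21 (.emb 236 false [0, 1, 2, 3, 4, 5, 6, 7,
  8, 9, 12, 13, 14, 15, 16, 17, 18, 19, 20, 21]) .nil) (.cons 10 (.fill 12 21 (.emb 236 false
  [0, 1, 2, 3, 4, 5, 6, 7, 8, 10, 12, 13, 14, 15, 16, 17, 18, 19, 20, 21]) .nil) (.cons 11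
  (.fill 12 21 (.emb 236 false [0, 1, 2, 3, 4, 5, 6, 7, 8, 11, 12, 13, 14, 15, 16, 17, 18, 19,
  20, 21]) .nil) .nil)))) (.cons 5 (.emb 61 false [7, 12, 2, 15, 0, 8]) .nil))))⟩

noncomputable def e238 : Ent := ⟨3, [⟨0, true, 3, 3, [1, 2, 3]⟩, ⟨1, false, 4, 4, [0, 4, 5, 6]⟩, ⟨2, false, 3,
  3, [0, 7, 8]⟩, ⟨3, false, 4, 5, [0]⟩, ⟨4, true, 4, 4, [1, 9, 10, 11]⟩, ⟨5, true, 4, 4, [1, 12,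
  13, 14]⟩, ⟨6, true, 4, 4, [1, 15, 16, 17]⟩, ⟨7, true, 3, 3, [2, 9, 18]⟩, ⟨8, true, 3, 3, [2,
  10, 19]⟩, ⟨9, false, 3, 5, [4, 7]⟩, ⟨10, false, 3, 5, [4, 8]⟩, ⟨11, false, 3, 5, [4]⟩, ⟨12,
  false, 3, 5, [5]⟩, ⟨13, false, 3, 5, [5]⟩, ⟨14, false, 3, 5, [5]⟩, ⟨15, false, 3, 5, [6]⟩,
  ⟨16, false, 3, 5, [6]⟩, ⟨17, false, 3, 5, [6]⟩, ⟨18, false, 3, 5, [7]⟩, ⟨19, false, 3, 5,
  [8]⟩], .cert (.star 0 (.cons 1 (.vert 1 (.cons 4 (.vert 0 (.cons 2 .nil (.cons 3 .nil .nil)))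
  (.cons 5 (.vert 0 (.cons 2 .nil (.cons 3 .nil .nil))) (.cons 6 (.vert 0 (.cons 2 .nil (.cons 3
  .nil .nil))) .nil)))) (.cons 2 (.vert 0 (.cons 1 .nil (.cons 3 (.vert 1 (.cons 4 .nil (.cons 5
  .nil (.cons 6 .nil .nil)))) .nil))) (.cons 3 (.edge 1 4 (.contr 0 .nil) (.vert 0 (.cons 2 .nil
  .nil))) .nil))))⟩

noncomputable def e239 : Ent := ⟨3, [⟨0, true, 3, 3, [1, 2, 3]⟩, ⟨1, false, 4, 4, [0, 4, 5, 6]⟩, ⟨2, false, 3,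
  3, [0, 7, 8]⟩, ⟨3, false, 4, 4, [0, 9, 10, 11]⟩, ⟨4, true, 4, 5, [1, 12, 13]⟩, ⟨5, true, 4, 4,
  [1, 14, 15, 16]⟩, ⟨6, true, 4, 4, [1, 17, 18, 19]⟩, ⟨7, true, 3, 3, [2, 12, 20]⟩, ⟨8, true, 3,
  5, [2, 13]⟩, ⟨9, true, 3, 5, [3, 13]⟩, ⟨10, true, 3, 5, [3]⟩, ⟨11, true, 3, 5, [3]⟩, ⟨12,
  false, 3, 3, [4, 7, 21]⟩, ⟨13, false, 3, 3, [4, 8, 9]⟩, ⟨14, false, 3, 5, [5]⟩, ⟨15, false, 3,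
  5, [5]⟩, ⟨16, false, 3, 5, [5]⟩, ⟨17, false, 3, 5, [6]⟩, ⟨18, false, 3, 5, [6]⟩, ⟨19, false,
  3, 5, [6]⟩, ⟨20, false, 3, 5, [7]⟩, ⟨21, true, 3, 5, [12]⟩], .cert (.edge 2 8 (.edge 0 3
  (.edge 1 4 (.contr 0 .nil) (.vert 0 (.cons 2 .nil .nil))) (.vert 2 (.cons 7 (.vert 1 (.cons 4
  (.vert 12 (.cons 21 .nil .nil)) (.cons 5 .nil (.cons 6 .nil .nil)))) .nil))) (.vert 1 (.cons 0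
  .nil (.cons 4 (.vert 0 (.cons 3 (.vert 13 (.cons 9 .nil .nil)) .nil)) (.cons 5 (.vert 0 (.cons
  3 .nil .nil)) (.cons 6 (.vert 0 (.cons 3 .nil .nil)) .nil))))))⟩

noncomputable def e240 : Ent := ⟨3, [⟨0, true, 3, 3, [1, 2, 3]⟩, ⟨1, false, 4, 4, [0, 4, 5, 6]⟩, ⟨2, false, 3,
  3, [0, 7, 8]⟩, ⟨3, false, 4, 4, [0, 9, 10, 11]⟩, ⟨4, true, 4, 5, [1, 12, 13]⟩, ⟨5, true, 4, 4,
  [1, 14, 15, 16]⟩, ⟨6, true, 4, 4, [1, 17, 18, 19]⟩, ⟨7, true, 3, 3, [2, 12, 20]⟩, ⟨8, true, 3,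
  5, [2, 13]⟩, ⟨9, true, 3, 5, [3]⟩, ⟨10, true, 3, 5, [3]⟩, ⟨11, true, 3, 5, [3]⟩, ⟨12, false,
  3, 3, [4, 7, 21]⟩, ⟨13, false, 3, 3, [4, 8, 22]⟩, ⟨14, false, 3, 5, [5]⟩, ⟨15, false, 3, 5,
  [5]⟩, ⟨16, false, 3, 5, [5]⟩, ⟨17, false, 3, 5, [6]⟩, ⟨18, false, 3, 5, [6]⟩, ⟨19, false, 3,
  5, [6]⟩, ⟨20, false, 3, 5, [7]⟩, ⟨21, true, 3, 5, [12]⟩, ⟨22, true, 3, 5, [13]⟩], .cert (.edge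
  2 8 (.edge 0 3 (.edge 1 4 (.contr 0 .nil) (.vert 0 (.cons 2 .nil .nil))) (.vert 2 (.cons 7
  (.vert 1 (.cons 4 (.vert 12 (.cons 21 .nil .nil)) (.cons 5 .nil (.cons 6 .nil .nil)))) .nil)))
  (.vert 1 (.cons 0 .nil (.cons 4 (.vert 0 (.cons 3 (.vert 13 (.cons 22 .nil .nil)) .nil))
  (.cons 5 (.vert 0 (.cons 3 .nil .nil)) (.cons 6 (.vert 0 (.cons 3 .nil .nil)) .nil))))))⟩

noncomputable def e241 : Ent := ⟨3, [⟨0, true, 3, 3, [1, 2, 3]⟩, ⟨1, false, 4, 4, [0, 4, 5, 6]⟩, ⟨2, false, 3,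
  3, [0, 7, 8]⟩, ⟨3, false, 4, 4, [0, 9, 10, 11]⟩, ⟨4, true, 4, 5, [1, 12]⟩, ⟨5, true, 4, 5,
  [1]⟩, ⟨6, true, 4, 4, [1, 14, 15, 16]⟩, ⟨7, true, 3, 3, [2, 12, 17]⟩, ⟨8, true, 3, 3, [2, 13,
  19]⟩, ⟨9, true, 3, 5, [3]⟩, ⟨10, true, 3, 5, [3]⟩, ⟨11, true, 3, 5, [3]⟩, ⟨12, false, 3, 3,
  [4, 7, 18]⟩, ⟨13, false, 3, 5, [8]⟩, ⟨14, false, 3, 5, [6]⟩, ⟨15, false, 3, 5, [6]⟩, ⟨16,
  false, 3, 5, [6]⟩, ⟨17, false, 3, 5, [7]⟩, ⟨18, true, 3, 5, [12]⟩, ⟨19, false, 3, 5, [8]⟩],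
  .cert (.star 0 (.cons 1 (.vert 1 (.cons 4 (.vert 2 (.cons 0 .nil (.cons 7 (.vert 0 (.cons 3
  (.vert 12 (.cons 18 .nil .nil)) .nil)) (.cons 8 (.vert 0 (.cons 3 .nil .nil)) .nil)))) (.cons
  5 (.vert 0 (.cons 2 .nil (.cons 3 .nil .nil))) (.cons 6 (.vert 0 (.cons 2 .nil (.cons 3 .nil
  .nil))) .nil)))) (.cons 2 (.vert 1 (.cons 0 .nil (.cons 4 (.vert 0 (.cons 3 (.vert 2 (.cons 7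
  (.vert 12 (.cons 18 .nil .nil)) (.cons 8 .nil .nil))) .nil)) (.cons 5 (.vert 0 (.cons 3 .nil
  .nil)) (.cons 6 (.vert 0 (.cons 3 .nil .nil)) .nil))))) (.cons 3 (.edge 1 4 (.edge 1 5 (.contr
  0 .nil) (.vert 0 (.cons 2 .nil .nil))) (.vert 0 (.cons 2 .nil .nil))) .nil))))⟩

noncomputable def e242 : Ent := ⟨3, [⟨0, true, 3, 3, [1, 2, 3]⟩, ⟨1, false, 4, 4, [0, 4, 5, 6]⟩, ⟨2, false, 3,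
  3, [0, 7, 8]⟩, ⟨3, false, 4, 4, [0, 9, 10, 11]⟩, ⟨4, true, 4, 4, [1, 12, 13, 14]⟩, ⟨5, true,
  4, 4, [1, 15, 16, 17]⟩, ⟨6, true, 4, 4, [1, 18, 19, 20]⟩, ⟨7, true, 3, 3, [2, 12, 21]⟩, ⟨8,
  true, 3, 5, [2]⟩, ⟨9, true, 3, 5, [3]⟩, ⟨10, true, 3, 5, [3]⟩, ⟨11, true, 3, 5, [3]⟩, ⟨12,
  false, 3, 3, [4, 7, 22]⟩, ⟨13, false, 3, 5, [4]⟩, ⟨14, false, 3, 5, [4]⟩, ⟨15, false, 3, 5,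
  [5]⟩, ⟨16, false, 3, 5, [5]⟩, ⟨17, false, 3, 5, [5]⟩, ⟨18, false, 3, 5, [6]⟩, ⟨19, false, 3,
  5, [6]⟩, ⟨20, false, 3, 5, [6]⟩, ⟨21, false, 3, 5, [7]⟩, ⟨22, true, 3, 5, [12]⟩], .split (.deg
  8 (.cons 3 (.fill 8 23 (.fill 8 24 (.emb 229 false [0, 1, 2, 3, 4, 5, 6, 8, 7, 12, 13, 14, 15,
  16, 17, 18, 19, 20, 23, 24]) (.cons 13 (.emb 238 false [0, 1, 2, 3, 4, 5, 6, 7, 8, 12, 13, 14,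
  15, 16, 17, 18, 19, 20, 21, 23]) (.cons 14 (.emb 238 false [0, 1, 2, 3, 4, 5, 6, 7, 8, 12, 14,
  13, 15, 16, 17, 18, 19, 20, 21, 23]) (.cons 15 (.emb 241 false [0, 1, 2, 3, 4, 5, 6, 7, 8, 9,
  10, 11, 12, 15, 18, 19, 20, 21, 22, 23]) (.cons 16 (.emb 241 false [0, 1, 2, 3, 4, 5, 6, 7, 8,
  9, 10, 11, 12, 16, 18, 19, 20, 21, 22, 23]) (.cons 17 (.emb 241 false [0, 1, 2, 3, 4, 5, 6, 7,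
  8, 9, 10, 11, 12, 17, 18, 19, 20, 21, 22, 23]) (.cons 18 (.emb 241 false [0, 1, 2, 3, 4, 6, 5,
  7, 8, 9, 10, 11, 12, 18, 15, 16, 17, 21, 22, 23]) (.cons 19 (.emb 241 false [0, 1, 2, 3, 4, 6,
  5, 7, 8, 9, 10, 11, 12, 19, 15, 16, 17, 21, 22, 23]) (.cons 20 (.emb 241 false [0, 1, 2, 3, 4,
  6, 5, 7, 8, 9, 10, 11, 12, 20, 15, 16, 17, 21, 22, 23]) .nil))))))))) (.cons 13 (.fill 8 23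
  (.emb 238 false [0, 1, 2, 3, 4, 5, 6, 7, 8, 12, 13, 14, 15, 16, 17, 18, 19, 20, 21, 23])
  (.cons 15 (.emb 237 false [0, 1, 2, 3, 4, 5, 6, 8, 7, 9, 10, 11, 13, 12, 14, 15, 16, 17, 18,
  19, 20]) (.cons 16 (.emb 237 false [0, 1, 2, 3, 4, 5, 6, 8, 7, 9, 10, 11, 13, 12, 14, 16, 15,
  17, 18, 19, 20]) (.cons 17 (.emb 237 false [0, 1, 2, 3, 4, 5, 6, 8, 7, 9, 10, 11, 13, 12, 14,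
  17, 15, 16, 18, 19, 20]) (.cons 18 (.emb 237 false [0, 1, 2, 3, 4, 6, 5, 8, 7, 9, 10, 11, 13,
  12, 14, 18, 19, 20, 15, 16, 17]) (.cons 19 (.emb 237 false [0, 1, 2, 3, 4, 6, 5, 8, 7, 9, 10,
  11, 13, 12, 14, 19, 18, 20, 15, 16, 17]) (.cons 20 (.emb 237 false [0, 1, 2, 3, 4, 6, 5, 8, 7,
  9, 10, 11, 13, 12, 14, 20, 18, 19, 15, 16, 17]) .nil))))))) (.cons 14 (.fill 8 23 (.emb 238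
  false [0, 1, 2, 3, 4, 5, 6, 7, 8, 12, 14, 13, 15, 16, 17, 18, 19, 20, 21, 23]) (.cons 15 (.emb
  237 false [0, 1, 2, 3, 4, 5, 6, 8, 7, 9, 10, 11, 14, 12, 13, 15, 16, 17, 18, 19, 20]) (.cons
  16 (.emb 237 false [0, 1, 2, 3, 4, 5, 6, 8, 7, 9, 10, 11, 14, 12, 13, 16, 15, 17, 18, 19, 20])
  (.cons 17 (.emb 237 false [0, 1, 2, 3, 4, 5, 6, 8, 7, 9, 10, 11, 14, 12, 13, 17, 15, 16, 18,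
  19, 20]) (.cons 18 (.emb 237 false [0, 1, 2, 3, 4, 6, 5, 8, 7, 9, 10, 11, 14, 12, 13, 18, 19,
  20, 15, 16, 17]) (.cons 19 (.emb 237 false [0, 1, 2, 3, 4, 6, 5, 8, 7, 9, 10, 11, 14, 12, 13,
  19, 18, 20, 15, 16, 17]) (.cons 20 (.emb 237 false [0, 1, 2, 3, 4, 6, 5, 8, 7, 9, 10, 11, 14,
  12, 13, 20, 18, 19, 15, 16, 17]) .nil))))))) (.cons 15 (.fill 8 23 (.emb 241 false [0, 1, 2,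
  3, 4, 5, 6, 7, 8, 9, 10, 11, 12, 15, 18, 19, 20, 21, 22, 23]) (.cons 13 (.emb 237 false [0, 1,
  2, 3, 4, 5, 6, 8, 7, 9, 10, 11, 13, 12, 14, 15, 16, 17, 18, 19, 20]) (.cons 14 (.emb 237 false
  [0, 1, 2, 3, 4, 5, 6, 8, 7, 9, 10, 11, 14, 12, 13, 15, 16, 17, 18, 19, 20]) (.cons 18 (.emb
  237 false [0, 1, 2, 3, 5, 6, 4, 8, 7, 9, 10, 11, 15, 16, 17, 18, 19, 20, 12, 13, 14]) (.cons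
  19 (.emb 237 false [0, 1, 2, 3, 5, 6, 4, 8, 7, 9, 10, 11, 15, 16, 17, 19, 18, 20, 12, 13, 14])
  (.cons 20 (.emb 237 false [0, 1, 2, 3, 5, 6, 4, 8, 7, 9, 10, 11, 15, 16, 17, 20, 18, 19, 12,
  13, 14]) .nil)))))) (.cons 16 (.fill 8 23 (.emb 241 false [0, 1, 2, 3, 4, 5, 6, 7, 8, 9, 10,
  11, 12, 16, 18, 19, 20, 21, 22, 23]) (.cons 13 (.emb 237 false [0, 1, 2, 3, 4, 5, 6, 8, 7, 9,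
  10, 11, 13, 12, 14, 16, 15, 17, 18, 19, 20]) (.cons 14 (.emb 237 false [0, 1, 2, 3, 4, 5, 6,
  8, 7, 9, 10, 11, 14, 12, 13, 16, 15, 17, 18, 19, 20]) (.cons 18 (.emb 237 false [0, 1, 2, 3,
  5, 6, 4, 8, 7, 9, 10, 11, 16, 15, 17, 18, 19, 20, 12, 13, 14]) (.cons 19 (.emb 237 false [0,
  1, 2, 3, 5, 6, 4, 8, 7, 9, 10, 11, 16, 15, 17, 19, 18, 20, 12, 13, 14]) (.cons 20 (.emb 237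
  false [0, 1, 2, 3, 5, 6, 4, 8, 7, 9, 10, 11, 16, 15, 17, 20, 18, 19, 12, 13, 14]) .nil))))))
  (.cons 17 (.fill 8 23 (.emb 241 false [0, 1, 2, 3, 4, 5, 6, 7, 8, 9, 10, 11, 12, 17, 18, 19,
  20, 21, 22, 23]) (.cons 13 (.emb 237 false [0, 1, 2, 3, 4, 5, 6, 8, 7, 9, 10, 11, 13, 12, 14,
  17, 15, 16, 18, 19, 20]) (.cons 14 (.emb 237 false [0, 1, 2, 3, 4, 5, 6, 8, 7, 9, 10, 11, 14,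
  12, 13, 17, 15, 16, 18, 19, 20]) (.cons 18 (.emb 237 false [0, 1, 2, 3, 5, 6, 4, 8, 7, 9, 10,
  11, 17, 15, 16, 18, 19, 20, 12, 13, 14]) (.cons 19 (.emb 237 false [0, 1, 2, 3, 5, 6, 4, 8, 7,
  9, 10, 11, 17, 15, 16, 19, 18, 20, 12, 13, 14]) (.cons 20 (.emb 237 false [0, 1, 2, 3, 5, 6,
  4, 8, 7, 9, 10, 11, 17, 15, 16, 20, 18, 19, 12, 13, 14]) .nil)))))) (.cons 18 (.fill 8 23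
  (.emb 241 false [0, 1, 2, 3, 4, 6, 5, 7, 8, 9, 10, 11, 12, 18, 15, 16, 17, 21, 22, 23]) (.cons
  13 (.emb 237 false [0, 1, 2, 3, 4, 6, 5, 8, 7, 9, 10, 11, 13, 12, 14, 18, 19, 20, 15, 16, 17])
  (.cons 14 (.emb 237 false [0, 1, 2, 3, 4, 6, 5, 8, 7, 9, 10, 11, 14, 12, 13, 18, 19, 20, 15,
  16, 17]) (.cons 15 (.emb 237 false [0, 1, 2, 3, 5, 6, 4, 8, 7, 9, 10, 11, 15, 16, 17, 18, 19,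
  20, 12, 13, 14]) (.cons 16 (.emb 237 false [0, 1, 2, 3, 5, 6, 4, 8, 7, 9, 10, 11, 16, 15, 17,
  18, 19, 20, 12, 13, 14]) (.cons 17 (.emb 237 false [0, 1, 2, 3, 5, 6, 4, 8, 7, 9, 10, 11, 17,
  15, 16, 18, 19, 20, 12, 13, 14]) .nil)))))) (.cons 19 (.fill 8 23 (.emb 241 false [0, 1, 2, 3,
  4, 6, 5, 7, 8, 9, 10, 11, 12, 19, 15, 16, 17, 21, 22, 23]) (.cons 13 (.emb 237 false [0, 1, 2,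
  3, 4, 6, 5, 8, 7, 9, 10, 11, 13, 12, 14, 19, 18, 20, 15, 16, 17]) (.cons 14 (.emb 237 false
  [0, 1, 2, 3, 4, 6, 5, 8, 7, 9, 10, 11, 14, 12, 13, 19, 18, 20, 15, 16, 17]) (.cons 15 (.emb
  237 false [0, 1, 2, 3, 5, 6, 4, 8, 7, 9, 10, 11, 15, 16, 17, 19, 18, 20, 12, 13, 14]) (.cons
  16 (.emb 237 false [0, 1, 2, 3, 5, 6, 4, 8, 7, 9, 10, 11, 16, 15, 17, 19, 18, 20, 12, 13, 14])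
  (.cons 17 (.emb 237 false [0, 1, 2, 3, 5, 6, 4, 8, 7, 9, 10, 11, 17, 15, 16, 19, 18, 20, 12,
  13, 14]) .nil)))))) (.cons 20 (.fill 8 23 (.emb 241 false [0, 1, 2, 3, 4, 6, 5, 7, 8, 9, 10,
  11, 12, 20, 15, 16, 17, 21, 22, 23]) (.cons 13 (.emb 237 false [0, 1, 2, 3, 4, 6, 5, 8, 7, 9,
  10, 11, 13, 12, 14, 20, 18, 19, 15, 16, 17]) (.cons 14 (.emb 237 false [0, 1, 2, 3, 4, 6, 5,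
  8, 7, 9, 10, 11, 14, 12, 13, 20, 18, 19, 15, 16, 17]) (.cons 15 (.emb 237 false [0, 1, 2, 3,
  5, 6, 4, 8, 7, 9, 10, 11, 15, 16, 17, 20, 18, 19, 12, 13, 14]) (.cons 16 (.emb 237 false [0,
  1, 2, 3, 5, 6, 4, 8, 7, 9, 10, 11, 16, 15, 17, 20, 18, 19, 12, 13, 14]) (.cons 17 (.emb 237
  false [0, 1, 2, 3, 5, 6, 4, 8, 7, 9, 10, 11, 17, 15, 16, 20, 18, 19, 12, 13, 14]) .nil))))))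
  .nil))))))))) (.cons 4 (.emb 230 false [0, 1, 2, 3, 4, 5, 6, 8, 7, 9, 10, 11]) (.cons 5 (.emb
  53 true [2, 8, 0, 7, 1, 3, 12, 21]) .nil))))⟩

noncomputable def e243 : Ent := ⟨3, [⟨0, true, 3, 3, [1, 2, 3]⟩, ⟨1, false, 3, 4, [0, 4, 5, 6]⟩, ⟨2, false, 3,
  3, [0, 7, 8]⟩, ⟨3, false, 4, 4, [0, 9, 10, 11]⟩, ⟨4, true, 4, 5, [1, 13]⟩, ⟨5, true, 4, 4, [1,
  14, 15, 16]⟩, ⟨6, true, 4, 4, [1, 17, 18, 19]⟩, ⟨7, true, 3, 3, [2, 12, 20]⟩, ⟨8, true, 3, 5,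
  [2, 13]⟩, ⟨9, true, 3, 5, [3]⟩, ⟨10, true, 3, 5, [3]⟩, ⟨11, true, 3, 5, [3]⟩, ⟨12, false, 4,
  5, [7]⟩, ⟨13, false, 3, 3, [4, 8, 21]⟩, ⟨14, false, 3, 5, [5]⟩, ⟨15, false, 3, 5, [5]⟩, ⟨16,
  false, 3, 5, [5]⟩, ⟨17, false, 3, 5, [6]⟩, ⟨18, false, 3, 5, [6]⟩, ⟨19, false, 3, 5, [6]⟩,
  ⟨20, false, 3, 5, [7]⟩, ⟨21, true, 3, 5, [13]⟩], .cert (.vert 1 (.cons 0 .nil (.cons 4 (.vert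
  2 (.cons 0 .nil (.cons 7 (.vert 0 (.cons 3 .nil .nil)) (.cons 8 (.vert 0 (.cons 3 (.vert 13
  (.cons 21 .nil .nil)) .nil)) .nil)))) (.cons 5 (.vert 0 (.cons 2 (.vert 7 (.cons 12 .nil
  (.cons 20 .nil .nil))) (.cons 3 .nil .nil))) (.cons 6 (.vert 0 (.cons 2 (.vert 7 (.cons 12
  .nil (.cons 20 .nil .nil))) (.cons 3 .nil .nil))) .nil)))))⟩

noncomputable def e244 : Ent := ⟨3, [⟨0, true, 3, 3, [1, 2, 3]⟩, ⟨1, false, 4, 4, [0, 4, 5, 6]⟩, ⟨2, false, 3,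
  3, [0, 7, 8]⟩, ⟨3, false, 4, 5, [0]⟩, ⟨4, true, 3, 5, [1, 9, 10, 11]⟩, ⟨5, true, 4, 4, [1, 12,
  13, 14]⟩, ⟨6, true, 3, 5, [1, 15, 16, 17]⟩, ⟨7, true, 3, 3, [2, 9, 18]⟩, ⟨8, true, 3, 3, [2,
  12, 19]⟩, ⟨9, false, 4, 5, [4, 7]⟩, ⟨10, false, 3, 5, [4]⟩, ⟨11, false, 3, 5, [4]⟩, ⟨12,
  false, 3, 5, [5, 8]⟩, ⟨13, false, 3, 5, [5]⟩, ⟨14, false, 3, 5, [5]⟩, ⟨15, false, 3, 5, [6]⟩,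
  ⟨16, false, 3, 5, [6]⟩, ⟨17, false, 3, 5, [6]⟩, ⟨18, false, 3, 5, [7]⟩, ⟨19, false, 3, 5,
  [8]⟩], .cert (.vert 0 (.cons 1 (.vert 7 (.cons 2 .nil (.cons 9 (.vert 2 (.cons 8 .nil .nil))
  (.cons 18 (.vert 2 (.cons 8 .nil .nil)) .nil)))) (.cons 2 (.edge 12 5 (.vert 7 (.cons 9 .nil
  (.cons 18 .nil .nil))) (.vert 8 (.cons 19 (.vert 1 (.cons 4 .nil (.cons 6 .nil .nil))) .nil)))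
  (.cons 3 (.vert 7 (.cons 2 .nil (.cons 9 (.vert 2 (.cons 8 .nil .nil)) (.cons 18 (.vert 2
  (.cons 8 .nil .nil)) .nil)))) .nil))))⟩

noncomputable def e245 : Ent := ⟨3, [⟨0, true, 3, 3, [1, 2, 3]⟩, ⟨1, false, 4, 4, [0, 4, 5, 6]⟩, ⟨2, false, 3,
  3, [0, 7, 8]⟩, ⟨3, false, 4, 4, [0, 9, 10, 11]⟩, ⟨4, true, 4, 4, [1, 12, 13, 14]⟩, ⟨5, true,
  4, 4, [1, 15, 16, 17]⟩, ⟨6, true, 4, 4, [1, 18, 19, 20]⟩, ⟨7, true, 3, 3, [2, 12, 21]⟩, ⟨8,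
  true, 3, 5, [2]⟩, ⟨9, true, 3, 5, [3]⟩, ⟨10, true, 3, 5, [3]⟩, ⟨11, true, 3, 5, [3]⟩, ⟨12,
  false, 4, 5, [4, 7]⟩, ⟨13, false, 3, 5, [4]⟩, ⟨14, false, 3, 5, [4]⟩, ⟨15, false, 3, 5, [5]⟩,
  ⟨16, false, 3, 5, [5]⟩, ⟨17, false, 3, 5, [5]⟩, ⟨18, false, 3, 5, [6]⟩, ⟨19, false, 3, 5,
  [6]⟩, ⟨20, false, 3, 5, [6]⟩, ⟨21, false, 3, 5, [7]⟩], .split (.deg 8 (.cons 3 (.fill 8 22
  (.fill 8 23 (.emb 229 false [0, 1, 2, 3, 4, 5, 6, 8, 7, 12, 13, 14, 15, 16, 17, 18, 19, 20,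
  22, 23]) (.cons 13 (.emb 238 false [0, 1, 2, 3, 4, 5, 6, 7, 8, 12, 13, 14, 15, 16, 17, 18, 19,
  20, 21, 22]) (.cons 14 (.emb 238 false [0, 1, 2, 3, 4, 5, 6, 7, 8, 12, 14, 13, 15, 16, 17, 18,
  19, 20, 21, 22]) (.cons 15 (.emb 244 false [0, 1, 2, 3, 4, 5, 6, 7, 8, 12, 13, 14, 15, 16, 17,
  18, 19, 20, 21, 22]) (.cons 16 (.emb 244 false [0, 1, 2, 3, 4, 5, 6, 7, 8, 12, 13, 14, 16, 15,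
  17, 18, 19, 20, 21, 22]) (.cons 17 (.emb 244 false [0, 1, 2, 3, 4, 5, 6, 7, 8, 12, 13, 14, 17,
  15, 16, 18, 19, 20, 21, 22]) (.cons 18 (.emb 244 false [0, 1, 2, 3, 4, 6, 5, 7, 8, 12, 13, 14,
  18, 19, 20, 15, 16, 17, 21, 22]) (.cons 19 (.emb 244 false [0, 1, 2, 3, 4, 6, 5, 7, 8, 12, 13,
  14, 19, 18, 20, 15, 16, 17, 21, 22]) (.cons 20 (.emb 244 false [0, 1, 2, 3, 4, 6, 5, 7, 8, 12,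
  13, 14, 20, 18, 19, 15, 16, 17, 21, 22]) .nil))))))))) (.cons 13 (.fill 8 22 (.emb 238 false
  [0, 1, 2, 3, 4, 5, 6, 7, 8, 12, 13, 14, 15, 16, 17, 18, 19, 20, 21, 22]) (.cons 15 (.emb 237
  false [0, 1, 2, 3, 4, 5, 6, 8, 7, 9, 10, 11, 13, 12, 14, 15, 16, 17, 18, 19, 20]) (.cons 16
  (.emb 237 false [0, 1, 2, 3, 4, 5, 6, 8, 7, 9, 10, 11, 13, 12, 14, 16, 15, 17, 18, 19, 20])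
  (.cons 17 (.emb 237 false [0, 1, 2, 3, 4, 5, 6, 8, 7, 9, 10, 11, 13, 12, 14, 17, 15, 16, 18,
  19, 20]) (.cons 18 (.emb 237 false [0, 1, 2, 3, 4, 6, 5, 8, 7, 9, 10, 11, 13, 12, 14, 18, 19,
  20, 15, 16, 17]) (.cons 19 (.emb 237 false [0, 1, 2, 3, 4, 6, 5, 8, 7, 9, 10, 11, 13, 12, 14,
  19, 18, 20, 15, 16, 17]) (.cons 20 (.emb 237 false [0, 1, 2, 3, 4, 6, 5, 8, 7, 9, 10, 11, 13,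
  12, 14, 20, 18, 19, 15, 16, 17]) .nil))))))) (.cons 14 (.fill 8 22 (.emb 238 false [0, 1, 2,
  3, 4, 5, 6, 7, 8, 12, 14, 13, 15, 16, 17, 18, 19, 20, 21, 22]) (.cons 15 (.emb 237 false [0,
  1, 2, 3, 4, 5, 6, 8, 7, 9, 10, 11, 14, 12, 13, 15, 16, 17, 18, 19, 20]) (.cons 16 (.emb 237
  false [0, 1, 2, 3, 4, 5, 6, 8, 7, 9, 10, 11, 14, 12, 13, 16, 15, 17, 18, 19, 20]) (.cons 17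
  (.emb 237 false [0, 1, 2, 3, 4, 5, 6, 8, 7, 9, 10, 11, 14, 12, 13, 17, 15, 16, 18, 19, 20])
  (.cons 18 (.emb 237 false [0, 1, 2, 3, 4, 6, 5, 8, 7, 9, 10, 11, 14, 12, 13, 18, 19, 20, 15,
  16, 17]) (.cons 19 (.emb 237 false [0, 1, 2, 3, 4, 6, 5, 8, 7, 9, 10, 11, 14, 12, 13, 19, 18,
  20, 15, 16, 17]) (.cons 20 (.emb 237 false [0, 1, 2, 3, 4, 6, 5, 8, 7, 9, 10, 11, 14, 12, 13,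
  20, 18, 19, 15, 16, 17]) .nil))))))) (.cons 15 (.fill 8 22 (.emb 244 false [0, 1, 2, 3, 4, 5,
  6, 7, 8, 12, 13, 14, 15, 16, 17, 18, 19, 20, 21, 22]) (.cons 13 (.emb 237 false [0, 1, 2, 3,
  4, 5, 6, 8, 7, 9, 10, 11, 13, 12, 14, 15, 16, 17, 18, 19, 20]) (.cons 14 (.emb 237 false [0,
  1, 2, 3, 4, 5, 6, 8, 7, 9, 10, 11, 14, 12, 13, 15, 16, 17, 18, 19, 20]) (.cons 18 (.emb 237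
  false [0, 1, 2, 3, 5, 6, 4, 8, 7, 9, 10, 11, 15, 16, 17, 18, 19, 20, 12, 13, 14]) (.cons 19
  (.emb 237 false [0, 1, 2, 3, 5, 6, 4, 8, 7, 9, 10, 11, 15, 16, 17, 19, 18, 20, 12, 13, 14])
  (.cons 20 (.emb 237 false [0, 1, 2, 3, 5, 6, 4, 8, 7, 9, 10, 11, 15, 16, 17, 20, 18, 19, 12,
  13, 14]) .nil)))))) (.cons 16 (.fill 8 22 (.emb 244 false [0, 1, 2, 3, 4, 5, 6, 7, 8, 12, 13,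
  14, 16, 15, 17, 18, 19, 20, 21, 22]) (.cons 13 (.emb 237 false [0, 1, 2, 3, 4, 5, 6, 8, 7, 9,
  10, 11, 13, 12, 14, 16, 15, 17, 18, 19, 20]) (.cons 14 (.emb 237 false [0, 1, 2, 3, 4, 5, 6,
  8, 7, 9, 10, 11, 14, 12, 13, 16, 15, 17, 18, 19, 20]) (.cons 18 (.emb 237 false [0, 1, 2, 3,
  5, 6, 4, 8, 7, 9, 10, 11, 16, 15, 17, 18, 19, 20, 12, 13, 14]) (.cons 19 (.emb 237 false [0,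
  1, 2, 3, 5, 6, 4, 8, 7, 9, 10, 11, 16, 15, 17, 19, 18, 20, 12, 13, 14]) (.cons 20 (.emb 237
  false [0, 1, 2, 3, 5, 6, 4, 8, 7, 9, 10, 11, 16, 15, 17, 20, 18, 19, 12, 13, 14]) .nil))))))
  (.cons 17 (.fill 8 22 (.emb 244 false [0, 1, 2, 3, 4, 5, 6, 7, 8, 12, 13, 14, 17, 15, 16, 18,
  19, 20, 21, 22]) (.cons 13 (.emb 237 false [0, 1, 2, 3, 4, 5, 6, 8, 7, 9, 10, 11, 13, 12, 14,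
  17, 15, 16, 18, 19, 20]) (.cons 14 (.emb 237 false [0, 1, 2, 3, 4, 5, 6, 8, 7, 9, 10, 11, 14,
  12, 13, 17, 15, 16, 18, 19, 20]) (.cons 18 (.emb 237 false [0, 1, 2, 3, 5, 6, 4, 8, 7, 9, 10,
  11, 17, 15, 16, 18, 19, 20, 12, 13, 14]) (.cons 19 (.emb 237 false [0, 1, 2, 3, 5, 6, 4, 8, 7,
  9, 10, 11, 17, 15, 16, 19, 18, 20, 12, 13, 14]) (.cons 20 (.emb 237 false [0, 1, 2, 3, 5, 6,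
  4, 8, 7, 9, 10, 11, 17, 15, 16, 20, 18, 19, 12, 13, 14]) .nil)))))) (.cons 18 (.fill 8 22
  (.emb 244 false [0, 1, 2, 3, 4, 6, 5, 7, 8, 12, 13, 14, 18, 19, 20, 15, 16, 17, 21, 22])
  (.cons 13 (.emb 237 false [0, 1, 2, 3, 4, 6, 5, 8, 7, 9, 10, 11, 13, 12, 14, 18, 19, 20, 15,
  16, 17]) (.cons 14 (.emb 237 false [0, 1, 2, 3, 4, 6, 5, 8, 7, 9, 10, 11, 14, 12, 13, 18, 19,
  20, 15, 16, 17]) (.cons 15 (.emb 237 false [0, 1, 2, 3, 5, 6, 4, 8, 7, 9, 10, 11, 15, 16, 17,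
  18, 19, 20, 12, 13, 14]) (.cons 16 (.emb 237 false [0, 1, 2, 3, 5, 6, 4, 8, 7, 9, 10, 11, 16,
  15, 17, 18, 19, 20, 12, 13, 14]) (.cons 17 (.emb 237 false [0, 1, 2, 3, 5, 6, 4, 8, 7, 9, 10,
  11, 17, 15, 16, 18, 19, 20, 12, 13, 14]) .nil)))))) (.cons 19 (.fill 8 22 (.emb 244 false [0,
  1, 2, 3, 4, 6, 5, 7, 8, 12, 13, 14, 19, 18, 20, 15, 16, 17, 21, 22]) (.cons 13 (.emb 237 false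
  [0, 1, 2, 3, 4, 6, 5, 8, 7, 9, 10, 11, 13, 12, 14, 19, 18, 20, 15, 16, 17]) (.cons 14 (.emb
  237 false [0, 1, 2, 3, 4, 6, 5, 8, 7, 9, 10, 11, 14, 12, 13, 19, 18, 20, 15, 16, 17]) (.cons
  15 (.emb 237 false [0, 1, 2, 3, 5, 6, 4, 8, 7, 9, 10, 11, 15, 16, 17, 19, 18, 20, 12, 13, 14])
  (.cons 16 (.emb 237 false [0, 1, 2, 3, 5, 6, 4, 8, 7, 9, 10, 11, 16, 15, 17, 19, 18, 20, 12,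
  13, 14]) (.cons 17 (.emb 237 false [0, 1, 2, 3, 5, 6, 4, 8, 7, 9, 10, 11, 17, 15, 16, 19, 18,
  20, 12, 13, 14]) .nil)))))) (.cons 20 (.fill 8 22 (.emb 244 false [0, 1, 2, 3, 4, 6, 5, 7, 8,
  12, 13, 14, 20, 18, 19, 15, 16, 17, 21, 22]) (.cons 13 (.emb 237 false [0, 1, 2, 3, 4, 6, 5,
  8, 7, 9, 10, 11, 13, 12, 14, 20, 18, 19, 15, 16, 17]) (.cons 14 (.emb 237 false [0, 1, 2, 3,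
  4, 6, 5, 8, 7, 9, 10, 11, 14, 12, 13, 20, 18, 19, 15, 16, 17]) (.cons 15 (.emb 237 false [0,
  1, 2, 3, 5, 6, 4, 8, 7, 9, 10, 11, 15, 16, 17, 20, 18, 19, 12, 13, 14]) (.cons 16 (.emb 237
  false [0, 1, 2, 3, 5, 6, 4, 8, 7, 9, 10, 11, 16, 15, 17, 20, 18, 19, 12, 13, 14]) (.cons 17
  (.emb 237 false [0, 1, 2, 3, 5, 6, 4, 8, 7, 9, 10, 11, 17, 15, 16, 20, 18, 19, 12, 13, 14])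
  .nil)))))) .nil))))))))) (.cons 4 (.emb 176 true [2, 8, 0, 7, 1, 3, 12, 21, 4, 5, 6, 9, 10,
  11]) (.cons 5 (.emb 53 true [2, 8, 0, 7, 1, 3, 12, 21]) .nil))))⟩

noncomputable def part6 : List Ent := [e214, e215, e216, e217, e218, e219, e220, e221, e222,
  e223, e224, e225, e226, e227, e228, e229, e230, e231, e232, e233, e234, e235, e236, e237,
  e238, e239, e240, e241, e242, e243, e244, e245]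

end Pool.Agent.Helper76.PC
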