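import Pool.Agent.Helper76.PC.Defs

/-! MP_c33217_co: library of reducible configurations, part 7 (machine generated). -/

namespace Pool.Agent.Helper76.PC

noncomputable def e246 : Ent := ⟨3, [⟨0, true, 3, 3, [1, 2, 3]⟩, ⟨1, false, 4, 4, [0, 4, 5, 6]⟩, ⟨2, false, 3,
  3, [0, 7, 8]⟩, ⟨3, false, 4, 4, [0, 9, 10, 11]⟩, ⟨4, true, 4, 4, [1, 12, 13, 14]⟩, ⟨5, true,
  4, 4, [1, 15, 16, 17]⟩, ⟨6, true, 4, 4, [1, 18, 19, 20]⟩, ⟨7, true, 3, 3, [2, 12, 21]⟩, ⟨8,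
  true, 3, 5, [2]⟩, ⟨9, true, 3, 5, [3]⟩, ⟨10, true, 3, 5, [3]⟩, ⟨11, true, 3, 5, [3]⟩, ⟨12,
  false, 3, 5, [4, 7]⟩, ⟨13, false, 3, 5, [4]⟩, ⟨14, false, 3, 5, [4]⟩, ⟨15, false, 3, 5, [5]⟩,
  ⟨16, false, 3, 5, [5]⟩, ⟨17, false, 3, 5, [5]⟩, ⟨18, false, 3, 5, [6]⟩, ⟨19, false, 3, 5,
  [6]⟩, ⟨20, false, 3, 5, [6]⟩, ⟨21, false, 3, 5, [7]⟩], .split (.deg 12 (.cons 3 (.fill 12 22
  (.emb 242 false [0, 1, 2, 3, 4, 5, 6, 7, 8, 9, 10, 11, 12, 13, 14, 15, 16, 17, 18, 19, 20, 21,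
  22]) (.cons 9 (.emb 232 false [0, 1, 2, 3, 4, 6, 5, 7, 8, 9, 10, 11, 12, 13, 14, 21, 15, 16,
  17]) (.cons 10 (.emb 232 false [0, 1, 2, 3, 4, 6, 5, 7, 8, 10, 9, 11, 12, 13, 14, 21, 15, 16,
  17]) (.cons 11 (.emb 232 false [0, 1, 2, 3, 4, 6, 5, 7, 8, 11, 9, 10, 12, 13, 14, 21, 15, 16,
  17]) .nil)))) (.cons 4 (.emb 245 false [0, 1, 2, 3, 4, 5, 6, 7, 8, 9, 10, 11, 12, 13, 14, 15,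
  16, 17, 18, 19, 20, 21]) (.cons 5 (.emb 61 false [7, 12, 2, 21, 0, 8]) .nil))))⟩

noncomputable def e247 : Ent := ⟨3, [⟨0, true, 3, 3, [1, 2, 3]⟩, ⟨1, false, 4, 4, [0, 4, 5, 6]⟩, ⟨2, false, 3,
  3, [0, 7, 8]⟩, ⟨3, false, 4, 4, [0, 9, 10, 11]⟩, ⟨4, true, 4, 4, [1, 12, 13, 14]⟩, ⟨5, true,
  4, 4, [1, 15, 16, 17]⟩, ⟨6, true, 4, 4, [1, 18, 19, 20]⟩, ⟨7, true, 3, 5, [2]⟩, ⟨8, true, 3,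
  5, [2]⟩, ⟨9, true, 3, 5, [3]⟩, ⟨10, true, 3, 5, [3]⟩, ⟨11, true, 3, 5, [3]⟩, ⟨12, false, 3, 5,
  [4]⟩, ⟨13, false, 3, 5, [4]⟩, ⟨14, false, 3, 5, [4]⟩, ⟨15, false, 3, 5, [5]⟩, ⟨16, false, 3,
  5, [5]⟩, ⟨17, false, 3, 5, [5]⟩, ⟨18, false, 3, 5, [6]⟩, ⟨19, false, 3, 5, [6]⟩, ⟨20, false,
  3, 5, [6]⟩], .split (.deg 7 (.cons 3 (.fill 7 21 (.fill 7 22 (.emb 229 false [0, 1, 2, 3, 4,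
  5, 6, 7, 8, 12, 13, 14, 15, 16, 17, 18, 19, 20, 21, 22]) (.cons 12 (.emb 246 false [0, 1, 2,
  3, 4, 5, 6, 7, 8, 9, 10, 11, 12, 13, 14, 15, 16, 17, 18, 19, 20, 21]) (.cons 13 (.emb 246
  false [0, 1, 2, 3, 4, 5, 6, 7, 8, 9, 10, 11, 13, 12, 14, 15, 16, 17, 18, 19, 20, 21]) (.cons
  14 (.emb 246 false [0, 1, 2, 3, 4, 5, 6, 7, 8, 9, 10, 11, 14, 12, 13, 15, 16, 17, 18, 19, 20,
  21]) (.cons 15 (.emb 246 false [0, 1, 2, 3, 5, 4, 6, 7, 8, 9, 10, 11, 15, 16, 17, 12, 13, 14,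
  18, 19, 20, 21]) (.cons 16 (.emb 246 false [0, 1, 2, 3, 5, 4, 6, 7, 8, 9, 10, 11, 16, 15, 17,
  12, 13, 14, 18, 19, 20, 21]) (.cons 17 (.emb 246 false [0, 1, 2, 3, 5, 4, 6, 7, 8, 9, 10, 11,
  17, 15, 16, 12, 13, 14, 18, 19, 20, 21]) (.cons 18 (.emb 246 false [0, 1, 2, 3, 6, 4, 5, 7, 8,
  9, 10, 11, 18, 19, 20, 12, 13, 14, 15, 16, 17, 21]) (.cons 19 (.emb 246 false [0, 1, 2, 3, 6,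
  4, 5, 7, 8, 9, 10, 11, 19, 18, 20, 12, 13, 14, 15, 16, 17, 21]) (.cons 20 (.emb 246 false [0,
  1, 2, 3, 6, 4, 5, 7, 8, 9, 10, 11, 20, 18, 19, 12, 13, 14, 15, 16, 17, 21]) .nil))))))))))
  (.cons 12 (.fill 7 21 (.emb 246 false [0, 1, 2, 3, 4, 5, 6, 7, 8, 9, 10, 11, 12, 13, 14, 15,
  16, 17, 18, 19, 20, 21]) (.cons 15 (.emb 237 false [0, 1, 2, 3, 4, 5, 6, 7, 8, 9, 10, 11, 12,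
  13, 14, 15, 16, 17, 18, 19, 20]) (.cons 16 (.emb 237 false [0, 1, 2, 3, 4, 5, 6, 7, 8, 9, 10,
  11, 12, 13, 14, 16, 15, 17, 18, 19, 20]) (.cons 17 (.emb 237 false [0, 1, 2, 3, 4, 5, 6, 7, 8,
  9, 10, 11, 12, 13, 14, 17, 15, 16, 18, 19, 20]) (.cons 18 (.emb 237 false [0, 1, 2, 3, 4, 6,
  5, 7, 8, 9, 10, 11, 12, 13, 14, 18, 19, 20, 15, 16, 17]) (.cons 19 (.emb 237 false [0, 1, 2,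
  3, 4, 6, 5, 7, 8, 9, 10, 11, 12, 13, 14, 19, 18, 20, 15, 16, 17]) (.cons 20 (.emb 237 false
  [0, 1, 2, 3, 4, 6, 5, 7, 8, 9, 10, 11, 12, 13, 14, 20, 18, 19, 15, 16, 17]) .nil))))))) (.cons
  13 (.fill 7 21 (.emb 246 false [0, 1, 2, 3, 4, 5, 6, 7, 8, 9, 10, 11, 13, 12, 14, 15, 16, 17,
  18, 19, 20, 21]) (.cons 15 (.emb 237 false [0, 1, 2, 3, 4, 5, 6, 7, 8, 9, 10, 11, 13, 12, 14,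
  15, 16, 17, 18, 19, 20]) (.cons 16 (.emb 237 false [0, 1, 2, 3, 4, 5, 6, 7, 8, 9, 10, 11, 13,
  12, 14, 16, 15, 17, 18, 19, 20]) (.cons 17 (.emb 237 false [0, 1, 2, 3, 4, 5, 6, 7, 8, 9, 10,
  11, 13, 12, 14, 17, 15, 16, 18, 19, 20]) (.cons 18 (.emb 237 false [0, 1, 2, 3, 4, 6, 5, 7, 8,
  9, 10, 11, 13, 12, 14, 18, 19, 20, 15, 16, 17]) (.cons 19 (.emb 237 false [0, 1, 2, 3, 4, 6,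
  5, 7, 8, 9, 10, 11, 13, 12, 14, 19, 18, 20, 15, 16, 17]) (.cons 20 (.emb 237 false [0, 1, 2,
  3, 4, 6, 5, 7, 8, 9, 10, 11, 13, 12, 14, 20, 18, 19, 15, 16, 17]) .nil))))))) (.cons 14 (.fill
  7 21 (.emb 246 false [0, 1, 2, 3, 4, 5, 6, 7, 8, 9, 10, 11, 14, 12, 13, 15, 16, 17, 18, 19,
  20, 21]) (.cons 15 (.emb 237 false [0, 1, 2, 3, 4, 5, 6, 7, 8, 9, 10, 11, 14, 12, 13, 15, 16,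
  17, 18, 19, 20]) (.cons 16 (.emb 237 false [0, 1, 2, 3, 4, 5, 6, 7, 8, 9, 10, 11, 14, 12, 13,
  16, 15, 17, 18, 19, 20]) (.cons 17 (.emb 237 false [0, 1, 2, 3, 4, 5, 6, 7, 8, 9, 10, 11, 14,
  12, 13, 17, 15, 16, 18, 19, 20]) (.cons 18 (.emb 237 false [0, 1, 2, 3, 4, 6, 5, 7, 8, 9, 10,
  11, 14, 12, 13, 18, 19, 20, 15, 16, 17]) (.cons 19 (.emb 237 false [0, 1, 2, 3, 4, 6, 5, 7, 8,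
  9, 10, 11, 14, 12, 13, 19, 18, 20, 15, 16, 17]) (.cons 20 (.emb 237 false [0, 1, 2, 3, 4, 6,
  5, 7, 8, 9, 10, 11, 14, 12, 13, 20, 18, 19, 15, 16, 17]) .nil))))))) (.cons 15 (.fill 7 21
  (.emb 246 false [0, 1, 2, 3, 5, 4, 6, 7, 8, 9, 10, 11, 15, 16, 17, 12, 13, 14, 18, 19, 20,
  21]) (.cons 12 (.emb 237 false [0, 1, 2, 3, 4, 5, 6, 7, 8, 9, 10, 11, 12, 13, 14, 15, 16, 17,
  18, 19, 20]) (.cons 13 (.emb 237 false [0, 1, 2, 3, 4, 5, 6, 7, 8, 9, 10, 11, 13, 12, 14, 15,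
  16, 17, 18, 19, 20]) (.cons 14 (.emb 237 false [0, 1, 2, 3, 4, 5, 6, 7, 8, 9, 10, 11, 14, 12,
  13, 15, 16, 17, 18, 19, 20]) (.cons 18 (.emb 237 false [0, 1, 2, 3, 5, 6, 4, 7, 8, 9, 10, 11,
  15, 16, 17, 18, 19, 20, 12, 13, 14]) (.cons 19 (.emb 237 false [0, 1, 2, 3, 5, 6, 4, 7, 8, 9,
  10, 11, 15, 16, 17, 19, 18, 20, 12, 13, 14]) (.cons 20 (.emb 237 false [0, 1, 2, 3, 5, 6, 4,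
  7, 8, 9, 10, 11, 15, 16, 17, 20, 18, 19, 12, 13, 14]) .nil))))))) (.cons 16 (.fill 7 21 (.emb
  246 false [0, 1, 2, 3, 5, 4, 6, 7, 8, 9, 10, 11, 16, 15, 17, 12, 13, 14, 18, 19, 20, 21])
  (.cons 12 (.emb 237 false [0, 1, 2, 3, 4, 5, 6, 7, 8, 9, 10, 11, 12, 13, 14, 16, 15, 17, 18,
  19, 20]) (.cons 13 (.emb 237 false [0, 1, 2, 3, 4, 5, 6, 7, 8, 9, 10, 11, 13, 12, 14, 16, 15,
  17, 18, 19, 20]) (.cons 14 (.emb 237 false [0, 1, 2, 3, 4, 5, 6, 7, 8, 9, 10, 11, 14, 12, 13,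
  16, 15, 17, 18, 19, 20]) (.cons 18 (.emb 237 false [0, 1, 2, 3, 5, 6, 4, 7, 8, 9, 10, 11, 16,
  15, 17, 18, 19, 20, 12, 13, 14]) (.cons 19 (.emb 237 false [0, 1, 2, 3, 5, 6, 4, 7, 8, 9, 10,
  11, 16, 15, 17, 19, 18, 20, 12, 13, 14]) (.cons 20 (.emb 237 false [0, 1, 2, 3, 5, 6, 4, 7, 8,
  9, 10, 11, 16, 15, 17, 20, 18, 19, 12, 13, 14]) .nil))))))) (.cons 17 (.fill 7 21 (.emb 246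
  false [0, 1, 2, 3, 5, 4, 6, 7, 8, 9, 10, 11, 17, 15, 16, 12, 13, 14, 18, 19, 20, 21]) (.cons
  12 (.emb 237 false [0, 1, 2, 3, 4, 5, 6, 7, 8, 9, 10, 11, 12, 13, 14, 17, 15, 16, 18, 19, 20])
  (.cons 13 (.emb 237 false [0, 1, 2, 3, 4, 5, 6, 7, 8, 9, 10, 11, 13, 12, 14, 17, 15, 16, 18,
  19, 20]) (.cons 14 (.emb 237 false [0, 1, 2, 3, 4, 5, 6, 7, 8, 9, 10, 11, 14, 12, 13, 17, 15,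
  16, 18, 19, 20]) (.cons 18 (.emb 237 false [0, 1, 2, 3, 5, 6, 4, 7, 8, 9, 10, 11, 17, 15, 16,
  18, 19, 20, 12, 13, 14]) (.cons 19 (.emb 237 false [0, 1, 2, 3, 5, 6, 4, 7, 8, 9, 10, 11, 17,
  15, 16, 19, 18, 20, 12, 13, 14]) (.cons 20 (.emb 237 false [0, 1, 2, 3, 5, 6, 4, 7, 8, 9, 10,
  11, 17, 15, 16, 20, 18, 19, 12, 13, 14]) .nil))))))) (.cons 18 (.fill 7 21 (.emb 246 false [0,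
  1, 2, 3, 6, 4, 5, 7, 8, 9, 10, 11, 18, 19, 20, 12, 13, 14, 15, 16, 17, 21]) (.cons 12 (.emb
  237 false [0, 1, 2, 3, 4, 6, 5, 7, 8, 9, 10, 11, 12, 13, 14, 18, 19, 20, 15, 16, 17]) (.cons
  13 (.emb 237 false [0, 1, 2, 3, 4, 6, 5, 7, 8, 9, 10, 11, 13, 12, 14, 18, 19, 20, 15, 16, 17])
  (.cons 14 (.emb 237 false [0, 1, 2, 3, 4, 6, 5, 7, 8, 9, 10, 11, 14, 12, 13, 18, 19, 20, 15,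
  16, 17]) (.cons 15 (.emb 237 false [0, 1, 2, 3, 5, 6, 4, 7, 8, 9, 10, 11, 15, 16, 17, 18, 19,
  20, 12, 13, 14]) (.cons 16 (.emb 237 false [0, 1, 2, 3, 5, 6, 4, 7, 8, 9, 10, 11, 16, 15, 17,
  18, 19, 20, 12, 13, 14]) (.cons 17 (.emb 237 false [0, 1, 2, 3, 5, 6, 4, 7, 8, 9, 10, 11, 17,
  15, 16, 18, 19, 20, 12, 13, 14]) .nil))))))) (.cons 19 (.fill 7 21 (.emb 246 false [0, 1, 2,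
  3, 6, 4, 5, 7, 8, 9, 10, 11, 19, 18, 20, 12, 13, 14, 15, 16, 17, 21]) (.cons 12 (.emb 237
  false [0, 1, 2, 3, 4, 6, 5, 7, 8, 9, 10, 11, 12, 13, 14, 19, 18, 20, 15, 16, 17]) (.cons 13
  (.emb 237 false [0, 1, 2, 3, 4, 6, 5, 7, 8, 9, 10, 11, 13, 12, 14, 19, 18, 20, 15, 16, 17])
  (.cons 14 (.emb 237 false [0, 1, 2, 3, 4, 6, 5, 7, 8, 9, 10, 11, 14, 12, 13, 19, 18, 20, 15,
  16, 17]) (.cons 15 (.emb 237 false [0, 1, 2, 3, 5, 6, 4, 7, 8, 9, 10, 11, 15, 16, 17, 19, 18,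
  20, 12, 13, 14]) (.cons 16 (.emb 237 false [0, 1, 2, 3, 5, 6, 4, 7, 8, 9, 10, 11, 16, 15, 17,
  19, 18, 20, 12, 13, 14]) (.cons 17 (.emb 237 false [0, 1, 2, 3, 5, 6, 4, 7, 8, 9, 10, 11, 17,
  15, 16, 19, 18, 20, 12, 13, 14]) .nil))))))) (.cons 20 (.fill 7 21 (.emb 246 false [0, 1, 2,
  3, 6, 4, 5, 7, 8, 9, 10, 11, 20, 18, 19, 12, 13, 14, 15, 16, 17, 21]) (.cons 12 (.emb 237
  false [0, 1, 2, 3, 4, 6, 5, 7, 8, 9, 10, 11, 12, 13, 14, 20, 18, 19, 15, 16, 17]) (.cons 13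
  (.emb 237 false [0, 1, 2, 3, 4, 6, 5, 7, 8, 9, 10, 11, 13, 12, 14, 20, 18, 19, 15, 16, 17])
  (.cons 14 (.emb 237 false [0, 1, 2, 3, 4, 6, 5, 7, 8, 9, 10, 11, 14, 12, 13, 20, 18, 19, 15,
  16, 17]) (.cons 15 (.emb 237 false [0, 1, 2, 3, 5, 6, 4, 7, 8, 9, 10, 11, 15, 16, 17, 20, 18,
  19, 12, 13, 14]) (.cons 16 (.emb 237 false [0, 1, 2, 3, 5, 6, 4, 7, 8, 9, 10, 11, 16, 15, 17,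
  20, 18, 19, 12, 13, 14]) (.cons 17 (.emb 237 false [0, 1, 2, 3, 5, 6, 4, 7, 8, 9, 10, 11, 17,
  15, 16, 20, 18, 19, 12, 13, 14]) .nil))))))) .nil)))))))))) (.cons 4 (.emb 230 false [0, 1, 2,
  3, 4, 5, 6, 7, 8, 9, 10, 11]) (.cons 5 (.emb 61 true [2, 7, 0, 8, 1, 3]) .nil))))⟩

noncomputable def e248 : Ent := ⟨3, [⟨0, true, 3, 3, [1, 2, 3]⟩, ⟨1, false, 4, 4, [0, 4, 5, 6]⟩, ⟨2, false, 3,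
  3, [0, 7, 8]⟩, ⟨3, false, 4, 4, [0, 9, 10, 11]⟩, ⟨4, true, 4, 4, [1, 12, 13, 14]⟩, ⟨5, true,
  4, 4, [1, 15, 16, 17]⟩, ⟨6, true, 3, 5, [1]⟩, ⟨7, true, 3, 5, [2]⟩, ⟨8, true, 3, 5, [2]⟩, ⟨9,
  true, 3, 5, [3]⟩, ⟨10, true, 3, 5, [3]⟩, ⟨11, true, 3, 5, [3]⟩, ⟨12, false, 3, 5, [4]⟩, ⟨13,
  false, 3, 5, [4]⟩, ⟨14, false, 3, 5, [4]⟩, ⟨15, false, 3, 5, [5]⟩, ⟨16, false, 3, 5, [5]⟩,
  ⟨17, false, 3, 5, [5]⟩], .split (.deg 6 (.cons 3 (.fill 6 18 (.fill 6 19 (.emb 226 false [0,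
  1, 2, 3, 6, 4, 5, 7, 8, 18, 19]) .nil) .nil) (.cons 4 (.fill 6 18 (.fill 6 19 (.fill 6 20
  (.emb 247 false [0, 1, 2, 3, 4, 5, 6, 7, 8, 9, 10, 11, 12, 13, 14, 15, 16, 17, 18, 19, 20])
  .nil) .nil) .nil) (.cons 5 (.fill 6 18 (.fill 6 19 (.fill 6 20 (.fill 6 21 (.emb 180 false [0,
  1, 2, 3, 6, 18, 19, 20, 21]) .nil) .nil) .nil) .nil) .nil))))⟩

noncomputable def e249 : Ent := ⟨3, [⟨0, true, 3, 3, [1, 2, 3]⟩, ⟨1, false, 4, 4, [0, 4, 5, 6]⟩, ⟨2, false, 3,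
  3, [0, 7, 8]⟩, ⟨3, false, 4, 4, [0, 9, 10, 11]⟩, ⟨4, true, 4, 4, [1, 12, 13, 14]⟩, ⟨5, true,
  3, 5, [1]⟩, ⟨6, true, 3, 5, [1]⟩, ⟨7, true, 3, 5, [2]⟩, ⟨8, true, 3, 5, [2]⟩, ⟨9, true, 3, 5,
  [3]⟩, ⟨10, true, 3, 5, [3]⟩, ⟨11, true, 3, 5, [3]⟩, ⟨12, false, 3, 5, [4]⟩, ⟨13, false, 3, 5,
  [4]⟩, ⟨14, false, 3, 5, [4]⟩], .split (.deg 5 (.cons 3 (.fill 5 15 (.fill 5 16 (.emb 227 false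
  [0, 1, 2, 3, 5, 4, 6, 7, 8, 15, 16]) .nil) .nil) (.cons 4 (.fill 5 15 (.fill 5 16 (.fill 5 17
  (.emb 248 false [0, 1, 2, 3, 4, 5, 6, 7, 8, 9, 10, 11, 12, 13, 14, 15, 16, 17]) .nil) .nil)
  .nil) (.cons 5 (.fill 5 15 (.fill 5 16 (.fill 5 17 (.fill 5 18 (.emb 180 false [0, 1, 2, 3, 5,
  15, 16, 17, 18]) .nil) .nil) .nil) .nil) .nil))))⟩

noncomputable def e250 : Ent := ⟨3, [⟨0, true, 3, 3, [1, 2, 3]⟩, ⟨1, false, 4, 4, [0, 4, 5, 6]⟩, ⟨2, false, 3,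
  3, [0, 7, 8]⟩, ⟨3, false, 4, 4, [0, 9, 10, 11]⟩, ⟨4, true, 3, 5, [1]⟩, ⟨5, true, 3, 5, [1]⟩,
  ⟨6, true, 3, 5, [1]⟩, ⟨7, true, 3, 5, [2]⟩, ⟨8, true, 3, 5, [2]⟩, ⟨9, true, 3, 5, [3]⟩, ⟨10,
  true, 3, 5, [3]⟩, ⟨11, true, 3, 5, [3]⟩], .split (.deg 4 (.cons 3 (.fill 4 12 (.fill 4 13
  (.emb 228 false [0, 1, 2, 3, 4, 5, 6, 7, 8, 12, 13]) .nil) .nil) (.cons 4 (.fill 4 12 (.fill 4
  13 (.fill 4 14 (.emb 249 false [0, 1, 2, 3, 4, 5, 6, 7, 8, 9, 10, 11, 12, 13, 14]) .nil) .nil)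
  .nil) (.cons 5 (.fill 4 12 (.fill 4 13 (.fill 4 14 (.fill 4 15 (.emb 180 false [0, 1, 2, 3, 4,
  12, 13, 14, 15]) .nil) .nil) .nil) .nil) .nil))))⟩

noncomputable def e251 : Ent := ⟨3, [⟨0, true, 3, 3, [1, 2, 3]⟩, ⟨1, false, 4, 4, [0, 4, 5, 6]⟩, ⟨2, false, 3,
  3, [0, 7, 8]⟩, ⟨3, false, 3, 5, [0]⟩, ⟨4, true, 3, 5, [1]⟩, ⟨5, true, 3, 5, [1]⟩, ⟨6, true, 3,
  5, [1]⟩, ⟨7, true, 3, 5, [2]⟩, ⟨8, true, 3, 5, [2]⟩], .split (.deg 3 (.cons 3 (.fill 3 9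
  (.fill 3 10 (.emb 179 false [0, 1, 2, 3, 4, 5, 6, 7, 8, 9, 10]) .nil) .nil) (.cons 4 (.fill 3
  9 (.fill 3 10 (.fill 3 11 (.emb 250 false [0, 1, 2, 3, 4, 5, 6, 7, 8, 9, 10, 11]) .nil) .nil)
  .nil) (.cons 5 (.emb 52 false [0, 3, 1, 2]) .nil))))⟩

noncomputable def e252 : Ent := ⟨3, [⟨0, true, 3, 3, [1, 2, 3]⟩, ⟨1, false, 4, 5, [0]⟩, ⟨2, false, 4, 4, [0,
  4, 5, 6]⟩, ⟨3, false, 3, 5, [0]⟩, ⟨4, true, 3, 5, [2]⟩, ⟨5, true, 3, 5, [2]⟩, ⟨6, true, 3, 5,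
  [2]⟩], .split (.deg 3 (.cons 3 (.fill 3 7 (.fill 3 8 (.emb 251 false [0, 2, 3, 1, 4, 5, 6, 7,
  8]) .nil) .nil) (.cons 4 (.emb 224 false [1, 0, 2, 3]) (.cons 5 (.emb 52 false [0, 3, 1, 2])
  .nil))))⟩

noncomputable def e253 : Ent := ⟨3, [⟨0, true, 3, 3, [1, 2, 3]⟩, ⟨1, false, 4, 4, [0, 4, 5, 6]⟩, ⟨2, false, 3,
  5, [0]⟩, ⟨3, false, 3, 5, [0]⟩, ⟨4, true, 3, 5, [1]⟩, ⟨5, true, 3, 5, [1]⟩, ⟨6, true, 3, 5,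
  [1]⟩], .split (.deg 2 (.cons 3 (.fill 2 7 (.fill 2 8 (.emb 251 false [0, 1, 2, 3, 4, 5, 6, 7,
  8]) .nil) .nil) (.cons 4 (.emb 252 false [0, 2, 1, 3, 4, 5, 6]) (.cons 5 (.emb 52 false [0, 2,
  1, 3]) .nil))))⟩

noncomputable def e254 : Ent := ⟨3, [⟨0, true, 3, 3, [1, 2, 3]⟩, ⟨1, false, 4, 5, [0]⟩, ⟨2, false, 3, 5, [0]⟩,
  ⟨3, false, 3, 5, [0]⟩], .split (.deg 1 (.cons 4 (.fill 1 4 (.fill 1 5 (.fill 1 6 (.emb 253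
  false [0, 1, 2, 3, 4, 5, 6]) .nil) .nil) .nil) (.cons 5 (.emb 62 false [0, 1, 2, 3]) .nil)))⟩

noncomputable def e255 : Ent := ⟨3, [⟨0, true, 3, 3, [1]⟩, ⟨1, false, 4, 5, [0]⟩], .split (.fill 0 2 (.fill 0
  3 (.emb 254 false [0, 1, 2, 3]) .nil) .nil)⟩

noncomputable def e256 : Ent := ⟨3, [⟨0, true, 3, 3, [1, 2, 3]⟩, ⟨1, false, 3, 3, [0, 4, 5]⟩, ⟨2, false, 3, 3,
  [0, 6, 7]⟩, ⟨3, false, 3, 3, [0, 8, 9]⟩, ⟨4, true, 3, 3, [1, 10, 11]⟩, ⟨5, true, 3, 3, [1, 12,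
  13]⟩, ⟨6, true, 3, 3, [2, 10, 12]⟩, ⟨7, true, 3, 3, [2, 11, 14]⟩, ⟨8, true, 3, 3, [3, 10,
  13]⟩, ⟨9, true, 3, 3, [3, 11, 12]⟩, ⟨10, false, 3, 3, [4, 6, 8]⟩, ⟨11, false, 3, 5, [4, 7,
  9]⟩, ⟨12, false, 3, 3, [5, 6, 9]⟩, ⟨13, false, 3, 5, [5, 8]⟩, ⟨14, false, 3, 5, [7]⟩], .cert
  (.vert 4 (.cons 1 (.vert 6 (.cons 2 (.vert 0 (.cons 3 (.vert 10 (.cons 8 .nil .nil)) .nil))
  (.cons 10 (.vert 8 (.cons 3 (.vert 0 (.cons 2 .nil .nil)) (.cons 13 (.vert 5 (.cons 12 .nil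
  .nil)) .nil))) (.cons 12 (.vert 5 (.cons 13 (.vert 10 (.cons 8 .nil .nil)) .nil)) .nil))))
  (.cons 10 (.vert 0 (.cons 1 (.vert 5 (.cons 12 (.vert 6 (.cons 2 .nil .nil)) (.cons 13 (.vert
  8 (.cons 3 .nil .nil)) .nil))) (.cons 2 (.vert 1 (.cons 5 (.vert 6 (.cons 12 .nil .nil))
  .nil)) (.cons 3 (.vert 1 (.cons 5 (.vert 8 (.cons 13 .nil .nil)) .nil)) .nil)))) (.cons 11
  (.contr 7 .nil) .nil))))⟩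

noncomputable def e257 : Ent := ⟨3, [⟨0, true, 3, 3, [1, 2, 3]⟩, ⟨1, false, 3, 3, [0, 4, 5]⟩, ⟨2, false, 3, 3,
  [0, 6, 7]⟩, ⟨3, false, 3, 3, [0, 8, 9]⟩, ⟨4, true, 3, 3, [1, 10, 11]⟩, ⟨5, true, 3, 3, [1, 12,
  13]⟩, ⟨6, true, 3, 3, [2, 10, 12]⟩, ⟨7, true, 3, 3, [2, 14, 15]⟩, ⟨8, true, 3, 3, [3, 10,
  13]⟩, ⟨9, true, 3, 3, [3, 11, 12]⟩, ⟨10, false, 3, 3, [4, 6, 8]⟩, ⟨11, false, 3, 5, [4, 9]⟩,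
  ⟨12, false, 3, 3, [5, 6, 9]⟩, ⟨13, false, 3, 5, [5, 8]⟩, ⟨14, false, 3, 5, [7]⟩, ⟨15, false,
  3, 5, [7]⟩], .cert (.vert 0 (.cons 1 (.contr 2 .nil) (.cons 2 (.vert 10 (.cons 4 (.vert 1
  (.cons 5 (.vert 6 (.cons 12 .nil .nil)) .nil)) (.cons 6 (.vert 12 (.cons 5 (.vert 1 (.cons 4
  .nil .nil)) (.cons 9 (.vert 3 (.cons 8 .nil .nil)) .nil))) (.cons 8 (.vert 3 (.cons 9 (.vert 6
  (.cons 12 .nil .nil)) .nil)) .nil)))) (.cons 3 (.contr 2 .nil) .nil))))⟩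

noncomputable def e258 : Ent := ⟨3, [⟨0, true, 3, 3, [1, 2, 3]⟩, ⟨1, false, 3, 3, [0, 4, 5]⟩, ⟨2, false, 3, 3,
  [0, 6, 7]⟩, ⟨3, false, 3, 3, [0, 8, 9]⟩, ⟨4, true, 3, 3, [1, 10, 11]⟩, ⟨5, true, 3, 3, [1, 12,
  13]⟩, ⟨6, true, 3, 3, [2, 10, 12]⟩, ⟨7, true, 3, 3, [2, 11, 13]⟩, ⟨8, true, 3, 3, [3, 10,
  13]⟩, ⟨9, true, 3, 3, [3, 11, 12]⟩, ⟨10, false, 3, 3, [4, 6, 8]⟩, ⟨11, false, 3, 3, [4, 7,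
  9]⟩, ⟨12, false, 3, 3, [5, 6, 9]⟩, ⟨13, false, 3, 3, [5, 7, 8]⟩], .closed 7 21⟩

noncomputable def e259 : Ent := ⟨3, [⟨0, true, 3, 3, [1, 2, 3]⟩, ⟨1, false, 3, 3, [0, 4, 5]⟩, ⟨2, false, 3, 3,
  [0, 6, 7]⟩, ⟨3, false, 3, 3, [0, 8, 9]⟩, ⟨4, true, 3, 3, [1, 10, 11]⟩, ⟨5, true, 3, 3, [1,
  12]⟩, ⟨6, true, 3, 3, [2, 10, 12]⟩, ⟨7, true, 3, 3, [2, 11]⟩, ⟨8, true, 3, 3, [3, 10, 13]⟩,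
  ⟨9, true, 3, 3, [3, 11, 12]⟩, ⟨10, false, 3, 3, [4, 6, 8]⟩, ⟨11, false, 3, 3, [4, 7, 9]⟩, ⟨12,
  false, 3, 3, [5, 6, 9]⟩, ⟨13, false, 3, 5, [8]⟩], .split (.deg 13 (.cons 3 (.fill 13 14 (.fill
  13 15 (.emb 257 true [3, 0, 8, 9, 1, 2, 10, 13, 11, 12, 4, 5, 6, 7, 14, 15]) (.cons 5 (.emb
  256 true [1, 0, 5, 4, 3, 2, 12, 13, 11, 10, 9, 8, 6, 7, 14]) (.cons 7 (.emb 256 true [2, 0, 7,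
  6, 3, 1, 11, 13, 12, 10, 9, 8, 4, 5, 14]) .nil))) (.cons 5 (.fill 13 14 (.emb 256 true [1, 0,
  5, 4, 3, 2, 12, 13, 11, 10, 9, 8, 6, 7, 14]) (.cons 7 (.emb 258 false [0, 1, 2, 3, 4, 5, 6, 7,
  8, 9, 10, 11, 12, 13]) .nil)) (.cons 7 (.fill 13 14 (.emb 256 true [2, 0, 7, 6, 3, 1, 11, 13,
  12, 10, 9, 8, 4, 5, 14]) (.cons 5 (.emb 258 false [0, 1, 2, 3, 4, 5, 6, 7, 8, 9, 10, 11, 12,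
  13]) .nil)) .nil))) (.cons 4 (.emb 65 false [8, 13, 3, 10, 0, 9, 4, 6, 1, 2, 11, 12]) (.cons 5
  (.emb 58 false [8, 13, 3, 10, 0, 9, 4, 6, 1, 2, 11, 12]) .nil))))⟩

noncomputable def e260 : Ent := ⟨3, [⟨0, true, 3, 3, [1, 2, 3]⟩, ⟨1, false, 3, 3, [0, 4, 5]⟩, ⟨2, false, 3, 3,
  [0, 6, 7]⟩, ⟨3, false, 3, 3, [0, 8, 9]⟩, ⟨4, true, 3, 3, [1, 10, 11]⟩, ⟨5, true, 3, 3, [1,
  12]⟩, ⟨6, true, 3, 3, [2, 10, 12]⟩, ⟨7, true, 3, 3, [2, 11]⟩, ⟨8, true, 3, 3, [3, 10, 13]⟩,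
  ⟨9, true, 3, 3, [3, 11, 12]⟩, ⟨10, false, 3, 3, [4, 6, 8]⟩, ⟨11, false, 3, 5, [4, 7, 9]⟩, ⟨12,
  false, 3, 3, [5, 6, 9]⟩, ⟨13, false, 3, 5, [8]⟩], .split (.deg 11 (.cons 3 (.emb 259 false [0,
  1, 2, 3, 4, 5, 6, 7, 8, 9, 10, 11, 12, 13]) (.cons 4 (.emb 82 false [4, 11, 10, 1, 6, 8, 0, 5,
  2, 12, 3, 13]) (.cons 5 (.emb 58 false [4, 11, 10, 1, 6, 8, 0, 5, 2, 12, 3, 13]) .nil))))⟩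

noncomputable def e261 : Ent := ⟨3, [⟨0, true, 3, 3, [1, 2, 3]⟩, ⟨1, false, 3, 3, [0, 4, 5]⟩, ⟨2, false, 3, 3,
  [0, 6, 7]⟩, ⟨3, false, 3, 3, [0, 8, 9]⟩, ⟨4, true, 3, 3, [1, 10, 11]⟩, ⟨5, true, 3, 3, [1, 12,
  13]⟩, ⟨6, true, 3, 3, [2, 10, 12]⟩, ⟨7, true, 3, 5, [2]⟩, ⟨8, true, 3, 3, [3, 10, 13]⟩, ⟨9,
  true, 3, 3, [3, 11, 12]⟩, ⟨10, false, 3, 3, [4, 6, 8]⟩, ⟨11, false, 3, 5, [4, 9]⟩, ⟨12, false,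
  3, 3, [5, 6, 9]⟩, ⟨13, false, 3, 5, [5, 8]⟩], .split (.deg 7 (.cons 3 (.fill 7 14 (.fill 7 15
  (.emb 257 false [0, 1, 2, 3, 4, 5, 6, 7, 8, 9, 10, 11, 12, 13, 14, 15]) (.cons 11 (.emb 256
  false [0, 1, 2, 3, 4, 5, 6, 7, 8, 9, 10, 11, 12, 13, 14]) (.cons 13 (.emb 256 false [0, 1, 2,
  3, 5, 4, 6, 7, 9, 8, 12, 13, 10, 11, 14]) .nil))) (.cons 11 (.emb 260 false [0, 1, 2, 3, 4, 5,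
  6, 7, 8, 9, 10, 11, 12, 13]) (.cons 13 (.emb 260 false [0, 1, 2, 3, 5, 4, 6, 7, 9, 8, 12, 13,
  10, 11]) .nil))) (.cons 4 (.emb 65 true [2, 7, 0, 6, 1, 3, 10, 12, 4, 5, 8, 9]) (.cons 5 (.emb
  58 true [2, 7, 0, 6, 1, 3, 10, 12, 4, 5, 8, 9]) .nil))))⟩

noncomputable def e262 : Ent := ⟨3, [⟨0, true, 3, 3, [1, 2, 3]⟩, ⟨1, false, 3, 3, [0, 4, 5]⟩, ⟨2, false, 3, 3,
  [0, 6, 7]⟩, ⟨3, false, 3, 3, [0, 8, 9]⟩, ⟨4, true, 3, 3, [1, 10, 11]⟩, ⟨5, true, 3, 3, [1, 12,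
  13]⟩, ⟨6, true, 3, 3, [2, 10, 12]⟩, ⟨7, true, 3, 5, [2]⟩, ⟨8, true, 3, 3, [3, 10, 13]⟩, ⟨9,
  true, 3, 3, [3, 12, 14]⟩, ⟨10, false, 3, 3, [4, 6, 8]⟩, ⟨11, false, 3, 5, [4]⟩, ⟨12, false, 3,
  3, [5, 6, 9]⟩, ⟨13, false, 3, 5, [5, 8]⟩, ⟨14, false, 3, 5, [9]⟩], .cert (.vert 0 (.cons 1
  (.vert 10 (.cons 4 .nil (.cons 6 (.vert 2 (.cons 7 (.vert 4 (.cons 11 .nil .nil)) .nil))
  (.cons 8 (.vert 3 (.cons 9 (.vert 4 (.cons 11 .nil .nil)) .nil)) .nil)))) (.cons 2 (.vert 10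
  (.cons 4 (.vert 1 (.cons 5 .nil .nil)) (.cons 6 (.vert 5 (.cons 1 (.vert 4 (.cons 11 (.vert 12
  (.cons 9 (.vert 3 (.cons 8 .nil .nil)) .nil)) .nil)) (.cons 12 (.vert 1 (.cons 4 .nil .nil))
  (.cons 13 (.vert 1 (.cons 4 (.vert 8 (.cons 3 (.vert 12 (.cons 9 .nil .nil)) .nil)) .nil))
  .nil)))) (.cons 8 (.vert 3 (.cons 9 (.vert 6 (.cons 12 (.vert 4 (.cons 1 (.vert 5 (.cons 13
  .nil .nil)) (.cons 11 (.vert 1 (.cons 5 .nil .nil)) .nil))) .nil)) .nil)) .nil)))) (.cons 3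
  (.vert 12 (.cons 5 (.vert 1 (.cons 4 (.vert 9 (.cons 14 .nil .nil)) .nil)) (.cons 6 (.vert 2
  (.cons 7 (.vert 9 (.cons 14 .nil .nil)) .nil)) (.cons 9 (.vert 4 (.cons 1 (.vert 5 (.cons 13
  (.vert 8 (.cons 10 (.vert 6 (.cons 2 .nil .nil)) .nil)) .nil)) (.cons 10 (.vert 1 (.cons 5
  (.vert 6 (.cons 2 (.vert 8 (.cons 13 .nil .nil)) .nil)) .nil)) (.cons 11 (.vert 1 (.cons 5
  .nil .nil)) .nil)))) .nil)))) .nil))))⟩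

noncomputable def e263 : Ent := ⟨3, [⟨0, true, 3, 3, [1, 2, 3]⟩, ⟨1, false, 3, 3, [0, 4, 5]⟩, ⟨2, false, 3, 3,
  [0, 6, 7]⟩, ⟨3, false, 3, 3, [0, 8, 9]⟩, ⟨4, true, 3, 3, [1, 10, 11]⟩, ⟨5, true, 3, 3, [1, 12,
  13]⟩, ⟨6, true, 3, 3, [2, 10, 12]⟩, ⟨7, true, 3, 5, [2]⟩, ⟨8, true, 3, 3, [3, 10, 13]⟩, ⟨9,
  true, 3, 5, [3, 12]⟩, ⟨10, false, 3, 3, [4, 6, 8]⟩, ⟨11, false, 3, 5, [4]⟩, ⟨12, false, 3, 3,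
  [5, 6, 9]⟩, ⟨13, false, 3, 5, [5, 8]⟩], .split (.deg 9 (.cons 3 (.fill 9 14 (.emb 262 false
  [0, 1, 2, 3, 4, 5, 6, 7, 8, 9, 10, 11, 12, 13, 14]) (.cons 11 (.emb 261 false [0, 1, 2, 3, 4,
  5, 6, 7, 8, 9, 10, 11, 12, 13]) .nil)) (.cons 4 (.emb 82 true [3, 9, 0, 8, 1, 2, 10, 13, 4, 5,
  6, 7]) (.cons 5 (.emb 58 true [3, 9, 0, 8, 1, 2, 10, 13, 4, 5, 6, 7]) .nil))))⟩

noncomputable def e264 : Ent := ⟨3, [⟨0, true, 3, 3, [1, 2, 3]⟩, ⟨1, false, 3, 3, [0, 4, 5]⟩, ⟨2, false, 3, 3,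
  [0, 6, 7]⟩, ⟨3, false, 3, 3, [0, 8, 9]⟩, ⟨4, true, 3, 3, [1, 10, 11]⟩, ⟨5, true, 3, 3, [1, 12,
  13]⟩, ⟨6, true, 3, 3, [2, 10, 12]⟩, ⟨7, true, 3, 5, [2]⟩, ⟨8, true, 3, 3, [3, 10, 13]⟩, ⟨9,
  true, 3, 5, [3]⟩, ⟨10, false, 3, 3, [4, 6, 8]⟩, ⟨11, false, 3, 5, [4]⟩, ⟨12, false, 3, 3, [5,
  6, 14]⟩, ⟨13, false, 3, 5, [5, 8]⟩, ⟨14, true, 3, 5, [12]⟩], .cert (.vert 2 (.cons 0 (.vert 12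
  (.cons 5 (.vert 1 (.cons 4 (.vert 6 (.cons 10 .nil .nil)) .nil)) (.cons 6 (.vert 10 (.cons 4
  (.vert 1 (.cons 5 .nil .nil)) (.cons 8 (.vert 3 (.cons 9 .nil .nil)) .nil))) (.cons 14 (.vert
  6 (.cons 10 (.vert 1 (.cons 4 (.vert 5 (.cons 13 (.vert 8 (.cons 3 .nil .nil)) .nil)) (.cons 5
  (.vert 4 (.cons 11 .nil .nil)) .nil))) .nil)) .nil)))) (.cons 6 (.vert 3 (.cons 0 (.vert 1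
  (.cons 4 (.vert 10 (.cons 8 .nil .nil)) (.cons 5 (.vert 12 (.cons 14 .nil .nil)) .nil)))
  (.cons 8 (.vert 0 (.cons 1 (.vert 10 (.cons 4 .nil .nil)) .nil)) (.cons 9 (.vert 0 (.cons 1
  (.vert 4 (.cons 10 (.vert 8 (.cons 13 (.vert 5 (.cons 12 .nil .nil)) .nil)) (.cons 11 (.vert
  10 (.cons 8 .nil .nil)) .nil))) .nil)) .nil)))) (.cons 7 (.vert 0 (.cons 1 (.vert 10 (.cons 4
  (.vert 6 (.cons 12 (.vert 5 (.cons 13 (.vert 8 (.cons 3 .nil .nil)) .nil)) .nil)) (.cons 6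
  (.vert 4 (.cons 11 .nil .nil)) (.cons 8 (.vert 3 (.cons 9 (.vert 4 (.cons 11 (.vert 6 (.cons
  12 .nil .nil)) .nil)) .nil)) .nil)))) (.cons 3 (.vert 12 (.cons 5 (.vert 1 (.cons 4 (.vert 6
  (.cons 10 .nil .nil)) .nil)) (.cons 6 .nil (.cons 14 (.vert 6 (.cons 10 (.vert 8 (.cons 13
  (.vert 5 (.cons 1 .nil .nil)) .nil)) .nil)) .nil)))) .nil))) .nil))))⟩

noncomputable def e265 : Ent := ⟨3, [⟨0, true, 3, 3, [1, 2, 3]⟩, ⟨1, false, 3, 3, [0, 4, 5]⟩, ⟨2, false, 3, 3,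
  [0, 6, 7]⟩, ⟨3, false, 3, 3, [0, 8, 9]⟩, ⟨4, true, 3, 3, [1, 10, 11]⟩, ⟨5, true, 3, 3, [1, 12,
  13]⟩, ⟨6, true, 3, 3, [2, 10, 12]⟩, ⟨7, true, 3, 5, [2]⟩, ⟨8, true, 3, 3, [3, 10, 13]⟩, ⟨9,
  true, 3, 5, [3]⟩, ⟨10, false, 3, 3, [4, 6, 8]⟩, ⟨11, false, 3, 5, [4]⟩, ⟨12, false, 3, 5, [5,
  6]⟩, ⟨13, false, 3, 5, [5, 8]⟩], .split (.deg 12 (.cons 3 (.fill 12 14 (.emb 264 false [0, 1,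
  2, 3, 4, 5, 6, 7, 8, 9, 10, 11, 12, 13, 14]) (.cons 9 (.emb 263 false [0, 1, 2, 3, 4, 5, 6, 7,
  8, 9, 10, 11, 12, 13]) .nil)) (.cons 4 (.emb 82 false [6, 12, 10, 2, 4, 8, 0, 7, 1, 11, 3,
  13]) (.cons 5 (.emb 58 false [6, 12, 10, 2, 4, 8, 0, 7, 1, 11, 3, 13]) .nil))))⟩

noncomputable def e266 : Ent := ⟨3, [⟨0, true, 3, 3, [1, 2, 3]⟩, ⟨1, false, 3, 3, [0, 4, 5]⟩, ⟨2, false, 3, 3,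
  [0, 6, 7]⟩, ⟨3, false, 3, 3, [0, 8, 9]⟩, ⟨4, true, 3, 3, [1, 10, 11]⟩, ⟨5, true, 3, 3, [1, 12,
  13]⟩, ⟨6, true, 3, 3, [2, 10, 12]⟩, ⟨7, true, 3, 3, [2, 16, 17]⟩, ⟨8, true, 3, 3, [3, 10,
  14]⟩, ⟨9, true, 3, 5, [3]⟩, ⟨10, false, 3, 3, [4, 6, 8]⟩, ⟨11, false, 3, 5, [4]⟩, ⟨12, false,
  3, 3, [5, 6, 15]⟩, ⟨13, false, 3, 5, [5]⟩, ⟨14, false, 3, 5, [8]⟩, ⟨15, true, 3, 5, [12]⟩,
  ⟨16, false, 3, 5, [7]⟩, ⟨17, false, 3, 5, [7]⟩], .cert (.vert 0 (.cons 1 (.edge 6 12 (.contr 2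
  .nil) (.vert 2 (.cons 7 (.vert 5 (.cons 13 .nil .nil)) .nil))) (.cons 2 (.vert 10 (.cons 4
  (.vert 1 (.cons 5 (.vert 6 (.cons 12 .nil .nil)) .nil)) (.cons 6 (.vert 1 (.cons 4 .nil (.cons
  5 (.vert 4 (.cons 11 (.vert 12 (.cons 15 .nil .nil)) .nil)) .nil))) (.cons 8 (.vert 3 (.cons 9
  (.vert 6 (.cons 12 .nil .nil)) .nil)) .nil)))) (.cons 3 (.vert 8 (.cons 10 .nil (.cons 14
  (.vert 10 (.cons 4 (.vert 1 (.cons 5 .nil .nil)) (.cons 6 (.vert 2 (.cons 7 .nil .nil))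
  .nil))) .nil))) .nil))))⟩

noncomputable def e267 : Ent := ⟨3, [⟨0, true, 3, 3, [1, 2, 3]⟩, ⟨1, false, 3, 3, [0, 4, 5]⟩, ⟨2, false, 3, 3,
  [0, 6, 7]⟩, ⟨3, false, 3, 3, [0, 8, 9]⟩, ⟨4, true, 3, 3, [1, 10, 11]⟩, ⟨5, true, 3, 3, [1, 12,
  13]⟩, ⟨6, true, 3, 3, [2, 10, 12]⟩, ⟨7, true, 3, 5, [2]⟩, ⟨8, true, 3, 3, [3, 10, 14]⟩, ⟨9,
  true, 3, 3, [3, 16, 17]⟩, ⟨10, false, 3, 3, [4, 6, 8]⟩, ⟨11, false, 3, 5, [4]⟩, ⟨12, false, 3,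
  3, [5, 6, 15]⟩, ⟨13, false, 3, 5, [5]⟩, ⟨14, false, 3, 5, [8]⟩, ⟨15, true, 3, 5, [12]⟩, ⟨16,
  false, 3, 5, [9]⟩, ⟨17, false, 3, 5, [9]⟩], .cert (.vert 10 (.cons 4 (.vert 0 (.cons 1 (.vert
  2 (.cons 6 .nil (.cons 7 (.vert 6 (.cons 12 (.vert 5 (.cons 13 .nil .nil)) .nil)) .nil)))
  (.cons 2 (.vert 1 (.cons 5 (.vert 6 (.cons 12 .nil .nil)) .nil)) (.cons 3 (.vert 1 (.cons 5
  (.vert 8 (.cons 14 .nil .nil)) .nil)) .nil)))) (.cons 6 (.vert 0 (.cons 1 (.vert 2 (.cons 7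
  (.vert 4 (.cons 11 .nil .nil)) .nil)) (.cons 2 (.vert 1 (.cons 4 .nil (.cons 5 (.vert 4 (.cons
  11 (.vert 12 (.cons 15 .nil .nil)) .nil)) .nil))) (.cons 3 (.vert 2 (.cons 7 (.vert 8 (.cons
  14 .nil .nil)) .nil)) .nil)))) (.cons 8 (.vert 2 (.cons 0 (.vert 3 (.cons 9 (.vert 6 (.cons 12
  .nil .nil)) .nil)) (.cons 6 (.contr 0 .nil) (.cons 7 (.vert 6 (.cons 12 (.contr 0 .nil) .nil))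
  .nil)))) .nil))))⟩

noncomputable def e268 : Ent := ⟨3, [⟨0, true, 3, 3, [1, 2, 3]⟩, ⟨1, false, 3, 3, [0, 4, 5]⟩, ⟨2, false, 3, 3,
  [0, 6, 7]⟩, ⟨3, false, 3, 3, [0, 8, 9]⟩, ⟨4, true, 3, 3, [1, 10, 11]⟩, ⟨5, true, 3, 3, [1, 12,
  13]⟩, ⟨6, true, 3, 3, [2, 10, 12]⟩, ⟨7, true, 3, 5, [2]⟩, ⟨8, true, 3, 3, [3, 10, 14]⟩, ⟨9,
  true, 3, 3, [3, 11, 13]⟩, ⟨10, false, 3, 3, [4, 6, 8]⟩, ⟨11, false, 3, 5, [4, 9]⟩, ⟨12, false,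
  3, 3, [5, 6, 15]⟩, ⟨13, false, 3, 5, [5, 9]⟩, ⟨14, false, 3, 5, [8]⟩, ⟨15, true, 3, 5, [12]⟩],
  .cert (.vert 0 (.cons 1 (.vert 6 (.cons 2 .nil (.cons 10 (.vert 2 (.cons 7 (.vert 4 (.cons 11
  (.vert 3 (.cons 8 (.vert 9 (.cons 13 (.vert 5 (.cons 12 .nil .nil)) .nil)) (.cons 9 (.vert 8
  (.cons 14 .nil .nil)) .nil))) .nil)) .nil)) (.cons 12 (.vert 2 (.cons 7 (.vert 5 (.cons 13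
  .nil .nil)) .nil)) .nil)))) (.cons 2 (.vert 4 (.cons 1 (.vert 8 (.cons 3 (.vert 10 (.cons 6
  .nil .nil)) (.cons 10 (.vert 3 (.cons 9 (.vert 6 (.cons 12 (.vert 5 (.cons 13 .nil .nil))
  .nil)) .nil)) (.cons 14 (.vert 3 (.cons 9 (.vert 10 (.cons 6 .nil .nil)) .nil)) .nil))))
  (.cons 10 (.vert 1 (.cons 5 (.vert 6 (.cons 12 (.vert 3 (.cons 8 .nil (.cons 9 (.vert 8 (.cons
  14 .nil .nil)) .nil))) .nil)) .nil)) (.cons 11 (.vert 1 (.cons 5 (.vert 10 (.cons 6 (.vert 12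
  (.cons 15 .nil .nil)) (.cons 8 (.vert 3 (.cons 9 (.vert 6 (.cons 12 .nil .nil)) .nil)) .nil)))
  .nil)) .nil)))) (.cons 3 (.vert 10 (.cons 4 (.vert 1 (.cons 5 (.vert 8 (.cons 14 .nil .nil))
  .nil)) (.cons 6 (.vert 2 (.cons 7 (.vert 8 (.cons 14 .nil .nil)) .nil)) (.cons 8 (.vert 5
  (.cons 1 (.vert 4 (.cons 11 (.vert 9 (.cons 13 .nil .nil)) .nil)) (.cons 12 (.vert 1 (.cons 4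
  (.vert 6 (.cons 2 .nil .nil)) .nil)) (.cons 13 (.vert 1 (.cons 4 (.vert 9 (.cons 11 .nil
  .nil)) .nil)) .nil)))) .nil)))) .nil))))⟩

noncomputable def e269 : Ent := ⟨3, [⟨0, true, 3, 3, [1, 2, 3]⟩, ⟨1, false, 3, 3, [0, 4, 5]⟩, ⟨2, false, 3, 3,
  [0, 6, 7]⟩, ⟨3, false, 3, 3, [0, 8, 9]⟩, ⟨4, true, 3, 3, [1, 10, 11]⟩, ⟨5, true, 3, 3, [1, 12,
  13]⟩, ⟨6, true, 3, 3, [2, 10, 12]⟩, ⟨7, true, 3, 5, [2]⟩, ⟨8, true, 3, 3, [3, 10, 14]⟩, ⟨9,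
  true, 3, 3, [3, 11, 16]⟩, ⟨10, false, 3, 3, [4, 6, 8]⟩, ⟨11, false, 3, 5, [4, 9]⟩, ⟨12, false,
  3, 3, [5, 6, 15]⟩, ⟨13, false, 3, 5, [5]⟩, ⟨14, false, 3, 5, [8]⟩, ⟨15, true, 3, 5, [12]⟩,
  ⟨16, false, 3, 5, [9]⟩], .cert (.vert 0 (.cons 1 (.vert 6 (.cons 2 (.vert 8 (.cons 3 (.vert 10
  (.cons 4 .nil .nil)) (.cons 10 (.vert 3 (.cons 9 (.vert 4 (.cons 11 .nil .nil)) .nil)) (.cons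
  14 (.vert 3 (.cons 9 (.vert 10 (.cons 4 .nil .nil)) .nil)) .nil)))) (.cons 10 (.vert 2 (.cons
  7 (.vert 4 (.cons 11 .nil .nil)) .nil)) (.cons 12 (.vert 2 (.cons 7 (.vert 5 (.cons 13 (.vert
  3 (.cons 8 (.vert 10 (.cons 4 .nil .nil)) (.cons 9 .nil .nil))) .nil)) .nil)) .nil)))) (.cons
  2 (.vert 8 (.cons 3 .nil (.cons 10 (.vert 3 (.cons 9 (.vert 6 (.cons 12 (.vert 5 (.cons 1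
  (.vert 4 (.cons 11 .nil .nil)) (.cons 13 (.vert 1 (.cons 4 .nil .nil)) .nil))) .nil)) .nil))
  (.cons 14 (.vert 3 (.cons 9 (.vert 6 (.cons 10 .nil (.cons 12 (.vert 10 (.cons 4 (.vert 1
  (.cons 5 .nil .nil)) .nil)) .nil))) .nil)) .nil)))) (.cons 3 (.vert 4 (.cons 1 (.vert 6 (.cons
  2 (.vert 10 (.cons 8 .nil .nil)) (.cons 10 (.vert 2 (.cons 7 (.vert 8 (.cons 14 .nil .nil))
  .nil)) (.cons 12 (.vert 2 (.cons 7 (.vert 5 (.cons 13 (.vert 10 (.cons 8 .nil .nil)) .nil))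
  .nil)) .nil)))) (.cons 10 (.vert 1 (.cons 5 (.vert 8 (.cons 14 .nil .nil)) .nil)) (.cons 11
  (.vert 1 (.cons 5 (.vert 9 (.cons 16 (.vert 8 (.cons 10 .nil (.cons 14 (.vert 10 (.cons 6 .nil
  .nil)) .nil))) .nil)) .nil)) .nil)))) .nil))))⟩

noncomputable def e270 : Ent := ⟨3, [⟨0, true, 3, 3, [1, 2, 3]⟩, ⟨1, false, 3, 3, [0, 4, 5]⟩, ⟨2, false, 3, 3,
  [0, 6, 7]⟩, ⟨3, false, 3, 3, [0, 8, 9]⟩, ⟨4, true, 3, 3, [1, 10, 11]⟩, ⟨5, true, 3, 3, [1, 12,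
  13]⟩, ⟨6, true, 3, 3, [2, 10, 12]⟩, ⟨7, true, 3, 5, [2]⟩, ⟨8, true, 3, 3, [3, 10, 14]⟩, ⟨9,
  true, 3, 3, [3, 13, 16]⟩, ⟨10, false, 3, 3, [4, 6, 8]⟩, ⟨11, false, 3, 5, [4]⟩, ⟨12, false, 3,
  3, [5, 6, 15]⟩, ⟨13, false, 3, 5, [5, 9]⟩, ⟨14, false, 3, 5, [8]⟩, ⟨15, true, 3, 5, [12]⟩,
  ⟨16, false, 3, 5, [9]⟩], .cert (.vert 0 (.cons 1 (.vert 10 (.cons 4 (.vert 9 (.cons 3 (.vert 8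
  (.cons 14 .nil .nil)) (.cons 13 (.vert 3 (.cons 8 (.vert 5 (.cons 12 (.vert 6 (.cons 2 .nil
  .nil)) .nil)) .nil)) (.cons 16 (.vert 3 (.cons 8 .nil .nil)) .nil)))) (.cons 6 (.vert 2 (.cons
  7 (.vert 4 (.cons 11 .nil .nil)) .nil)) (.cons 8 (.vert 3 (.cons 9 (.vert 4 (.cons 11 .nil
  .nil)) .nil)) .nil)))) (.cons 2 (.vert 4 (.cons 1 .nil (.cons 10 (.vert 1 (.cons 5 (.vert 6
  (.cons 12 .nil .nil)) .nil)) (.cons 11 (.vert 1 (.cons 5 (.vert 10 (.cons 6 (.vert 12 (.cons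
  15 .nil .nil)) (.cons 8 (.vert 3 (.cons 9 (.vert 6 (.cons 12 .nil .nil)) .nil)) .nil))) .nil))
  .nil)))) (.cons 3 (.vert 10 (.cons 4 (.vert 1 (.cons 5 (.vert 8 (.cons 14 .nil .nil)) .nil))
  (.cons 6 (.vert 2 (.cons 7 (.vert 8 (.cons 14 .nil .nil)) .nil)) (.cons 8 (.vert 5 (.cons 1
  (.vert 4 (.cons 11 .nil .nil)) (.cons 12 (.vert 1 (.cons 4 (.vert 6 (.cons 2 .nil .nil))
  .nil)) (.cons 13 (.vert 1 (.cons 4 (.vert 9 (.cons 16 .nil .nil)) .nil)) .nil)))) .nil))))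
  .nil))))⟩

noncomputable def e271 : Ent := ⟨3, [⟨0, true, 3, 3, [1, 2, 3]⟩, ⟨1, false, 3, 3, [0, 4, 5]⟩, ⟨2, false, 3, 3,
  [0, 6, 7]⟩, ⟨3, false, 3, 3, [0, 8, 9]⟩, ⟨4, true, 3, 3, [1, 10, 11]⟩, ⟨5, true, 3, 3, [1, 12,
  13]⟩, ⟨6, true, 3, 3, [2, 10, 12]⟩, ⟨7, true, 3, 5, [2]⟩, ⟨8, true, 3, 3, [3, 10, 14]⟩, ⟨9,
  true, 3, 5, [3]⟩, ⟨10, false, 3, 3, [4, 6, 8]⟩, ⟨11, false, 3, 5, [4]⟩, ⟨12, false, 3, 3, [5,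
  6, 15]⟩, ⟨13, false, 3, 5, [5]⟩, ⟨14, false, 3, 5, [8]⟩, ⟨15, true, 3, 5, [12]⟩], .split (.deg
  9 (.cons 3 (.fill 9 16 (.fill 9 17 (.emb 267 false [0, 1, 2, 3, 4, 5, 6, 7, 8, 9, 10, 11, 12,
  13, 14, 15, 16, 17]) (.cons 11 (.emb 269 false [0, 1, 2, 3, 4, 5, 6, 7, 8, 9, 10, 11, 12, 13,
  14, 15, 16]) (.cons 13 (.emb 270 false [0, 1, 2, 3, 4, 5, 6, 7, 8, 9, 10, 11, 12, 13, 14, 15,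
  16]) .nil))) (.cons 11 (.fill 9 16 (.emb 269 false [0, 1, 2, 3, 4, 5, 6, 7, 8, 9, 10, 11, 12,
  13, 14, 15, 16]) (.cons 13 (.emb 268 false [0, 1, 2, 3, 4, 5, 6, 7, 8, 9, 10, 11, 12, 13, 14,
  15]) .nil)) (.cons 13 (.fill 9 16 (.emb 270 false [0, 1, 2, 3, 4, 5, 6, 7, 8, 9, 10, 11, 12,
  13, 14, 15, 16]) (.cons 11 (.emb 268 false [0, 1, 2, 3, 4, 5, 6, 7, 8, 9, 10, 11, 12, 13, 14,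
  15]) .nil)) .nil))) (.cons 4 (.emb 82 true [3, 9, 0, 8, 1, 2, 10, 14, 4, 5, 6, 7]) (.cons 5
  (.emb 58 true [3, 9, 0, 8, 1, 2, 10, 14, 4, 5, 6, 7]) .nil))))⟩

noncomputable def e272 : Ent := ⟨3, [⟨0, true, 3, 3, [1, 2, 3]⟩, ⟨1, false, 3, 3, [0, 4, 5]⟩, ⟨2, false, 3, 3,
  [0, 6, 7]⟩, ⟨3, false, 3, 3, [0, 8, 9]⟩, ⟨4, true, 3, 3, [1, 10, 11]⟩, ⟨5, true, 3, 3, [1, 12,
  13]⟩, ⟨6, true, 3, 3, [2, 10, 12]⟩, ⟨7, true, 3, 5, [2]⟩, ⟨8, true, 3, 3, [3, 10, 14]⟩, ⟨9,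
  true, 3, 5, [3]⟩, ⟨10, false, 3, 3, [4, 6, 8]⟩, ⟨11, false, 3, 5, [4]⟩, ⟨12, false, 3, 5, [5,
  6]⟩, ⟨13, false, 3, 5, [5]⟩, ⟨14, false, 3, 5, [8]⟩], .split (.deg 12 (.cons 3 (.fill 12 15
  (.emb 271 false [0, 1, 2, 3, 4, 5, 6, 7, 8, 9, 10, 11, 12, 13, 14, 15]) (.cons 9 (.emb 264
  true [1, 0, 4, 5, 2, 3, 10, 11, 12, 13, 6, 7, 8, 9, 14]) .nil)) (.cons 4 (.emb 82 false [6,
  12, 10, 2, 4, 8, 0, 7, 1, 11, 3, 14]) (.cons 5 (.emb 58 false [6, 12, 10, 2, 4, 8, 0, 7, 1,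
  11, 3, 14]) .nil))))⟩

noncomputable def e273 : Ent := ⟨3, [⟨0, true, 3, 3, [1, 2, 3]⟩, ⟨1, false, 3, 3, [0, 4, 5]⟩, ⟨2, false, 3, 3,
  [0, 6, 7]⟩, ⟨3, false, 3, 3, [0, 8, 9]⟩, ⟨4, true, 3, 3, [1, 10, 11]⟩, ⟨5, true, 3, 3, [1, 12,
  13]⟩, ⟨6, true, 3, 3, [2, 10, 12]⟩, ⟨7, true, 3, 5, [2]⟩, ⟨8, true, 3, 5, [3, 10]⟩, ⟨9, true,
  3, 5, [3]⟩, ⟨10, false, 3, 3, [4, 6, 8]⟩, ⟨11, false, 3, 5, [4]⟩, ⟨12, false, 3, 5, [5, 6]⟩,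
  ⟨13, false, 3, 5, [5]⟩], .split (.deg 8 (.cons 3 (.fill 8 14 (.emb 272 false [0, 1, 2, 3, 4,
  5, 6, 7, 8, 9, 10, 11, 12, 13, 14]) (.cons 13 (.emb 265 false [0, 1, 2, 3, 4, 5, 6, 7, 8, 9,
  10, 11, 12, 13]) .nil)) (.cons 4 (.emb 254 true [3, 8, 0, 9]) (.cons 5 (.emb 59 true [10, 8,
  4, 6, 1, 11, 2, 12, 0, 5]) .nil))))⟩

noncomputable def e274 : Ent := ⟨3, [⟨0, true, 3, 3, [1, 2, 3]⟩, ⟨1, false, 3, 3, [0, 4, 5]⟩, ⟨2, false, 3, 3,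
  [0, 6, 7]⟩, ⟨3, false, 3, 3, [0, 8, 9]⟩, ⟨4, true, 3, 3, [1, 10, 11]⟩, ⟨5, true, 3, 3, [1, 12,
  13]⟩, ⟨6, true, 3, 3, [2, 10, 12]⟩, ⟨7, true, 3, 3, [2, 14, 15]⟩, ⟨8, true, 3, 3, [3, 16,
  17]⟩, ⟨9, true, 3, 5, [3]⟩, ⟨10, false, 3, 5, [4, 6]⟩, ⟨11, false, 3, 5, [4]⟩, ⟨12, false, 3,
  5, [5, 6]⟩, ⟨13, false, 3, 5, [5]⟩, ⟨14, false, 3, 5, [7]⟩, ⟨15, false, 3, 5, [7]⟩, ⟨16,
  false, 3, 5, [8]⟩, ⟨17, false, 3, 5, [8]⟩], .cert (.edge 3 9 (.contr 3 .nil) (.edge 2 6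
  (.contr 0 .nil) (.vert 0 (.cons 1 .nil .nil))))⟩

noncomputable def e275 : Ent := ⟨3, [⟨0, true, 3, 3, [1, 2, 3]⟩, ⟨1, false, 3, 3, [0, 4, 5]⟩, ⟨2, false, 3, 3,
  [0, 6, 7]⟩, ⟨3, false, 3, 3, [0, 8, 9]⟩, ⟨4, true, 3, 3, [1, 10, 11]⟩, ⟨5, true, 3, 3, [1, 12,
  13]⟩, ⟨6, true, 3, 3, [2, 10, 12]⟩, ⟨7, true, 3, 3, [2, 16, 17]⟩, ⟨8, true, 3, 5, [3, 11]⟩,
  ⟨9, true, 3, 5, [3]⟩, ⟨10, false, 3, 3, [4, 6, 14]⟩, ⟨11, false, 3, 3, [4, 8, 18]⟩, ⟨12,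
  false, 3, 3, [5, 6, 15]⟩, ⟨13, false, 3, 5, [5]⟩, ⟨14, true, 3, 5, [10]⟩, ⟨15, true, 3, 5,
  [12]⟩, ⟨16, false, 3, 5, [7]⟩, ⟨17, false, 3, 5, [7]⟩, ⟨18, true, 3, 5, [11]⟩], .cert (.vert 0
  (.cons 1 (.vert 6 (.cons 2 (.vert 11 (.cons 4 (.vert 10 (.cons 14 .nil .nil)) (.cons 8 (.vert
  3 (.cons 9 (.vert 4 (.cons 10 .nil .nil)) .nil)) (.cons 18 (.vert 4 (.cons 10 .nil .nil))
  .nil)))) (.cons 10 (.vert 2 (.cons 7 (.vert 4 (.cons 11 .nil .nil)) .nil)) (.cons 12 (.vert 2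
  (.cons 7 (.vert 5 (.cons 13 .nil .nil)) .nil)) .nil)))) (.cons 2 (.vert 10 (.cons 4 (.vert 1
  (.cons 5 (.vert 6 (.cons 12 (.vert 3 (.cons 8 (.vert 11 (.cons 18 .nil .nil)) (.cons 9 .nil
  .nil))) .nil)) .nil)) (.cons 6 (.vert 11 (.cons 4 (.vert 1 (.cons 5 (.vert 12 (.cons 15 .nil
  .nil)) .nil)) (.cons 8 (.vert 3 (.cons 9 (.vert 4 (.cons 1 .nil .nil)) .nil)) (.cons 18 (.vert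
  4 (.cons 1 .nil .nil)) .nil)))) (.cons 14 (.vert 6 (.cons 12 (.vert 4 (.cons 1 (.vert 5 (.cons
  13 .nil .nil)) (.cons 11 (.vert 1 (.cons 5 .nil .nil)) .nil))) .nil)) .nil)))) (.cons 3 (.vert
  4 (.cons 1 (.vert 6 (.cons 2 (.vert 10 (.cons 14 .nil .nil)) (.cons 10 (.vert 2 (.cons 7 .nil
  .nil)) (.cons 12 (.vert 2 (.cons 7 (.vert 5 (.cons 13 (.vert 10 (.cons 14 .nil .nil)) .nil))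
  .nil)) .nil)))) (.cons 10 (.vert 1 (.cons 5 .nil .nil)) (.cons 11 (.vert 1 (.cons 5 .nil
  .nil)) .nil)))) .nil))))⟩

noncomputable def e276 : Ent := ⟨3, [⟨0, true, 3, 3, [1, 2, 3]⟩, ⟨1, false, 3, 3, [0, 4, 5]⟩, ⟨2, false, 3, 3,
  [0, 6, 7]⟩, ⟨3, false, 3, 3, [0, 8, 9]⟩, ⟨4, true, 3, 3, [1, 10, 11]⟩, ⟨5, true, 3, 3, [1, 12,
  13]⟩, ⟨6, true, 3, 3, [2, 10, 12]⟩, ⟨7, true, 3, 3, [2, 16, 17]⟩, ⟨8, true, 3, 5, [3]⟩, ⟨9,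
  true, 3, 5, [3]⟩, ⟨10, false, 3, 3, [4, 6, 14]⟩, ⟨11, false, 3, 3, [4, 18, 19]⟩, ⟨12, false,
  3, 3, [5, 6, 15]⟩, ⟨13, false, 3, 5, [5]⟩, ⟨14, true, 3, 5, [10]⟩, ⟨15, true, 3, 5, [12]⟩,
  ⟨16, false, 3, 5, [7]⟩, ⟨17, false, 3, 5, [7]⟩, ⟨18, true, 3, 5, [11]⟩, ⟨19, true, 3, 5,
  [11]⟩], .cert (.vert 1 (.cons 0 (.vert 6 (.cons 2 (.vert 4 (.cons 10 .nil (.cons 11 (.vert 10
  (.cons 14 .nil .nil)) .nil))) (.cons 10 (.vert 2 (.cons 7 (.vert 4 (.cons 11 .nil .nil))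
  .nil)) (.cons 12 (.vert 2 (.cons 7 (.vert 5 (.cons 13 .nil .nil)) .nil)) .nil)))) (.cons 4
  (.vert 6 (.cons 2 (.vert 0 (.cons 3 (.vert 10 (.cons 14 .nil .nil)) .nil)) (.cons 10 (.vert 0
  (.cons 2 .nil (.cons 3 (.vert 2 (.cons 7 .nil .nil)) .nil))) (.cons 12 (.vert 5 (.cons 13
  (.vert 10 (.cons 14 .nil .nil)) .nil)) .nil)))) (.cons 5 (.edge 2 7 (.contr 0 (.edge 10 14
  (.contr 4 .nil) (.vert 4 (.cons 11 .nil .nil)))) (.vert 0 (.cons 3 (.vert 10 (.cons 4 (.vert 6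
  (.cons 12 .nil .nil)) (.cons 6 (.vert 4 (.cons 11 (.vert 12 (.cons 15 .nil .nil)) .nil))
  (.cons 14 (.vert 4 (.cons 11 (.vert 6 (.cons 12 .nil .nil)) .nil)) .nil)))) .nil))) .nil))))⟩

noncomputable def e277 : Ent := ⟨3, [⟨0, true, 3, 3, [1, 2, 3]⟩, ⟨1, false, 3, 3, [0, 4, 5]⟩, ⟨2, false, 3, 3,
  [0, 6, 7]⟩, ⟨3, false, 3, 3, [0, 8, 9]⟩, ⟨4, true, 3, 3, [1, 10, 11]⟩, ⟨5, true, 3, 3, [1, 12,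
  13]⟩, ⟨6, true, 3, 3, [2, 10, 12]⟩, ⟨7, true, 3, 3, [2, 16, 17]⟩, ⟨8, true, 3, 5, [3]⟩, ⟨9,
  true, 3, 5, [3]⟩, ⟨10, false, 3, 3, [4, 6, 14]⟩, ⟨11, false, 3, 5, [4]⟩, ⟨12, false, 3, 3, [5,
  6, 15]⟩, ⟨13, false, 3, 5, [5]⟩, ⟨14, true, 3, 5, [10]⟩, ⟨15, true, 3, 5, [12]⟩, ⟨16, false,
  3, 5, [7]⟩, ⟨17, false, 3, 5, [7]⟩], .split (.deg 11 (.cons 3 (.fill 11 18 (.fill 11 19 (.emb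
  276 false [0, 1, 2, 3, 4, 5, 6, 7, 8, 9, 10, 11, 12, 13, 14, 15, 16, 17, 18, 19]) (.cons 8
  (.emb 275 false [0, 1, 2, 3, 4, 5, 6, 7, 8, 9, 10, 11, 12, 13, 14, 15, 16, 17, 18]) (.cons 9
  (.emb 275 false [0, 1, 2, 3, 4, 5, 6, 7, 9, 8, 10, 11, 12, 13, 14, 15, 16, 17, 18]) (.cons 15
  (.emb 272 true [1, 4, 5, 0, 10, 11, 12, 13, 2, 3, 6, 14, 15, 18, 7]) .nil)))) (.cons 8 (.fill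
  11 18 (.emb 275 false [0, 1, 2, 3, 4, 5, 6, 7, 8, 9, 10, 11, 12, 13, 14, 15, 16, 17, 18])
  (.cons 15 (.emb 272 true [1, 4, 5, 0, 10, 11, 12, 13, 2, 3, 6, 14, 15, 8, 7]) .nil)) (.cons 9
  (.fill 11 18 (.emb 275 false [0, 1, 2, 3, 4, 5, 6, 7, 9, 8, 10, 11, 12, 13, 14, 15, 16, 17,
  18]) (.cons 15 (.emb 272 true [1, 4, 5, 0, 10, 11, 12, 13, 2, 3, 6, 14, 15, 9, 7]) .nil))
  (.cons 15 (.fill 11 18 (.emb 272 true [1, 4, 5, 0, 10, 11, 12, 13, 2, 3, 6, 14, 15, 18, 7])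
  (.cons 8 (.emb 272 true [1, 4, 5, 0, 10, 11, 12, 13, 2, 3, 6, 14, 15, 8, 7]) (.cons 9 (.emb
  272 true [1, 4, 5, 0, 10, 11, 12, 13, 2, 3, 6, 14, 15, 9, 7]) .nil))) .nil)))) (.cons 4 (.emb
  82 false [4, 11, 1, 10, 0, 5, 6, 14, 2, 3, 12, 13]) (.cons 5 (.emb 58 false [4, 11, 1, 10, 0,
  5, 6, 14, 2, 3, 12, 13]) .nil))))⟩

noncomputable def e278 : Ent := ⟨3, [⟨0, true, 3, 3, [1, 2, 3]⟩, ⟨1, false, 3, 3, [0, 4, 5]⟩, ⟨2, false, 3, 3,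
  [0, 6, 7]⟩, ⟨3, false, 3, 3, [0, 8, 9]⟩, ⟨4, true, 3, 3, [1, 10, 11]⟩, ⟨5, true, 3, 3, [1, 12,
  13]⟩, ⟨6, true, 3, 3, [2, 10, 12]⟩, ⟨7, true, 3, 5, [2]⟩, ⟨8, true, 3, 5, [3]⟩, ⟨9, true, 3,
  5, [3]⟩, ⟨10, false, 3, 3, [4, 6, 14]⟩, ⟨11, false, 3, 5, [4]⟩, ⟨12, false, 3, 3, [5, 6, 15]⟩,
  ⟨13, false, 3, 5, [5]⟩, ⟨14, true, 3, 5, [10]⟩, ⟨15, true, 3, 5, [12]⟩], .split (.deg 7 (.cons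
  3 (.fill 7 16 (.fill 7 17 (.emb 277 false [0, 1, 2, 3, 4, 5, 6, 7, 8, 9, 10, 11, 12, 13, 14,
  15, 16, 17]) (.cons 11 (.emb 272 false [6, 2, 10, 12, 0, 7, 4, 14, 5, 15, 1, 3, 11, 16, 13])
  (.cons 13 (.emb 272 false [6, 2, 12, 10, 0, 7, 5, 15, 4, 14, 1, 3, 13, 16, 11]) .nil))) (.cons
  11 (.fill 7 16 (.emb 272 false [6, 2, 10, 12, 0, 7, 4, 14, 5, 15, 1, 3, 11, 16, 13]) (.cons 13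
  (.emb 265 false [6, 2, 10, 12, 0, 7, 4, 14, 5, 15, 1, 3, 11, 13]) .nil)) (.cons 13 (.fill 7 16
  (.emb 272 false [6, 2, 12, 10, 0, 7, 5, 15, 4, 14, 1, 3, 13, 16, 11]) (.cons 11 (.emb 265
  false [6, 2, 10, 12, 0, 7, 4, 14, 5, 15, 1, 3, 11, 13]) .nil)) .nil))) (.cons 4 (.emb 74 true
  [2, 7, 6, 0, 11, 13, 10, 12, 1, 3, 4, 14, 5, 15, 8, 9]) (.cons 5 (.emb 54 true [2, 7, 6, 0,
  10, 12, 3, 1, 4, 14, 5, 15, 8, 9]) .nil))))⟩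

noncomputable def e279 : Ent := ⟨3, [⟨0, true, 3, 3, [1, 2, 3]⟩, ⟨1, false, 3, 3, [0, 4, 5]⟩, ⟨2, false, 3, 3,
  [0, 6, 7]⟩, ⟨3, false, 3, 3, [0, 8, 9]⟩, ⟨4, true, 3, 3, [1, 10, 11]⟩, ⟨5, true, 3, 3, [1, 12,
  13]⟩, ⟨6, true, 3, 3, [2, 10, 12]⟩, ⟨7, true, 3, 5, [2]⟩, ⟨8, true, 3, 5, [3]⟩, ⟨9, true, 3,
  5, [3]⟩, ⟨10, false, 3, 3, [4, 6, 14]⟩, ⟨11, false, 3, 5, [4]⟩, ⟨12, false, 3, 5, [5, 6]⟩,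
  ⟨13, false, 3, 5, [5]⟩, ⟨14, true, 3, 5, [10]⟩], .split (.deg 12 (.cons 3 (.fill 12 15 (.emb
  278 false [0, 1, 2, 3, 4, 5, 6, 7, 8, 9, 10, 11, 12, 13, 14, 15]) (.cons 8 (.emb 272 true [1,
  0, 5, 4, 2, 3, 12, 13, 10, 11, 6, 7, 8, 9, 14]) (.cons 9 (.emb 272 true [1, 0, 5, 4, 2, 3, 12,
  13, 10, 11, 6, 7, 9, 8, 14]) .nil))) (.cons 4 (.emb 254 false [5, 12, 1, 13]) (.cons 5 (.emb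
  59 false [6, 12, 2, 10, 0, 7, 4, 14, 1, 3]) .nil))))⟩

noncomputable def e280 : Ent := ⟨3, [⟨0, true, 3, 3, [1, 2, 3]⟩, ⟨1, false, 3, 3, [0, 4, 5]⟩, ⟨2, false, 3, 3,
  [0, 6, 7]⟩, ⟨3, false, 3, 3, [0, 8, 9]⟩, ⟨4, true, 3, 3, [1, 10, 11]⟩, ⟨5, true, 3, 3, [1, 12,
  13]⟩, ⟨6, true, 3, 3, [2, 10, 12]⟩, ⟨7, true, 3, 5, [2]⟩, ⟨8, true, 3, 5, [3]⟩, ⟨9, true, 3,
  5, [3]⟩, ⟨10, false, 3, 5, [4, 6]⟩, ⟨11, false, 3, 5, [4]⟩, ⟨12, false, 3, 5, [5, 6]⟩, ⟨13,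
  false, 3, 5, [5]⟩], .split (.deg 10 (.cons 3 (.fill 10 14 (.emb 279 false [0, 1, 2, 3, 4, 5,
  6, 7, 8, 9, 10, 11, 12, 13, 14]) (.cons 8 (.emb 273 false [0, 1, 2, 3, 4, 5, 6, 7, 8, 9, 10,
  11, 12, 13]) (.cons 9 (.emb 273 false [0, 1, 2, 3, 4, 5, 6, 7, 9, 8, 10, 11, 12, 13]) .nil)))
  (.cons 4 (.emb 254 false [4, 10, 1, 11]) (.cons 5 (.emb 61 false [4, 10, 1, 11, 0, 5])
  .nil))))⟩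

noncomputable def e281 : Ent := ⟨3, [⟨0, true, 3, 3, [1, 2, 3]⟩, ⟨1, false, 3, 3, [0, 4, 5]⟩, ⟨2, false, 3, 3,
  [0, 6, 7]⟩, ⟨3, false, 3, 3, [0, 8, 9]⟩, ⟨4, true, 3, 3, [1, 10, 11]⟩, ⟨5, true, 3, 3, [1, 12,
  13]⟩, ⟨6, true, 3, 3, [2, 10, 14]⟩, ⟨7, true, 3, 3, [2, 12, 16]⟩, ⟨8, true, 3, 5, [3, 11]⟩,
  ⟨9, true, 3, 5, [3]⟩, ⟨10, false, 3, 3, [4, 6, 15]⟩, ⟨11, false, 3, 3, [4, 8, 17]⟩, ⟨12,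
  false, 3, 3, [5, 7, 15]⟩, ⟨13, false, 3, 5, [5]⟩, ⟨14, false, 3, 5, [6]⟩, ⟨15, true, 3, 5,
  [10, 12]⟩, ⟨16, false, 3, 5, [7]⟩, ⟨17, true, 3, 5, [11]⟩], .cert (.vert 0 (.cons 1 (.vert 7
  (.cons 2 (.vert 10 (.cons 4 (.vert 6 (.cons 14 .nil .nil)) (.cons 6 (.vert 4 (.cons 11 .nil
  .nil)) (.cons 15 (.vert 4 (.cons 11 (.vert 6 (.cons 14 (.vert 12 (.cons 5 .nil .nil)) .nil))
  .nil)) .nil)))) (.cons 12 (.vert 2 (.cons 6 (.vert 5 (.cons 13 .nil .nil)) .nil)) (.cons 16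
  (.vert 2 (.cons 6 .nil .nil)) .nil)))) (.cons 2 (.vert 5 (.cons 1 (.vert 10 (.cons 4 (.vert 6
  (.cons 14 .nil .nil)) (.cons 6 (.vert 4 (.cons 11 .nil .nil)) (.cons 15 (.vert 4 (.cons 11
  (.vert 6 (.cons 14 (.vert 12 (.cons 7 .nil .nil)) .nil)) .nil)) .nil)))) (.cons 12 (.vert 1
  (.cons 4 (.vert 7 (.cons 16 .nil .nil)) .nil)) (.cons 13 (.vert 1 (.cons 4 .nil .nil))
  .nil)))) (.cons 3 (.vert 4 (.cons 1 (.vert 6 (.cons 2 (.vert 10 (.cons 15 .nil .nil)) (.cons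
  10 (.vert 2 (.cons 7 .nil .nil)) (.cons 14 (.vert 2 (.cons 7 (.vert 10 (.cons 15 (.vert 12
  (.cons 5 .nil .nil)) .nil)) .nil)) .nil)))) (.cons 10 (.vert 1 (.cons 5 (.vert 2 (.cons 6 .nil
  (.cons 7 (.vert 6 (.cons 14 .nil .nil)) .nil))) .nil)) (.cons 11 (.vert 1 (.cons 5 (.vert 2
  (.cons 6 (.vert 10 (.cons 15 (.vert 12 (.cons 7 .nil .nil)) .nil)) (.cons 7 (.vert 12 (.cons
  15 (.vert 10 (.cons 6 .nil .nil)) .nil)) .nil))) .nil)) .nil)))) .nil))))⟩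

noncomputable def part7 : List Ent := [e246, e247, e248, e249, e250, e251, e252, e253, e254,
  e255, e256, e257, e258, e259, e260, e261, e262, e263, e264, e265, e266, e267, e268, e269,
  e270, e271, e272, e273, e274, e275, e276, e277, e278, e279, e280, e281]

end Pool.Agent.Helper76.PC
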