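import Pool.Agent.Helper76.PC.Defs

/-! MP_c33217_co: library of reducible configurations, part 8 (machine generated). -/

namespace Pool.Agent.Helper76.PC

noncomputable def e282 : Ent := ⟨3, [⟨0, true, 3, 3, [1, 2, 3]⟩, ⟨1, false, 3, 3, [0, 4, 5]⟩, ⟨2, false, 3, 3,
  [0, 6, 7]⟩, ⟨3, false, 3, 3, [0, 8, 9]⟩, ⟨4, true, 3, 3, [1, 10, 11]⟩, ⟨5, true, 3, 3, [1, 12,
  13]⟩, ⟨6, true, 3, 3, [2, 10, 14]⟩, ⟨7, true, 3, 3, [2, 12, 16]⟩, ⟨8, true, 3, 5, [3]⟩, ⟨9,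
  true, 3, 5, [3]⟩, ⟨10, false, 3, 3, [4, 6, 15]⟩, ⟨11, false, 3, 3, [4, 17, 18]⟩, ⟨12, false,
  3, 3, [5, 7, 15]⟩, ⟨13, false, 3, 5, [5]⟩, ⟨14, false, 3, 5, [6]⟩, ⟨15, true, 3, 5, [10, 12]⟩,
  ⟨16, false, 3, 5, [7]⟩, ⟨17, true, 3, 5, [11]⟩, ⟨18, true, 3, 5, [11]⟩], .cert (.vert 1 (.cons
  0 (.vert 7 (.cons 2 (.vert 10 (.cons 4 (.vert 6 (.cons 14 .nil .nil)) (.cons 6 (.vert 4 (.cons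
  11 .nil .nil)) (.cons 15 (.vert 4 (.cons 11 (.vert 6 (.cons 14 (.vert 12 (.cons 5 .nil .nil))
  .nil)) .nil)) .nil)))) (.cons 12 (.vert 2 (.cons 6 (.vert 5 (.cons 13 .nil .nil)) .nil))
  (.cons 16 (.vert 2 (.cons 6 (.vert 4 (.cons 10 .nil (.cons 11 (.vert 10 (.cons 15 (.vert 12
  (.cons 5 .nil .nil)) .nil)) .nil))) .nil)) .nil)))) (.cons 4 (.vert 2 (.cons 0 (.vert 5 (.cons
  12 (.vert 7 (.cons 16 .nil .nil)) (.cons 13 .nil .nil))) (.cons 6 (.vert 0 (.cons 3 (.vert 10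
  (.cons 15 .nil .nil)) .nil)) (.cons 7 (.vert 0 (.cons 3 .nil .nil)) .nil)))) (.cons 5 (.vert 2
  (.cons 0 (.vert 10 (.cons 4 (.vert 6 (.cons 14 .nil .nil)) (.cons 6 (.vert 4 (.cons 11 .nil
  .nil)) (.cons 15 (.vert 4 (.cons 11 (.vert 6 (.cons 14 (.vert 12 (.cons 7 .nil .nil)) .nil))
  .nil)) .nil)))) (.cons 6 (.vert 0 (.cons 3 (.vert 4 (.cons 10 .nil (.cons 11 (.vert 10 (.cons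
  15 (.vert 12 (.cons 7 .nil .nil)) .nil)) .nil))) .nil)) (.cons 7 (.vert 0 (.cons 3 (.vert 12
  (.cons 15 (.vert 4 (.cons 10 (.vert 6 (.cons 14 .nil .nil)) (.cons 11 (.vert 10 (.cons 6 .nil
  .nil)) .nil))) .nil)) .nil)) .nil)))) .nil))))⟩

noncomputable def e283 : Ent := ⟨3, [⟨0, true, 3, 3, [1, 2, 3]⟩, ⟨1, false, 3, 3, [0, 4, 5]⟩, ⟨2, false, 3, 3,
  [0, 6, 7]⟩, ⟨3, false, 3, 3, [0, 8, 9]⟩, ⟨4, true, 3, 3, [1, 10, 11]⟩, ⟨5, true, 3, 3, [1, 12,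
  13]⟩, ⟨6, true, 3, 3, [2, 10, 14]⟩, ⟨7, true, 3, 3, [2, 12, 16]⟩, ⟨8, true, 3, 5, [3]⟩, ⟨9,
  true, 3, 5, [3]⟩, ⟨10, false, 3, 3, [4, 6, 15]⟩, ⟨11, false, 3, 5, [4]⟩, ⟨12, false, 3, 3, [5,
  7, 15]⟩, ⟨13, false, 3, 5, [5]⟩, ⟨14, false, 3, 5, [6]⟩, ⟨15, true, 3, 5, [10, 12]⟩, ⟨16,
  false, 3, 5, [7]⟩], .split (.deg 11 (.cons 3 (.fill 11 17 (.fill 11 18 (.emb 282 false [0, 1,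
  2, 3, 4, 5, 6, 7, 8, 9, 10, 11, 12, 13, 14, 15, 16, 17, 18]) (.cons 8 (.emb 281 false [0, 1,
  2, 3, 4, 5, 6, 7, 8, 9, 10, 11, 12, 13, 14, 15, 16, 17]) (.cons 9 (.emb 281 false [0, 1, 2, 3,
  4, 5, 6, 7, 9, 8, 10, 11, 12, 13, 14, 15, 16, 17]) .nil))) (.cons 8 (.fill 11 17 (.emb 281
  false [0, 1, 2, 3, 4, 5, 6, 7, 8, 9, 10, 11, 12, 13, 14, 15, 16, 17]) .nil) (.cons 9 (.fill 11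
  17 (.emb 281 false [0, 1, 2, 3, 4, 5, 6, 7, 9, 8, 10, 11, 12, 13, 14, 15, 16, 17]) .nil)
  .nil))) (.cons 4 (.emb 254 false [4, 11, 1, 10]) (.cons 5 (.emb 58 false [4, 11, 1, 10, 0, 5,
  6, 15, 2, 3, 12, 13]) .nil))))⟩

noncomputable def e284 : Ent := ⟨3, [⟨0, true, 3, 3, [1, 2, 3]⟩, ⟨1, false, 3, 3, [0, 4, 5]⟩, ⟨2, false, 3, 3,
  [0, 6, 7]⟩, ⟨3, false, 3, 3, [0, 8, 9]⟩, ⟨4, true, 3, 3, [1, 10, 11]⟩, ⟨5, true, 3, 3, [1, 12,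
  13]⟩, ⟨6, true, 3, 3, [2, 10, 14]⟩, ⟨7, true, 3, 3, [2, 12, 16]⟩, ⟨8, true, 3, 5, [3, 11]⟩,
  ⟨9, true, 3, 5, [3, 13]⟩, ⟨10, false, 3, 3, [4, 6, 15]⟩, ⟨11, false, 3, 3, [4, 8, 17]⟩, ⟨12,
  false, 3, 3, [5, 7, 17]⟩, ⟨13, false, 3, 3, [5, 9, 18]⟩, ⟨14, false, 3, 5, [6]⟩, ⟨15, true, 3,
  5, [10]⟩, ⟨16, false, 3, 5, [7]⟩, ⟨17, true, 3, 5, [11, 12]⟩, ⟨18, true, 3, 5, [13]⟩], .cert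
  (.vert 0 (.cons 1 (.vert 11 (.cons 4 (.vert 2 (.cons 6 (.vert 10 (.cons 15 .nil .nil)) (.cons
  7 .nil .nil))) (.cons 8 (.vert 3 (.cons 9 (.vert 4 (.cons 10 .nil .nil)) .nil)) (.cons 17
  (.vert 4 (.cons 10 (.vert 2 (.cons 6 .nil (.cons 7 (.vert 6 (.cons 14 (.vert 12 (.cons 5 .nil
  .nil)) .nil)) .nil))) .nil)) .nil)))) (.cons 2 (.edge 5 12 (.contr 1 .nil) (.vert 1 (.cons 4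
  (.vert 7 (.cons 16 .nil .nil)) .nil))) (.cons 3 (.vert 4 (.cons 1 (.vert 2 (.cons 6 (.vert 10
  (.cons 15 .nil .nil)) (.cons 7 .nil .nil))) (.cons 10 (.vert 1 (.cons 5 (.vert 12 (.cons 7
  (.vert 2 (.cons 6 .nil .nil)) (.cons 17 (.vert 11 (.cons 8 .nil .nil)) .nil))) .nil)) (.cons
  11 (.vert 1 (.cons 5 (.vert 2 (.cons 6 (.vert 10 (.cons 15 .nil .nil)) (.cons 7 (.vert 12
  (.cons 17 .nil .nil)) .nil))) .nil)) .nil)))) .nil))))⟩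

noncomputable def e285 : Ent := ⟨3, [⟨0, true, 3, 3, [1, 2, 3]⟩, ⟨1, false, 3, 3, [0, 4, 5]⟩, ⟨2, false, 3, 3,
  [0, 6, 7]⟩, ⟨3, false, 3, 3, [0, 8, 9]⟩, ⟨4, true, 3, 3, [1, 10, 11]⟩, ⟨5, true, 3, 3, [1, 12,
  13]⟩, ⟨6, true, 3, 3, [2, 10, 14]⟩, ⟨7, true, 3, 3, [2, 12, 16]⟩, ⟨8, true, 3, 5, [3, 11]⟩,
  ⟨9, true, 3, 5, [3]⟩, ⟨10, false, 3, 3, [4, 6, 15]⟩, ⟨11, false, 3, 3, [4, 8, 17]⟩, ⟨12,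
  false, 3, 3, [5, 7, 17]⟩, ⟨13, false, 3, 3, [5, 15, 18]⟩, ⟨14, false, 3, 5, [6]⟩, ⟨15, true,
  3, 5, [10, 13]⟩, ⟨16, false, 3, 5, [7]⟩, ⟨17, true, 3, 5, [11, 12]⟩, ⟨18, true, 3, 5, [13]⟩],
  .cert (.vert 2 (.cons 0 (.vert 5 (.cons 1 (.vert 4 (.cons 10 (.vert 6 (.cons 14 .nil .nil))
  (.cons 11 .nil .nil))) (.cons 12 (.vert 1 (.cons 4 (.vert 7 (.cons 16 .nil .nil)) .nil))
  (.cons 13 (.vert 1 (.cons 4 (.vert 7 (.cons 12 .nil (.cons 16 (.vert 12 (.cons 17 (.vert 11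
  (.cons 8 .nil .nil)) .nil)) .nil))) .nil)) .nil)))) (.cons 6 (.vert 4 (.cons 1 (.vert 0 (.cons
  3 (.vert 10 (.cons 15 .nil .nil)) .nil)) (.cons 10 (.contr 0 .nil) (.cons 11 (.vert 10 (.cons
  15 (.contr 0 .nil) .nil)) .nil)))) (.cons 7 (.vert 0 (.cons 1 (.vert 4 (.cons 10 (.vert 6
  (.cons 14 .nil .nil)) (.cons 11 .nil .nil))) (.cons 3 (.vert 1 (.cons 4 .nil (.cons 5 (.vert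
  12 (.cons 17 .nil .nil)) .nil))) .nil))) .nil))))⟩

noncomputable def e286 : Ent := ⟨3, [⟨0, true, 3, 3, [1, 2, 3]⟩, ⟨1, false, 3, 3, [0, 4, 5]⟩, ⟨2, false, 3, 3,
  [0, 6, 7]⟩, ⟨3, false, 3, 3, [0, 8, 9]⟩, ⟨4, true, 3, 3, [1, 10, 11]⟩, ⟨5, true, 3, 3, [1, 12,
  13]⟩, ⟨6, true, 3, 3, [2, 10, 14]⟩, ⟨7, true, 3, 3, [2, 12, 16]⟩, ⟨8, true, 3, 5, [3, 11]⟩,
  ⟨9, true, 3, 5, [3]⟩, ⟨10, false, 3, 3, [4, 6, 15]⟩, ⟨11, false, 3, 3, [4, 8, 17]⟩, ⟨12,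
  false, 3, 5, [5, 7]⟩, ⟨13, false, 3, 3, [5, 18, 19]⟩, ⟨14, false, 3, 5, [6]⟩, ⟨15, true, 3, 5,
  [10]⟩, ⟨16, false, 3, 5, [7]⟩, ⟨17, true, 3, 5, [11]⟩, ⟨18, true, 3, 5, [13]⟩, ⟨19, true, 3,
  5, [13]⟩], .cert (.edge 5 12 (.contr 5 .nil) (.vert 0 (.cons 1 (.vert 6 (.cons 2 (.vert 7
  (.cons 16 .nil .nil)) (.cons 10 (.vert 2 (.cons 7 (.vert 4 (.cons 11 .nil .nil)) .nil)) (.cons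
  14 .nil .nil)))) (.cons 2 (.vert 1 (.cons 4 (.vert 7 (.cons 16 .nil .nil)) .nil)) (.cons 3
  (.vert 1 (.cons 4 .nil .nil)) .nil)))))⟩

noncomputable def e287 : Ent := ⟨3, [⟨0, true, 3, 3, [1, 2, 3]⟩, ⟨1, false, 3, 3, [0, 4, 5]⟩, ⟨2, false, 3, 3,
  [0, 6, 7]⟩, ⟨3, false, 3, 3, [0, 8, 9]⟩, ⟨4, true, 3, 3, [1, 10, 11]⟩, ⟨5, true, 3, 3, [1, 12,
  13]⟩, ⟨6, true, 3, 3, [2, 10, 14]⟩, ⟨7, true, 3, 3, [2, 12, 16]⟩, ⟨8, true, 3, 5, [3, 11]⟩,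
  ⟨9, true, 3, 5, [3, 13]⟩, ⟨10, false, 3, 3, [4, 6, 15]⟩, ⟨11, false, 3, 3, [4, 8, 17]⟩, ⟨12,
  false, 3, 3, [5, 7, 17]⟩, ⟨13, false, 3, 3, [5, 9, 15]⟩, ⟨14, false, 3, 5, [6]⟩, ⟨15, true, 3,
  5, [10, 13]⟩, ⟨16, false, 3, 5, [7]⟩, ⟨17, true, 3, 5, [11, 12]⟩], .cert (.vert 0 (.cons 1
  (.vert 10 (.cons 4 (.vert 11 (.cons 8 (.vert 3 (.cons 9 .nil .nil)) (.cons 17 .nil .nil)))
  (.cons 6 (.vert 2 (.cons 7 (.vert 4 (.cons 11 .nil .nil)) .nil)) (.cons 15 (.vert 4 (.cons 11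
  .nil .nil)) .nil)))) (.cons 2 (.vert 4 (.cons 1 (.vert 12 (.cons 5 (.vert 7 (.cons 16 .nil
  .nil)) (.cons 7 (.vert 5 (.cons 13 .nil .nil)) (.cons 17 (.vert 5 (.cons 13 (.vert 7 (.cons 16
  .nil .nil)) .nil)) .nil)))) (.cons 10 (.vert 1 (.cons 5 (.vert 6 (.cons 14 .nil .nil)) .nil))
  (.cons 11 (.vert 1 (.cons 5 (.vert 13 (.cons 9 (.vert 3 (.cons 8 .nil .nil)) (.cons 15 (.vert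
  10 (.cons 6 .nil .nil)) .nil))) .nil)) .nil)))) (.cons 3 (.vert 2 (.cons 6 (.vert 4 (.cons 1
  (.vert 10 (.cons 15 .nil .nil)) (.cons 10 (.vert 1 (.cons 5 .nil .nil)) (.cons 11 (.vert 1
  (.cons 5 (.vert 10 (.cons 15 (.vert 13 (.cons 9 .nil .nil)) .nil)) .nil)) .nil)))) (.cons 7
  (.vert 5 (.cons 1 (.vert 12 (.cons 17 .nil .nil)) (.cons 12 (.vert 1 (.cons 4 .nil .nil))
  (.cons 13 (.vert 1 (.cons 4 (.vert 12 (.cons 17 .nil .nil)) .nil)) .nil)))) .nil))) .nil))))⟩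

noncomputable def e288 : Ent := ⟨3, [⟨0, true, 3, 3, [1, 2, 3]⟩, ⟨1, false, 3, 3, [0, 4, 5]⟩, ⟨2, false, 3, 3,
  [0, 6, 7]⟩, ⟨3, false, 3, 3, [0, 8, 9]⟩, ⟨4, true, 3, 3, [1, 10, 11]⟩, ⟨5, true, 3, 3, [1, 12,
  13]⟩, ⟨6, true, 3, 3, [2, 10, 14]⟩, ⟨7, true, 3, 3, [2, 12, 16]⟩, ⟨8, true, 3, 5, [3, 11]⟩,
  ⟨9, true, 3, 5, [3]⟩, ⟨10, false, 3, 3, [4, 6, 15]⟩, ⟨11, false, 3, 3, [4, 8, 17]⟩, ⟨12,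
  false, 3, 3, [5, 7, 17]⟩, ⟨13, false, 3, 5, [5]⟩, ⟨14, false, 3, 5, [6]⟩, ⟨15, true, 3, 5,
  [10]⟩, ⟨16, false, 3, 5, [7]⟩, ⟨17, true, 3, 5, [11, 12]⟩], .split (.deg 13 (.cons 3 (.fill 13
  18 (.fill 13 19 (.emb 286 false [0, 1, 2, 3, 4, 5, 6, 7, 8, 9, 10, 11, 12, 13, 14, 15, 16, 17,
  18, 19]) (.cons 8 (.emb 280 true [1, 5, 4, 0, 12, 13, 11, 10, 2, 3, 17, 7, 8, 18]) (.cons 9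
  (.emb 284 false [0, 1, 2, 3, 4, 5, 6, 7, 8, 9, 10, 11, 12, 13, 14, 15, 16, 17, 18]) (.cons 15
  (.emb 285 false [0, 1, 2, 3, 4, 5, 6, 7, 8, 9, 10, 11, 12, 13, 14, 15, 16, 17, 18]) .nil))))
  (.cons 8 (.fill 13 18 (.emb 280 true [1, 5, 4, 0, 12, 13, 11, 10, 2, 3, 17, 7, 8, 18]) (.cons
  15 (.emb 280 true [1, 4, 5, 0, 10, 11, 13, 12, 2, 3, 15, 6, 8, 17]) .nil)) (.cons 9 (.fill 13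
  18 (.emb 284 false [0, 1, 2, 3, 4, 5, 6, 7, 8, 9, 10, 11, 12, 13, 14, 15, 16, 17, 18]) (.cons
  15 (.emb 287 false [0, 1, 2, 3, 4, 5, 6, 7, 8, 9, 10, 11, 12, 13, 14, 15, 16, 17]) .nil))
  (.cons 15 (.fill 13 18 (.emb 285 false [0, 1, 2, 3, 4, 5, 6, 7, 8, 9, 10, 11, 12, 13, 14, 15,
  16, 17, 18]) (.cons 8 (.emb 280 true [1, 4, 5, 0, 10, 11, 13, 12, 2, 3, 15, 6, 8, 17]) (.cons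
  9 (.emb 287 false [0, 1, 2, 3, 4, 5, 6, 7, 8, 9, 10, 11, 12, 13, 14, 15, 16, 17]) .nil)))
  .nil)))) (.cons 4 (.emb 254 false [5, 13, 1, 12]) (.cons 5 (.emb 58 false [5, 13, 1, 12, 0, 4,
  7, 17, 2, 3, 10, 11]) .nil))))⟩

noncomputable def e289 : Ent := ⟨3, [⟨0, true, 3, 3, [1, 2, 3]⟩, ⟨1, false, 3, 3, [0, 4, 5]⟩, ⟨2, false, 3, 3,
  [0, 6, 7]⟩, ⟨3, false, 3, 3, [0, 8, 9]⟩, ⟨4, true, 3, 3, [1, 10, 11]⟩, ⟨5, true, 3, 3, [1, 12,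
  13]⟩, ⟨6, true, 3, 3, [2, 10, 14]⟩, ⟨7, true, 3, 3, [2, 12, 16]⟩, ⟨8, true, 3, 3, [3, 11,
  19]⟩, ⟨9, true, 3, 5, [3]⟩, ⟨10, false, 3, 3, [4, 6, 15]⟩, ⟨11, false, 3, 3, [4, 8, 18]⟩, ⟨12,
  false, 3, 3, [5, 7, 17]⟩, ⟨13, false, 3, 5, [5]⟩, ⟨14, false, 3, 5, [6]⟩, ⟨15, true, 3, 5,
  [10]⟩, ⟨16, false, 3, 5, [7]⟩, ⟨17, true, 3, 5, [12]⟩, ⟨18, true, 3, 5, [11]⟩, ⟨19, false, 3,
  5, [8]⟩], .cert (.edge 0 1 (.edge 3 9 (.contr 0 (.edge 5 13 (.contr 1 .nil) (.vert 1 (.cons 4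
  .nil .nil)))) (.vert 0 (.cons 2 (.vert 4 (.cons 1 .nil (.cons 10 (.vert 1 (.cons 5 .nil .nil))
  (.cons 11 (.vert 1 (.cons 5 (.vert 8 (.cons 19 .nil .nil)) .nil)) .nil)))) .nil))) (.vert 2
  (.cons 6 (.vert 5 (.cons 12 (.vert 7 (.cons 16 .nil .nil)) (.cons 13 .nil .nil))) (.cons 7
  (.vert 4 (.cons 10 (.vert 6 (.cons 14 .nil .nil)) (.cons 11 .nil .nil))) .nil))))⟩

noncomputable def e290 : Ent := ⟨3, [⟨0, true, 3, 3, [1, 2, 3]⟩, ⟨1, false, 3, 3, [0, 4, 5]⟩, ⟨2, false, 3, 3,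
  [0, 6, 7]⟩, ⟨3, false, 3, 3, [0, 8, 9]⟩, ⟨4, true, 3, 3, [1, 10, 11]⟩, ⟨5, true, 3, 3, [1, 12,
  13]⟩, ⟨6, true, 3, 3, [2, 10, 14]⟩, ⟨7, true, 3, 3, [2, 12, 16]⟩, ⟨8, true, 3, 5, [3, 11]⟩,
  ⟨9, true, 3, 5, [3]⟩, ⟨10, false, 3, 3, [4, 6, 15]⟩, ⟨11, false, 3, 3, [4, 8, 18]⟩, ⟨12,
  false, 3, 3, [5, 7, 17]⟩, ⟨13, false, 3, 5, [5]⟩, ⟨14, false, 3, 5, [6]⟩, ⟨15, true, 3, 5,
  [10]⟩, ⟨16, false, 3, 5, [7]⟩, ⟨17, true, 3, 5, [12]⟩, ⟨18, true, 3, 5, [11]⟩], .split (.deg 8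
  (.cons 3 (.fill 8 19 (.emb 289 false [0, 1, 2, 3, 4, 5, 6, 7, 8, 9, 10, 11, 12, 13, 14, 15,
  16, 17, 18, 19]) (.cons 13 (.emb 279 false [0, 1, 3, 2, 4, 5, 8, 9, 6, 7, 11, 10, 13, 12, 18])
  (.cons 14 (.emb 281 true [1, 0, 4, 5, 2, 3, 10, 11, 12, 13, 6, 7, 8, 9, 15, 14, 18, 16])
  (.cons 16 (.emb 288 true [1, 0, 4, 5, 2, 3, 10, 11, 12, 13, 6, 7, 8, 9, 15, 14, 18, 16])
  .nil)))) (.cons 4 (.emb 254 true [3, 8, 0, 9]) (.cons 5 (.emb 61 true [3, 8, 0, 9, 1, 2])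
  .nil))))⟩

noncomputable def e291 : Ent := ⟨3, [⟨0, true, 3, 3, [1, 2, 3]⟩, ⟨1, false, 3, 3, [0, 4, 5]⟩, ⟨2, false, 3, 3,
  [0, 6, 7]⟩, ⟨3, false, 3, 3, [0, 8, 9]⟩, ⟨4, true, 3, 3, [1, 10, 11]⟩, ⟨5, true, 3, 3, [1, 12,
  13]⟩, ⟨6, true, 3, 3, [2, 10, 14]⟩, ⟨7, true, 3, 3, [2, 12, 16]⟩, ⟨8, true, 3, 5, [3]⟩, ⟨9,
  true, 3, 5, [3]⟩, ⟨10, false, 3, 3, [4, 6, 15]⟩, ⟨11, false, 3, 3, [4, 17, 18]⟩, ⟨12, false,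
  3, 3, [5, 7, 17]⟩, ⟨13, false, 3, 5, [5]⟩, ⟨14, false, 3, 5, [6]⟩, ⟨15, true, 3, 5, [10]⟩,
  ⟨16, false, 3, 5, [7]⟩, ⟨17, true, 3, 5, [11, 12]⟩, ⟨18, true, 3, 5, [11]⟩], .cert (.edge 0 2
  (.edge 1 5 (.contr 0 (.vert 7 (.cons 2 .nil (.cons 12 (.vert 2 (.cons 6 (.vert 5 (.cons 13
  .nil .nil)) .nil)) (.cons 16 (.vert 2 (.cons 6 .nil .nil)) .nil))))) (.vert 0 (.cons 3 (.vert
  2 (.cons 6 .nil (.cons 7 (.vert 12 (.cons 17 .nil .nil)) .nil))) .nil))) (.vert 1 (.cons 4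
  (.vert 5 (.cons 12 (.vert 7 (.cons 16 .nil .nil)) (.cons 13 .nil .nil))) (.cons 5 (.vert 4
  (.cons 10 (.vert 6 (.cons 14 .nil .nil)) (.cons 11 .nil .nil))) .nil))))⟩

noncomputable def e292 : Ent := ⟨3, [⟨0, true, 3, 3, [1, 2, 3]⟩, ⟨1, false, 3, 3, [0, 4, 5]⟩, ⟨2, false, 3, 3,
  [0, 6, 7]⟩, ⟨3, false, 3, 3, [0, 8, 9]⟩, ⟨4, true, 3, 3, [1, 10, 11]⟩, ⟨5, true, 3, 3, [1, 12,
  13]⟩, ⟨6, true, 3, 3, [2, 10, 14]⟩, ⟨7, true, 3, 3, [2, 12, 16]⟩, ⟨8, true, 3, 5, [3]⟩, ⟨9,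
  true, 3, 5, [3]⟩, ⟨10, false, 3, 3, [4, 6, 15]⟩, ⟨11, false, 3, 3, [4, 18, 19]⟩, ⟨12, false,
  3, 3, [5, 7, 17]⟩, ⟨13, false, 3, 5, [5]⟩, ⟨14, false, 3, 5, [6]⟩, ⟨15, true, 3, 5, [10]⟩,
  ⟨16, false, 3, 5, [7]⟩, ⟨17, true, 3, 5, [12]⟩, ⟨18, true, 3, 5, [11]⟩, ⟨19, true, 3, 5,
  [11]⟩], .cert (.edge 1 5 (.edge 0 2 (.contr 0 (.vert 7 (.cons 2 .nil (.cons 12 (.vert 2 (.cons
  6 (.vert 5 (.cons 13 .nil .nil)) .nil)) (.cons 16 (.vert 2 (.cons 6 .nil .nil)) .nil)))))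
  (.vert 1 (.cons 4 (.vert 5 (.cons 12 (.vert 7 (.cons 16 .nil .nil)) (.cons 13 .nil .nil)))
  .nil))) (.vert 2 (.cons 0 (.vert 4 (.cons 10 (.vert 6 (.cons 14 .nil .nil)) (.cons 11 .nil
  .nil))) (.cons 6 (.vert 0 (.cons 3 .nil .nil)) (.cons 7 (.vert 0 (.cons 3 (.vert 12 (.cons 17
  .nil .nil)) .nil)) .nil)))))⟩

noncomputable def e293 : Ent := ⟨3, [⟨0, true, 3, 3, [1, 2, 3]⟩, ⟨1, false, 3, 3, [0, 4, 5]⟩, ⟨2, false, 3, 3,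
  [0, 6, 7]⟩, ⟨3, false, 3, 3, [0, 8, 9]⟩, ⟨4, true, 3, 3, [1, 10, 11]⟩, ⟨5, true, 3, 3, [1, 12,
  13]⟩, ⟨6, true, 3, 3, [2, 10, 14]⟩, ⟨7, true, 3, 3, [2, 12, 16]⟩, ⟨8, true, 3, 5, [3]⟩, ⟨9,
  true, 3, 5, [3]⟩, ⟨10, false, 3, 3, [4, 6, 15]⟩, ⟨11, false, 3, 5, [4]⟩, ⟨12, false, 3, 3, [5,
  7, 17]⟩, ⟨13, false, 3, 5, [5]⟩, ⟨14, false, 3, 5, [6]⟩, ⟨15, true, 3, 5, [10]⟩, ⟨16, false,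
  3, 5, [7]⟩, ⟨17, true, 3, 5, [12]⟩], .split (.deg 11 (.cons 3 (.fill 11 18 (.fill 11 19 (.emb
  292 false [0, 1, 2, 3, 4, 5, 6, 7, 8, 9, 10, 11, 12, 13, 14, 15, 16, 17, 18, 19]) (.cons 8
  (.emb 290 false [0, 1, 2, 3, 4, 5, 6, 7, 8, 9, 10, 11, 12, 13, 14, 15, 16, 17, 18]) (.cons 9
  (.emb 290 false [0, 1, 2, 3, 4, 5, 6, 7, 9, 8, 10, 11, 12, 13, 14, 15, 16, 17, 18]) (.cons 17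
  (.emb 291 false [0, 1, 2, 3, 4, 5, 6, 7, 8, 9, 10, 11, 12, 13, 14, 15, 16, 17, 18]) .nil))))
  (.cons 8 (.fill 11 18 (.emb 290 false [0, 1, 2, 3, 4, 5, 6, 7, 8, 9, 10, 11, 12, 13, 14, 15,
  16, 17, 18]) (.cons 17 (.emb 288 false [0, 1, 2, 3, 4, 5, 6, 7, 8, 9, 10, 11, 12, 13, 14, 15,
  16, 17]) .nil)) (.cons 9 (.fill 11 18 (.emb 290 false [0, 1, 2, 3, 4, 5, 6, 7, 9, 8, 10, 11,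
  12, 13, 14, 15, 16, 17, 18]) (.cons 17 (.emb 288 false [0, 1, 2, 3, 4, 5, 6, 7, 9, 8, 10, 11,
  12, 13, 14, 15, 16, 17]) .nil)) (.cons 17 (.fill 11 18 (.emb 291 false [0, 1, 2, 3, 4, 5, 6,
  7, 8, 9, 10, 11, 12, 13, 14, 15, 16, 17, 18]) (.cons 8 (.emb 288 false [0, 1, 2, 3, 4, 5, 6,
  7, 8, 9, 10, 11, 12, 13, 14, 15, 16, 17]) (.cons 9 (.emb 288 false [0, 1, 2, 3, 4, 5, 6, 7, 9,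
  8, 10, 11, 12, 13, 14, 15, 16, 17]) .nil))) .nil)))) (.cons 4 (.emb 254 false [4, 11, 1, 10])
  (.cons 5 (.emb 58 false [4, 11, 1, 10, 0, 5, 6, 15, 2, 3, 12, 13]) .nil))))⟩

noncomputable def e294 : Ent := ⟨3, [⟨0, true, 3, 3, [1, 2, 3]⟩, ⟨1, false, 3, 3, [0, 4, 5]⟩, ⟨2, false, 3, 3,
  [0, 6, 7]⟩, ⟨3, false, 3, 3, [0, 8, 9]⟩, ⟨4, true, 3, 3, [1, 10, 11]⟩, ⟨5, true, 3, 3, [1, 12,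
  13]⟩, ⟨6, true, 3, 3, [2, 10, 14]⟩, ⟨7, true, 3, 3, [2, 12, 16]⟩, ⟨8, true, 3, 5, [3]⟩, ⟨9,
  true, 3, 5, [3]⟩, ⟨10, false, 3, 3, [4, 6, 15]⟩, ⟨11, false, 3, 5, [4]⟩, ⟨12, false, 3, 5, [5,
  7]⟩, ⟨13, false, 3, 5, [5]⟩, ⟨14, false, 3, 5, [6]⟩, ⟨15, true, 3, 5, [10]⟩, ⟨16, false, 3, 5,
  [7]⟩], .split (.deg 12 (.cons 3 (.fill 12 17 (.emb 293 false [0, 1, 2, 3, 4, 5, 6, 7, 8, 9,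
  10, 11, 12, 13, 14, 15, 16, 17]) (.cons 8 (.emb 279 true [1, 0, 5, 4, 2, 3, 12, 13, 10, 11, 7,
  6, 8, 9, 16]) (.cons 9 (.emb 279 true [1, 0, 5, 4, 2, 3, 12, 13, 10, 11, 7, 6, 9, 8, 16])
  (.cons 15 (.emb 283 false [0, 1, 2, 3, 4, 5, 6, 7, 8, 9, 10, 11, 12, 13, 14, 15, 16]) .nil))))
  (.cons 4 (.emb 254 false [5, 12, 1, 13]) (.cons 5 (.emb 61 false [5, 12, 1, 13, 0, 4])
  .nil))))⟩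

noncomputable def e295 : Ent := ⟨3, [⟨0, true, 3, 3, [1, 2, 3]⟩, ⟨1, false, 3, 3, [0, 4, 5]⟩, ⟨2, false, 3, 3,
  [0, 6, 7]⟩, ⟨3, false, 3, 3, [0, 8, 9]⟩, ⟨4, true, 3, 3, [1, 10, 11]⟩, ⟨5, true, 3, 3, [1, 12,
  13]⟩, ⟨6, true, 3, 3, [2, 10, 14]⟩, ⟨7, true, 3, 3, [2, 15, 16]⟩, ⟨8, true, 3, 3, [3, 17,
  18]⟩, ⟨9, true, 3, 5, [3]⟩, ⟨10, false, 3, 5, [4, 6]⟩, ⟨11, false, 3, 5, [4]⟩, ⟨12, false, 3,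
  5, [5]⟩, ⟨13, false, 3, 5, [5]⟩, ⟨14, false, 3, 5, [6]⟩, ⟨15, false, 3, 5, [7]⟩, ⟨16, false,
  3, 5, [7]⟩, ⟨17, false, 3, 5, [8]⟩, ⟨18, false, 3, 5, [8]⟩], .cert (.edge 3 9 (.contr 3 .nil)
  (.edge 1 4 (.contr 0 .nil) (.vert 0 (.cons 2 .nil .nil))))⟩

noncomputable def e296 : Ent := ⟨3, [⟨0, true, 3, 3, [1, 2, 3]⟩, ⟨1, false, 3, 3, [0, 4, 5]⟩, ⟨2, false, 3, 3,
  [0, 6, 7]⟩, ⟨3, false, 3, 3, [0, 8, 9]⟩, ⟨4, true, 3, 3, [1, 10, 11]⟩, ⟨5, true, 3, 3, [1, 12,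
  13]⟩, ⟨6, true, 3, 3, [2, 10, 14]⟩, ⟨7, true, 3, 3, [2, 16, 17]⟩, ⟨8, true, 3, 5, [3]⟩, ⟨9,
  true, 3, 5, [3]⟩, ⟨10, false, 3, 3, [4, 6, 15]⟩, ⟨11, false, 3, 3, [4, 18, 19]⟩, ⟨12, false,
  3, 5, [5]⟩, ⟨13, false, 3, 5, [5]⟩, ⟨14, false, 3, 3, [6, 18, 20]⟩, ⟨15, true, 3, 5, [10]⟩,
  ⟨16, false, 3, 5, [7]⟩, ⟨17, false, 3, 5, [7]⟩, ⟨18, true, 3, 5, [11, 14]⟩, ⟨19, true, 3, 5,
  [11]⟩, ⟨20, true, 3, 5, [14]⟩], .cert (.vert 4 (.cons 1 (.vert 2 (.cons 0 (.vert 14 (.cons 6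
  (.vert 10 (.cons 15 .nil .nil)) (.cons 18 (.vert 6 (.cons 10 (.vert 11 (.cons 19 .nil .nil))
  .nil)) (.cons 20 (.vert 6 (.cons 10 .nil .nil)) .nil)))) (.cons 6 (.vert 0 (.cons 3 (.vert 10
  (.cons 15 (.vert 11 (.cons 18 (.vert 14 (.cons 20 .nil .nil)) (.cons 19 .nil .nil))) .nil))
  .nil)) (.cons 7 (.vert 0 (.cons 3 (.vert 14 (.cons 6 (.vert 10 (.cons 15 .nil .nil)) (.cons 18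
  (.vert 6 (.cons 10 (.vert 11 (.cons 19 .nil .nil)) .nil)) (.cons 20 (.vert 6 (.cons 10 .nil
  .nil)) .nil)))) .nil)) .nil)))) (.cons 10 (.vert 14 (.cons 6 (.edge 0 3 (.contr 0 .nil) (.vert
  1 (.cons 5 (.vert 2 (.cons 7 .nil .nil)) .nil))) (.cons 18 (.vert 6 (.cons 2 (.vert 11 (.cons
  19 .nil .nil)) .nil)) (.cons 20 (.vert 6 (.cons 2 (.vert 0 (.cons 1 .nil (.cons 3 (.vert 1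
  (.cons 5 .nil .nil)) .nil))) .nil)) .nil)))) (.cons 11 (.edge 0 3 (.contr 0 .nil) (.vert 1
  (.cons 5 (.vert 6 (.cons 2 (.vert 10 (.cons 15 .nil .nil)) (.cons 10 (.vert 2 (.cons 7 .nil
  .nil)) (.cons 14 (.vert 2 (.cons 7 (.vert 10 (.cons 15 .nil .nil)) .nil)) .nil)))) .nil)))
  .nil))))⟩

noncomputable def e297 : Ent := ⟨3, [⟨0, true, 3, 3, [1, 2, 3]⟩, ⟨1, false, 3, 3, [0, 4, 5]⟩, ⟨2, false, 3, 3,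
  [0, 6, 7]⟩, ⟨3, false, 3, 3, [0, 8, 9]⟩, ⟨4, true, 3, 3, [1, 10, 11]⟩, ⟨5, true, 3, 3, [1, 12,
  13]⟩, ⟨6, true, 3, 3, [2, 10, 14]⟩, ⟨7, true, 3, 3, [2, 16, 17]⟩, ⟨8, true, 3, 5, [3]⟩, ⟨9,
  true, 3, 5, [3]⟩, ⟨10, false, 3, 3, [4, 6, 15]⟩, ⟨11, false, 3, 3, [4, 18, 19]⟩, ⟨12, false,
  3, 5, [5]⟩, ⟨13, false, 3, 5, [5]⟩, ⟨14, false, 3, 3, [6, 20, 21]⟩, ⟨15, true, 3, 5, [10]⟩,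
  ⟨16, false, 3, 5, [7]⟩, ⟨17, false, 3, 5, [7]⟩, ⟨18, true, 3, 5, [11]⟩, ⟨19, true, 3, 5,
  [11]⟩, ⟨20, true, 3, 5, [14]⟩, ⟨21, true, 3, 5, [14]⟩], .cert (.edge 2 6 (.edge 0 3 (.contr 0
  (.edge 10 15 (.contr 6 .nil) (.vert 6 (.cons 14 .nil .nil)))) (.vert 2 (.cons 7 (.edge 10 15
  (.contr 6 .nil) (.vert 6 (.cons 14 .nil .nil))) .nil))) (.edge 1 5 (.contr 0 .nil) (.vert 0
  (.cons 3 (.vert 4 (.cons 10 .nil (.cons 11 (.vert 10 (.cons 15 .nil .nil)) .nil))) .nil))))⟩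

noncomputable def e298 : Ent := ⟨3, [⟨0, true, 3, 3, [1, 2, 3]⟩, ⟨1, false, 3, 3, [0, 4, 5]⟩, ⟨2, false, 3, 3,
  [0, 6, 7]⟩, ⟨3, false, 3, 3, [0, 8, 9]⟩, ⟨4, true, 3, 3, [1, 10, 11]⟩, ⟨5, true, 3, 3, [1, 12,
  13]⟩, ⟨6, true, 3, 3, [2, 10, 14]⟩, ⟨7, true, 3, 3, [2, 16, 17]⟩, ⟨8, true, 3, 5, [3]⟩, ⟨9,
  true, 3, 5, [3]⟩, ⟨10, false, 3, 3, [4, 6, 15]⟩, ⟨11, false, 3, 3, [4, 18, 19]⟩, ⟨12, false,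
  3, 5, [5]⟩, ⟨13, false, 3, 5, [5]⟩, ⟨14, false, 3, 5, [6]⟩, ⟨15, true, 3, 5, [10]⟩, ⟨16,
  false, 3, 5, [7]⟩, ⟨17, false, 3, 5, [7]⟩, ⟨18, true, 3, 5, [11]⟩, ⟨19, true, 3, 5, [11]⟩],
  .split (.deg 14 (.cons 3 (.fill 14 20 (.fill 14 21 (.emb 297 false [0, 1, 2, 3, 4, 5, 6, 7, 8,
  9, 10, 11, 12, 13, 14, 15, 16, 17, 18, 19, 20, 21]) (.cons 8 (.emb 294 true [2, 0, 6, 7, 1, 3,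
  10, 14, 16, 17, 4, 5, 8, 9, 15, 11, 20]) (.cons 9 (.emb 294 true [2, 0, 6, 7, 1, 3, 10, 14,
  16, 17, 4, 5, 9, 8, 15, 11, 20]) (.cons 18 (.emb 296 false [0, 1, 2, 3, 4, 5, 6, 7, 8, 9, 10,
  11, 12, 13, 14, 15, 16, 17, 18, 19, 20]) (.cons 19 (.emb 296 false [0, 1, 2, 3, 4, 5, 6, 7, 8,
  9, 10, 11, 12, 13, 14, 15, 16, 17, 19, 18, 20]) .nil))))) (.cons 8 (.fill 14 20 (.emb 294 true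
  [2, 0, 6, 7, 1, 3, 10, 14, 16, 17, 4, 5, 8, 9, 15, 11, 20]) (.cons 18 (.emb 294 true [2, 0, 6,
  7, 1, 3, 10, 14, 16, 17, 4, 5, 8, 9, 15, 11, 18]) (.cons 19 (.emb 294 true [2, 0, 6, 7, 1, 3,
  10, 14, 16, 17, 4, 5, 8, 9, 15, 11, 19]) .nil))) (.cons 9 (.fill 14 20 (.emb 294 true [2, 0,
  6, 7, 1, 3, 10, 14, 16, 17, 4, 5, 9, 8, 15, 11, 20]) (.cons 18 (.emb 294 true [2, 0, 6, 7, 1,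
  3, 10, 14, 16, 17, 4, 5, 9, 8, 15, 11, 18]) (.cons 19 (.emb 294 true [2, 0, 6, 7, 1, 3, 10,
  14, 16, 17, 4, 5, 9, 8, 15, 11, 19]) .nil))) (.cons 18 (.fill 14 20 (.emb 296 false [0, 1, 2,
  3, 4, 5, 6, 7, 8, 9, 10, 11, 12, 13, 14, 15, 16, 17, 18, 19, 20]) (.cons 8 (.emb 294 true [2,
  0, 6, 7, 1, 3, 10, 14, 16, 17, 4, 5, 8, 9, 15, 11, 18]) (.cons 9 (.emb 294 true [2, 0, 6, 7,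
  1, 3, 10, 14, 16, 17, 4, 5, 9, 8, 15, 11, 18]) .nil))) (.cons 19 (.fill 14 20 (.emb 296 false
  [0, 1, 2, 3, 4, 5, 6, 7, 8, 9, 10, 11, 12, 13, 14, 15, 16, 17, 19, 18, 20]) (.cons 8 (.emb 294
  true [2, 0, 6, 7, 1, 3, 10, 14, 16, 17, 4, 5, 8, 9, 15, 11, 19]) (.cons 9 (.emb 294 true [2,
  0, 6, 7, 1, 3, 10, 14, 16, 17, 4, 5, 9, 8, 15, 11, 19]) .nil))) .nil))))) (.cons 4 (.emb 254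
  false [6, 14, 2, 10]) (.cons 5 (.emb 58 false [6, 14, 2, 10, 0, 7, 4, 15, 1, 3, 16, 17])
  .nil))))⟩

noncomputable def e299 : Ent := ⟨3, [⟨0, true, 3, 3, [1, 2, 3]⟩, ⟨1, false, 3, 3, [0, 4, 5]⟩, ⟨2, false, 3, 3,
  [0, 6, 7]⟩, ⟨3, false, 3, 3, [0, 8, 9]⟩, ⟨4, true, 3, 3, [1, 10, 11]⟩, ⟨5, true, 3, 3, [1, 12,
  13]⟩, ⟨6, true, 3, 3, [2, 10, 14]⟩, ⟨7, true, 3, 3, [2, 16, 17]⟩, ⟨8, true, 3, 5, [3]⟩, ⟨9,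
  true, 3, 5, [3]⟩, ⟨10, false, 3, 3, [4, 6, 15]⟩, ⟨11, false, 3, 5, [4]⟩, ⟨12, false, 3, 5,
  [5]⟩, ⟨13, false, 3, 5, [5]⟩, ⟨14, false, 3, 5, [6]⟩, ⟨15, true, 3, 5, [10]⟩, ⟨16, false, 3,
  5, [7]⟩, ⟨17, false, 3, 5, [7]⟩], .split (.deg 11 (.cons 3 (.fill 11 18 (.fill 11 19 (.emb 298
  false [0, 1, 2, 3, 4, 5, 6, 7, 8, 9, 10, 11, 12, 13, 14, 15, 16, 17, 18, 19]) (.cons 8 (.emb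
  294 true [1, 0, 4, 5, 2, 3, 10, 11, 12, 13, 6, 7, 8, 9, 15, 14, 18]) (.cons 9 (.emb 294 true
  [1, 0, 4, 5, 2, 3, 10, 11, 12, 13, 6, 7, 9, 8, 15, 14, 18]) .nil))) (.cons 8 (.fill 11 18
  (.emb 294 true [1, 0, 4, 5, 2, 3, 10, 11, 12, 13, 6, 7, 8, 9, 15, 14, 18]) .nil) (.cons 9
  (.fill 11 18 (.emb 294 true [1, 0, 4, 5, 2, 3, 10, 11, 12, 13, 6, 7, 9, 8, 15, 14, 18]) .nil)
  .nil))) (.cons 4 (.emb 254 false [4, 11, 1, 10]) (.cons 5 (.emb 58 false [4, 11, 1, 10, 0, 5,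
  6, 15, 2, 3, 12, 13]) .nil))))⟩

noncomputable def e300 : Ent := ⟨3, [⟨0, true, 3, 3, [1, 2, 3]⟩, ⟨1, false, 3, 3, [0, 4, 5]⟩, ⟨2, false, 3, 3,
  [0, 6, 7]⟩, ⟨3, false, 3, 3, [0, 8, 9]⟩, ⟨4, true, 3, 3, [1, 10, 11]⟩, ⟨5, true, 3, 3, [1, 12,
  13]⟩, ⟨6, true, 3, 3, [2, 10, 14]⟩, ⟨7, true, 3, 5, [2]⟩, ⟨8, true, 3, 5, [3]⟩, ⟨9, true, 3,
  5, [3]⟩, ⟨10, false, 3, 3, [4, 6, 15]⟩, ⟨11, false, 3, 5, [4]⟩, ⟨12, false, 3, 5, [5]⟩, ⟨13,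
  false, 3, 5, [5]⟩, ⟨14, false, 3, 5, [6]⟩, ⟨15, true, 3, 5, [10]⟩], .split (.deg 7 (.cons 3
  (.fill 7 16 (.fill 7 17 (.emb 299 false [0, 1, 2, 3, 4, 5, 6, 7, 8, 9, 10, 11, 12, 13, 14, 15,
  16, 17]) (.cons 11 (.emb 279 false [0, 2, 1, 3, 6, 7, 4, 5, 8, 9, 10, 14, 11, 16, 15]) (.cons
  12 (.emb 294 false [0, 1, 2, 3, 4, 5, 6, 7, 8, 9, 10, 11, 12, 13, 14, 15, 16]) (.cons 13 (.emb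
  294 false [0, 1, 2, 3, 4, 5, 6, 7, 8, 9, 10, 11, 13, 12, 14, 15, 16]) .nil)))) (.cons 11
  (.fill 7 16 (.emb 279 false [0, 2, 1, 3, 6, 7, 4, 5, 8, 9, 10, 14, 11, 16, 15]) (.cons 12
  (.emb 279 false [0, 2, 1, 3, 6, 7, 4, 5, 8, 9, 10, 14, 11, 12, 15]) (.cons 13 (.emb 279 false
  [0, 2, 1, 3, 6, 7, 4, 5, 8, 9, 10, 14, 11, 13, 15]) .nil))) (.cons 12 (.fill 7 16 (.emb 294
  false [0, 1, 2, 3, 4, 5, 6, 7, 8, 9, 10, 11, 12, 13, 14, 15, 16]) (.cons 11 (.emb 279 false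
  [0, 2, 1, 3, 6, 7, 4, 5, 8, 9, 10, 14, 11, 12, 15]) .nil)) (.cons 13 (.fill 7 16 (.emb 294
  false [0, 1, 2, 3, 4, 5, 6, 7, 8, 9, 10, 11, 13, 12, 14, 15, 16]) (.cons 11 (.emb 279 false
  [0, 2, 1, 3, 6, 7, 4, 5, 8, 9, 10, 14, 11, 13, 15]) .nil)) .nil)))) (.cons 4 (.emb 254 true
  [2, 7, 0, 6]) (.cons 5 (.emb 58 true [2, 7, 0, 6, 1, 3, 10, 14, 4, 5, 8, 9]) .nil))))⟩

noncomputable def e301 : Ent := ⟨3, [⟨0, true, 3, 3, [1, 2, 3]⟩, ⟨1, false, 3, 3, [0, 4, 5]⟩, ⟨2, false, 3, 3,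
  [0, 6, 7]⟩, ⟨3, false, 3, 3, [0, 8, 9]⟩, ⟨4, true, 3, 3, [1, 10, 11]⟩, ⟨5, true, 3, 3, [1, 12,
  13]⟩, ⟨6, true, 3, 3, [2, 10, 14]⟩, ⟨7, true, 3, 5, [2]⟩, ⟨8, true, 3, 5, [3]⟩, ⟨9, true, 3,
  5, [3]⟩, ⟨10, false, 3, 5, [4, 6]⟩, ⟨11, false, 3, 5, [4]⟩, ⟨12, false, 3, 5, [5]⟩, ⟨13,
  false, 3, 5, [5]⟩, ⟨14, false, 3, 5, [6]⟩], .split (.deg 10 (.cons 3 (.fill 10 15 (.emb 300
  false [0, 1, 2, 3, 4, 5, 6, 7, 8, 9, 10, 11, 12, 13, 14, 15]) (.cons 8 (.emb 279 true [1, 0,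
  4, 5, 2, 3, 10, 11, 12, 13, 6, 7, 8, 9, 14]) (.cons 9 (.emb 279 true [1, 0, 4, 5, 2, 3, 10,
  11, 12, 13, 6, 7, 9, 8, 14]) .nil))) (.cons 4 (.emb 254 false [4, 10, 1, 11]) (.cons 5 (.emb
  61 false [4, 10, 1, 11, 0, 5]) .nil))))⟩

noncomputable def e302 : Ent := ⟨3, [⟨0, true, 3, 3, [1, 2, 3]⟩, ⟨1, false, 3, 3, [0, 4, 5]⟩, ⟨2, false, 3, 3,
  [0, 6, 7]⟩, ⟨3, false, 3, 3, [0, 8, 9]⟩, ⟨4, true, 3, 3, [1, 10, 11]⟩, ⟨5, true, 3, 3, [1, 12,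
  13]⟩, ⟨6, true, 3, 3, [2, 14, 15]⟩, ⟨7, true, 3, 3, [2, 16, 17]⟩, ⟨8, true, 3, 3, [3, 18,
  19]⟩, ⟨9, true, 3, 5, [3]⟩, ⟨10, false, 3, 5, [4]⟩, ⟨11, false, 3, 5, [4]⟩, ⟨12, false, 3, 5,
  [5]⟩, ⟨13, false, 3, 5, [5]⟩, ⟨14, false, 3, 5, [6]⟩, ⟨15, false, 3, 5, [6]⟩, ⟨16, false, 3,
  5, [7]⟩, ⟨17, false, 3, 5, [7]⟩, ⟨18, false, 3, 5, [8]⟩, ⟨19, false, 3, 5, [8]⟩], .cert (.edge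
  3 9 (.contr 3 .nil) (.contr 0 .nil))⟩

noncomputable def e303 : Ent := ⟨3, [⟨0, true, 3, 3, [1, 2, 3]⟩, ⟨1, false, 3, 3, [0, 4, 5]⟩, ⟨2, false, 3, 3,
  [0, 6, 7]⟩, ⟨3, false, 3, 3, [0, 8, 9]⟩, ⟨4, true, 3, 3, [1, 10, 11]⟩, ⟨5, true, 3, 3, [1, 12,
  13]⟩, ⟨6, true, 3, 3, [2, 14, 15]⟩, ⟨7, true, 3, 3, [2, 16, 17]⟩, ⟨8, true, 3, 5, [3]⟩, ⟨9,
  true, 3, 5, [3]⟩, ⟨10, false, 3, 5, [4]⟩, ⟨11, false, 3, 5, [4]⟩, ⟨12, false, 3, 5, [5]⟩, ⟨13,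
  false, 3, 5, [5]⟩, ⟨14, false, 3, 5, [6]⟩, ⟨15, false, 3, 5, [6]⟩, ⟨16, false, 3, 5, [7]⟩,
  ⟨17, false, 3, 5, [7]⟩], .split (.deg 8 (.cons 3 (.fill 8 18 (.fill 8 19 (.emb 302 false [0,
  1, 2, 3, 4, 5, 6, 7, 8, 9, 10, 11, 12, 13, 14, 15, 16, 17, 18, 19]) (.cons 10 (.emb 301 false
  [0, 1, 3, 2, 4, 5, 8, 9, 6, 7, 10, 11, 12, 13, 18]) (.cons 11 (.emb 301 false [0, 1, 3, 2, 4,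
  5, 8, 9, 6, 7, 11, 10, 12, 13, 18]) (.cons 12 (.emb 301 false [0, 1, 3, 2, 5, 4, 8, 9, 6, 7,
  12, 13, 10, 11, 18]) (.cons 13 (.emb 301 false [0, 1, 3, 2, 5, 4, 8, 9, 6, 7, 13, 12, 10, 11,
  18]) (.cons 14 (.emb 301 false [0, 2, 3, 1, 6, 7, 8, 9, 4, 5, 14, 15, 16, 17, 18]) (.cons 15
  (.emb 301 false [0, 2, 3, 1, 6, 7, 8, 9, 4, 5, 15, 14, 16, 17, 18]) (.cons 16 (.emb 301 false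
  [0, 2, 3, 1, 7, 6, 8, 9, 4, 5, 16, 17, 14, 15, 18]) (.cons 17 (.emb 301 false [0, 2, 3, 1, 7,
  6, 8, 9, 4, 5, 17, 16, 14, 15, 18]) .nil))))))))) (.cons 10 (.fill 8 18 (.emb 301 false [0, 1,
  3, 2, 4, 5, 8, 9, 6, 7, 10, 11, 12, 13, 18]) (.cons 12 (.emb 280 false [0, 1, 3, 2, 4, 5, 8,
  9, 6, 7, 10, 11, 12, 13]) (.cons 13 (.emb 280 false [0, 1, 3, 2, 4, 5, 8, 9, 6, 7, 10, 11, 13,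
  12]) (.cons 14 (.emb 301 false [0, 1, 3, 2, 4, 5, 8, 9, 6, 7, 10, 11, 12, 13, 14]) (.cons 15
  (.emb 301 false [0, 1, 3, 2, 4, 5, 8, 9, 6, 7, 10, 11, 12, 13, 15]) (.cons 16 (.emb 301 false
  [0, 1, 3, 2, 4, 5, 8, 9, 6, 7, 10, 11, 12, 13, 16]) (.cons 17 (.emb 301 false [0, 1, 3, 2, 4,
  5, 8, 9, 6, 7, 10, 11, 12, 13, 17]) .nil))))))) (.cons 11 (.fill 8 18 (.emb 301 false [0, 1,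
  3, 2, 4, 5, 8, 9, 6, 7, 11, 10, 12, 13, 18]) (.cons 12 (.emb 280 false [0, 1, 3, 2, 4, 5, 8,
  9, 6, 7, 11, 10, 12, 13]) (.cons 13 (.emb 280 false [0, 1, 3, 2, 4, 5, 8, 9, 6, 7, 11, 10, 13,
  12]) (.cons 14 (.emb 301 false [0, 1, 3, 2, 4, 5, 8, 9, 6, 7, 11, 10, 12, 13, 14]) (.cons 15
  (.emb 301 false [0, 1, 3, 2, 4, 5, 8, 9, 6, 7, 11, 10, 12, 13, 15]) (.cons 16 (.emb 301 false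
  [0, 1, 3, 2, 4, 5, 8, 9, 6, 7, 11, 10, 12, 13, 16]) (.cons 17 (.emb 301 false [0, 1, 3, 2, 4,
  5, 8, 9, 6, 7, 11, 10, 12, 13, 17]) .nil))))))) (.cons 12 (.fill 8 18 (.emb 301 false [0, 1,
  3, 2, 5, 4, 8, 9, 6, 7, 12, 13, 10, 11, 18]) (.cons 10 (.emb 280 false [0, 1, 3, 2, 4, 5, 8,
  9, 6, 7, 10, 11, 12, 13]) (.cons 11 (.emb 280 false [0, 1, 3, 2, 4, 5, 8, 9, 6, 7, 11, 10, 12,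
  13]) (.cons 14 (.emb 301 false [0, 1, 3, 2, 5, 4, 8, 9, 6, 7, 12, 13, 10, 11, 14]) (.cons 15
  (.emb 301 false [0, 1, 3, 2, 5, 4, 8, 9, 6, 7, 12, 13, 10, 11, 15]) (.cons 16 (.emb 301 false
  [0, 1, 3, 2, 5, 4, 8, 9, 6, 7, 12, 13, 10, 11, 16]) (.cons 17 (.emb 301 false [0, 1, 3, 2, 5,
  4, 8, 9, 6, 7, 12, 13, 10, 11, 17]) .nil))))))) (.cons 13 (.fill 8 18 (.emb 301 false [0, 1,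
  3, 2, 5, 4, 8, 9, 6, 7, 13, 12, 10, 11, 18]) (.cons 10 (.emb 280 false [0, 1, 3, 2, 4, 5, 8,
  9, 6, 7, 10, 11, 13, 12]) (.cons 11 (.emb 280 false [0, 1, 3, 2, 4, 5, 8, 9, 6, 7, 11, 10, 13,
  12]) (.cons 14 (.emb 301 false [0, 1, 3, 2, 5, 4, 8, 9, 6, 7, 13, 12, 10, 11, 14]) (.cons 15
  (.emb 301 false [0, 1, 3, 2, 5, 4, 8, 9, 6, 7, 13, 12, 10, 11, 15]) (.cons 16 (.emb 301 false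
  [0, 1, 3, 2, 5, 4, 8, 9, 6, 7, 13, 12, 10, 11, 16]) (.cons 17 (.emb 301 false [0, 1, 3, 2, 5,
  4, 8, 9, 6, 7, 13, 12, 10, 11, 17]) .nil))))))) (.cons 14 (.fill 8 18 (.emb 301 false [0, 2,
  3, 1, 6, 7, 8, 9, 4, 5, 14, 15, 16, 17, 18]) (.cons 10 (.emb 301 false [0, 1, 3, 2, 4, 5, 8,
  9, 6, 7, 10, 11, 12, 13, 14]) (.cons 11 (.emb 301 false [0, 1, 3, 2, 4, 5, 8, 9, 6, 7, 11, 10,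
  12, 13, 14]) (.cons 12 (.emb 301 false [0, 1, 3, 2, 5, 4, 8, 9, 6, 7, 12, 13, 10, 11, 14])
  (.cons 13 (.emb 301 false [0, 1, 3, 2, 5, 4, 8, 9, 6, 7, 13, 12, 10, 11, 14]) (.cons 16 (.emb
  280 false [0, 2, 3, 1, 6, 7, 8, 9, 4, 5, 14, 15, 16, 17]) (.cons 17 (.emb 280 false [0, 2, 3,
  1, 6, 7, 8, 9, 4, 5, 14, 15, 17, 16]) .nil))))))) (.cons 15 (.fill 8 18 (.emb 301 false [0, 2,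
  3, 1, 6, 7, 8, 9, 4, 5, 15, 14, 16, 17, 18]) (.cons 10 (.emb 301 false [0, 1, 3, 2, 4, 5, 8,
  9, 6, 7, 10, 11, 12, 13, 15]) (.cons 11 (.emb 301 false [0, 1, 3, 2, 4, 5, 8, 9, 6, 7, 11, 10,
  12, 13, 15]) (.cons 12 (.emb 301 false [0, 1, 3, 2, 5, 4, 8, 9, 6, 7, 12, 13, 10, 11, 15])
  (.cons 13 (.emb 301 false [0, 1, 3, 2, 5, 4, 8, 9, 6, 7, 13, 12, 10, 11, 15]) (.cons 16 (.emb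
  280 false [0, 2, 3, 1, 6, 7, 8, 9, 4, 5, 15, 14, 16, 17]) (.cons 17 (.emb 280 false [0, 2, 3,
  1, 6, 7, 8, 9, 4, 5, 15, 14, 17, 16]) .nil))))))) (.cons 16 (.fill 8 18 (.emb 301 false [0, 2,
  3, 1, 7, 6, 8, 9, 4, 5, 16, 17, 14, 15, 18]) (.cons 10 (.emb 301 false [0, 1, 3, 2, 4, 5, 8,
  9, 6, 7, 10, 11, 12, 13, 16]) (.cons 11 (.emb 301 false [0, 1, 3, 2, 4, 5, 8, 9, 6, 7, 11, 10,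
  12, 13, 16]) (.cons 12 (.emb 301 false [0, 1, 3, 2, 5, 4, 8, 9, 6, 7, 12, 13, 10, 11, 16])
  (.cons 13 (.emb 301 false [0, 1, 3, 2, 5, 4, 8, 9, 6, 7, 13, 12, 10, 11, 16]) (.cons 14 (.emb
  280 false [0, 2, 3, 1, 6, 7, 8, 9, 4, 5, 14, 15, 16, 17]) (.cons 15 (.emb 280 false [0, 2, 3,
  1, 6, 7, 8, 9, 4, 5, 15, 14, 16, 17]) .nil))))))) (.cons 17 (.fill 8 18 (.emb 301 false [0, 2,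
  3, 1, 7, 6, 8, 9, 4, 5, 17, 16, 14, 15, 18]) (.cons 10 (.emb 301 false [0, 1, 3, 2, 4, 5, 8,
  9, 6, 7, 10, 11, 12, 13, 17]) (.cons 11 (.emb 301 false [0, 1, 3, 2, 4, 5, 8, 9, 6, 7, 11, 10,
  12, 13, 17]) (.cons 12 (.emb 301 false [0, 1, 3, 2, 5, 4, 8, 9, 6, 7, 12, 13, 10, 11, 17])
  (.cons 13 (.emb 301 false [0, 1, 3, 2, 5, 4, 8, 9, 6, 7, 13, 12, 10, 11, 17]) (.cons 14 (.emb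
  280 false [0, 2, 3, 1, 6, 7, 8, 9, 4, 5, 14, 15, 17, 16]) (.cons 15 (.emb 280 false [0, 2, 3,
  1, 6, 7, 8, 9, 4, 5, 15, 14, 17, 16]) .nil))))))) .nil))))))))) (.cons 4 (.emb 254 true [3, 8,
  0, 9]) (.cons 5 (.emb 61 true [3, 8, 0, 9, 1, 2]) .nil))))⟩

noncomputable def e304 : Ent := ⟨3, [⟨0, true, 3, 3, [1, 2, 3]⟩, ⟨1, false, 3, 3, [0, 4, 5]⟩, ⟨2, false, 3, 3,
  [0, 6, 7]⟩, ⟨3, false, 3, 3, [0, 8, 9]⟩, ⟨4, true, 3, 3, [1, 10, 11]⟩, ⟨5, true, 3, 3, [1, 12,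
  13]⟩, ⟨6, true, 3, 3, [2, 14, 15]⟩, ⟨7, true, 3, 5, [2]⟩, ⟨8, true, 3, 5, [3]⟩, ⟨9, true, 3,
  5, [3]⟩, ⟨10, false, 3, 5, [4]⟩, ⟨11, false, 3, 5, [4]⟩, ⟨12, false, 3, 5, [5]⟩, ⟨13, false,
  3, 5, [5]⟩, ⟨14, false, 3, 5, [6]⟩, ⟨15, false, 3, 5, [6]⟩], .split (.deg 7 (.cons 3 (.fill 7
  16 (.fill 7 17 (.emb 303 false [0, 1, 2, 3, 4, 5, 6, 7, 8, 9, 10, 11, 12, 13, 14, 15, 16, 17])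
  (.cons 10 (.emb 301 false [0, 1, 2, 3, 4, 5, 7, 6, 8, 9, 10, 11, 12, 13, 16]) (.cons 11 (.emb
  301 false [0, 1, 2, 3, 4, 5, 7, 6, 8, 9, 11, 10, 12, 13, 16]) (.cons 12 (.emb 301 false [0, 1,
  2, 3, 5, 4, 7, 6, 8, 9, 12, 13, 10, 11, 16]) (.cons 13 (.emb 301 false [0, 1, 2, 3, 5, 4, 7,
  6, 8, 9, 13, 12, 10, 11, 16]) .nil))))) (.cons 10 (.fill 7 16 (.emb 301 false [0, 1, 2, 3, 4,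
  5, 7, 6, 8, 9, 10, 11, 12, 13, 16]) (.cons 12 (.emb 280 false [0, 1, 2, 3, 4, 5, 7, 6, 8, 9,
  10, 11, 12, 13]) (.cons 13 (.emb 280 false [0, 1, 2, 3, 4, 5, 7, 6, 8, 9, 10, 11, 13, 12])
  .nil))) (.cons 11 (.fill 7 16 (.emb 301 false [0, 1, 2, 3, 4, 5, 7, 6, 8, 9, 11, 10, 12, 13,
  16]) (.cons 12 (.emb 280 false [0, 1, 2, 3, 4, 5, 7, 6, 8, 9, 11, 10, 12, 13]) (.cons 13 (.emb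
  280 false [0, 1, 2, 3, 4, 5, 7, 6, 8, 9, 11, 10, 13, 12]) .nil))) (.cons 12 (.fill 7 16 (.emb
  301 false [0, 1, 2, 3, 5, 4, 7, 6, 8, 9, 12, 13, 10, 11, 16]) (.cons 10 (.emb 280 false [0, 1,
  2, 3, 4, 5, 7, 6, 8, 9, 10, 11, 12, 13]) (.cons 11 (.emb 280 false [0, 1, 2, 3, 4, 5, 7, 6, 8,
  9, 11, 10, 12, 13]) .nil))) (.cons 13 (.fill 7 16 (.emb 301 false [0, 1, 2, 3, 5, 4, 7, 6, 8,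
  9, 13, 12, 10, 11, 16]) (.cons 10 (.emb 280 false [0, 1, 2, 3, 4, 5, 7, 6, 8, 9, 10, 11, 13,
  12]) (.cons 11 (.emb 280 false [0, 1, 2, 3, 4, 5, 7, 6, 8, 9, 11, 10, 13, 12]) .nil)))
  .nil))))) (.cons 4 (.emb 254 true [2, 7, 0, 6]) (.cons 5 (.emb 58 true [2, 7, 0, 6, 1, 3, 14,
  15, 4, 5, 8, 9]) .nil))))⟩

noncomputable def e305 : Ent := ⟨3, [⟨0, true, 3, 3, [1, 2, 3]⟩, ⟨1, false, 3, 3, [0, 4, 5]⟩, ⟨2, false, 3, 3,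
  [0, 6, 7]⟩, ⟨3, false, 3, 3, [0, 8, 9]⟩, ⟨4, true, 3, 3, [1, 10, 11]⟩, ⟨5, true, 3, 3, [1, 12,
  13]⟩, ⟨6, true, 3, 5, [2]⟩, ⟨7, true, 3, 5, [2]⟩, ⟨8, true, 3, 5, [3]⟩, ⟨9, true, 3, 5, [3]⟩,
  ⟨10, false, 3, 5, [4]⟩, ⟨11, false, 3, 5, [4]⟩, ⟨12, false, 3, 5, [5]⟩, ⟨13, false, 3, 5,
  [5]⟩], .split (.deg 6 (.cons 3 (.fill 6 14 (.fill 6 15 (.emb 304 false [0, 1, 2, 3, 4, 5, 6,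
  7, 8, 9, 10, 11, 12, 13, 14, 15]) (.cons 10 (.emb 301 false [0, 1, 2, 3, 4, 5, 6, 7, 8, 9, 10,
  11, 12, 13, 14]) (.cons 11 (.emb 301 false [0, 1, 2, 3, 4, 5, 6, 7, 8, 9, 11, 10, 12, 13, 14])
  (.cons 12 (.emb 301 false [0, 1, 2, 3, 5, 4, 6, 7, 8, 9, 12, 13, 10, 11, 14]) (.cons 13 (.emb
  301 false [0, 1, 2, 3, 5, 4, 6, 7, 8, 9, 13, 12, 10, 11, 14]) .nil))))) (.cons 10 (.fill 6 14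
  (.emb 301 false [0, 1, 2, 3, 4, 5, 6, 7, 8, 9, 10, 11, 12, 13, 14]) (.cons 12 (.emb 280 false
  [0, 1, 2, 3, 4, 5, 6, 7, 8, 9, 10, 11, 12, 13]) (.cons 13 (.emb 280 false [0, 1, 2, 3, 4, 5,
  6, 7, 8, 9, 10, 11, 13, 12]) .nil))) (.cons 11 (.fill 6 14 (.emb 301 false [0, 1, 2, 3, 4, 5,
  6, 7, 8, 9, 11, 10, 12, 13, 14]) (.cons 12 (.emb 280 false [0, 1, 2, 3, 4, 5, 6, 7, 8, 9, 11,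
  10, 12, 13]) (.cons 13 (.emb 280 false [0, 1, 2, 3, 4, 5, 6, 7, 8, 9, 11, 10, 13, 12]) .nil)))
  (.cons 12 (.fill 6 14 (.emb 301 false [0, 1, 2, 3, 5, 4, 6, 7, 8, 9, 12, 13, 10, 11, 14])
  (.cons 10 (.emb 280 false [0, 1, 2, 3, 4, 5, 6, 7, 8, 9, 10, 11, 12, 13]) (.cons 11 (.emb 280
  false [0, 1, 2, 3, 4, 5, 6, 7, 8, 9, 11, 10, 12, 13]) .nil))) (.cons 13 (.fill 6 14 (.emb 301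
  false [0, 1, 2, 3, 5, 4, 6, 7, 8, 9, 13, 12, 10, 11, 14]) (.cons 10 (.emb 280 false [0, 1, 2,
  3, 4, 5, 6, 7, 8, 9, 10, 11, 13, 12]) (.cons 11 (.emb 280 false [0, 1, 2, 3, 4, 5, 6, 7, 8, 9,
  11, 10, 13, 12]) .nil))) .nil))))) (.cons 4 (.emb 254 true [2, 6, 0, 7]) (.cons 5 (.emb 61
  true [2, 6, 0, 7, 1, 3]) .nil))))⟩

noncomputable def e306 : Ent := ⟨3, [⟨0, true, 3, 3, [1, 2, 3]⟩, ⟨1, false, 3, 3, [0, 4, 5]⟩, ⟨2, false, 3, 3,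
  [0, 6, 7]⟩, ⟨3, false, 3, 3, [0, 8, 9]⟩, ⟨4, true, 3, 3, [1, 10, 11]⟩, ⟨5, true, 3, 5, [1]⟩,
  ⟨6, true, 3, 5, [2]⟩, ⟨7, true, 3, 5, [2]⟩, ⟨8, true, 3, 5, [3]⟩, ⟨9, true, 3, 5, [3]⟩, ⟨10,
  false, 3, 5, [4]⟩, ⟨11, false, 3, 5, [4]⟩], .split (.deg 5 (.cons 3 (.fill 5 12 (.fill 5 13
  (.emb 305 false [0, 1, 2, 3, 4, 5, 6, 7, 8, 9, 10, 11, 12, 13]) .nil) .nil) (.cons 4 (.emb 254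
  true [1, 5, 0, 4]) (.cons 5 (.emb 58 true [1, 5, 0, 4, 2, 3, 10, 11, 6, 7, 8, 9]) .nil))))⟩

noncomputable def e307 : Ent := ⟨3, [⟨0, true, 3, 3, [1, 2, 3]⟩, ⟨1, false, 3, 3, [0, 4, 5]⟩, ⟨2, false, 3, 3,
  [0, 6, 7]⟩, ⟨3, false, 3, 3, [0, 8, 9]⟩, ⟨4, true, 3, 5, [1]⟩, ⟨5, true, 3, 5, [1]⟩, ⟨6, true,
  3, 5, [2]⟩, ⟨7, true, 3, 5, [2]⟩, ⟨8, true, 3, 5, [3]⟩, ⟨9, true, 3, 5, [3]⟩], .split (.deg 4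
  (.cons 3 (.fill 4 10 (.fill 4 11 (.emb 306 false [0, 1, 2, 3, 4, 5, 6, 7, 8, 9, 10, 11]) .nil)
  .nil) (.cons 4 (.emb 254 true [1, 4, 0, 5]) (.cons 5 (.emb 61 true [1, 4, 0, 5, 2, 3])
  .nil))))⟩

noncomputable def e308 : Ent := ⟨3, [⟨0, true, 3, 3, [1, 2, 3]⟩, ⟨1, false, 3, 3, [0, 4, 5]⟩, ⟨2, false, 3, 3,
  [0, 6, 7]⟩, ⟨3, false, 3, 5, [0]⟩, ⟨4, true, 3, 5, [1]⟩, ⟨5, true, 3, 5, [1]⟩, ⟨6, true, 3, 5,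
  [2]⟩, ⟨7, true, 3, 5, [2]⟩], .split (.deg 3 (.cons 3 (.fill 3 8 (.fill 3 9 (.emb 307 false [0,
  1, 2, 3, 4, 5, 6, 7, 8, 9]) .nil) .nil) (.cons 4 (.emb 254 false [0, 3, 1, 2]) (.cons 5 (.emb
  60 false [0, 3, 1, 2, 4, 5, 6, 7]) .nil))))⟩

noncomputable def e309 : Ent := ⟨3, [⟨0, true, 3, 3, [1, 2, 3]⟩, ⟨1, false, 3, 3, [0, 4, 5]⟩, ⟨2, false, 3, 5,
  [0]⟩, ⟨3, false, 3, 5, [0]⟩, ⟨4, true, 3, 5, [1]⟩, ⟨5, true, 3, 5, [1]⟩], .split (.deg 2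
  (.cons 3 (.fill 2 6 (.fill 2 7 (.emb 308 false [0, 1, 2, 3, 4, 5, 6, 7]) .nil) .nil) (.cons 4
  (.emb 254 false [0, 2, 1, 3]) (.cons 5 (.emb 61 false [0, 2, 1, 3, 4, 5]) .nil))))⟩

noncomputable def e310 : Ent := ⟨3, [⟨0, true, 3, 3, [1, 2, 3]⟩, ⟨1, false, 3, 5, [0]⟩, ⟨2, false, 3, 5, [0]⟩,
  ⟨3, false, 3, 5, [0]⟩], .split (.deg 1 (.cons 3 (.fill 1 4 (.fill 1 5 (.emb 309 false [0, 1,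
  2, 3, 4, 5]) .nil) .nil) (.cons 4 (.emb 254 false [0, 1, 2, 3]) (.cons 5 (.emb 62 false [0, 1,
  2, 3]) .nil))))⟩

noncomputable def e311 : Ent := ⟨3, [⟨0, true, 3, 3, []⟩], .split (.fill 0 1 (.fill 0 2 (.fill 0 3 (.emb 310
  false [0, 1, 2, 3]) .nil) .nil) .nil)⟩

noncomputable def e312 : Ent := ⟨4, [⟨0, true, 4, 4, [1, 2, 3, 4]⟩, ⟨1, false, 5, 5, [0]⟩, ⟨2, false, 4, 5,
  [0]⟩, ⟨3, false, 4, 5, [0]⟩, ⟨4, false, 4, 5, [0]⟩], .cert (.vert 0 (.cons 1 .nil (.cons 2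
  .nil (.cons 3 .nil (.cons 4 .nil .nil)))))⟩

noncomputable def e313 : Ent := ⟨4, [⟨0, true, 4, 4, [1, 2, 3, 4]⟩, ⟨1, false, 4, 4, [0, 5, 6, 7]⟩, ⟨2, false,
  4, 4, [0, 8, 9, 10]⟩, ⟨3, false, 4, 4, [0, 11, 12, 13]⟩, ⟨4, false, 4, 4, [0, 14, 15, 16]⟩,
  ⟨5, true, 4, 5, [1]⟩, ⟨6, true, 4, 5, [1]⟩, ⟨7, true, 4, 5, [1]⟩, ⟨8, true, 4, 5, [2]⟩, ⟨9,
  true, 4, 5, [2]⟩, ⟨10, true, 4, 5, [2]⟩, ⟨11, true, 4, 5, [3]⟩, ⟨12, true, 4, 5, [3]⟩, ⟨13,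
  true, 4, 5, [3]⟩, ⟨14, true, 4, 5, [4]⟩, ⟨15, true, 4, 5, [4]⟩, ⟨16, true, 4, 5, [4]⟩], .cert
  (.vert 0 (.cons 1 (.vert 2 (.cons 8 (.vert 3 (.cons 11 .nil (.cons 12 .nil (.cons 13 .nil
  .nil)))) (.cons 9 (.vert 3 (.cons 11 .nil (.cons 12 .nil (.cons 13 .nil .nil)))) (.cons 10
  (.vert 3 (.cons 11 .nil (.cons 12 .nil (.cons 13 .nil .nil)))) .nil)))) (.cons 2 (.vert 1
  (.cons 5 (.vert 3 (.cons 11 .nil (.cons 12 .nil (.cons 13 .nil .nil)))) (.cons 6 (.vert 3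
  (.cons 11 .nil (.cons 12 .nil (.cons 13 .nil .nil)))) (.cons 7 (.vert 3 (.cons 11 .nil (.cons
  12 .nil (.cons 13 .nil .nil)))) .nil)))) (.cons 3 (.vert 1 (.cons 5 (.vert 2 (.cons 8 .nil
  (.cons 9 .nil (.cons 10 .nil .nil)))) (.cons 6 (.vert 2 (.cons 8 .nil (.cons 9 .nil (.cons 10
  .nil .nil)))) (.cons 7 (.vert 2 (.cons 8 .nil (.cons 9 .nil (.cons 10 .nil .nil)))) .nil))))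
  (.cons 4 (.vert 1 (.cons 5 .nil (.cons 6 .nil (.cons 7 .nil .nil)))) .nil)))))⟩

noncomputable def e314 : Ent := ⟨4, [⟨0, true, 4, 4, [1, 2, 3, 4]⟩, ⟨1, false, 4, 4, [0, 5, 6, 7]⟩, ⟨2, false,
  4, 4, [0, 8, 9, 10]⟩, ⟨3, false, 4, 4, [0, 11, 12, 13]⟩, ⟨4, false, 4, 5, [0]⟩, ⟨5, true, 4,
  5, [1]⟩, ⟨6, true, 4, 5, [1]⟩, ⟨7, true, 4, 5, [1]⟩, ⟨8, true, 4, 5, [2]⟩, ⟨9, true, 4, 5,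
  [2]⟩, ⟨10, true, 4, 5, [2]⟩, ⟨11, true, 4, 5, [3]⟩, ⟨12, true, 4, 5, [3]⟩, ⟨13, true, 4, 5,
  [3]⟩], .split (.deg 4 (.cons 4 (.fill 4 14 (.fill 4 15 (.fill 4 16 (.emb 313 false [0, 1, 2,
  3, 4, 5, 6, 7, 8, 9, 10, 11, 12, 13, 14, 15, 16]) .nil) .nil) .nil) (.cons 5 (.emb 312 false
  [0, 4, 1, 2, 3]) .nil)))⟩

noncomputable def e315 : Ent := ⟨4, [⟨0, true, 4, 4, [1, 2, 3, 4]⟩, ⟨1, false, 4, 4, [0, 5, 6, 7]⟩, ⟨2, false,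
  4, 4, [0, 8, 9, 10]⟩, ⟨3, false, 4, 5, [0]⟩, ⟨4, false, 4, 5, [0]⟩, ⟨5, true, 4, 5, [1]⟩, ⟨6,
  true, 4, 5, [1]⟩, ⟨7, true, 4, 5, [1]⟩, ⟨8, true, 4, 5, [2]⟩, ⟨9, true, 4, 5, [2]⟩, ⟨10, true,
  4, 5, [2]⟩], .split (.deg 3 (.cons 4 (.fill 3 11 (.fill 3 12 (.fill 3 13 (.emb 314 false [0,
  1, 2, 3, 4, 5, 6, 7, 8, 9, 10, 11, 12, 13]) .nil) .nil) .nil) (.cons 5 (.emb 312 false [0, 3,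
  1, 2, 4]) .nil)))⟩

noncomputable def e316 : Ent := ⟨4, [⟨0, true, 4, 4, [1, 2, 3, 4]⟩, ⟨1, false, 4, 4, [0, 5, 6, 7]⟩, ⟨2, false,
  4, 5, [0]⟩, ⟨3, false, 4, 5, [0]⟩, ⟨4, false, 4, 5, [0]⟩, ⟨5, true, 4, 5, [1]⟩, ⟨6, true, 4,
  5, [1]⟩, ⟨7, true, 4, 5, [1]⟩], .split (.deg 2 (.cons 4 (.fill 2 8 (.fill 2 9 (.fill 2 10
  (.emb 315 false [0, 1, 2, 3, 4, 5, 6, 7, 8, 9, 10]) .nil) .nil) .nil) (.cons 5 (.emb 312 false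
  [0, 2, 1, 3, 4]) .nil)))⟩

noncomputable def e317 : Ent := ⟨4, [⟨0, true, 4, 4, [1, 2, 3, 4]⟩, ⟨1, false, 4, 5, [0]⟩, ⟨2, false, 4, 5,
  [0]⟩, ⟨3, false, 4, 5, [0]⟩, ⟨4, false, 4, 5, [0]⟩], .split (.deg 1 (.cons 4 (.fill 1 5 (.fill
  1 6 (.fill 1 7 (.emb 316 false [0, 1, 2, 3, 4, 5, 6, 7]) .nil) .nil) .nil) (.cons 5 (.emb 312
  false [0, 1, 2, 3, 4]) .nil)))⟩

noncomputable def e318 : Ent := ⟨4, [⟨0, true, 4, 4, []⟩], .split (.fill 0 1 (.fill 0 2 (.fill 0 3 (.fill 0 4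
  (.emb 317 false [0, 1, 2, 3, 4]) .nil) .nil) .nil) .nil)⟩

noncomputable def e319 : Ent := ⟨4, [⟨0, true, 4, 5, [1, 2, 3, 4, 5]⟩, ⟨1, false, 5, 5, [0]⟩, ⟨2, false, 4, 5,
  [0]⟩, ⟨3, false, 4, 5, [0]⟩, ⟨4, false, 4, 5, [0]⟩, ⟨5, false, 4, 5, [0]⟩], .cert (.vert 0
  (.cons 1 .nil (.cons 2 .nil (.cons 3 .nil (.cons 4 .nil (.cons 5 .nil .nil))))))⟩

noncomputable def e320 : Ent := ⟨4, [⟨0, true, 5, 5, [1]⟩, ⟨1, false, 4, 5, [0]⟩], .split (.deg 1 (.cons 4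
  (.emb 318 true [1]) (.cons 5 (.fill 1 2 (.fill 1 3 (.fill 1 4 (.fill 1 5 (.emb 319 true [1, 0,
  2, 3, 4, 5]) .nil) .nil) .nil) .nil) .nil)))⟩

noncomputable def e321 : Ent := ⟨4, [⟨0, true, 4, 5, []⟩], .split (.deg 0 (.cons 4 (.emb 318 false [0]) (.cons
  5 (.fill 0 1 (.emb 320 false [0, 1]) .nil) .nil)))⟩

noncomputable def part8 : List Ent := [e282, e283, e284, e285, e286, e287, e288, e289, e290,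
  e291, e292, e293, e294, e295, e296, e297, e298, e299, e300, e301, e302, e303, e304, e305,
  e306, e307, e308, e309, e310, e311, e312, e313, e314, e315, e316, e317, e318, e319, e320,
  e321]

end Pool.Agent.Helper76.PC
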