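import Pool.Agent.Helper76.PC.D1
import Pool.Agent.Helper76.PC.D2
import Pool.Agent.Helper76.PC.D3
import Pool.Agent.Helper76.PC.D4
import Pool.Agent.Helper76.PC.D5
import Pool.Agent.Helper76.PC.D6
import Pool.Agent.Helper76.PC.D7
import Pool.Agent.Helper76.PC.D8

/-! MP_c33217_co: library of reducible configurations. -/

namespace Pool.Agent.Helper76.PC

noncomputable def dat1 : List Ent := [e0, e1, e2, e3, e4, e5, e6, e7, e8, e9, e10, e11, e12,
  e13, e14, e15, e16, e17, e18, e19, e20, e21, e22, e23, e24, e25, e26, e27, e28, e29, e30, e31,
  e32, e33, e34, e35, e36, e37, e38, e39, e40, e41, e42, e43, e44, e45, e46, e47, e48, e49, e50,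
  e51, e52, e53, e54, e55, e56, e57, e58, e59, e60, e61, e62, e63, e64, e65, e66, e67, e68, e69,
  e70, e71, e72, e73, e74, e75, e76, e77, e78, e79, e80, e81, e82, e83, e84, e85, e86, e87, e88,
  e89, e90, e91, e92, e93, e94, e95, e96, e97, e98, e99, e100, e101, e102, e103, e104, e105,
  e106, e107, e108, e109, e110, e111, e112, e113, e114, e115, e116, e117, e118, e119, e120,
  e121, e122, e123, e124, e125, e126, e127, e128, e129, e130, e131, e132, e133, e134, e135,
  e136, e137, e138, e139, e140, e141, e142, e143, e144, e145, e146, e147, e148, e149, e150,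
  e151, e152, e153, e154, e155, e156, e157, e158, e159, e160, e161, e162, e163, e164, e165,
  e166, e167, e168, e169, e170, e171, e172, e173, e174, e175, e176, e177, e178, e179, e180,
  e181, e182, e183, e184, e185, e186, e187, e188, e189, e190, e191, e192, e193, e194, e195,
  e196, e197, e198, e199, e200, e201, e202, e203, e204, e205, e206, e207, e208, e209, e210,
  e211, e212, e213, e214, e215, e216, e217, e218, e219, e220, e221, e222, e223, e224, e225,
  e226, e227, e228, e229, e230, e231, e232, e233, e234, e235, e236, e237, e238, e239, e240,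
  e241, e242, e243, e244, e245, e246, e247, e248, e249, e250, e251, e252, e253, e254, e255,
  e256, e257, e258, e259, e260, e261, e262, e263, e264, e265, e266, e267, e268, e269, e270,
  e271, e272, e273, e274, e275, e276, e277, e278, e279, e280, e281, e282, e283, e284, e285,
  e286, e287, e288, e289, e290, e291, e292, e293, e294, e295, e296, e297, e298, e299, e300,
  e301, e302, e303, e304, e305, e306, e307, e308, e309, e310, e311, e312, e313, e314, e315,
  e316, e317, e318, e319, e320, e321]

set_option maxRecDepth 100000 in
theorem dat1_eq : dat1 = part1 ++ (part2 ++ (part3 ++ (part4 ++ (part5 ++ (part6 ++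
    (part7 ++ part8)))))) := rfl

end Pool.Agent.Helper76.PC
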