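import Mathlib

/-!
MP_c33217_co: permanents of C4-free 0-1 matrices.  Definitions: graphs, number of perfect
matchings, weight, configurations, certificate checker.
-/

namespace Pool.Agent.Helper76.PC

/-! ### Graphs -/

/-- side of a vertex (fixed bipartition of the naturals by parity) -/
def side (x : ℕ) : Bool := x % 2 == 0

/-- finite bipartite graphs without 4-cycles, vertices natural numbers -/
structure Gr where
  V : Finset ℕ
  N : ℕ → Finset ℕ
  symm : ∀ x y, y ∈ N x → x ∈ N y
  mem : ∀ x y, y ∈ N x → x ∈ V
  bip : ∀ x y, y ∈ N x → side x ≠ side y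
  c4 : ∀ x z, x ≠ z → ∀ y y', y ∈ N x → y ∈ N z → y' ∈ N x → y' ∈ N z → y = y'

/-- perfect matchings as involutions that are the identity outside V -/
def PM (G : Gr) : Set (ℕ → ℕ) :=
  {m | (∀ x ∈ G.V, m x ∈ G.N x) ∧ (∀ x, x ∉ G.V → m x = x) ∧ ∀ x, m (m x) = x}

/-- number of perfect matchings -/
noncomputable def P (G : Gr) : ℕ := (PM G).ncard

def degSum (G : Gr) : ℕ := ∑ x ∈ G.V, (G.N x).card

/-- e^c with c = log 108 / 21, e^(-A) = (9/2)^(1/7) -/
noncomputable def cc : ℝ := Real.log 108 / 21
noncomputable def AA : ℝ := - Real.log (9 / 2) / 7

/-- the bound: exp ((A |V| + c sum of degrees)/2) -/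
noncomputable def W (G : Gr) : ℝ := Real.exp ((AA * G.V.card + cc * degSum G) / 2)

def Good (G : Gr) : Prop := (P G : ℝ) ≤ W G

def size (G : Gr) : ℕ := G.V.card + degSum G

/-- deletion of a vertex -/
def del (G : Gr) (v : ℕ) : Gr where
  V := G.V.erase v
  N := fun x => if x = v then ∅ else (G.N x).erase v
  symm := by
    intro x y h
    by_cases hx : x = v
    · simp [hx] at h
    · simp only [hx, if_false, Finset.mem_erase] at h
      have h1 := G.symm x y h.2
      simp [h.1, hx, h1]
  mem := by
    intro x y h
    by_cases hx : x = v
    · simp [hx] at h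
    · simp only [hx, if_false, Finset.mem_erase] at h
      simp [hx, G.mem x y h.2]
  bip := by
    intro x y h
    by_cases hx : x = v
    · simp [hx] at h
    · simp only [hx, if_false, Finset.mem_erase] at h
      exact G.bip x y h.2
  c4 := by
    intro x z hxz y y' h1 h2 h3 h4
    by_cases hx : x = v
    · simp [hx] at h1
    · by_cases hz : z = v
      · simp [hz] at h2
      · simp only [hx, hz, if_false, Finset.mem_erase] at h1 h2 h3 h4
        exact G.c4 x z hxz y y' h1.2 h2.2 h3.2 h4.2

/-- deletion of an edge -/
def delE (G : Gr) (a b : ℕ) : Gr where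
  V := G.V
  N := fun x => if x = a then (G.N x).erase b else if x = b then (G.N x).erase a else G.N x
  symm := by
    intro x y h
    by_cases hx : x = a
    · subst hx
      simp only [if_true, Finset.mem_erase] at h
      have h1 := G.symm x y h.2
      by_cases hy : y = x
      · subst hy; exact absurd rfl (G.bip y y h.2)
      · simp [hy, h.1, h1]
    · by_cases hx2 : x = b
      · subst hx2
        simp only [hx, if_false, if_true, Finset.mem_erase] at h
        have h1 := G.symm x y h.2
        by_cases hy : y = x
        · subst hy; exact absurd rfl (G.bip y y h.2)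
        · simp [hy, h.1, h1]
      · simp only [hx, hx2, if_false] at h
        have h1 := G.symm x y h
        by_cases hy : y = a
        · subst hy; simp [hx2, h1]
        · by_cases hy2 : y = b
          · subst hy2; simp [hx, hy, h1]
          · simp [hy, hy2, h1]
  mem := by
    intro x y h
    have : y ∈ G.N x := by
      split_ifs at h with h1 h2
      · exact (Finset.mem_erase.1 h).2
      · exact (Finset.mem_erase.1 h).2
      · exact h
    exact G.mem x y this
  bip := by
    intro x y h
    have : y ∈ G.N x := by
      split_ifs at h with h1 h2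
      · exact (Finset.mem_erase.1 h).2
      · exact (Finset.mem_erase.1 h).2
      · exact h
    exact G.bip x y this
  c4 := by
    have key : ∀ x y, y ∈ (if x = a then (G.N x).erase b else if x = b then (G.N x).erase a
        else G.N x) → y ∈ G.N x := by
      intro x y h
      split_ifs at h with h1 h2
      · exact (Finset.mem_erase.1 h).2
      · exact (Finset.mem_erase.1 h).2
      · exact h
    intro x z hxz y y' h1 h2 h3 h4
    exact G.c4 x z hxz y y' (key _ _ h1) (key _ _ h2) (key _ _ h3) (key _ _ h4)

/-! ### Configurations -/

/-- record of a vertex of a configuration: identifier, side, bounds for the degree and list of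
known neighbours -/
structure Vx where
  id : ℕ
  sd : Bool
  lo : ℕ
  hi : ℕ
  nb : List ℕ

abbrev Cfg := List Vx

def memB (x : ℕ) : List ℕ → Bool
  | [] => false
  | y :: l => Nat.beq x y || memB x l

def lenN : List ℕ → ℕ
  | [] => 0
  | _ :: l => lenN l + 1

def remv (x : ℕ) : List ℕ → List ℕ
  | [] => []
  | y :: l => bif Nat.beq x y then remv x l else y :: remv x l

def getV (x : ℕ) : Cfg → Option Vx
  | [] => none
  | r :: K => bif Nat.beq x r.id then some r else getV x K

def full (r : Vx) : Bool := Nat.beq r.hi (lenN r.nb)

/-- delete the vertex y -/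
def delC (y : Vx) : Cfg → Cfg
  | [] => []
  | r :: K => bif Nat.beq r.id y.id then delC y K else
      (bif memB y.id r.nb then ⟨r.id, r.sd, r.lo - 1, r.hi - 1, remv y.id r.nb⟩
       else bif (!(full y) || memB r.id y.nb) && xor r.sd y.sd && !(full r) then
         ⟨r.id, r.sd, max (r.lo - 1) (lenN r.nb), r.hi, r.nb⟩ else r) :: delC y K

/-- delete the vertex r and then the vertex with identifier y -/
def del2 (r : Vx) (y : ℕ) (K : Cfg) : Cfg :=
  match getV y (delC r K) with
  | none => []
  | some q => delC q (delC r K)

/-- delete the edge xy -/
def delEC (x y : ℕ) : Cfg → Cfg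
  | [] => []
  | r :: K => (bif Nat.beq r.id x then ⟨r.id, r.sd, r.lo - 1, r.hi - 1, remv y r.nb⟩
       else bif Nat.beq r.id y then ⟨r.id, r.sd, r.lo - 1, r.hi - 1, remv x r.nb⟩ else r) ::
       delEC x y K

def repl (b a : ℕ) : List ℕ → List ℕ
  | [] => []
  | y :: l => (bif Nat.beq y b then a else y) :: repl b a l

/-- contraction of v with neighbours a, b (b is merged into a) -/
def contrC (v a b : Vx) : Cfg → Cfg
  | [] => []
  | r :: K => bif Nat.beq r.id v.id || Nat.beq r.id b.id then contrC v a b K else
      (bif Nat.beq r.id a.id then
        ⟨r.id, r.sd, a.lo + b.lo - 2, a.hi + b.hi - 2, remv v.id a.nb ++ remv v.id b.nb⟩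
       else ⟨r.id, r.sd, r.lo, r.hi, repl b.id a.id r.nb⟩) :: contrC v a b K

/-- all elements of the list satisfy the test -/
def allB (f : ℕ → Bool) : List ℕ → Bool
  | [] => true
  | y :: l => f y && allB f l

def anyB (f : ℕ → Bool) : List ℕ → Bool
  | [] => false
  | y :: l => f y || anyB f l

/-- x and y are certainly not adjacent -/
def nonadjR (K : Cfg) (x y : Vx) : Bool :=
  (full x && !(memB y.id x.nb)) || (full y && !(memB x.id y.nb)) ||
  anyB (fun p => !(Nat.beq p y.id) && (match getV p K with
    | none => false
    | some rp => anyB (fun q => !(Nat.beq q x.id) && memB q y.nb) rp.nb)) x.nb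

def nonadj (K : Cfg) (x y : ℕ) : Bool :=
  match getV x K, getV y K with
  | some rx, some ry => nonadjR K rx ry
  | _, _ => false

/-- no 6-cycle v a x y z b with v fixed (a full) -/
def noHexA (K : Cfg) (v : ℕ) (a b : Vx) : Bool :=
  full a && allB (fun x => match getV x K with
    | none => false
    | some rx =>
      (full rx && allB (fun y =>
        (full b && allB (fun z => Nat.beq z x || nonadj K z y) (remv v b.nb)) ||
        (match getV y K with
          | none => false
          | some ry => full ry && allB (fun z => Nat.beq z x || nonadj K z b.id) ry.nb))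
        (remv a.id rx.nb)) ||
      (full b && allB (fun z => (full rx && allB (fun y => nonadj K y z) (remv a.id rx.nb)) ||
        (match getV z K with
          | none => false
          | some rz => full rz && allB (fun y => nonadj K y x) (remv b.id rz.nb)))
        (remv v b.nb))) (remv v a.nb)

/-! ### Certificates -/

def DD : ℕ := 100000000

/-- upper bounds for DD * U(k), U(k) = e^(-A - c (k-1)) -/
def Utab : List ℕ := [154933659, 123969850, 99194221, 79370053, 63507785, 50815624, 40660018, 32534030, 26032038, 20829482, 16666667, 13335800, 10670613, 8538069, 6831719, 5466386, 4373917, 3499781, 2800343, 2240689, 1792883]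

def lastD : List ℕ → ℕ → ℕ
  | [], d => d
  | x :: l, _ => lastD l x

def nthD : List ℕ → ℕ → ℕ → ℕ
  | [], _, d => d
  | x :: _, 0, _ => x
  | x :: l, k + 1, _ => nthD l k x

/-- table value; beyond the table the last entry -/
def Uc (k : ℕ) : ℕ := nthD Utab k 0

def Ec : ℕ := 80014796
def Kap : ℕ := 79370053

def mulc (a b : ℕ) : ℕ := (a * b + (DD - 1)) / DD

inductive Cert where
  | nil : Cert
  | vert (v : ℕ) (l : Cert) : Cert
  | edge (a b : ℕ) (c1 c2 : Cert) : Cert
  | contr (v : ℕ) (c : Cert) : Cert
  | star (v : ℕ) (l : Cert) : Cert
  | cons (y : ℕ) (c l : Cert) : Cert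

/-- mode of evaluation: a configuration, or the sum over a list of neighbours of v
(false: deletion of both vertices, true: deletion of the edge) -/
inductive Mode where
  | cfg : Mode
  | lst (v : Vx) (st : Bool) (ys : List ℕ) : Mode

def getDD : Option ℕ → ℕ
  | none => DD
  | some x => x

def ev : Cert → Cfg → Mode → Option ℕ
  | .vert v l, K, .cfg => match getV v K with
      | none => none
      | some r => bif full r then ev l K (.lst r false r.nb) else none
  | .star v l, K, .cfg => match getV v K with
      | none => none
      | some r => bif Nat.beq r.lo r.hi && Nat.ble 2 r.hi then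
          (match ev l K (.lst r true r.nb) with
            | none => none
            | some S => some ((S + (r.hi - lenN r.nb) * Ec + (r.hi - 2)) / (r.hi - 1)))
          else none
  | .contr v c, K, .cfg => match getV v K with
      | none => none
      | some r => (match r.nb with
          | [a, b] => (match getV a K, getV b K with
              | some ra, some rb =>
                bif full r && (noHexA K v ra rb || noHexA K v rb ra) then
                  some (mulc Kap (getDD (ev c (contrC r ra rb K) .cfg))) else none
              | _, _ => none)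
          | _ => none)
  | .edge a b c1 c2, K, .cfg => match getV a K, getV b K with
      | some ra, some rb => bif memB b ra.nb then
          some (mulc Ec (getDD (ev c1 (delEC a b K) .cfg)) +
            mulc (Uc (ra.lo + rb.lo)) (getDD (ev c2 (del2 ra b K) .cfg))) else none
      | _, _ => none
  | .nil, _, .lst _ _ [] => some 0
  | .cons y c l, K, .lst r st ys => match getV y K with
      | none => none
      | some q => bif memB y ys then
          (match ev l K (.lst r st (remv y ys)) with
            | none => none
            | some S => some (S +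
              (bif st then mulc Ec (getDD (ev c (delEC r.id y K) .cfg))
               else mulc (Uc (r.hi + q.lo)) (getDD (ev c (del2 r y K) .cfg)))))
          else none
  | _, _, _ => none

/-! ### Case splits -/

inductive Prf where
  | nil : Prf
  | emb (j : ℕ) (fl : Bool) (mp : List ℕ) : Prf
  | deg (v : ℕ) (l : Prf) : Prf
  | fill (v m : ℕ) (p l : Prf) : Prf
  | cons (w : ℕ) (p l : Prf) : Prf

inductive PMode where
  | cfg : PMode
  | degs (v : ℕ) (ds : List ℕ) : PMode
  | fills (v : ℕ) (ws : List ℕ) : PMode

/-- set the degree of v to d -/
def setDeg (v d : ℕ) : Cfg → Cfg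
  | [] => []
  | r :: K => (bif Nat.beq r.id v then ⟨r.id, r.sd, d, d, r.nb⟩ else r) :: setDeg v d K

/-- add y to the list of known neighbours of x -/
def addNb (x y : ℕ) : Cfg → Cfg
  | [] => []
  | r :: K => (bif Nat.beq r.id x && !(memB y r.nb) then
      ⟨r.id, r.sd, max r.lo (lenN r.nb + 1), r.hi, y :: r.nb⟩ else r) :: addNb x y K

def joinC (x y : ℕ) (K : Cfg) : Cfg := addNb x y (addNb y x K)

def joinNew (v m dm : ℕ) (sd : Bool) (K : Cfg) : Cfg :=
  addNb v m K ++ [⟨m, !sd, dm, 5, [v]⟩]

/-- identifiers of the vertices that may be adjacent to v and are not listed -/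
def cands (K0 : Cfg) (v : Vx) : Cfg → List ℕ
  | [] => []
  | q :: K => bif xor q.sd v.sd && !(memB q.id v.nb) && !(nonadjR K0 v q) then
      q.id :: cands K0 v K else cands K0 v K

def rangeL (a : ℕ) : ℕ → List ℕ
  | 0 => []
  | n + 1 => a :: rangeL (a + 1) n

def ids : Cfg → List ℕ
  | [] => []
  | r :: K => r.id :: ids K

def nodupB : List ℕ → Bool
  | [] => true
  | x :: l => !(memB x l) && nodupB l

def mapL (f : ℕ → ℕ) : List ℕ → List ℕ
  | [] => []
  | x :: l => f x :: mapL f l

def embR (S : Cfg) (mp : List ℕ) (fl : Bool) : Cfg → Bool
  | [] => true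
  | r :: R => (match getV (nthD mp r.id 0) S with
      | none => false
      | some q => Nat.ble r.lo q.lo && Nat.ble q.hi r.hi && !(xor (xor fl r.sd) q.sd) &&
          allB (fun y => memB (nthD mp y 0) q.nb) r.nb) && embR S mp fl R

/-- the configuration R embeds into S by the map mp (exchanging the sides if fl) -/
def embOK (R S : Cfg) (mp : List ℕ) (fl : Bool) : Bool :=
  embR S mp fl R && nodupB (mapL (fun x => nthD mp x 0) (ids R))

/-- well formed configurations: neighbour lists without repetition, neighbours present -/
def wfC (K0 : Cfg) : Cfg → Bool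
  | [] => true
  | r :: K => nodupB r.nb && allB (fun y => match getV y K0 with
      | none => false
      | some _ => true) r.nb && wfC K0 K

inductive Pf where
  | cert (c : Cert) : Pf
  | split (p : Prf) : Pf
  | closed (s e : ℕ) : Pf

structure Ent where
  dm : ℕ
  K : Cfg
  pf : Pf

def getE : ℕ → List Ent → Option Ent
  | _, [] => none
  | 0, e :: _ => some e
  | n + 1, _ :: l => getE n l

/-- checks a case split; lib: library, i: number of usable entries, dm: minimum degree -/
def chk (lib : List Ent) (i dm : ℕ) : Prf → Cfg → PMode → Bool
  | .emb j fl mp, K, .cfg => Nat.ble (j + 1) i && (match getE j lib with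
      | none => false
      | some e => Nat.ble e.dm dm && embOK e.K K mp fl)
  | .deg v l, K, .cfg => (match getV v K with
      | none => false
      | some r => chk lib i dm l K (.degs v (rangeL r.lo (r.hi + 1 - r.lo))))
  | .fill v m p l, K, .cfg => (match getV v K with
      | none => false
      | some r => Nat.ble (lenN r.nb + 1) r.lo && (match getV m K with
        | none => chk lib i dm p (joinNew v m dm r.sd K) .cfg &&
            chk lib i dm l K (.fills v (cands K r K))
        | some _ => false))
  | .nil, _, .degs _ [] => true
  | .nil, _, .fills _ [] => true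
  | .cons w p l, K, .degs v ds => chk lib i dm p (setDeg v w K) .cfg &&
      chk lib i dm l K (.degs v (remv w ds))
  | .cons w p l, K, .fills v ws => chk lib i dm p (joinC v w K) .cfg &&
      chk lib i dm l K (.fills v (remv w ws))
  | _, _, _ => false

/-! ### Closed configurations -/

/-- sum of g over the list, none if one term is none -/
def sumO (g : ℕ → Option ℕ) : List ℕ → Option ℕ
  | [] => some 0
  | y :: l => match g y with
    | none => none
    | some a => match sumO g l with
      | none => none
      | some b => some (a + b)

/-- number of perfect matchings of a closed configuration, with check of the number of steps and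
of the number of edges removed -/
def pmc (s0 e0 : ℕ) : ℕ → Cfg → ℕ → ℕ → Option ℕ
  | _, [], s, e => bif Nat.beq s s0 && Nat.beq e e0 then some 1 else none
  | 0, _ :: _, _, _ => none
  | n + 1, r :: K, s, e => bif full r then
      sumO (fun y => match getV y (r :: K) with
        | none => none
        | some q => bif full q then
            pmc s0 e0 n (del2 r y (r :: K)) (s + 1) (e + (r.hi + q.hi - 1)) else none) r.nb
      else none

def closedOK (s e : ℕ) (K : Cfg) : Bool :=
  match K with
  | [] => false
  | _ => match pmc s e s K 0 0 with
    | none => false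
    | some n => Nat.ble (n ^ 21 * 9 ^ (3 * s)) (108 ^ e * 2 ^ (3 * s))

def entOK (lib : List Ent) (i : ℕ) (e : Ent) : Bool :=
  wfC e.K e.K && (match e.pf with
  | .cert c => (match ev c e.K .cfg with
      | none => false
      | some b => Nat.ble b DD)
  | .split p => chk lib i e.dm p e.K .cfg
  | .closed s n => closedOK s n e.K)

/-- check of the entries of l, the first of which has number i -/
def checkL (lib : List Ent) : ℕ → List Ent → Bool
  | _, [] => true
  | i, e :: l => entOK lib i e && checkL lib (i + 1) l

end Pool.Agent.Helper76.PC
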