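import Pool.Agent.Helper76.PC.Stmts

/-! MP_c33217_co: numerical constants. -/

namespace Pool.Agent.Helper76.PC

open Real

theorem num6_pow (k : ℕ) : (UU k) ^ 21 * 108 ^ k = (9 / 2) ^ 3 * 108 := by
  have hlog1 : Real.exp (Real.log 108) = 108 := Real.exp_log (by norm_num)
  have hlog2 : Real.exp (Real.log (9 / 2)) = 9 / 2 := Real.exp_log (by norm_num)
  have e1 : (UU k) ^ 21 = Real.exp (3 * Real.log (9 / 2) - ((k : ℝ) - 1) * Real.log 108) := by
    unfold UU AA cc
    rw [← Real.exp_nat_mul]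
    congr 1
    push_cast
    ring
  have e2 : (108 : ℝ) ^ k = Real.exp ((k : ℝ) * Real.log 108) := by
    rw [Real.exp_nat_mul, hlog1]
  have e3 : ((9 / 2 : ℝ)) ^ 3 = Real.exp (3 * Real.log (9 / 2)) := by
    have := Real.exp_nat_mul (Real.log (9 / 2)) 3
    rw [hlog2] at this
    rw [← this]
    norm_num
  rw [e1, e2, e3, ← Real.exp_add]
  nth_rewrite 3 [← hlog1]
  rw [← Real.exp_add]
  congr 1
  ring

theorem num6_root (x : ℝ) (a : ℕ) (hx : 0 ≤ x) (h : x ^ 21 ≤ (a : ℝ) ^ 21) : x ≤ a :=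
  (pow_le_pow_iff_left₀ hx (Nat.cast_nonneg a) (by norm_num)).1 h

theorem num6_tab : ∀ k < 21, 729 * 108 * DD ^ 21 ≤ 8 * (Uc k) ^ 21 * 108 ^ k := by
  decide +kernel

theorem num6_small (k : ℕ) (hk : k < 21) : UU k * DD ≤ Uc k := by
  have hU : 0 < UU k := Real.exp_pos _
  apply num6_root
  · positivity
  · have h1 := num6_pow k
    have h2 : (729 * 108 * (DD : ℝ) ^ 21) ≤ 8 * (Uc k : ℝ) ^ 21 * 108 ^ k := by
      exact_mod_cast num6_tab k hk
    have h3 : (0 : ℝ) < 108 ^ k := by positivity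
    have h4 : (UU k * DD) ^ 21 * 108 ^ k ≤ (Uc k : ℝ) ^ 21 * 108 ^ k := by
      calc (UU k * DD) ^ 21 * 108 ^ k = ((UU k) ^ 21 * 108 ^ k) * (DD : ℝ) ^ 21 := by ring
        _ = (9 / 2) ^ 3 * 108 * (DD : ℝ) ^ 21 := by rw [h1]
        _ ≤ (Uc k : ℝ) ^ 21 * 108 ^ k := by linarith
    exact le_of_mul_le_mul_right h4 h3

theorem num6_cc : 0 ≤ cc := by
  unfold cc
  have := Real.log_nonneg (show (1 : ℝ) ≤ 108 by norm_num)
  positivity

theorem num6_anti (k : ℕ) (hk : 20 ≤ k) : UU k ≤ UU 20 := by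
  unfold UU
  apply Real.exp_le_exp.2
  have h1 : ((20 : ℕ) : ℝ) ≤ (k : ℝ) := by exact_mod_cast hk
  have h2 := mul_le_mul_of_nonneg_left h1 num6_cc
  linarith

theorem num6_Uc (k : ℕ) (hk : 21 ≤ k) : Uc k = Uc 20 := by
  obtain ⟨m, rfl⟩ := Nat.exists_eq_add_of_le hk
  rw [Nat.add_comm]
  rfl

theorem st_NUM : ST_NUM := by
  refine ⟨?_, ?_, ?_⟩
  · intro k
    by_cases hk : k < 21
    · exact num6_small k hk
    · have hk' : 21 ≤ k := by omega
      rw [num6_Uc k hk']
      have h1 := num6_small 20 (by norm_num)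
      have h2 := num6_anti k (by omega)
      have h3 : (0 : ℝ) ≤ (DD : ℝ) := Nat.cast_nonneg _
      exact le_trans (mul_le_mul_of_nonneg_right h2 h3) h1
  · have hx : 0 < Real.exp (- cc) := Real.exp_pos _
    apply num6_root
    · positivity
    · have e1 : (Real.exp (- cc)) ^ 21 * 108 = 1 := by
        have hlog1 : Real.exp (Real.log 108) = 108 := Real.exp_log (by norm_num)
        rw [← Real.exp_nat_mul]
        nth_rewrite 1 [← hlog1]
        rw [← Real.exp_add, ← Real.exp_zero]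
        congr 1
        unfold cc
        push_cast
        ring
      have h2 : ((DD : ℝ) ^ 21) ≤ (Ec : ℝ) ^ 21 * 108 := by
        have : DD ^ 21 ≤ Ec ^ 21 * 108 := by decide +kernel
        exact_mod_cast this
      have h4 : (Real.exp (- cc) * DD) ^ 21 * 108 ≤ (Ec : ℝ) ^ 21 * 108 := by
        calc (Real.exp (- cc) * DD) ^ 21 * 108
            = ((Real.exp (- cc)) ^ 21 * 108) * (DD : ℝ) ^ 21 := by ring
          _ = (DD : ℝ) ^ 21 := by rw [e1, one_mul]
          _ ≤ (Ec : ℝ) ^ 21 * 108 := h2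
      exact le_of_mul_le_mul_right h4 (by norm_num)
  · have hx : 0 < Real.exp (- AA - 2 * cc) := Real.exp_pos _
    apply num6_root
    · positivity
    · have e0 : Real.exp (- AA - 2 * cc) = UU 3 := by
        unfold UU
        congr 1
        push_cast
        ring
      have h1 := num6_pow 3
      rw [← e0] at h1
      have h2 : ((DD : ℝ) ^ 21) ≤ (Kap : ℝ) ^ 21 * 128 := by
        have : DD ^ 21 ≤ Kap ^ 21 * 128 := by decide +kernel
        exact_mod_cast this
      have h5 : (Real.exp (- AA - 2 * cc)) ^ 21 * 128 = 1 := by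
        have : (Real.exp (- AA - 2 * cc)) ^ 21 * 108 ^ 3 = 729 / 8 * 108 := by
          rw [h1]; norm_num
        linarith
      have h4 : (Real.exp (- AA - 2 * cc) * DD) ^ 21 * 128 ≤ (Kap : ℝ) ^ 21 * 128 := by
        calc (Real.exp (- AA - 2 * cc) * DD) ^ 21 * 128
            = ((Real.exp (- AA - 2 * cc)) ^ 21 * 128) * (DD : ℝ) ^ 21 := by ring
          _ = (DD : ℝ) ^ 21 := by rw [h5, one_mul]
          _ ≤ (Kap : ℝ) ^ 21 * 128 := h2
      exact le_of_mul_le_mul_right h4 (by norm_num)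

end Pool.Agent.Helper76.PC
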