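import Pool.Agent.Helper76.PC.Stmts

/-! MP_c33217_co: weight of the contraction. -/

namespace Pool.Agent.Helper76.PC

open Finset

theorem wc6_inter (G : Gr) (v a b : ℕ) (hN : G.N v = {a, b}) (hab : a ≠ b) :
    G.N a ∩ G.N b = {v} := by
  have hva : v ∈ G.N a := G.symm v a (by rw [hN]; simp)
  have hvb : v ∈ G.N b := G.symm v b (by rw [hN]; simp)
  ext x
  simp only [Finset.mem_inter, Finset.mem_singleton]
  constructor
  · rintro ⟨h1, h2⟩
    exact G.c4 a b hab x v h1 h2 hva hvb
  · rintro rfl
    exact ⟨hva, hvb⟩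

theorem wc6_carda (G H : Gr) (v a b : ℕ) (hN : G.N v = {a, b}) (hab : a ≠ b)
    (hH : ∀ x, H.N x = contrN G v a b x) :
    (H.N a).card + 2 = (G.N a).card + (G.N b).card := by
  have hva : v ∈ G.N a := G.symm v a (by rw [hN]; simp)
  have hav : a ≠ v := by
    rintro rfl
    exact G.bip a a hva rfl
  have h1 : H.N a = (G.N a ∪ G.N b).erase v := by
    rw [hH]
    unfold contrN
    rw [if_neg (by simp [hav, hab]), if_pos rfl]
  have h2 : ((G.N a ∪ G.N b).erase v).card + 1 = (G.N a ∪ G.N b).card :=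
    Finset.card_erase_add_one (Finset.mem_union_left _ hva)
  have h3 := Finset.card_union_add_card_inter (G.N a) (G.N b)
  rw [wc6_inter G v a b hN hab, Finset.card_singleton] at h3
  rw [h1]
  omega

theorem wc6_cardx (G H : Gr) (v a b x : ℕ) (hN : G.N v = {a, b}) (hab : a ≠ b)
    (hH : ∀ x, H.N x = contrN G v a b x) (hxv : x ≠ v) (hxa : x ≠ a) (hxb : x ≠ b) :
    (H.N x).card = (G.N x).card := by
  have hva : v ∈ G.N a := G.symm v a (by rw [hN]; simp)
  have hvb : v ∈ G.N b := G.symm v b (by rw [hN]; simp)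
  rw [hH]
  unfold contrN
  rw [if_neg (by simp [hxv, hxb]), if_neg hxa]
  by_cases hb : b ∈ G.N x
  · rw [if_pos hb]
    have ha : a ∉ (G.N x).erase b := by
      intro h
      have h1 := (Finset.mem_erase.1 h).2
      have h2 := G.c4 a b hab x v (G.symm _ _ h1) (G.symm _ _ hb) hva hvb
      exact hxv h2
    rw [Finset.card_insert_of_notMem ha]
    exact Finset.card_erase_add_one hb
  · rw [if_neg hb]

theorem wc6_core (G H : Gr) (v a b : ℕ) (hN : G.N v = {a, b}) (hab : a ≠ b)
    (hH : IsContr G H v a b) :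
    H.V.card + 2 = G.V.card ∧ degSum H + 4 = degSum G := by
  obtain ⟨hV, hNb⟩ := hH
  have hav' : a ∈ G.N v := by rw [hN]; simp
  have hbv' : b ∈ G.N v := by rw [hN]; simp
  have hva : v ∈ G.N a := G.symm v a hav'
  have hvb : v ∈ G.N b := G.symm v b hbv'
  have hv : v ∈ G.V := G.mem v a hav'
  have ha : a ∈ G.V := G.mem a v hva
  have hb : b ∈ G.V := G.mem b v hvb
  have hav : a ≠ v := by
    rintro rfl
    exact G.bip a a hva rfl
  have hbv : b ≠ v := by
    rintro rfl
    exact G.bip b b hvb rfl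
  have hb1 : b ∈ G.V.erase v := Finset.mem_erase.2 ⟨hbv, hb⟩
  have ha1 : a ∈ (G.V.erase v).erase b :=
    Finset.mem_erase.2 ⟨hab, Finset.mem_erase.2 ⟨hav, ha⟩⟩
  constructor
  · rw [hV]
    have h1 := Finset.card_erase_add_one hv
    have h2 := Finset.card_erase_add_one hb1
    omega
  · unfold degSum
    rw [hV]
    have e1 := Finset.add_sum_erase G.V (fun x => (G.N x).card) hv
    have e2 := Finset.add_sum_erase (G.V.erase v) (fun x => (G.N x).card) hb1
    have e3 := Finset.add_sum_erase ((G.V.erase v).erase b) (fun x => (G.N x).card) ha1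
    have e4 := Finset.add_sum_erase ((G.V.erase v).erase b) (fun x => (H.N x).card) ha1
    have e5 : ∑ x ∈ ((G.V.erase v).erase b).erase a, (H.N x).card =
        ∑ x ∈ ((G.V.erase v).erase b).erase a, (G.N x).card := by
      apply Finset.sum_congr rfl
      intro x hx
      simp only [Finset.mem_erase] at hx
      exact wc6_cardx G H v a b x hN hab hNb hx.2.2.1 hx.1 hx.2.1
    have e6 := wc6_carda G H v a b hN hab hNb
    have e7 : (G.N v).card = 2 := by
      rw [hN]
      exact Finset.card_pair hab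
    rw [← e1, ← e2, ← e3, ← e4, e5, e7]
    omega

theorem st_WC : ST_WC := by
  intro G H v a b hN hab _ hH
  obtain ⟨h1, h2⟩ := wc6_core G H v a b hN hab hH
  constructor
  · unfold W
    rw [← Real.exp_add]
    have h3 : (G.V.card : ℝ) = H.V.card + 2 := by exact_mod_cast h1.symm
    have h4 : (degSum G : ℝ) = degSum H + 4 := by exact_mod_cast h2.symm
    rw [h3, h4]
    congr 1
    ring
  · unfold size
    omega

end Pool.Agent.Helper76.PC
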