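import Pool.Agent.Helper76.PC.Main
import Pool.Agent.Helper76.PC.CheckAll
import Pool.Agent.Helper76.PC.NUM
import Pool.Agent.Helper76.PC.WC
import Pool.Agent.Helper78.PC.CP
import Pool.Agent.Helper91.PC.EDEL
import Pool.Agent.Helper17.PCE.EMB
import Pool.Agent.Helper30.PC.ECON
import Pool.Agent.Helper53.PC.NHEX
import Pool.Agent.Helper44.PC.CHK
import Pool.Agent.Helper63.PC.FILL
import Pool.Agent.Helper96.PC.CLO
import Pool.Agent.Helper89.PC.DE
import Pool.Agent.Helper26.PC.EXP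
import Pool.Agent.Helper58.PC.NADJ
import Pool.Agent.Helper38.PC.MAX
import Pool.Agent.Helper17.PCE.EMP
import Pool.Agent.Helper74.PC.ALL
import Pool.Agent.Helper35.PC.FULL
import Pool.Agent.Helper71.PC.EDE2
import Pool.Agent.Helper24.PC.MAT
import Pool.Agent.Helper85.PC.WE
import Pool.Agent.Helper7.PC.CEX
import Pool.Agent.Helper77.PCC.ONE
import Pool.Agent.Helper83.PC.DEG
import Pool.Agent.Helper74.PC.WD
import Pool.Agent.Helper41.PC.LST
import Pool.Agent.Helper41.PC.EDELE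
import Pool.Agent.Helper57.PC.EV

/-! MP_c33217_co: final assembly. -/

namespace Pool.Agent.Helper76.PC

open Finset

theorem final_all : ST_ALL :=
  st_ALL (st_EV st_LST (st_FULL st_LST) (st_EDEL st_LST (st_FULL st_LST))
    (st_EDE2 st_LST (st_EDEL st_LST (st_FULL st_LST)))
    (st_EDELE st_LST) (st_ECON st_LST (st_FULL st_LST))
    (st_NHEX st_LST (st_FULL st_LST) (st_NADJ st_LST (st_FULL st_LST)))
    st_CEX st_EXP (st_DE st_EXP) (st_CP st_EXP) st_WD st_WE st_WC st_NUM)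
    (st_CHK st_LST (Pool.Agent.Helper17.PC.st_EMB st_LST)
      (st_FILL st_LST (st_FULL st_LST) (st_NADJ st_LST (st_FULL st_LST))) (st_DEG st_LST))
    (st_CLO st_LST (st_FULL st_LST)
      (st_EDE2 st_LST (st_EDEL st_LST (st_FULL st_LST))) st_EXP st_WD)

theorem final_main : ST_MAIN :=
  main_of Pool.Agent.Helper17.PC.st_EMP (st_MAX st_EXP (st_DE st_EXP) st_WE st_NUM)
    (fun i e h => (final_all dat1 check_all i e h).2)

theorem final_mat (n : ℕ) (A : Matrix (Fin n) (Fin n) ℕ)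
    (h01 : ∀ i j, A i j = 0 ∨ A i j = 1)
    (hC4 : ∀ i i' j j', i ≠ i' → j ≠ j' → A i j = 1 → A i j' = 1 → A i' j = 1 →
      A i' j' = 1 → False) :
    (A.permanent : ℝ) ≤
      (2 : ℝ) ^ ((n : ℝ) - (univ.filter (fun p : Fin n × Fin n => A p.1 p.2 = 1)).card / 3) *
      (24 : ℝ) ^ ((((univ.filter (fun p : Fin n × Fin n => A p.1 p.2 = 1)).card : ℝ)
        - 2 * n) / 7) :=
  main_mat final_main st_MAT n A h01 hC4

end Pool.Agent.Helper76.PC
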