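import Pool.Agent.Helper97.PC.Defs

namespace Helper76.PC

open Helper97.PC

theorem iter : ST_ITER := by
  intro m C h0 h1 h
  set K : ℝ := 2 * |C| with hK
  have hK0 : 0 ≤ K := by positivity
  have h2 : ∀ R, 0 < R → m (2 * R) ≤ K / R * Real.sqrt (m R) := by
    intro R hR
    have hs : m R ≤ Real.sqrt (m R) := by
      have := Real.sqrt_le_one.mpr (h1 R)
      have h3 : Real.sqrt (m R) * Real.sqrt (m R) = m R := Real.mul_self_sqrt (h0 R)
      nlinarith [Real.sqrt_nonneg (m R)]
    calc m (2 * R) ≤ C / R * (m R + Real.sqrt (m R)) := h R hR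
      _ ≤ |C| / R * (m R + Real.sqrt (m R)) := by
          apply mul_le_mul_of_nonneg_right _ (add_nonneg (h0 R) (Real.sqrt_nonneg _))
          exact div_le_div_of_nonneg_right (le_abs_self C) hR.le
      _ ≤ |C| / R * (Real.sqrt (m R) + Real.sqrt (m R)) := by
          apply mul_le_mul_of_nonneg_left _ (by positivity)
          linarith
      _ = K / R * Real.sqrt (m R) := by rw [hK]; ring
  set C' : ℝ := max 4 (16 * K ^ 2) with hC'
  have hC4 : 4 ≤ C' := le_max_left _ _
  have hCK : 16 * K ^ 2 ≤ C' := le_max_right _ _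
  have hC0 : 0 ≤ C' := by linarith
  have key : ∀ n : ℕ, ∀ R, 0 < R → R ≤ 2 ^ (n + 1) → R ^ 2 * m R ≤ C' := by
    intro n
    induction n with
    | zero =>
      intro R hR hR2
      have hR2' : R ≤ 2 := by simpa using hR2
      have : R ^ 2 * m R ≤ R ^ 2 * 1 := mul_le_mul_of_nonneg_left (h1 R) (by positivity)
      nlinarith
    | succ n ih =>
      intro R hR hR2
      have hR' : 0 < R / 2 := by positivity
      have hRn : R / 2 ≤ 2 ^ (n + 1) := by
        rw [div_le_iff₀ (by norm_num)]
        calc R ≤ 2 ^ (n + 1 + 1) := hR2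
          _ = 2 ^ (n + 1) * 2 := by ring
      have h3 := ih (R / 2) hR' hRn
      have h4 := h2 (R / 2) hR'
      rw [show 2 * (R / 2) = R by ring] at h4
      set s := Real.sqrt (m (R / 2)) with hs
      have hs0 : 0 ≤ s := Real.sqrt_nonneg _
      have hss : s ^ 2 = m (R / 2) := Real.sq_sqrt (h0 _)
      have h5 : R ^ 2 * m R ≤ 4 * K * (R / 2 * s) := by
        calc R ^ 2 * m R ≤ R ^ 2 * (K / (R / 2) * s) := mul_le_mul_of_nonneg_left h4 (by positivity)
          _ = 4 * K * (R / 2 * s) := by field_simp; ring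
      have h6 : (R / 2 * s) ^ 2 ≤ C' := by
        rw [mul_pow, hss]; exact h3
      have h7 : R / 2 * s ≤ Real.sqrt C' := Real.le_sqrt_of_sq_le h6
      have h8 : 4 * K ≤ Real.sqrt C' := by
        apply Real.le_sqrt_of_sq_le
        nlinarith
      calc R ^ 2 * m R ≤ 4 * K * (R / 2 * s) := h5
        _ ≤ Real.sqrt C' * Real.sqrt C' :=
            mul_le_mul h8 h7 (by positivity) (Real.sqrt_nonneg _)
        _ = C' := Real.mul_self_sqrt hC0
  refine ⟨C', fun R hR => ?_⟩
  rw [le_div_iff₀ (by positivity), mul_comm]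
  obtain ⟨n, hn⟩ := pow_unbounded_of_one_lt R (one_lt_two)
  refine key n R hR (hn.le.trans ?_)
  exact pow_le_pow_right₀ (by norm_num) (Nat.le_succ n)

end Helper76.PC
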