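import Pool.Agent.Helper76.PC.Stmts
import Pool.Agent.Helper76.PC.Data

/-!
MP_c33217_co: assembly.
-/

namespace Pool.Agent.Helper76.PC

open Finset

theorem main_one (G : Gr) (x lo hi : ℕ) (hx : x ∈ G.V) (h1 : lo ≤ (G.N x).card)
    (h2 : (G.N x).card ≤ hi) : Emb G (fun _ => x) (xor (side x) true) [⟨0, true, lo, hi, []⟩] := by
  constructor
  · intro r hr; exact hx
  · intro r hr
    simp only [List.mem_singleton] at hr
    subst hr
    simp
  · intro r hr
    simp only [List.mem_singleton] at hr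
    subst hr
    exact h1
  · intro r hr
    simp only [List.mem_singleton] at hr
    subst hr
    exact h2
  · intro r hr
    simp only [List.mem_singleton] at hr
    subst hr
    simp
  · intro r hr y hy
    simp only [List.mem_singleton] at hr
    subst hr
    simp at hy
  · intro r hr y hy
    simp only [List.mem_singleton] at hr
    subst hr
    simp at hy
  · intro r hr q hq _
    simp only [List.mem_singleton] at hr hq
    subst hr; subst hq; rfl

theorem main_of (hemp : ST_EMP) (hmax : ST_MAX)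
    (href : ∀ i e, getE i dat1 = some e → Ref e.dm e.K) : ST_MAIN := by
  intro G
  induction hs : size G using Nat.strong_induction_on generalizing G with
  | _ n ih =>
    have hB : Below G := fun H hH => ih (size H) (hs ▸ hH) H rfl
    by_contra hG
    have h5 : ∀ x ∈ G.V, (G.N x).card ≤ 5 := by
      intro x hx
      by_contra h
      exact hG (hmax G hB x hx (by omega))
    have step : ∀ dm lo hi i pf, getE i dat1 = some ⟨dm, [⟨0, true, lo, hi, []⟩], pf⟩ →
        (∀ x ∈ G.V, dm ≤ (G.N x).card) → ∀ x ∈ G.V, lo ≤ (G.N x).card →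
        (G.N x).card ≤ hi → False := by
      intro dm lo hi i pf hi' hdm x hx hlo hhi
      have hR := href i _ hi'
      exact hG (hR G _ _ (main_one G x lo hi hx hlo hhi) hB (fun z hz => ⟨hdm z hz, h5 z hz⟩))
    have d0 : ∀ x ∈ G.V, 0 ≤ (G.N x).card := fun x _ => Nat.zero_le _
    have d1 : ∀ x ∈ G.V, 1 ≤ (G.N x).card := by
      intro x hx
      by_contra h
      exact step 0 0 0 0 _ rfl d0 x hx (by omega) (by omega)
    have d2 : ∀ x ∈ G.V, 2 ≤ (G.N x).card := by
      intro x hx
      by_contra h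
      have := d1 x hx
      exact step 1 1 1 2 _ rfl d1 x hx (by omega) (by omega)
    have d3 : ∀ x ∈ G.V, 3 ≤ (G.N x).card := by
      intro x hx
      by_contra h
      have := d2 x hx
      exact step 2 2 2 51 _ rfl d2 x hx (by omega) (by omega)
    have d4 : ∀ x ∈ G.V, 4 ≤ (G.N x).card := by
      intro x hx
      by_contra h
      have := d3 x hx
      exact step 3 3 3 311 _ rfl d3 x hx (by omega) (by omega)
    have d5 : ∀ x ∈ G.V, False := by
      intro x hx
      exact step 4 4 5 321 _ rfl d4 x hx (d4 x hx) (h5 x hx)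
    have hV : G.V = ∅ := Finset.eq_empty_of_forall_notMem (fun x hx => d5 x hx)
    apply hG
    unfold Good W degSum
    rw [hemp G hV, hV]
    simp

/-- weight in closed form -/
theorem main_w (n e : ℕ) : Real.exp (AA * n + cc * e) =
    (2 : ℝ) ^ ((n : ℝ) - e / 3) * (24 : ℝ) ^ (((e : ℝ) - 2 * n) / 7) := by
  have h24 : Real.log 24 = 3 * Real.log 2 + Real.log 3 := by
    have : (24 : ℝ) = 2 ^ 3 * 3 := by norm_num
    rw [this, Real.log_mul (by norm_num) (by norm_num), Real.log_pow]
    norm_num
  have h108 : Real.log 108 = 2 * Real.log 2 + 3 * Real.log 3 := by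
    have : (108 : ℝ) = 2 ^ 2 * 3 ^ 3 := by norm_num
    rw [this, Real.log_mul (by norm_num) (by norm_num), Real.log_pow, Real.log_pow]
    norm_num
  have h92 : Real.log (9 / 2) = 2 * Real.log 3 - Real.log 2 := by
    have : (9 / 2 : ℝ) = 3 ^ 2 / 2 := by norm_num
    rw [this, Real.log_div (by norm_num) (by norm_num), Real.log_pow]
    norm_num
  rw [Real.rpow_def_of_pos (by norm_num), Real.rpow_def_of_pos (by norm_num), ← Real.exp_add]
  congr 1
  unfold AA cc
  rw [h24, h108, h92]
  ring

theorem main_mat (hmain : ST_MAIN) (hmat : ST_MAT) (n : ℕ) (A : Matrix (Fin n) (Fin n) ℕ)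
    (h01 : ∀ i j, A i j = 0 ∨ A i j = 1)
    (hC4 : ∀ i i' j j', i ≠ i' → j ≠ j' → A i j = 1 → A i j' = 1 → A i' j = 1 →
      A i' j' = 1 → False) :
    (A.permanent : ℝ) ≤
      (2 : ℝ) ^ ((n : ℝ) - (univ.filter (fun p : Fin n × Fin n => A p.1 p.2 = 1)).card / 3) *
      (24 : ℝ) ^ ((((univ.filter (fun p : Fin n × Fin n => A p.1 p.2 = 1)).card : ℝ)
        - 2 * n) / 7) := by
  obtain ⟨G, h1, h2, h3⟩ := hmat n A h01 hC4
  have h := hmain G
  unfold Good W at h
  rw [h1, h2, h3] at h
  rw [← main_w]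
  refine le_trans h (le_of_eq ?_)
  congr 1
  push_cast
  ring

theorem main_le (n e : ℕ) (h : e ≤ 3 * n) :
    (2 : ℝ) ^ ((n : ℝ) - e / 3) * (24 : ℝ) ^ (((e : ℝ) - 2 * n) / 7) ≤
      (24 : ℝ) ^ ((n : ℝ) / 7) := by
  rw [← main_w]
  have h24 : Real.log 24 = 3 * Real.log 2 + Real.log 3 := by
    have : (24 : ℝ) = 2 ^ 3 * 3 := by norm_num
    rw [this, Real.log_mul (by norm_num) (by norm_num), Real.log_pow]
    norm_num
  have h108 : Real.log 108 = 2 * Real.log 2 + 3 * Real.log 3 := by
    have : (108 : ℝ) = 2 ^ 2 * 3 ^ 3 := by norm_num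
    rw [this, Real.log_mul (by norm_num) (by norm_num), Real.log_pow, Real.log_pow]
    norm_num
  have h92 : Real.log (9 / 2) = 2 * Real.log 3 - Real.log 2 := by
    have : (9 / 2 : ℝ) = 3 ^ 2 / 2 := by norm_num
    rw [this, Real.log_div (by norm_num) (by norm_num), Real.log_pow]
    norm_num
  rw [Real.rpow_def_of_pos (by norm_num)]
  apply Real.exp_le_exp.2
  have hcc : 0 ≤ cc := by
    unfold cc
    have := Real.log_nonneg (show (1 : ℝ) ≤ 108 by norm_num)
    positivity
  have he : (e : ℝ) ≤ 3 * n := by exact_mod_cast h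
  have : AA * n + cc * e ≤ AA * n + cc * (3 * n) := by
    have := mul_le_mul_of_nonneg_left he hcc
    linarith
  refine le_trans this (le_of_eq ?_)
  unfold AA cc
  rw [h24, h108, h92]
  ring

end Pool.Agent.Helper76.PC
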